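import Pool.Agent.Xbh.HRank

set_option autoImplicit false

/-!
# Bull-free graphs have rank at most two
-/

namespace Pool.Agent.Xbh

variable {V : Type}

-- BEGIN bcp
/-- Hint: a bull `a b c d e` of the complement is the bull `b d a c e` of `G` (the path `b d a c`, and `e` adjacent to
`d`, `a` only). Nonadjacent vertices of the complement of these five are different: e.g. `a ≠ c` because `c` and not `a` is
adjacent to `d`. -/
theorem bcp (G : SimpleGraph V) (h : BullFree G) : BullFree Gᶜ := by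
  rintro ⟨a, b, c, d, e, ab, bc, cd, be, ce, ac, ad, ae, bd, de⟩
  have key : ∀ u v : V, ¬ Gᶜ.Adj u v → u ≠ v → G.Adj u v := fun u v h1 h2 => by
    by_contra h3
    exact h1 ((SimpleGraph.compl_adj G u v).2 ⟨h2, h3⟩)
  have non : ∀ u v : V, Gᶜ.Adj u v → ¬ G.Adj u v := fun u v h1 =>
    ((SimpleGraph.compl_adj G u v).1 h1).2
  refine h ⟨b, d, a, c, e, key _ _ bd ?_, (key _ _ ad ?_).symm, key _ _ ac ?_, key _ _ de ?_,
    key _ _ ae ?_, non _ _ ab.symm, non _ _ bc, non _ _ be, non _ _ cd.symm, non _ _ ce⟩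
  · rintro rfl
    exact ad ab
  · rintro rfl
    exact ac cd.symm
  · rintro rfl
    exact ad cd
  · rintro rfl
    exact bd be
  · rintro rfl
    exact ac ce.symm
-- END bcp

-- BEGIN p5x
/-- `p₀ p₁ p₂ p₃ p₄` an induced path, `c` adjacent to all of it, `x` not adjacent to `c` and `p₂` but to `p₁`. Hint: if
`x` is not adjacent to `p₄`: bull `x p₁ c p₄ p₂` (in the order `a b c d e` of the definition). So it is. If `x` is not
adjacent to `p₀`: bull `x p₄ c p₀ p₃` (when `x` is not adjacent to `p₃`) or `x p₃ c p₀ p₂` (when it is). So it is adjacent to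
`p₀`: bull `p₂ p₁ x p₄ p₀`. -/
theorem p5x (G : SimpleGraph V) (h : BullFree G) (p₀ p₁ p₂ p₃ p₄ c x : V)
    (h01 : G.Adj p₀ p₁) (h12 : G.Adj p₁ p₂) (h23 : G.Adj p₂ p₃) (h34 : G.Adj p₃ p₄)
    (n02 : ¬ G.Adj p₀ p₂) (n03 : ¬ G.Adj p₀ p₃) (n04 : ¬ G.Adj p₀ p₄) (n13 : ¬ G.Adj p₁ p₃)
    (n14 : ¬ G.Adj p₁ p₄) (n24 : ¬ G.Adj p₂ p₄) (c0 : G.Adj c p₀) (c1 : G.Adj c p₁)
    (c2 : G.Adj c p₂) (c3 : G.Adj c p₃) (c4 : G.Adj c p₄) (xc : ¬ G.Adj x c)
    (x1 : G.Adj x p₁) (x2 : ¬ G.Adj x p₂) : False := by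
  by_cases x4 : G.Adj x p₄
  · by_cases x0 : G.Adj x p₀
    · exact h ⟨p₂, p₁, x, p₄, p₀, h12.symm, x1.symm, x4, h01.symm, x0, fun hh => x2 hh.symm, n24,
        fun hh => n02 hh.symm, n14, fun hh => n04 hh.symm⟩
    · by_cases x3 : G.Adj x p₃
      · exact h ⟨x, p₃, c, p₀, p₂, x3, c3.symm, c0, h23.symm, c2, xc, x0, x2,
          fun hh => n03 hh.symm, n02⟩
      · exact h ⟨x, p₄, c, p₀, p₃, x4, c4.symm, c0, h34.symm, c3, xc, x0, x3,
          fun hh => n04 hh.symm, n03⟩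
  · exact h ⟨x, p₁, c, p₄, p₂, x1, c1.symm, c4, h12, c2, xc, x4, x2, n14, fun hh => n24 hh.symm⟩
-- END p5x

/-- A long hole, written as a periodic sequence. -/
structure Hol (G : SimpleGraph V) (q : ℕ → V) : Prop where
  adj : ∀ j, G.Adj (q j) (q (j + 1))
  non : ∀ j d, 2 ≤ d → d ≤ 4 → ¬ G.Adj (q j) (q (j + d))
  per : ∃ m, 0 < m ∧ ∀ j, q (j + m) = q j

-- BEGIN cyq
private theorem cyq_sub {m : ℕ} (hm : 6 ≤ m) (j d : ℕ) (hd : d ≤ 4) (hd1 : 1 ≤ d)
    (h0 : j % m < m) (h1 : (j + d) % m < m) :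
    ((⟨(j + d) % m, h1⟩ : Fin m) - ⟨j % m, h0⟩).val = d ∧
      ((⟨j % m, h0⟩ : Fin m) - ⟨(j + d) % m, h1⟩).val = m - d := by
  have e0 : (j + d) % m = (j % m + d) % m := by rw [Nat.mod_add_mod]
  have hcase : ((j + d) % m = j % m + d) ∨
      ((j + d) % m + m = j % m + d) := by
    by_cases h : j % m + d < m
    · left
      rw [e0, Nat.mod_eq_of_lt h]
    · right
      have h2 : (j % m + d) % m = j % m + d - m := by
        rw [Nat.mod_eq_sub_mod (by omega), Nat.mod_eq_of_lt (by omega)]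
      omega
  generalize j % m = a at *
  generalize (j + d) % m = b at *
  rw [Fin.val_sub, Fin.val_sub]
  show (m - a + b) % m = d ∧ (m - b + a) % m = m - d
  rcases hcase with h | h
  · have e1 : m - a + b = d + m := by omega
    have e2 : m - b + a = m - d := by omega
    rw [e1, e2, Nat.add_mod_right, Nat.mod_eq_of_lt (by omega), Nat.mod_eq_of_lt (by omega)]
    exact ⟨rfl, rfl⟩
  · have e1 : m - a + b = d := by omega
    have e2 : m - b + a = m - d + m := by omega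
    rw [e1, e2, Nat.add_mod_right, Nat.mod_eq_of_lt (by omega), Nat.mod_eq_of_lt (by omega)]
    exact ⟨rfl, rfl⟩

/-- Hint: `q j = e ⟨j % m, _⟩`, `SimpleGraph.cycleGraph_adj`. -/
theorem cyq (G : SimpleGraph V) (m : ℕ) (hm : 6 ≤ m) (e : SimpleGraph.cycleGraph m ↪g G) :
    ∃ q : ℕ → V, Hol G q ∧ (∀ j, ∃ x, e x = q j) ∧ ∀ x, ∃ j, e x = q j := by
  have hp : ∀ j : ℕ, j % m < m := fun j => Nat.mod_lt _ (by omega)
  refine ⟨fun j => e ⟨j % m, hp j⟩, ⟨?_, ?_, ?_⟩, fun j => ⟨_, rfl⟩, fun x => ⟨x.val, ?_⟩⟩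
  · intro j
    obtain ⟨s1, s2⟩ := cyq_sub hm j 1 (by omega) le_rfl (hp j) (hp (j + 1))
    show G.Adj (e ⟨j % m, hp j⟩) (e ⟨(j + 1) % m, hp (j + 1)⟩)
    rw [e.map_adj_iff, SimpleGraph.cycleGraph_adj']
    exact Or.inr s1
  · intro j d hd2 hd4
    obtain ⟨s1, s2⟩ := cyq_sub hm j d hd4 (by omega) (hp j) (hp (j + d))
    show ¬ G.Adj (e ⟨j % m, hp j⟩) (e ⟨(j + d) % m, hp (j + d)⟩)
    rw [e.map_adj_iff, SimpleGraph.cycleGraph_adj', s1, s2]
    omega
  · refine ⟨m, by omega, fun j => ?_⟩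
    show e ⟨(j + m) % m, hp (j + m)⟩ = e ⟨j % m, hp j⟩
    congr 2
    exact Nat.add_mod_right j m
  · show e x = e ⟨x.val % m, hp x.val⟩
    congr 1
    exact Fin.ext (Nat.mod_eq_of_lt x.isLt).symm
-- END cyq

-- BEGIN swi
private theorem swi_per (q : ℕ → V) (m : ℕ) (hm : ∀ j, q (j + m) = q j) (j t : ℕ) :
    q (j + m * t) = q j := by
  induction t with
  | zero => simp
  | succ t ih =>
    rw [Nat.mul_succ, ← Nat.add_assoc, hm, ih]

/-- Hint: by periodicity a non-neighbour `q j` with `j > i + m`, a neighbour `q (i + m)`; take the first non-neighbour after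
`i + m`. -/
theorem swi (G : SimpleGraph V) (q : ℕ → V) (hq : Hol G q) (x : V) (i j : ℕ)
    (hi : G.Adj x (q i)) (hj : ¬ G.Adj x (q j)) :
    ∃ k, G.Adj x (q (k + 1)) ∧ ¬ G.Adj x (q (k + 2)) := by
  classical
  obtain ⟨m, hm0, hm⟩ := hq.per
  have hex : ∃ n, ¬ G.Adj x (q (i + m + n)) := by
    refine ⟨j + m * (i + m) - (i + m), ?_⟩
    have h1 : i + m ≤ j + m * (i + m) := by
      have : 1 * (i + m) ≤ m * (i + m) := Nat.mul_le_mul_right _ hm0
      omega
    have h2 : i + m + (j + m * (i + m) - (i + m)) = j + m * (i + m) := by omega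
    rw [h2, swi_per q m hm]
    exact hj
  have h3 := Nat.find_spec hex
  rcases hn : Nat.find hex with _ | n
  · rw [hn] at h3
    exfalso
    apply h3
    rw [Nat.add_zero, hm]
    exact hi
  · rw [hn] at h3
    have h4 : ¬ ¬ G.Adj x (q (i + m + n)) := Nat.find_min hex (by omega)
    refine ⟨i + m + n - 1, ?_, ?_⟩
    · have e : i + m + n - 1 + 1 = i + m + n := by omega
      rw [e]
      exact not_not.1 h4
    · have e : i + m + n - 1 + 2 = i + m + (n + 1) := by omega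
      rw [e]
      exact h3
-- END swi

/-- A vertex which is mixed on a hole is adjacent to every centre. -/
theorem cen (G : SimpleGraph V) (h : BullFree G) (q : ℕ → V) (hq : Hol G q) (c x : V)
    (hc : ∀ j, G.Adj c (q j)) (i j : ℕ) (hi : G.Adj x (q i)) (hj : ¬ G.Adj x (q j)) :
    G.Adj x c := by
  by_contra hxc
  obtain ⟨k, h1, h2⟩ := swi G q hq x i j hi hj
  exact p5x G h (q k) (q (k + 1)) (q (k + 2)) (q (k + 3)) (q (k + 4)) c x (hq.adj k)
    (hq.adj (k + 1)) (hq.adj (k + 2)) (hq.adj (k + 3)) (hq.non k 2 (by omega) (by omega))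
    (hq.non k 3 (by omega) (by omega)) (hq.non k 4 (by omega) (by omega))
    (hq.non (k + 1) 2 (by omega) (by omega)) (hq.non (k + 1) 3 (by omega) (by omega))
    (hq.non (k + 2) 2 (by omega) (by omega)) (hc _) (hc _) (hc _) (hc _) (hc _) hxc h1 h2

/-- The vertices of a hole on which `x` is mixed are connected in the complement. -/
theorem ant (G : SimpleGraph V) (q : ℕ → V) (hq : Hol G q) (x : V) (i j : ℕ)
    (hi : G.Adj x (q i)) (hj : ¬ G.Adj x (q j)) :
    ∃ a b, G.Adj x (q a) ∧ ¬ G.Adj x (q b) ∧ ¬ G.Adj (q a) (q b) := by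
  obtain ⟨k, h1, h2⟩ := swi G q hq x i j hi hj
  by_cases h4 : G.Adj x (q (k + 4))
  · exact ⟨k + 4, k + 2, h4, h2, fun h => hq.non (k + 2) 2 (by omega) (by omega) h.symm⟩
  · exact ⟨k + 1, k + 4, h1, h4, hq.non (k + 1) 3 (by omega) (by omega)⟩

/-- The centres in `S` of the hole `q`. -/
def Cs (G : SimpleGraph V) (S : Set V) (q : ℕ → V) : Set V := {z | z ∈ S ∧ ∀ j, G.Adj z (q j)}

/-- The layers: the vertices at distance at most `n` from the hole in `S` without the centres. -/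
def Lay (G : SimpleGraph V) (S : Set V) (q : ℕ → V) : ℕ → Set V
  | 0 => Set.range q
  | n + 1 => Lay G S q n ∪ {y | y ∈ S ∧ y ∉ Cs G S q ∧ ∃ x ∈ Lay G S q n, G.Adj x y}

-- BEGIN la0
/-- The layers are in `S` and contain no centre. Hint: `q j` is not a centre because it is not adjacent to itself
(irreflexive). -/
theorem la0 (G : SimpleGraph V) (S : Set V) (q : ℕ → V) (hS : ∀ j, q j ∈ S) (n : ℕ) :
    ∀ y ∈ Lay G S q n, y ∈ S ∧ y ∉ Cs G S q := by
  induction n with
  | zero =>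
    rintro y ⟨j, rfl⟩
    exact ⟨hS j, fun hc => G.irrefl (hc.2 j)⟩
  | succ n ih =>
    rintro y (hy | ⟨h1, h2, -⟩)
    · exact ih y hy
    · exact ⟨h1, h2⟩
-- END la0

-- BEGIN lay
private theorem lay_mono (G : SimpleGraph V) (S : Set V) (q : ℕ → V) {n m : ℕ} (h : n ≤ m) :
    Lay G S q n ⊆ Lay G S q m := by
  induction h with
  | refl => exact fun _ hy => hy
  | step _ ih => exact fun _ hy => Or.inl (ih hy)

private theorem lay_next (G : SimpleGraph V) (S : Set V) (q : ℕ → V) {n : ℕ} {x y : V}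
    (hx : x ∈ Lay G S q n) (hxy : G.Adj x y) (hy : y ∈ S) (hc : y ∉ Cs G S q) :
    y ∈ Lay G S q (n + 1) := Or.inr ⟨hy, hc, x, hx, hxy⟩

private theorem lay_mix (G : SimpleGraph V) (S : Set V) (q : ℕ → V) {y : V} (hy : y ∈ S)
    (hc : y ∉ Cs G S q) : ∃ j, ¬ G.Adj y (q j) := by
  by_contra h
  apply hc
  refine ⟨hy, fun j => ?_⟩
  by_contra hj
  exact h ⟨j, hj⟩

/-- All vertices of the layers are adjacent to all centres. Hint: strong induction on `n`. `n = 0`: definition. `n = 1`: `y`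
has a neighbour in the hole and is no centre, so it is mixed: `cen`. `n + 2`: if `y` is in layer `n + 1` induction; otherwise
`y ∈ S` is no centre, not adjacent to layer `n`, adjacent to some `x` of layer `n + 1`, which is not in layer `n` (else `y` would be in layer
`n + 1`), so `x` is adjacent to some `w` of layer `n`, and `y` is not adjacent to `w`; `x` and `w` are adjacent to `z` (induction). `y` is not adjacent to any
`q j` (layer `0` is in layer `n`). If `y` is not adjacent to `z`: case `n = 0`: `w = q i`, `x` is mixed on the hole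
(no centre by `la0`): `ant` gives `q a` adjacent to `x`, `q b` not adjacent to `x`, `q a`: bull `y x z (q b) (q a)`
(in the order `a b c d e` of the definition). Case `n > 0`: `x` is not adjacent to any `q j` (otherwise `x` would be in layer `1`, contained in layer `n`),
`w` is no centre, so it is not adjacent to some `q b`: bull `y x z (q b) w`. -/
theorem lay (G : SimpleGraph V) (h : BullFree G) (S : Set V) (q : ℕ → V) (hq : Hol G q)
    (hS : ∀ j, q j ∈ S) (n : ℕ) :
    ∀ y ∈ Lay G S q n, ∀ z ∈ Cs G S q, G.Adj z y := by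
  induction n using Nat.strong_induction_on with
  | _ n ih =>
  intro y hy z hz
  rcases n with _ | n
  · obtain ⟨j, rfl⟩ := hy
    exact hz.2 j
  rcases hy with hy | ⟨hyS, hyC, x, hx, hxy⟩
  · exact ih n (by omega) y hy z hz
  rcases n with _ | n
  · obtain ⟨i, rfl⟩ := hx
    obtain ⟨j, hj⟩ := lay_mix G S q hyS hyC
    exact (cen G h q hq z y hz.2 i j hxy.symm hj).symm
  by_cases hyn : y ∈ Lay G S q (n + 1)
  · exact ih (n + 1) (by omega) y hyn z hz
  have hxn : x ∉ Lay G S q n := fun h1 => hyn (lay_next G S q h1 hxy hyS hyC)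
  have hzx : G.Adj z x := ih (n + 1) (by omega) x hx z hz
  rcases hx with hx | ⟨hxS, hxC, w, hw, hwx⟩
  · exact absurd hx hxn
  have hwy : ¬ G.Adj w y := fun h1 => hyn (lay_next G S q hw h1 hyS hyC)
  have hzw : G.Adj z w := ih n (by omega) w hw z hz
  have hqy : ∀ j, ¬ G.Adj (q j) y := fun j h1 =>
    hyn (lay_next G S q (lay_mono G S q (Nat.zero_le n) ⟨j, rfl⟩) h1 hyS hyC)
  by_contra hzy
  apply h
  rcases n with _ | n
  · obtain ⟨i, rfl⟩ := hw
    obtain ⟨j, hj⟩ := lay_mix G S q hxS hxC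
    obtain ⟨a, b, h1, h2, h3⟩ := ant G q hq x i j hwx.symm hj
    exact ⟨y, x, z, q b, q a, hxy.symm, hzx.symm, hz.2 b, h1, hz.2 a, fun h4 => hzy h4.symm,
      fun h4 => hqy b h4.symm, fun h4 => hqy a h4.symm, h2, fun h4 => h3 h4.symm⟩
  · have hxq : ∀ j, ¬ G.Adj x (q j) := fun j h1 =>
      hxn (lay_mono G S q (by omega : 1 ≤ n + 1)
        (lay_next G S q (n := 0) (x := q j) ⟨j, rfl⟩ h1.symm hxS hxC))
    obtain ⟨b, hb⟩ := lay_mix G S q (la0 G S q hS (n + 1) w hw).1 (la0 G S q hS (n + 1) w hw).2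
    exact ⟨y, x, z, q b, w, hxy.symm, hzx.symm, hz.2 b, hwx.symm, hzw, fun h4 => hzy h4.symm,
      fun h4 => hqy b h4.symm, fun h4 => hwy h4.symm, hxq b, fun h4 => hb h4.symm⟩
-- END lay

-- BEGIN cnt
/-- A hole with a centre lies in a module. Hint: `M = ⋃ n, Lay G S q n`. A vertex `x ∈ S` outside `M`: if it is a centre, `lay`;
otherwise it is adjacent to no vertex of `M` (else it would be in the next layer). `M` contains `q 0` and `q 1`, which are adjacent, so different; it does not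
contain `c`. -/
theorem cnt (G : SimpleGraph V) (h : BullFree G) (S : Set V) (q : ℕ → V) (hq : Hol G q)
    (hS : ∀ j, q j ∈ S) (c : V) (hc : c ∈ S) (hcq : ∀ j, G.Adj c (q j)) : ¬ Prim G S := by
  intro hP
  have hM : Mdl G S (⋃ n, Lay G S q n) := by
    refine ⟨?_, ?_⟩
    · intro y hy
      obtain ⟨n, hn⟩ := Set.mem_iUnion.1 hy
      exact (la0 G S q hS n y hn).1
    · intro x hx hxM
      by_cases hxc : x ∈ Cs G S q
      · left
        intro u hu
        obtain ⟨n, hn⟩ := Set.mem_iUnion.1 hu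
        exact lay G h S q hq hS n u hn x hxc
      · right
        intro u hu hxu
        obtain ⟨n, hn⟩ := Set.mem_iUnion.1 hu
        exact hxM (Set.mem_iUnion.2 ⟨n + 1, Or.inr ⟨hx, hxc, u, hn, hxu.symm⟩⟩)
  have h0 : q 0 ∈ ⋃ n, Lay G S q n := Set.mem_iUnion.2 ⟨0, ⟨0, rfl⟩⟩
  have h1 : q 1 ∈ ⋃ n, Lay G S q n := Set.mem_iUnion.2 ⟨0, ⟨1, rfl⟩⟩
  rcases hP _ hM with h2 | h2
  · have h3 := hq.adj 0
    rw [h2 h0 h1] at h3
    exact G.irrefl h3
  · have h3 : c ∈ ⋃ n, Lay G S q n := by rw [h2]; exact hc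
    obtain ⟨n, hn⟩ := Set.mem_iUnion.1 h3
    exact (la0 G S q hS n c hn).2 ⟨hc, hcq⟩
-- END cnt

-- BEGIN prc
/-- Hint: the modules are the same (a vertex outside `M` is different from all vertices of `M`). -/
theorem prc (G : SimpleGraph V) (S : Set V) (h : Prim G S) : Prim Gᶜ S := by
  intro M hM
  refine h M ⟨hM.1, fun x hx hxM => ?_⟩
  rcases hM.2 x hx hxM with h1 | h1
  · right
    intro u hu
    exact (SimpleGraph.compl_adj G x u).1 (h1 u hu) |>.2
  · left
    intro u hu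
    have hne : x ≠ u := by
      rintro rfl
      exact hxM hu
    by_contra h2
    exact h1 u hu ((SimpleGraph.compl_adj G x u).2 ⟨hne, h2⟩)
-- END prc

-- BEGIN bfr
/-- Hint: unfold `HRank` twice. `S` prime and nonempty, `v ∈ S` any vertex; left alternative: given
`T ⊆ {u ∈ S, v adjacent to u}` nonempty, `w ∈ T` any vertex; right alternative: `{u ∈ T, u ≠ w, w not adjacent to u}` contains no
hole of length `≥ 6` (it would be in `S` with the centre `v`: `cyq`, `cnt`) and no antihole (a hole of the complement, in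
`S`, with the centre `w` in the complement: `cyq`, `cnt` for `Gᶜ` with `bcp`, `prc`). -/
theorem bfr (G : SimpleGraph V) (h : BullFree G) : HRank 6 G 2 Set.univ := by
  intro S _ hne hP
  obtain ⟨v, hv⟩ := hne
  refine ⟨v, hv, Or.inl ?_⟩
  intro T hT hne' _
  obtain ⟨w, hw⟩ := hne'
  refine ⟨w, hw, Or.inr ?_⟩
  intro m hm
  constructor
  · intro e
    by_contra hc
    have hc' : ∀ x, e x ∈ {u | u ∈ T ∧ u ≠ w ∧ ¬ G.Adj w u} := by
      intro x
      by_contra hx
      exact hc ⟨x, hx⟩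
    obtain ⟨q, hq, hq1, -⟩ := cyq G m hm e
    have hqT : ∀ j, q j ∈ T := by
      intro j
      obtain ⟨x, hx⟩ := hq1 j
      rw [← hx]
      exact (hc' x).1
    exact cnt G h S q hq (fun j => (hT (hqT j)).1) v hv (fun j => (hT (hqT j)).2) hP
  · intro e
    by_contra hc
    have hc' : ∀ x, e x ∈ {u | u ∈ T ∧ u ≠ w ∧ ¬ G.Adj w u} := by
      intro x
      by_contra hx
      exact hc ⟨x, hx⟩
    obtain ⟨q, hq, hq1, -⟩ := cyq Gᶜ m hm e
    have hqT : ∀ j, q j ∈ {u | u ∈ T ∧ u ≠ w ∧ ¬ G.Adj w u} := by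
      intro j
      obtain ⟨x, hx⟩ := hq1 j
      rw [← hx]
      exact hc' x
    refine cnt Gᶜ (bcp G h) S q hq (fun j => (hT (hqT j).1).1) w (hT hw).1 (fun j => ?_)
      (prc G S hP)
    rw [SimpleGraph.compl_adj]
    exact ⟨fun hh => (hqT j).2.1 hh.symm, (hqT j).2.2⟩
-- END bfr

end Pool.Agent.Xbh
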