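import Mathlib

set_option autoImplicit false

/-!
# Trees of neighbourhoods and non-neighbourhoods with long holes or antiholes at the leaves
-/

namespace Pool.Agent.Xbh

/-- `HoleTree l G r W`: there is a complete binary tree of depth `r` whose nodes carry sets of
vertices, the root carries `W`; every inner node with the set `W'` has a vertex `v ∈ W'`, one son
carries the set of all neighbours of `v` in `W'`, the other son the set of all vertices of `W'`
different from `v` and not adjacent to `v`; and the set at every leaf contains a hole of `G` or an
antihole of `G` (a hole of the complement) of length at least `l`. In particular `HoleTree l G 0 W`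
says that `W` contains a hole or an antihole of length at least `l`. -/
def HoleTree {V : Type} (l : ℕ) (G : SimpleGraph V) : ℕ → Set V → Prop
  | 0, W => ∃ m : ℕ, l ≤ m ∧ ((∃ e : SimpleGraph.cycleGraph m ↪g G, ∀ x, e x ∈ W) ∨
      ∃ e : SimpleGraph.cycleGraph m ↪g Gᶜ, ∀ x, e x ∈ W)
  | r + 1, W => ∃ v ∈ W, HoleTree l G r {u | u ∈ W ∧ G.Adj v u} ∧
      HoleTree l G r {u | u ∈ W ∧ u ≠ v ∧ ¬ G.Adj v u}

end Pool.Agent.Xbh
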