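import Pool.Agent.Xbh.HRank
import Pool.Agent.Xbh.Bull
import Pool.Agent.Xbh.Tree

set_option autoImplicit false

/-!
# Generalized split graphs have rank at most two; small sets; hole trees
-/

namespace Pool.Agent.Xbh

variable {V : Type}

-- BEGIN clq
/-- Hint: the vertices `0` and `2` of the cycle are different and not adjacent, `0` and `1` are adjacent
(`SimpleGraph.cycleGraph_adj`). -/
theorem clq (G : SimpleGraph V) (D : Set V) (hD : ∀ u ∈ D, ∀ v ∈ D, u ≠ v → G.Adj u v) :
    HRank 4 G 0 D := by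
  intro m hm
  have h0 : 0 < m := by omega
  have h1 : 1 < m := by omega
  have h2 : 2 < m := by omega
  constructor
  · intro e
    by_contra hc
    have hc' : ∀ x, e x ∈ D := by
      intro x
      by_contra hx
      exact hc ⟨x, hx⟩
    have hne : (⟨0, h0⟩ : Fin m) ≠ ⟨2, h2⟩ := by
      intro h
      have := congrArg Fin.val h
      simp at this
    have ha := hD _ (hc' ⟨0, h0⟩) _ (hc' ⟨2, h2⟩) (fun h => hne (e.injective h))
    rw [e.map_adj_iff, SimpleGraph.cycleGraph_adj', Fin.sub_def, Fin.sub_def] at ha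
    simp only [] at ha
    have e1 : (m - 2 + 0) % m = m - 2 := by
      rw [Nat.add_zero]
      exact Nat.mod_eq_of_lt (by omega)
    have e2 : (m - 0 + 2) % m = 2 := by
      rw [Nat.sub_zero, Nat.add_mod_left]
      exact Nat.mod_eq_of_lt h2
    rcases ha with ha | ha
    · rw [e1] at ha
      omega
    · rw [e2] at ha
      omega
  · intro e
    by_contra hc
    have hc' : ∀ x, e x ∈ D := by
      intro x
      by_contra hx
      exact hc ⟨x, hx⟩
    have hadj : (SimpleGraph.cycleGraph m).Adj ⟨0, h0⟩ ⟨1, h1⟩ := by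
      rw [SimpleGraph.cycleGraph_adj', Fin.sub_def, Fin.sub_def]
      right
      have e2 : (m - 0 + 1) % m = 1 := by
        rw [Nat.sub_zero, Nat.add_mod_left]
        exact Nat.mod_eq_of_lt h1
      exact e2
    have h3 := e.map_adj_iff.2 hadj
    rw [SimpleGraph.compl_adj] at h3
    exact h3.2 (hD _ (hc' _) _ (hc' _) h3.1)
-- END clq

-- BEGIN rkc
/-- The rank of the complement. Hint: induction on `r`, `prc` (and `prc` for `Gᶜ`, `compl_compl`); the two alternatives change
places, the two sets are equal because `v` is not adjacent to itself. -/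
theorem rkc (l : ℕ) (G : SimpleGraph V) (r : ℕ) (W : Set V) (h : HRank l G r W) :
    HRank l Gᶜ r W := by
  induction r generalizing W with
  | zero =>
    intro m hm
    refine ⟨(h m hm).2, ?_⟩
    rw [compl_compl]
    exact (h m hm).1
  | succ r ih =>
    intro S hS hne hP
    have hP' : Prim G S := by
      have := prc Gᶜ S hP
      rwa [compl_compl] at this
    obtain ⟨v, hv, h1 | h1⟩ := h S hS hne hP'
    · refine ⟨v, hv, Or.inr ?_⟩
      have h2 := ih _ h1
      have h3 : {u | u ∈ S ∧ u ≠ v ∧ ¬ Gᶜ.Adj v u} = {u | u ∈ S ∧ G.Adj v u} := by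
        ext u
        simp only [Set.mem_ofPred_eq, SimpleGraph.compl_adj]
        constructor
        · rintro ⟨a, b, c⟩
          refine ⟨a, ?_⟩
          by_contra hc
          exact c ⟨fun hh => b hh.symm, hc⟩
        · rintro ⟨a, b⟩
          exact ⟨a, fun hh => b.ne hh.symm, fun hh => hh.2 b⟩
      rw [h3]
      exact h2
    · refine ⟨v, hv, Or.inl ?_⟩
      have h2 := ih _ h1
      have h3 : {u | u ∈ S ∧ Gᶜ.Adj v u} = {u | u ∈ S ∧ u ≠ v ∧ ¬ G.Adj v u} := by
        ext u
        simp only [Set.mem_ofPred_eq, SimpleGraph.compl_adj]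
        constructor
        · rintro ⟨a, b, c⟩
          exact ⟨a, fun hh => b hh.symm, c⟩
        · rintro ⟨a, b, c⟩
          exact ⟨a, fun hh => b hh.symm, c⟩
      rw [h3]
      exact h2
-- END rkc

-- BEGIN gsp
/-- Hint: `A`, `B` as in the definition, `S` nonempty. If `S` has a vertex `v ∈ B`, `v ∉ A`: left alternative; `T` a nonempty set of neighbours of
`v`, `w ∈ T`, right alternative: the vertices of `T` which are different from `w` and not adjacent to `w` form a clique (if `w ∈ A`
they are in `B`, and two neighbours of `v` in `B` are adjacent; if `w ∈ B` they are not in `B`, so they are in `A`): `clq`. Otherwise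
`S ⊆ A`: right alternative for any `v ∈ S`, the set is empty, and `HRank 4 G 1 ∅` holds because a nonempty subset does not
exist. -/
theorem gsp (G : SimpleGraph V) (h : Unipolar G) : HRank 4 G 2 Set.univ := by
  obtain ⟨A, B, hAB, hA, hB⟩ := h
  intro S _ hS _
  by_cases hv : ∃ v ∈ S, v ∉ A
  · obtain ⟨v, hvS, hvA⟩ := hv
    have hvB : v ∈ B := (hAB v).resolve_left hvA
    refine ⟨v, hvS, Or.inl ?_⟩
    intro T hT hTn _
    obtain ⟨w, hw⟩ := hTn
    have hvw : G.Adj v w := (hT hw).2
    refine ⟨w, hw, Or.inr (clq G _ ?_)⟩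
    rintro u ⟨huT, huw, hwu⟩ u' ⟨huT', huw', hwu'⟩ hne
    have hvu : G.Adj v u := (hT huT).2
    have hvu' : G.Adj v u' := (hT huT').2
    by_cases hwA : w ∈ A
    · have h1 : u ∈ B := (hAB u).resolve_left fun h => hwu (hA w hwA u h (Ne.symm huw))
      have h2 : u' ∈ B := (hAB u').resolve_left fun h => hwu' (hA w hwA u' h (Ne.symm huw'))
      exact hB u h1 v hvB u' h2 hvu.symm hvu' hne
    · have hwB : w ∈ B := (hAB w).resolve_left hwA
      have h1 : u ∈ A := (hAB u).resolve_right fun h =>
        hwu (hB w hwB v hvB u h hvw.symm hvu (Ne.symm huw))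
      have h2 : u' ∈ A := (hAB u').resolve_right fun h =>
        hwu' (hB w hwB v hvB u' h hvw.symm hvu' (Ne.symm huw'))
      exact hA u h1 u' h2 hne
  · obtain ⟨v, hvS⟩ := hS
    have hSA : ∀ u ∈ S, u ∈ A := fun u hu => by
      by_contra h
      exact hv ⟨u, hu, h⟩
    refine ⟨v, hvS, Or.inr ?_⟩
    intro T hT hTn _
    obtain ⟨w, hw⟩ := hTn
    obtain ⟨hwS, hwv, hvw⟩ := hT hw
    exact absurd (hA v (hSA v hvS) w (hSA w hwS) (Ne.symm hwv)) hvw
-- END gsp

-- BEGIN htm
/-- Hint: induction on `r` generalizing `W W'`. -/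
theorem htm (l : ℕ) (G : SimpleGraph V) (r : ℕ) (W W' : Set V) (hW : W ⊆ W')
    (h : HoleTree l G r W) : HoleTree l G r W' := by
  induction r generalizing W W' with
  | zero =>
    obtain ⟨m, hm, h⟩ := h
    refine ⟨m, hm, ?_⟩
    rcases h with ⟨e, he⟩ | ⟨e, he⟩
    · exact Or.inl ⟨e, fun x => hW (he x)⟩
    · exact Or.inr ⟨e, fun x => hW (he x)⟩
  | succ r ih =>
    obtain ⟨v, hv, h1, h2⟩ := h
    exact ⟨v, hW hv, ih _ _ (fun u hu => ⟨hW hu.1, hu.2⟩) h1,
      ih _ _ (fun u hu => ⟨hW hu.1, hu.2⟩) h2⟩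
-- END htm

-- BEGIN htr
/-- Hint: induction on `r` generalizing `W`; for `r + 1` take any `v ∈ S`; if both sets had rank not at most `r` they would both
have hole trees of depth `r`, and by `htm` `W` would have one of depth `r + 1`. -/
theorem htr (l : ℕ) (G : SimpleGraph V) (r : ℕ) (W : Set V) (h : ¬ HoleTree l G r W) :
    HRank l G r W := by
  induction r generalizing W with
  | zero =>
    intro m hm
    constructor
    · intro e
      by_contra hc
      push Not at hc
      exact h ⟨m, hm, Or.inl ⟨e, hc⟩⟩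
    · intro e
      by_contra hc
      push Not at hc
      exact h ⟨m, hm, Or.inr ⟨e, hc⟩⟩
  | succ r ih =>
    intro S hS hne _
    obtain ⟨v, hv⟩ := hne
    refine ⟨v, hv, ?_⟩
    by_contra hc
    rw [not_or] at hc
    have h1 : HoleTree l G r {u | u ∈ S ∧ G.Adj v u} := by
      by_contra h2
      exact hc.1 (ih _ h2)
    have h3 : HoleTree l G r {u | u ∈ S ∧ u ≠ v ∧ ¬ G.Adj v u} := by
      by_contra h2
      exact hc.2 (ih _ h2)
    exact h ⟨v, hS hv, htm l G r _ _ (fun u hu => ⟨hS hu.1, hu.2⟩) h1,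
      htm l G r _ _ (fun u hu => ⟨hS hu.1, hu.2⟩) h3⟩
-- END htr

end Pool.Agent.Xbh
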