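import Pool.Agent.Xbh.Join

set_option autoImplicit false

/-!
# The classes generated by complements, `k`-joins and cutsets
-/

namespace Pool.Agent.Xbh

/-- `JCls B k s` is the least sequence of classes of finite graphs (`s = 0, 1, 2, ..`) such that:
the graphs of `B` are in all of them; a graph is in the class `s` if its complement is; a perfect
graph with a `k`-join (more than `k` vertices on both sides) is in the class `s` if both blocks
are; and a perfect graph with two disjoint sets `A₁`, `A₂` of vertices without edges between them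
is in the class `s + 1` if the subgraphs induced on the complements of `A₁` and of `A₂` are in the
class `s`. -/
inductive JCls (B : (V : Type) → SimpleGraph V → Prop) (k : ℕ) :
    ℕ → (V : Type) → [Fintype V] → [DecidableEq V] → SimpleGraph V → Prop
  | base (s : ℕ) (V : Type) [Fintype V] [DecidableEq V] (G : SimpleGraph V) (h : B V G) :
      JCls B k s V G
  | compl (s : ℕ) (V : Type) [Fintype V] [DecidableEq V] (G : SimpleGraph V)
      (h : JCls B k s V Gᶜ) : JCls B k s V G
  | join (s : ℕ) (V : Type) [Fintype V] [DecidableEq V] (G : SimpleGraph V) (X : Finset V)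
      (l : V → Option (Fin k)) (hp : Perf G) (hj : KJn G X l) (h1 : k < X.card)
      (h2 : k < Xᶜ.card) (hX : JCls B k s ({v // v ∈ X} ⊕ Fin k) (Blk G X l))
      (hY : JCls B k s ({v // v ∈ Xᶜ} ⊕ Fin k) (Blk G Xᶜ l)) : JCls B k s V G
  | cut (s : ℕ) (V : Type) [Fintype V] [DecidableEq V] (G : SimpleGraph V) (A₁ A₂ : Finset V)
      (hp : Perf G) (hd : Disjoint A₁ A₂) (hn : ∀ a ∈ A₁, ∀ b ∈ A₂, ¬ G.Adj a b)
      (h1 : JCls B k s {v // v ∈ A₁ᶜ} (G.comap Subtype.val))
      (h2 : JCls B k s {v // v ∈ A₂ᶜ} (G.comap Subtype.val)) : JCls B k (s + 1) V G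

/-- no induced diamond (the complete graph on four vertices minus an edge); bipartite graphs and
line graphs of bipartite graphs have none -/
def DiamondFree {V : Type} (G : SimpleGraph V) : Prop :=
  ∀ v a b c : V, G.Adj v a → G.Adj v b → G.Adj v c → G.Adj a b → G.Adj b c → a ≠ c → G.Adj a c

/-- doubled graphs, the induced subgraphs of double split graphs: every vertex of `A` has at most
one neighbour in `A`, every vertex outside `A` is adjacent to all but at most one of the other
vertices outside `A`, adjacent vertices of `A` have complementary neighbourhoods outside `A`, and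
vertices outside `A` which are not adjacent have complementary neighbourhoods in `A` -/
def Doubled {V : Type} (G : SimpleGraph V) : Prop :=
  ∃ A : Set V, (∀ u ∈ A, ∀ v ∈ A, ∀ w ∈ A, G.Adj u v → G.Adj u w → v = w) ∧
    (∀ u, u ∉ A → ∀ v, v ∉ A → ∀ w, w ∉ A → u ≠ v → u ≠ w → ¬ G.Adj u v → ¬ G.Adj u w → v = w) ∧
    (∀ u ∈ A, ∀ v ∈ A, G.Adj u v → ∀ x, x ∉ A → (G.Adj u x ↔ ¬ G.Adj v x)) ∧
    ∀ u, u ∉ A → ∀ v, v ∉ A → u ≠ v → ¬ G.Adj u v → ∀ x ∈ A, (G.Adj x u ↔ ¬ G.Adj x v)

/-- the perfect graphs which are diamond-free or doubled -/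
def Bas (V : Type) (G : SimpleGraph V) : Prop := Perf G ∧ (DiamondFree G ∨ Doubled G)

end Pool.Agent.Xbh
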