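import Pool.Agent.Xbh.Gsp
import Pool.Agent.Xbh.JCls

set_option autoImplicit false

/-!
# Diamond-free graphs and doubled graphs have rank at most one
-/

namespace Pool.Agent.Xbh

variable {V : Type}

-- BEGIN p3h
private theorem p3h_adj (m i j : ℕ) (hi : i < m) (hj : j < m) :
    (SimpleGraph.cycleGraph m).Adj ⟨i, hi⟩ ⟨j, hj⟩ ↔
      (m - j + i) % m = 1 ∨ (m - i + j) % m = 1 := by
  rw [SimpleGraph.cycleGraph_adj', Fin.sub_def, Fin.sub_def]

private theorem p3h_ne (m i j : ℕ) (hi : i < m) (hj : j < m) (h : i ≠ j) :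
    (⟨i, hi⟩ : Fin m) ≠ ⟨j, hj⟩ := fun hh => h (congrArg Fin.val hh)

/-- PROOF. As `clq` in `Gsp.lean`. A cycle of length `m ≥ 5` in `D`: the vertices `0, 1, 2` are adjacent `0 - 1 - 2` and `0`, `2` are
not adjacent. An embedding of the cycle into the complement: in `G` the vertices `2 - 0 - 3` are adjacent (`0, 2` and `0, 3` are
not adjacent in the cycle, as `m ≥ 5`), and `2`, `3` are not adjacent in `G`. -/
theorem p3h (G : SimpleGraph V) (D : Set V)
    (hD : ∀ a ∈ D, ∀ b ∈ D, ∀ c ∈ D, G.Adj a b → G.Adj b c → a ≠ c → G.Adj a c) :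
    HRank 5 G 0 D := by
  intro m hm
  have h0 : 0 < m := by omega
  have h1 : 1 < m := by omega
  have h2 : 2 < m := by omega
  have h3 : 3 < m := by omega
  have a01 : (SimpleGraph.cycleGraph m).Adj ⟨0, h0⟩ ⟨1, h1⟩ := by
    rw [p3h_adj]
    right
    rw [Nat.sub_zero, Nat.add_mod_left]
    exact Nat.mod_eq_of_lt h1
  have a12 : (SimpleGraph.cycleGraph m).Adj ⟨1, h1⟩ ⟨2, h2⟩ := by
    rw [p3h_adj]
    right
    rw [show m - 1 + 2 = m + 1 by omega, Nat.add_mod_left]
    exact Nat.mod_eq_of_lt h1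
  have a23 : (SimpleGraph.cycleGraph m).Adj ⟨2, h2⟩ ⟨3, h3⟩ := by
    rw [p3h_adj]
    right
    rw [show m - 2 + 3 = m + 1 by omega, Nat.add_mod_left]
    exact Nat.mod_eq_of_lt h1
  have n02 : ¬ (SimpleGraph.cycleGraph m).Adj ⟨0, h0⟩ ⟨2, h2⟩ := by
    rw [p3h_adj, Nat.add_zero, Nat.sub_zero, Nat.add_mod_left,
      Nat.mod_eq_of_lt (by omega : m - 2 < m), Nat.mod_eq_of_lt h2]
    omega
  have n03 : ¬ (SimpleGraph.cycleGraph m).Adj ⟨0, h0⟩ ⟨3, h3⟩ := by
    rw [p3h_adj, Nat.add_zero, Nat.sub_zero, Nat.add_mod_left,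
      Nat.mod_eq_of_lt (by omega : m - 3 < m), Nat.mod_eq_of_lt h3]
    omega
  constructor
  · intro e
    by_contra hc
    have hc' : ∀ x, e x ∈ D := by
      intro x
      by_contra hx
      exact hc ⟨x, hx⟩
    have h := hD _ (hc' ⟨0, h0⟩) _ (hc' ⟨1, h1⟩) _ (hc' ⟨2, h2⟩) (e.map_adj_iff.2 a01)
      (e.map_adj_iff.2 a12) (fun h => p3h_ne m 0 2 h0 h2 (by omega) (e.injective h))
    exact n02 (e.map_adj_iff.1 h)
  · intro e
    by_contra hc
    have hc' : ∀ x, e x ∈ D := by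
      intro x
      by_contra hx
      exact hc ⟨x, hx⟩
    have key : ∀ i j : Fin m, i ≠ j → ¬ (SimpleGraph.cycleGraph m).Adj i j →
        G.Adj (e i) (e j) := by
      intro i j hij hn
      by_contra hG
      apply hn
      apply e.map_adj_iff.1
      rw [SimpleGraph.compl_adj]
      exact ⟨fun h => hij (e.injective h), hG⟩
    have g02 := key _ _ (p3h_ne m 0 2 h0 h2 (by omega)) n02
    have g03 := key _ _ (p3h_ne m 0 3 h0 h3 (by omega)) n03
    have h := hD _ (hc' ⟨2, h2⟩) _ (hc' ⟨0, h0⟩) _ (hc' ⟨3, h3⟩) g02.symm g03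
      (fun h => p3h_ne m 2 3 h2 h3 (by omega) (e.injective h))
    have h4 := e.map_adj_iff.2 a23
    rw [SimpleGraph.compl_adj] at h4
    exact h4.2 h
-- END p3h

-- BEGIN dmf
/-- PROOF. `S` nonempty, `v ∈ S`: `p3h` for `{u | u ∈ S ∧ G.Adj v u}`. -/
theorem dmf (G : SimpleGraph V) (h : DiamondFree G) : HRank 5 G 1 Set.univ := by
  intro S hS hne hP
  obtain ⟨v, hv⟩ := hne
  exact ⟨v, hv, Or.inl (p3h G _ fun a ha b hb c hc hab hbc hac =>
    h v a b c ha.2 hb.2 hc.2 hab hbc hac)⟩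
-- END dmf

-- BEGIN dbl
/-- PROOF. `S` nonempty. If there is `v ∈ S ∩ A`: `p3h` for `{u | u ∈ S ∧ G.Adj v u}`: the neighbours of `v` outside `A` are pairwise
adjacent (two which are not adjacent have complementary neighbourhoods in `A`), `v` has at most one neighbour `m` in `A`, and `m` is
adjacent to no neighbour of `v` outside `A`. So if `a - b - c`, `a ≠ c`, are neighbours of `v`, all three are outside `A` and
`a`, `c` are adjacent. If `S` is disjoint from `A` take any `v ∈ S`: `{u | u ∈ S ∧ u ≠ v ∧ ¬ G.Adj v u}` has at most one element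
(second clause), `p3h`. -/
theorem dbl (G : SimpleGraph V) (h : Doubled G) : HRank 5 G 1 Set.univ := by
  obtain ⟨A, c1, c2, c3, c4⟩ := h
  intro S hS hne hP
  by_cases hex : ∃ v ∈ S, v ∈ A
  · obtain ⟨v, hvS, hvA⟩ := hex
    have key : ∀ a b, G.Adj v a → G.Adj v b → G.Adj a b → a ∉ A := by
      intro a b hva hvb hab haA
      by_cases hbA : b ∈ A
      · have e := c1 v hvA a haA b hbA hva hvb
        rw [e] at hab
        exact G.irrefl hab
      · exact ((c3 v hvA a haA hva b hbA).1 hvb) hab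
    refine ⟨v, hvS, Or.inl (p3h G _ ?_)⟩
    intro a ha b hb c hc hab hbc hac
    have haA := key a b ha.2 hb.2 hab
    have hcA := key c b hc.2 hb.2 hbc.symm
    by_contra hn
    exact ((c4 a haA c hcA hac hn v hvA).1 ha.2) hc.2
  · obtain ⟨v, hvS⟩ := hne
    have hno : ∀ u ∈ S, u ∉ A := fun u hu hA => hex ⟨u, hu, hA⟩
    refine ⟨v, hvS, Or.inr (p3h G _ ?_)⟩
    intro a ha b hb c hc hab hbc hac
    exfalso
    have e := c2 v (hno v hvS) a (hno a ha.1) b (hno b hb.1) (Ne.symm ha.2.1) (Ne.symm hb.2.1)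
      ha.2.2 hb.2.2
    rw [e] at hab
    exact G.irrefl hab
-- END dbl

end Pool.Agent.Xbh
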