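import Pool.Agent.Xbh.Jn

set_option autoImplicit false

/-!
# Cutsets
-/

namespace Pool.Agent.Xbh

open Finset

variable {V : Type} [Fintype V] [DecidableEq V]

-- BEGIN exz
omit [Fintype V] in
private noncomputable def exz_L (X : Finset V) : ({v // v ∈ X} → ℝ) →ₗ[ℝ] (V → ℝ) where
  toFun y v := if h : v ∈ X then y ⟨v, h⟩ else 0
  map_add' y z := by
    funext v
    by_cases h : v ∈ X <;> simp [h]
  map_smul' c y := by
    funext v
    by_cases h : v ∈ X <;> simp [h]

/-- Extension by zero. PROOF. `img` with the linear map `y ↦ (v ↦ if h : v ∈ X then y ⟨v, h⟩ else 0)`; the image of the convex hull is the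
convex hull of the images (`LinearMap.image_convexHull` or `AffineMap.image_convexHull`); the image of `ind t`, `t` stable in the
induced subgraph, is `ind (t.map (Function.Embedding.subtype _))`, and every stable `s ⊆ X` is such an image
(`t = s.subtype (· ∈ X)`). -/
theorem exz (G : SimpleGraph V) (X : Finset V) (f : ℕ)
    (h : XC (STAB (G.comap (Subtype.val : {v // v ∈ X} → V)) univ) f) : XC (STAB G X) f := by
  have h1 := img (STAB (G.comap (Subtype.val : {v // v ∈ X} → V)) univ) f h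
    (exz_L X).toAffineMap
  have h2 : (exz_L X).toAffineMap ''
      STAB (G.comap (Subtype.val : {v // v ∈ X} → V)) univ = STAB G X := by
    unfold STAB
    rw [AffineMap.image_convexHull]
    congr 1
    apply Set.Subset.antisymm
    · rintro _ ⟨y, ⟨t, _, ht, rfl⟩, rfl⟩
      refine ⟨t.map (Function.Embedding.subtype _), ?_, ?_, ?_⟩
      · intro v hv
        obtain ⟨a, ha, rfl⟩ := Finset.mem_map.1 hv
        exact a.2
      · intro u hu v hv
        obtain ⟨a, ha, rfl⟩ := Finset.mem_map.1 hu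
        obtain ⟨b, hb, rfl⟩ := Finset.mem_map.1 hv
        exact ht a ha b hb
      · funext v
        change (if h : v ∈ X then ind t ⟨v, h⟩ else 0) = ind _ v
        unfold ind
        by_cases hv : v ∈ X
        · rw [dif_pos hv]
          by_cases hvt : (⟨v, hv⟩ : {v // v ∈ X}) ∈ t
          · have h5 : v ∈ t.map (Function.Embedding.subtype (· ∈ X)) :=
              Finset.mem_map.2 ⟨⟨v, hv⟩, hvt, rfl⟩
            rw [if_pos hvt, if_pos h5]
          · rw [if_neg hvt, if_neg]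
            intro h3
            obtain ⟨a, ha, hav⟩ := Finset.mem_map.1 h3
            apply hvt
            have h4 : a = ⟨v, hv⟩ := Subtype.ext hav
            rw [← h4]
            exact ha
        · rw [dif_neg hv, if_neg]
          intro h3
          obtain ⟨a, ha, hav⟩ := Finset.mem_map.1 h3
          apply hv
          rw [← hav]
          exact a.2
    · rintro _ ⟨s, hs, hst, rfl⟩
      refine ⟨ind (s.subtype (· ∈ X)), ⟨s.subtype (· ∈ X), subset_univ _, ?_, rfl⟩, ?_⟩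
      · intro a ha b hb
        exact hst a.1 (Finset.mem_subtype.1 ha) b.1 (Finset.mem_subtype.1 hb)
      · funext v
        change (if h : v ∈ X then ind (s.subtype (· ∈ X)) ⟨v, h⟩ else 0) = ind s v
        unfold ind
        by_cases hv : v ∈ X
        · rw [dif_pos hv]
          simp only [Finset.mem_subtype]
        · rw [dif_neg hv, if_neg (fun h => hv (hs h))]
  rw [h2] at h1
  exact h1
-- END exz

-- BEGIN cta
/-- PROOF. `exz` for `X = Aᶜ`, `Bᶜ` (`= univ \ A`, `univ \ B`), `sgl` with `S = univ`, `glu` (a point of `STAB G (univ \ A)` is zero on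
`A`: `sti`). -/
theorem cta (G : SimpleGraph V) (hG : Perf G) (A B : Finset V) (hd : Disjoint A B)
    (hn : ∀ a ∈ A, ∀ b ∈ B, ¬ G.Adj a b) (f₁ f₂ : ℕ)
    (h₁ : XC (STAB (G.comap (Subtype.val : {v // v ∈ Aᶜ} → V)) univ) f₁)
    (h₂ : XC (STAB (G.comap (Subtype.val : {v // v ∈ Bᶜ} → V)) univ) f₂) :
    XC (STAB G univ) (f₁ + f₂ + 2 * Fintype.card V) := by
  have e₁ := exz G Aᶜ f₁ h₁
  have e₂ := exz G Bᶜ f₂ h₂
  rw [Finset.compl_eq_univ_sdiff] at e₁ e₂
  rw [sgl G hG univ A B hd hn]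
  refine glu A B hd _ _ f₁ f₂ e₁ e₂ (fun x hx v hv => ?_) (fun x hx v hv => ?_)
  · exact (sti G (univ \ A) x hx).2.1 v (fun h => (Finset.mem_sdiff.1 h).2 hv)
  · exact (sti G (univ \ B) x hx).2.1 v (fun h => (Finset.mem_sdiff.1 h).2 hv)
-- END cta

-- BEGIN ctb
private theorem ctb_ne (G : SimpleGraph V) (X : Finset V) : (STAB G X).Nonempty :=
  ⟨ind ∅, subset_convexHull ℝ _ ⟨∅, Finset.empty_subset _,
    fun u hu => absurd hu (Finset.notMem_empty u), rfl⟩⟩

private theorem ctb_compl (G : SimpleGraph V) (X : Finset V) :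
    (G.comap (Subtype.val : {v // v ∈ X} → V))ᶜ = Gᶜ.comap Subtype.val := by
  ext u v
  rw [SimpleGraph.compl_adj, SimpleGraph.comap_adj, SimpleGraph.comap_adj,
    SimpleGraph.compl_adj]
  exact and_congr (not_congr Subtype.ext_iff) Iff.rfl

/-- PROOF. `(G.comap val)ᶜ = Gᶜ.comap val` (`val` is injective), `exz` for `Gᶜ`, `sjn` for `Gᶜ` with `S = univ` (its hypothesis is
`Anti Gᶜᶜ A B`), `bal` (both polytopes contain `ind ∅`). -/
theorem ctb (G : SimpleGraph V) (A B : Finset V) (hd : Disjoint A B)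
    (hn : ∀ a ∈ A, ∀ b ∈ B, ¬ G.Adj a b) (f₁ f₂ : ℕ)
    (h₁ : XC (STAB (G.comap (Subtype.val : {v // v ∈ Aᶜ} → V))ᶜ univ) f₁)
    (h₂ : XC (STAB (G.comap (Subtype.val : {v // v ∈ Bᶜ} → V))ᶜ univ) f₂) :
    XC (STAB Gᶜ univ) (f₁ + f₂ + 2) := by
  rw [ctb_compl] at h₁ h₂
  have e1 := exz Gᶜ Aᶜ f₁ h₁
  have e2 := exz Gᶜ Bᶜ f₂ h₂
  have hs := sjn Gᶜ univ A B hd (by rw [compl_compl]; exact hn)
  rw [← Finset.compl_eq_univ_sdiff, ← Finset.compl_eq_univ_sdiff] at hs
  rw [hs]
  exact bal _ _ f₁ f₂ e1 e2 (ctb_ne Gᶜ Aᶜ) (ctb_ne Gᶜ Bᶜ)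
-- END ctb

-- BEGIN lvm
/-- PROOF. `unfold lvs`, `omega`. -/
theorem lvm (k a b : ℕ) (h : a ≤ b) : lvs k a ≤ lvs k b := by
  unfold lvs
  omega
-- END lvm

end Pool.Agent.Xbh
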