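import Mathlib

set_option autoImplicit false

/-!
# Stable set polytopes of perfect graphs with bounded holes and antiholes: definitions
-/

namespace Pool.Agent.Xbh

open Finset

variable {V : Type} [Fintype V] [DecidableEq V]

/-- the neighbours of a vertex -/
noncomputable def nb (G : SimpleGraph V) (v : V) : Finset V := by
  classical exact Finset.univ.filter (fun u => G.Adj v u)

theorem mem_nb (G : SimpleGraph V) (v u : V) : u ∈ nb G v ↔ G.Adj v u := by
  unfold nb; simp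

/-- the closed neighbourhood of a set -/
noncomputable def cn (G : SimpleGraph V) (X : Finset V) : Finset V := by
  classical exact Finset.univ.filter (fun u => u ∈ X ∨ ∃ x ∈ X, G.Adj x u)

theorem mem_cn (G : SimpleGraph V) (X : Finset V) (u : V) :
    u ∈ cn G X ↔ u ∈ X ∨ ∃ x ∈ X, G.Adj x u := by
  unfold cn; simp

/-- no edge between `A` and `B` -/
def Anti (G : SimpleGraph V) (A B : Finset V) : Prop := ∀ a ∈ A, ∀ b ∈ B, ¬ G.Adj a b

/-- `Z` is nonempty and connected -/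
def Conn (G : SimpleGraph V) (Z : Finset V) : Prop :=
  Z.Nonempty ∧ ∀ Y : Finset V, Y ⊆ Z → Y.Nonempty → Y ≠ Z →
    ∃ y ∈ Y, ∃ z ∈ Z, z ∉ Y ∧ G.Adj y z

/-- the measure of a set -/
def ms (μ : V → ℝ) (X : Finset V) : ℝ := ∑ v ∈ X, μ v

theorem ms_nonneg (μ : V → ℝ) (h : ∀ v, 0 ≤ μ v) (X : Finset V) : 0 ≤ ms μ X :=
  Finset.sum_nonneg (fun v _ => h v)

theorem ms_mono (μ : V → ℝ) (h : ∀ v, 0 ≤ μ v) {X Y : Finset V} (hXY : X ⊆ Y) :
    ms μ X ≤ ms μ Y :=
  Finset.sum_le_sum_of_subset_of_nonneg hXY (fun v _ _ => h v)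

theorem ms_union_disj (μ : V → ℝ) {X Y : Finset V} (hXY : Disjoint X Y) :
    ms μ (X ∪ Y) = ms μ X + ms μ Y :=
  Finset.sum_union hXY

theorem ms_union_le (μ : V → ℝ) (h : ∀ v, 0 ≤ μ v) (X Y : Finset V) :
    ms μ (X ∪ Y) ≤ ms μ X + ms μ Y := by
  have h1 := Finset.sum_union_inter (s₁ := X) (s₂ := Y) (f := μ)
  have h2 := ms_nonneg μ h (X ∩ Y)
  unfold ms at *
  linarith

theorem ms_sdiff (μ : V → ℝ) {X Y : Finset V} (hXY : X ⊆ Y) :
    ms μ (Y \ X) = ms μ Y - ms μ X := by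
  have h1 := Finset.sum_sdiff (f := μ) hXY
  unfold ms
  linarith

theorem ms_sdiff_ge (μ : V → ℝ) (h : ∀ v, 0 ≤ μ v) (X Y : Finset V) :
    ms μ Y - ms μ X ≤ ms μ (Y \ X) := by
  have h1 := ms_union_le μ h (Y \ X) X
  have h2 : Y ⊆ (Y \ X) ∪ X := by
    intro v hv
    by_cases hX : v ∈ X
    · exact Finset.mem_union_right _ hX
    · exact Finset.mem_union_left _ (Finset.mem_sdiff.2 ⟨hv, hX⟩)
  have h3 := ms_mono μ h h2
  linarith

theorem ms_empty (μ : V → ℝ) : ms μ ∅ = 0 := by simp [ms]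

theorem ms_single (μ : V → ℝ) (v : V) : ms μ {v} = μ v := by simp [ms]

theorem ms_pos_nonempty (μ : V → ℝ) {X : Finset V} (h : 0 < ms μ X) : X.Nonempty := by
  rcases X.eq_empty_or_nonempty with h1 | h1
  · rw [h1, ms_empty] at h; exact absurd h (lt_irrefl _)
  · exact h1

/-- the hypotheses under which a long hole is found: `μ` is a probability measure with atoms at
most `δ`, neighbourhoods of measure at most `η`, and there is no anticomplete pair of measure
at least `δ` each -/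
structure Hyp (G : SimpleGraph V) (μ : V → ℝ) (δ η : ℝ) : Prop where
  nn : ∀ v, 0 ≤ μ v
  tot : ms μ Finset.univ = 1
  dpos : 0 < δ
  pt : ∀ v, μ v ≤ δ
  nbd : ∀ v, ms μ (nb G v) ≤ η
  no : ∀ A B : Finset V, Disjoint A B → Anti G A B → ms μ A < δ ∨ ms μ B < δ

/-- the energy of a measure: twice the weight of the edges -/
noncomputable def en (G : SimpleGraph V) (μ : V → ℝ) : ℝ := ∑ u, μ u * ms μ (nb G u)

/-- `μ` is a probability measure on `U` with atoms at most `1 / (δ |U|)` -/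
structure Wt (μ : V → ℝ) (U : Finset V) (δ : ℝ) : Prop where
  nn : ∀ v, 0 ≤ μ v
  out : ∀ v, v ∉ U → μ v = 0
  tot : ∑ v, μ v = 1
  pt : ∀ v, μ v * (δ * U.card) ≤ 1

/-- a clique -/
def Clq (G : SimpleGraph V) (K : Finset V) : Prop := ∀ u ∈ K, ∀ v ∈ K, u ≠ v → G.Adj u v

/-- a stable set -/
def Stb (G : SimpleGraph V) (K : Finset V) : Prop := ∀ u ∈ K, ∀ v ∈ K, ¬ G.Adj u v

/-- perfect graphs: every induced subgraph with cliques of size at most `m` has a proper
colouring with `m` colours -/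
def Perf (G : SimpleGraph V) : Prop :=
  ∀ S : Finset V, ∀ m : ℕ, (∀ t : Finset V, t ⊆ S → Clq G t → t.card ≤ m) →
    ∃ c : V → ℕ, (∀ u ∈ S, c u < m) ∧ ∀ u ∈ S, ∀ v ∈ S, G.Adj u v → c u ≠ c v

/-- the indicator vector of a set -/
noncomputable def ind (s : Finset V) : V → ℝ := fun i => if i ∈ s then (1:ℝ) else 0

/-- the stable set polytope of the subgraph induced on `S`, inside `ℝ^V` -/
noncomputable def STAB (G : SimpleGraph V) (S : Finset V) : Set (V → ℝ) :=
  convexHull ℝ {x : V → ℝ | ∃ s : Finset V, s ⊆ S ∧ Stb G s ∧ x = ind s}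

/-- set the coordinates in `A` to zero -/
noncomputable def kill (A : Finset V) (x : V → ℝ) : V → ℝ := fun v => if v ∈ A then 0 else x v

/-- `P` is an affine image of a bounded polyhedron with inequalities indexed by `ι` and variables
indexed by `κ` -/
def XCg (ι κ : Type) [Fintype ι] [Fintype κ] (P : Set (V → ℝ)) : Prop :=
  ∃ A : ι → κ → ℝ, ∃ b : ι → ℝ, ∃ π : (κ → ℝ) →ᵃ[ℝ] (V → ℝ),
    Bornology.IsBounded {y : κ → ℝ | ∀ i, ∑ j, A i j * y j ≤ b i} ∧
    π '' {y : κ → ℝ | ∀ i, ∑ j, A i j * y j ≤ b i} = P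

/-- `P` is an affine image of a bounded polyhedron with `f` inequalities -/
def XC (P : Set (V → ℝ)) (f : ℕ) : Prop := ∃ k : ℕ, XCg (Fin f) (Fin k) P

end Pool.Agent.Xbh
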