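import Pool.Agent.Xbh.Pot

set_option autoImplicit false

/-!
# The closure theorem for the classes `SCls`
-/

namespace Pool.Agent.Xbh

open Finset

private theorem scx_q (s : ℕ) : ∃ q : ℕ, 2 ^ (s + 1) - 1 = q ∧ 1 ≤ q ∧
    2 ^ (s + 1 + 1) - 1 = 2 * q + 1 := by
  have h1 : 1 ≤ 2 ^ s := Nat.one_le_two_pow
  have h2 : 2 ^ (s + 1) = 2 * 2 ^ s := by rw [pow_succ]; ring
  have h3 : 2 ^ (s + 1 + 1) = 2 * 2 ^ (s + 1) := by rw [pow_succ]; ring
  exact ⟨2 ^ (s + 1) - 1, rfl, by omega, by omega⟩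

private theorem scx_pos (V : Type) [Fintype V] (G : SimpleGraph V) : 1 ≤ pot V G := by
  unfold pot
  have h1 : 1 ≤ nnn (Fintype.card V) := le_max_left _ _
  exact Nat.mul_pos h1 (Nat.mul_pos (Nat.succ_pos _) (Nat.succ_pos _))

private theorem ptt_pos (t u : ℕ) (V : Type) [Fintype V] (G : SimpleGraph V) :
    1 ≤ phi t u V G :=
  Nat.mul_pos (Nat.pow_pos (lt_of_lt_of_le Nat.one_pos (le_max_left _ _)))
    (Nat.pow_pos (scx_pos V G))

private theorem ptt_eq (t u : ℕ) (V : Type) [Fintype V] (G : SimpleGraph V) :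
    phi t u V G = max 1 (Fintype.card V) ^ t * pot V G ^ (u + 1) := rfl

private theorem ptt_pow (u a b c : ℕ) (h : a + b ≤ c) :
    a ^ (u + 1) + b ^ (u + 1) ≤ c ^ (u + 1) :=
  (pow_add_pow_le (Nat.zero_le a) (Nat.zero_le b) (Nat.succ_ne_zero u)).trans
    (Nat.pow_le_pow_left h _)

private theorem ptt_add (t m₁ m₂ m a b c : ℕ) (h1 : m₁ ≤ m) (h2 : m₂ ≤ m) (h : a + b ≤ c) :
    max 1 m₁ ^ t * a + max 1 m₂ ^ t * b ≤ max 1 m ^ t * c := by
  have e1 : max 1 m₁ ^ t ≤ max 1 m ^ t := Nat.pow_le_pow_left (max_le_max le_rfl h1) t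
  have e2 : max 1 m₂ ^ t ≤ max 1 m ^ t := Nat.pow_le_pow_left (max_le_max le_rfl h2) t
  calc max 1 m₁ ^ t * a + max 1 m₂ ^ t * b ≤ max 1 m ^ t * a + max 1 m ^ t * b :=
        Nat.add_le_add (Nat.mul_le_mul_right _ e1) (Nat.mul_le_mul_right _ e2)
    _ = max 1 m ^ t * (a + b) := by ring
    _ ≤ max 1 m ^ t * c := Nat.mul_le_mul_left _ h

private theorem ptt_bal (t m₁ m₂ m a b c : ℕ) (g1 : 1 ≤ m₁) (g2 : 1 ≤ m₂)
    (h : m₁ ^ t + m₂ ^ t ≤ m ^ t) (h1 : a ≤ c) (h2 : b ≤ c) :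
    max 1 m₁ ^ t * a + max 1 m₂ ^ t * b ≤ max 1 m ^ t * c := by
  rw [max_eq_right g1, max_eq_right g2]
  have e : m ^ t ≤ max 1 m ^ t := Nat.pow_le_pow_left (le_max_right _ _) t
  calc m₁ ^ t * a + m₂ ^ t * b ≤ m₁ ^ t * c + m₂ ^ t * c :=
        Nat.add_le_add (Nat.mul_le_mul_left _ h1) (Nat.mul_le_mul_left _ h2)
    _ = (m₁ ^ t + m₂ ^ t) * c := by ring
    _ ≤ max 1 m ^ t * c := Nat.mul_le_mul_right _ (h.trans e)

private theorem ptt_ind (t u : ℕ) {V : Type} [Fintype V] [DecidableEq V] (G : SimpleGraph V)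
    (A : Finset V) : phi t u {v // v ∈ A} (G.comap Subtype.val) ≤ phi t u V G := by
  rw [ptt_eq, ptt_eq, Fintype.card_coe]
  exact Nat.mul_le_mul (Nat.pow_le_pow_left (max_le_max le_rfl (Finset.card_le_univ _)) t)
    (Nat.pow_le_pow_left (pin G A) _)

private theorem scx_add (q a b c F t : ℕ) (hq : 1 ≤ q) (ha : 1 ≤ a) (hb : 1 ≤ b) (hc : a + b ≤ c)
    (ht : t ≤ F) : q * ((2 * a - 1) * F) + q * ((2 * b - 1) * F) + t ≤ q * ((2 * c - 1) * F) := by
  have h0 : (2 * a - 1) + (2 * b - 1) + 1 ≤ 2 * c - 1 := by omega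
  have h1 := Nat.mul_le_mul_right F h0
  have h2 : ((2 * a - 1) + (2 * b - 1) + 1) * F = (2 * a - 1) * F + (2 * b - 1) * F + F := by ring
  have h3 : (2 * a - 1) * F + (2 * b - 1) * F + t ≤ (2 * c - 1) * F := by omega
  have h4 := Nat.mul_le_mul_left q h3
  have h5 : q * ((2 * a - 1) * F + (2 * b - 1) * F + t) =
      q * ((2 * a - 1) * F) + q * ((2 * b - 1) * F) + q * t := by ring
  have h6 : t ≤ q * t := Nat.le_mul_of_pos_left _ hq
  omega

private theorem scx_ext (q a c F t : ℕ) (hq : 1 ≤ q) (ha : 1 ≤ a) (hc : a + 1 ≤ c) (ht : t ≤ F) :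
    q * ((2 * a - 1) * F) + t ≤ q * ((2 * c - 1) * F) := by
  have h0 : (2 * a - 1) + 1 ≤ 2 * c - 1 := by omega
  have h1 := Nat.mul_le_mul_right F h0
  have h2 : ((2 * a - 1) + 1) * F = (2 * a - 1) * F + F := by ring
  have h3 : (2 * a - 1) * F + t ≤ (2 * c - 1) * F := by omega
  have h4 := Nat.mul_le_mul_left q h3
  have h5 : q * ((2 * a - 1) * F + t) = q * ((2 * a - 1) * F) + q * t := by ring
  have h6 : t ≤ q * t := Nat.le_mul_of_pos_left _ hq
  omega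

private theorem scx_cut (q a b c F t : ℕ) (hc : 1 ≤ c) (ha : a ≤ c) (hb : b ≤ c) (ht : t ≤ F) :
    q * ((2 * a - 1) * F) + q * ((2 * b - 1) * F) + t ≤ (2 * q + 1) * ((2 * c - 1) * F) := by
  have h1 : q * ((2 * a - 1) * F) ≤ q * ((2 * c - 1) * F) :=
    Nat.mul_le_mul_left _ (Nat.mul_le_mul_right _ (by omega))
  have h2 : q * ((2 * b - 1) * F) ≤ q * ((2 * c - 1) * F) :=
    Nat.mul_le_mul_left _ (Nat.mul_le_mul_right _ (by omega))
  have h3 : F ≤ (2 * c - 1) * F := Nat.le_mul_of_pos_left _ (by omega)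
  have h4 : (2 * q + 1) * ((2 * c - 1) * F) =
      q * ((2 * c - 1) * F) + q * ((2 * c - 1) * F) + (2 * c - 1) * F := by ring
  omega

private theorem ptt_num (t m₁ m e₁ f₁ e f : ℕ) (h1 : 1 ≤ m₁) (h2 : m₁ < m) (he : e₁ ≤ e) (hf : f₁ ≤ f)
    (s1 : e₁ + f₁ + m₁ = m₁ * m₁) (s2 : e + f + m = m * m) :
    max 1 m₁ ^ t * (nnn m₁ * ((e₁ + 1) * (f₁ + 1))) + 1 ≤
      max 1 m ^ t * (nnn m * ((e + 1) * (f + 1))) := by
  have h3 : e₁ + f₁ < e + f := by
    obtain ⟨d, rfl⟩ : ∃ d, m = m₁ + d + 1 := ⟨m - m₁ - 1, by omega⟩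
    nlinarith
  have h4 : (e₁ + 1) * (f₁ + 1) + 1 ≤ (e + 1) * (f + 1) := by
    rcases Nat.lt_or_ge e₁ e with h | h
    · nlinarith [Nat.mul_le_mul (Nat.succ_le_of_lt h) (Nat.succ_le_succ hf)]
    · have h5 : e₁ = e := le_antisymm he h
      have h6 : f₁ + 1 ≤ f := by omega
      subst h5
      nlinarith [Nat.mul_le_mul_left (e₁ + 1) h6]
  have a1 : 1 ≤ max 1 m₁ ^ t := Nat.pow_pos (lt_of_lt_of_le Nat.one_pos (le_max_left _ _))
  have a2 : max 1 m₁ ^ t ≤ max 1 m ^ t := Nat.pow_le_pow_left (max_le_max le_rfl h2.le) t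
  have a3 : 1 ≤ nnn m₁ := le_max_left _ _
  have a4 : nnn m₁ ≤ nnn m := by
    unfold nnn
    omega
  calc max 1 m₁ ^ t * (nnn m₁ * ((e₁ + 1) * (f₁ + 1))) + 1
      ≤ max 1 m₁ ^ t * (nnn m₁ * ((e₁ + 1) * (f₁ + 1))) + max 1 m₁ ^ t * (nnn m₁ * 1) :=
        Nat.add_le_add_left (Nat.mul_pos a1 (Nat.mul_pos a3 Nat.one_pos)) _
    _ = max 1 m₁ ^ t * (nnn m₁ * ((e₁ + 1) * (f₁ + 1) + 1)) := by ring
    _ ≤ max 1 m ^ t * (nnn m * ((e + 1) * (f + 1))) :=
        Nat.mul_le_mul a2 (Nat.mul_le_mul a4 h4)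

private theorem ptt_ext (t u : ℕ) {V : Type} [Fintype V] [DecidableEq V] (G : SimpleGraph V)
    (A B : Finset V) (hd : Disjoint A B) (hA : A.Nonempty) (hB : B.Nonempty) :
    phi t u {v // v ∈ Aᶜ} (G.comap Subtype.val) + 1 ≤ phi t u V G := by
  have k1 : 1 ≤ Aᶜ.card := by
    obtain ⟨b, hb⟩ := hB
    exact Finset.card_pos.2 ⟨b, Finset.mem_compl.2 fun h => (Finset.disjoint_left.1 hd) h hb⟩
  have k2 : Aᶜ.card < Fintype.card V := by
    have h1 := Finset.card_pos.2 hA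
    have h2 := Finset.card_add_card_compl A
    omega
  have h1 := pto G Aᶜ
  have h2 := pto G univ
  rw [Finset.card_univ] at h2
  have h3 : pot {v // v ∈ Aᶜ} (G.comap Subtype.val) + 1 ≤ pot V G := by
    have h4 := ptt_num 0 _ _ _ _ _ _ k1 k2 (pmn G Aᶜ univ (Finset.subset_univ _))
      (pmn Gᶜ Aᶜ univ (Finset.subset_univ _)) h1 h2
    rw [pow_zero, pow_zero, one_mul, one_mul] at h4
    unfold pot
    rw [Fintype.card_coe, pcm G Aᶜ, pcc G Aᶜ]
    exact h4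
  have h4 := ptt_pow u _ 1 _ h3
  rw [one_pow] at h4
  have a1 : 1 ≤ max 1 Aᶜ.card ^ t :=
    Nat.pow_pos (lt_of_lt_of_le Nat.one_pos (le_max_left _ _))
  have a2 : max 1 Aᶜ.card ^ t ≤ max 1 (Fintype.card V) ^ t :=
    Nat.pow_le_pow_left (max_le_max le_rfl k2.le) t
  rw [ptt_eq, ptt_eq, Fintype.card_coe]
  refine le_trans ?_ (Nat.mul_le_mul a2 h4)
  rw [Nat.mul_add, Nat.mul_one]
  exact Nat.add_le_add_left a1 _

/-- small cutsets satisfy the inequality of the free rule of `SCls` -/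
theorem phf (t u : ℕ) {V : Type} [Fintype V] [DecidableEq V] (G : SimpleGraph V)
    (A B : Finset V) (hd : Disjoint A B) (hn : ∀ a ∈ A, ∀ b ∈ B, ¬ G.Adj a b)
    (hc : prs Gᶜ (A ∪ B)ᶜ < 2 * (A.card * B.card)) :
    phi t u {v // v ∈ Aᶜ} (G.comap Subtype.val) + phi t u {v // v ∈ Bᶜ} (G.comap Subtype.val) ≤
      phi t u V G := by
  rw [ptt_eq, ptt_eq, ptt_eq, Fintype.card_coe, Fintype.card_coe]
  exact ptt_add t _ _ _ _ _ _ (Finset.card_le_univ _) (Finset.card_le_univ _)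
    (ptt_pow u _ _ _ (pfr G A B hd hn hc))

/-- balanced cutsets satisfy the inequality of the free rule of `SCls` -/
theorem phb (t u : ℕ) {V : Type} [Fintype V] [DecidableEq V] (G : SimpleGraph V)
    (A B : Finset V) (hd : Disjoint A B) (hA : A.Nonempty) (hB : B.Nonempty)
    (hc : Aᶜ.card ^ t + Bᶜ.card ^ t ≤ Fintype.card V ^ t) :
    phi t u {v // v ∈ Aᶜ} (G.comap Subtype.val) + phi t u {v // v ∈ Bᶜ} (G.comap Subtype.val) ≤
      phi t u V G := by
  have k1 : 1 ≤ Aᶜ.card := by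
    obtain ⟨b, hb⟩ := hB
    exact Finset.card_pos.2 ⟨b, Finset.mem_compl.2 fun h => (Finset.disjoint_left.1 hd) h hb⟩
  have k2 : 1 ≤ Bᶜ.card := by
    obtain ⟨a, ha⟩ := hA
    exact Finset.card_pos.2 ⟨a, Finset.mem_compl.2 fun h => (Finset.disjoint_left.1 hd) ha h⟩
  rw [ptt_eq, ptt_eq, ptt_eq, Fintype.card_coe, Fintype.card_coe]
  exact ptt_bal t _ _ _ _ _ _ k1 k2 hc (Nat.pow_le_pow_left (pin G Aᶜ) _)
    (Nat.pow_le_pow_left (pin G Bᶜ) _)

/-- the closure theorem, with the number of vertices bounded by `N` -/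
theorem scx (B : (V : Type) → SimpleGraph V → Prop) (p : ℕ → ℕ) (hp' : Monotone p)
    (hB : ∀ (V : Type) [Fintype V] [DecidableEq V] (G : SimpleGraph V), B V G →
      XC (STAB G univ) (p (Fintype.card V)) ∧ XC (STAB Gᶜ univ) (p (Fintype.card V)))
    (t u N s : ℕ) (V : Type) [Fintype V] [DecidableEq V] (G : SimpleGraph V)
    (h : SCls B t u s V G) : Fintype.card V ≤ N →
    XC (STAB G univ) ((2 ^ (s + 1) - 1) * ((2 * phi t u V G - 1) * (p N + 2 * N + 6))) ∧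
      XC (STAB Gᶜ univ) ((2 ^ (s + 1) - 1) * ((2 * phi t u V G - 1) * (p N + 2 * N + 6))) := by
  induction h with
  | base s V G h =>
    intro hN
    obtain ⟨q, hq, hq1, -⟩ := scx_q s
    rw [hq]
    have h1 : p (Fintype.card V) ≤ q * ((2 * phi t u V G - 1) * (p N + 2 * N + 6)) := by
      have h2 : p (Fintype.card V) ≤ p N := hp' hN
      have h0 := ptt_pos t u V G
      have h3 : p N + 2 * N + 6 ≤ (2 * phi t u V G - 1) * (p N + 2 * N + 6) :=
        Nat.le_mul_of_pos_left _ (by omega)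
      have h4 : (2 * phi t u V G - 1) * (p N + 2 * N + 6) ≤
          q * ((2 * phi t u V G - 1) * (p N + 2 * N + 6)) := Nat.le_mul_of_pos_left _ hq1
      omega
    exact ⟨XC_mono _ _ _ (hB V G h).1 h1, XC_mono _ _ _ (hB V G h).2 h1⟩
  | compl s V G h ih =>
    intro hN
    obtain ⟨h1, h2⟩ := ih hN
    rw [compl_compl] at h2
    have hco : phi t u V Gᶜ = phi t u V G := by
      rw [ptt_eq, ptt_eq, pco G]
    rw [hco] at h1 h2
    exact ⟨h2, h1⟩
  | join s V G k hk S l hp hj h1 h2 ha hb hn hA hB₂ ihA ihB =>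
    intro hN
    obtain ⟨q, hq, hq1, -⟩ := scx_q s
    rw [hq] at ihA ihB ⊢
    have hcard : S.card + Sᶜ.card = Fintype.card V := Finset.card_add_card_compl S
    have hcA : Fintype.card ({v // v ∈ S} ⊕ Fin k) = S.card + k := by
      rw [Fintype.card_sum, Fintype.card_coe, Fintype.card_fin]
    have hcB : Fintype.card ({v // v ∈ Sᶜ} ⊕ Fin k) = Sᶜ.card + k := by
      rw [Fintype.card_sum, Fintype.card_coe, Fintype.card_fin]
    obtain ⟨hA1, hA2⟩ := ihA (by omega)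
    obtain ⟨hB1, hB2⟩ := ihB (by omega)
    have hpot : phi t u ({v // v ∈ S} ⊕ Fin k) (Blk G S l) +
        phi t u ({v // v ∈ Sᶜ} ⊕ Fin k) (Blk G Sᶜ l) ≤ phi t u V G := by
      rw [ptt_eq, ptt_eq, ptt_eq]
      exact ptt_add t _ _ _ _ _ _ (by omega) (by omega)
        (ptt_pow u _ _ _ (pjn G hk S l hj h1 h2 ha hb hn))
    have hnum := scx_add q _ _ _ (p N + 2 * N + 6) (2 * k + 6) hq1 (ptt_pos t u _ (Blk G S l))
      (ptt_pos t u _ (Blk G Sᶜ l)) hpot (by omega)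
    exact ⟨XC_mono _ _ _ (jxa G hp S l hj _ _ hA1 hB1) (by omega),
      XC_mono _ _ _ (jxb G (wpg G hp) S l hj _ _ hA2 hB2) (by omega)⟩
  | cut s V G A B hp hd hn hA hB₂ ihA ihB =>
    intro hN
    obtain ⟨q, hq, hq1, hq2⟩ := scx_q s
    rw [hq] at ihA ihB
    rw [hq2]
    have hcA : Fintype.card {v // v ∈ Aᶜ} ≤ Fintype.card V := by
      rw [Fintype.card_coe]
      exact Finset.card_le_univ _
    have hcB : Fintype.card {v // v ∈ Bᶜ} ≤ Fintype.card V := by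
      rw [Fintype.card_coe]
      exact Finset.card_le_univ _
    obtain ⟨hA1, hA2⟩ := ihA (by omega)
    obtain ⟨hB1, hB2⟩ := ihB (by omega)
    have hnum := scx_cut q _ _ _ (p N + 2 * N + 6) (2 * Fintype.card V + 2) (ptt_pos t u V G)
      (ptt_ind t u G Aᶜ) (ptt_ind t u G Bᶜ) (by omega)
    exact ⟨XC_mono _ _ _ (cta G hp A B hd hn _ _ hA1 hB1) (by omega),
      XC_mono _ _ _ (ctb G A B hd hn _ _ hA2 hB2) (by omega)⟩
  | free s V G A B hp hd hn hc hA hB₂ ihA ihB =>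
    intro hN
    obtain ⟨q, hq, hq1, -⟩ := scx_q s
    rw [hq] at ihA ihB ⊢
    have hcA : Fintype.card {v // v ∈ Aᶜ} ≤ Fintype.card V := by
      rw [Fintype.card_coe]
      exact Finset.card_le_univ _
    have hcB : Fintype.card {v // v ∈ Bᶜ} ≤ Fintype.card V := by
      rw [Fintype.card_coe]
      exact Finset.card_le_univ _
    obtain ⟨hA1, hA2⟩ := ihA (by omega)
    obtain ⟨hB1, hB2⟩ := ihB (by omega)
    have hnum := scx_add q _ _ _ (p N + 2 * N + 6) (2 * Fintype.card V + 2) hq1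
      (ptt_pos t u {v // v ∈ Aᶜ} (G.comap Subtype.val)) (ptt_pos t u {v // v ∈ Bᶜ} (G.comap Subtype.val))
      hc (by omega)
    exact ⟨XC_mono _ _ _ (cta G hp A B hd hn _ _ hA1 hB1) (by omega),
      XC_mono _ _ _ (ctb G A B hd hn _ _ hA2 hB2) (by omega)⟩
  | ext s V G A B₁ hp hd hn g1 g2 hc hA ihA =>
    intro hN
    obtain ⟨q, hq, hq1, -⟩ := scx_q s
    rw [hq] at ihA ⊢
    have hcA : Fintype.card {v // v ∈ Aᶜ} ≤ Fintype.card V := by
      rw [Fintype.card_coe]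
      exact Finset.card_le_univ _
    have hcB : Fintype.card {v // v ∈ B₁ᶜ} ≤ Fintype.card V := by
      rw [Fintype.card_coe]
      exact Finset.card_le_univ _
    obtain ⟨hA1, hA2⟩ := ihA (by omega)
    obtain ⟨hB1, hB2⟩ := hB _ _ hc
    have hpB : p (Fintype.card {v // v ∈ B₁ᶜ}) ≤ p N := hp' (by omega)
    have hpot := ptt_ext t u G A B₁ hd g1 g2
    have hnum := scx_ext q _ _ (p N + 2 * N + 6)
      (p (Fintype.card {v // v ∈ B₁ᶜ}) + 2 * Fintype.card V + 2) hq1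
      (ptt_pos t u {v // v ∈ Aᶜ} (G.comap Subtype.val)) hpot (by omega)
    exact ⟨XC_mono _ _ _ (cta G hp A B₁ hd hn _ _ hA1 hB1) (by omega),
      XC_mono _ _ _ (ctb G A B₁ hd hn _ _ hA2 hB2) (by omega)⟩

/-- the closure theorem, by the number of vertices -/
theorem scy (B : (V : Type) → SimpleGraph V → Prop) (p : ℕ → ℕ) (hp : Monotone p)
    (hB : ∀ (V : Type) [Fintype V] [DecidableEq V] (G : SimpleGraph V), B V G →
      XC (STAB G univ) (p (Fintype.card V)) ∧ XC (STAB Gᶜ univ) (p (Fintype.card V)))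
    (t u s : ℕ) (V : Type) [Fintype V] [DecidableEq V] (G : SimpleGraph V)
    (h : SCls B t u s V G) :
    XC (STAB G univ) (2 ^ (s + 2) * Fintype.card V ^ (t + 5 * u + 5) *
      (p (Fintype.card V) + 2 * Fintype.card V + 6)) := by
  rcases Nat.eq_zero_or_pos (Fintype.card V) with h0 | h0
  · have hu : (univ : Finset V) = ∅ := by
      rw [← Finset.card_eq_zero, Finset.card_univ]
      exact h0
    rw [hu]
    exact XC_mono _ _ _ (ba0 G) (Nat.zero_le _)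
  · refine XC_mono _ _ _ (scx B p hp hB t u (Fintype.card V) s V G h le_rfl).1 ?_
    have h1 : 2 ^ (s + 1) - 1 ≤ 2 ^ (s + 1) := Nat.sub_le _ _
    have h2 : phi t u V G ≤ Fintype.card V ^ (t + 5 * u + 5) := by
      rw [ptt_eq, max_eq_right h0, show t + 5 * u + 5 = t + 5 * (u + 1) by ring,
        pow_add (Fintype.card V) t (5 * (u + 1)), pow_mul]
      exact Nat.mul_le_mul_left _ (Nat.pow_le_pow_left (ple G h0) _)
    have h3 : 2 * phi t u V G - 1 ≤ 2 * Fintype.card V ^ (t + 5 * u + 5) := by omega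
    calc (2 ^ (s + 1) - 1) * ((2 * phi t u V G - 1) *
          (p (Fintype.card V) + 2 * Fintype.card V + 6))
        ≤ 2 ^ (s + 1) * ((2 * Fintype.card V ^ (t + 5 * u + 5)) *
          (p (Fintype.card V) + 2 * Fintype.card V + 6)) :=
          Nat.mul_le_mul h1 (Nat.mul_le_mul_right _ h3)
      _ = 2 ^ (s + 2) * Fintype.card V ^ (t + 5 * u + 5) *
          (p (Fintype.card V) + 2 * Fintype.card V + 6) := by
          ring

/-- the classes over the basic graphs -/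
theorem scz : ∃ c : ℕ, ∀ (k t u s n : ℕ) (G : SimpleGraph (Fin n)),
    SCls Bas t u s (Fin n) G ∨ JCls Bas k s (Fin n) G →
      XC (STAB G univ) (2 ^ s * (n + 1) ^ (c + t + 5 * u)) := by
  obtain ⟨c, hc⟩ := jba
  obtain ⟨d, hd⟩ := jcz
  refine ⟨max (c + 10) d, fun k t u s n G h => ?_⟩
  obtain ⟨T, hT⟩ : ∃ T : ℕ, T = t + 5 * u := ⟨_, rfl⟩
  rw [Nat.add_assoc, ← hT]
  have hpow : ∀ a, a ≤ max (c + 10) d + T →
      (n + 1) ^ a ≤ (n + 1) ^ (max (c + 10) d + T) := fun a ha =>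
    Nat.pow_le_pow_right (by omega) ha
  rcases h with h | h
  · have hm : Monotone fun m : ℕ => (m + 1) ^ c := fun a b hab =>
      Nat.pow_le_pow_left (Nat.add_le_add_right hab 1) c
    have h1 := scy Bas (fun m => (m + 1) ^ c) hm hc t u s (Fin n) G h
    rw [Fintype.card_fin, ← hT] at h1
    refine XC_mono _ _ _ h1 ?_
    have h2 : 1 ≤ (n + 1) ^ c := Nat.one_le_pow _ _ (by omega)
    have h3 : 4 * n ^ 5 * ((n + 1) ^ c + 2 * n + 6) ≤ (n + 1) ^ (c + 10) := by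
      rw [pow_add]
      obtain ⟨A, hA⟩ : ∃ A : ℕ, A = (n + 1) ^ c := ⟨_, rfl⟩
      rw [← hA] at h2 ⊢
      calc 4 * n ^ 5 * (A + 2 * n + 6) ≤ 4 * n ^ 5 * (A * (2 * n + 7)) := by
            refine Nat.mul_le_mul_left _ ?_
            nlinarith [Nat.mul_le_mul_right (2 * n + 6) h2]
        _ = A * (n ^ 4 * (4 * n * (2 * n + 7))) := by ring
        _ ≤ A * ((n + 1) ^ 4 * (n + 1) ^ 6) := by
            refine Nat.mul_le_mul_left _ (Nat.mul_le_mul ?_ ?_)
            · exact Nat.pow_le_pow_left (Nat.le_succ n) 4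
            · rcases Nat.eq_zero_or_pos n with h0 | h0
              · subst h0
                norm_num
              · obtain ⟨m, rfl⟩ : ∃ m, n = m + 1 := ⟨n - 1, by omega⟩
                have h4 : (m + 1 + 1) ^ 6 = 4 * (m + 1) * (2 * (m + 1) + 7) +
                  (28 + 148 * m + 232 * m ^ 2 + 160 * m ^ 3 + 60 * m ^ 4 + 12 * m ^ 5 + m ^ 6) := by
                  ring
                rw [h4]
                exact Nat.le_add_right _ _
        _ = A * (n + 1) ^ 10 := by ring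
    calc 2 ^ (s + 2) * n ^ (T + 5) * ((n + 1) ^ c + 2 * n + 6)
        = 2 ^ s * (n ^ T * (4 * n ^ 5 * ((n + 1) ^ c + 2 * n + 6))) := by ring
      _ ≤ 2 ^ s * ((n + 1) ^ T * (n + 1) ^ (c + 10)) :=
          Nat.mul_le_mul_left _ (Nat.mul_le_mul (Nat.pow_le_pow_left (Nat.le_succ n) T) h3)
      _ = 2 ^ s * (n + 1) ^ (c + 10 + T) := by ring
      _ ≤ 2 ^ s * (n + 1) ^ (max (c + 10) d + T) :=
          Nat.mul_le_mul_left _ (hpow _ (Nat.add_le_add_right (le_max_left _ _) T))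
  · exact XC_mono _ _ _ (hd k s n G h) (Nat.mul_le_mul_left _
      (hpow _ ((le_max_right _ _).trans (Nat.le_add_right _ _))))

end Pool.Agent.Xbh
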