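import Pool.Agent.Xbh.Defs

set_option autoImplicit false
set_option linter.unusedSectionVars false

namespace Pool.Agent.Xbh

open Finset

variable {V : Type} [Fintype V] [DecidableEq V]

-- BEGIN gia
/-- The giant component. Hint: among the subsets `Z` of `X` with `Anti G Z (X \ Z)` and
`ms μ X - δ ≤ ms μ Z` (`X` is one: `X \ X = ∅`) take one of minimal cardinality
(`Finset.exists_min_image` on the filtered powerset). Then `ms μ Z ≥ 2 δ > 0`. If `Y ⊆ Z`,
nonempty, `≠ Z`, has no edge to `Z \ Y`, then `Y` and `Z \ Y` are both anticomplete to their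
complements in `X`; `h.no` for `(Y, X \ Y)`: if `ms μ (X \ Y) < δ` then `Y` contradicts the
minimality, so `ms μ Y < δ`; likewise `ms μ (Z \ Y) < δ`; sum `< 2 δ`, contradiction. -/
theorem gia {G : SimpleGraph V} {μ : V → ℝ} {δ η : ℝ} (h : Hyp G μ δ η) (X : Finset V)
    (hX : 3 * δ ≤ ms μ X) :
    ∃ Z : Finset V, Z ⊆ X ∧ Conn G Z ∧ Anti G Z (X \ Z) ∧ ms μ X - δ ≤ ms μ Z := by
  classical
  have hδ := h.dpos
  obtain ⟨Z, hZ, hmin⟩ := Finset.exists_min_image
    (X.powerset.filter fun Z => Anti G Z (X \ Z) ∧ ms μ X - δ ≤ ms μ Z) Finset.card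
    ⟨X, by
      rw [Finset.mem_filter, Finset.mem_powerset]
      refine ⟨Finset.Subset.refl _, ?_, by linarith⟩
      intro a _ b hb
      rw [Finset.sdiff_self] at hb
      exact absurd hb (Finset.notMem_empty _)⟩
  rw [Finset.mem_filter, Finset.mem_powerset] at hZ
  obtain ⟨hZX, hZa, hZm⟩ := hZ
  refine ⟨Z, hZX, ⟨ms_pos_nonempty μ (by linarith), ?_⟩, hZa, hZm⟩
  intro Y hYZ hYne hYZne
  by_contra hcon
  have hne : ∀ y ∈ Y, ∀ z ∈ Z, z ∉ Y → ¬ G.Adj y z :=
    fun y hy z hz hzY hadj => hcon ⟨y, hy, z, hz, hzY, hadj⟩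
  have key : ∀ T : Finset V, T ⊆ Z → T.card < Z.card → Anti G T (X \ T) → ms μ T < δ := by
    intro T hTZ hcard hT
    rcases h.no T (X \ T) Finset.disjoint_sdiff hT with h1 | h1
    · exact h1
    · exfalso
      rw [ms_sdiff μ (hTZ.trans hZX)] at h1
      have h2 := hmin T (by
        rw [Finset.mem_filter, Finset.mem_powerset]
        exact ⟨hTZ.trans hZX, hT, by linarith⟩)
      omega
  have hlt : Y ⊂ Z := lt_of_le_of_ne hYZ hYZne
  have h1 : ms μ Y < δ := by
    refine key Y hYZ (Finset.card_lt_card hlt) ?_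
    intro y hy x hx hadj
    obtain ⟨hxX, hxY⟩ := Finset.mem_sdiff.1 hx
    by_cases hxZ : x ∈ Z
    · exact hne y hy x hxZ hxY hadj
    · exact hZa y (hYZ hy) x (Finset.mem_sdiff.2 ⟨hxX, hxZ⟩) hadj
  have h2 : ms μ (Z \ Y) < δ := by
    refine key (Z \ Y) Finset.sdiff_subset ?_ ?_
    · rw [Finset.card_sdiff_of_subset hYZ]
      have h3 := Finset.card_le_card hYZ
      have h4 := hYne.card_pos
      omega
    · intro a ha x hx hadj
      obtain ⟨haZ, haY⟩ := Finset.mem_sdiff.1 ha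
      obtain ⟨hxX, hxZY⟩ := Finset.mem_sdiff.1 hx
      by_cases hxY : x ∈ Y
      · exact hne x hxY a haZ haY hadj.symm
      · have hxZ : x ∉ Z := fun hz => hxZY (Finset.mem_sdiff.2 ⟨hz, hxY⟩)
        exact hZa a haZ x (Finset.mem_sdiff.2 ⟨hxX, hxZ⟩) hadj
  rw [ms_sdiff μ hYZ] at h2
  linarith
-- END gia

-- BEGIN cun
/-- Two connected sets joined by an edge (or meeting) have a connected union.
Hint: for `Y ⊆ A ∪ B` proper nonempty look at `Y ∩ A`, `Y ∩ B`: if one of them is nonempty and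
proper in `A` (resp. `B`) use `Conn`; otherwise `Y = A` or `Y = B` up to the intersection. With
`Disjoint A B` assumed. -/
theorem cun (G : SimpleGraph V) (A B : Finset V) (hA : Conn G A) (hB : Conn G B)
    (hd : Disjoint A B) (he : ∃ a ∈ A, ∃ b ∈ B, G.Adj a b) : Conn G (A ∪ B) := by
  obtain ⟨a, ha, b, hb, hab⟩ := he
  refine ⟨⟨a, Finset.mem_union_left _ ha⟩, ?_⟩
  intro Y hY hYne hYu
  have key : ∀ C : Finset V, C ⊆ A ∪ B → Conn G C → (∃ y ∈ Y, y ∈ C) → (∃ z ∈ C, z ∉ Y) →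
      ∃ y ∈ Y, ∃ z ∈ A ∪ B, z ∉ Y ∧ G.Adj y z := by
    intro C hC hCc h1 h2
    obtain ⟨y, hy, hyC⟩ := h1
    obtain ⟨z, hz, hzY⟩ := h2
    obtain ⟨u, hu, v, hv, hvY, huv⟩ := hCc.2 (Y ∩ C) Finset.inter_subset_right
      ⟨y, Finset.mem_inter.2 ⟨hy, hyC⟩⟩ (fun heq => hzY (by
        rw [← heq] at hz
        exact (Finset.mem_inter.1 hz).1))
    exact ⟨u, (Finset.mem_inter.1 hu).1, v, hC hv,
      fun hvY' => hvY (Finset.mem_inter.2 ⟨hvY', hv⟩), huv⟩
  by_contra hcon
  have hAll : ∀ C : Finset V, C ⊆ A ∪ B → Conn G C → (∃ y ∈ Y, y ∈ C) → C ⊆ Y := by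
    intro C hC hCc h1 z hz
    by_contra hzY
    exact hcon (key C hC hCc h1 ⟨z, hz, hzY⟩)
  have h1 : a ∈ Y ↔ b ∈ Y := by
    constructor
    · intro haY
      by_contra hbY
      exact hcon ⟨a, haY, b, Finset.mem_union_right _ hb, hbY, hab⟩
    · intro hbY
      by_contra haY
      exact hcon ⟨b, hbY, a, Finset.mem_union_left _ ha, haY, hab.symm⟩
  obtain ⟨y, hy⟩ := hYne
  have h2 : a ∈ Y := by
    rcases Finset.mem_union.1 (hY hy) with h | h
    · exact hAll A Finset.subset_union_left hA ⟨y, hy, h⟩ ha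
    · exact h1.2 (hAll B Finset.subset_union_right hB ⟨y, hy, h⟩ hb)
  refine hYu (Finset.Subset.antisymm hY (Finset.union_subset ?_ ?_))
  · exact hAll A Finset.subset_union_left hA ⟨a, h2, ha⟩
  · exact hAll B Finset.subset_union_right hB ⟨b, h1.1 h2, hb⟩
-- END cun

-- BEGIN csg
theorem csg (G : SimpleGraph V) (v : V) : Conn G {v} := by
  refine ⟨Finset.singleton_nonempty v, fun Y hY hn hne => ?_⟩
  exact absurd ((Finset.subset_singleton_iff.1 hY).resolve_left hn.ne_empty) hne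
-- END csg

-- BEGIN gro
private theorem gro_single {G : SimpleGraph V} {μ : V → ℝ} {δ η : ℝ} (h : Hyp G μ δ η) (v : V) :
    ms μ (cn G {v}) ≤ η + δ := by
  have hsub : cn G {v} ⊆ {v} ∪ nb G v := by
    intro u hu
    rw [mem_cn] at hu
    rw [Finset.mem_union, Finset.mem_singleton, mem_nb]
    rcases hu with hu | ⟨x, hx, hxu⟩
    · exact Or.inl (Finset.mem_singleton.1 hu)
    · rw [Finset.mem_singleton] at hx
      subst hx
      exact Or.inr hxu
  have e1 := ms_mono μ h.nn hsub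
  have e2 := ms_union_le μ h.nn {v} (nb G v)
  have e3 := h.nbd v
  have e4 := h.pt v
  rw [ms_single] at e2
  linarith

/-- A connected set whose closed neighbourhood has measure about `τ`.
Hint: `C` = `gia` for `univ` (measure `≥ 1 - δ`). Among the `X ⊆ C` with `Conn G X` and
`ms μ (cn G X) < τ` (nonempty family: `{v}`, `v ∈ C`, since
`ms μ (cn G {v}) ≤ μ v + ms μ (nb G v)`) take one of maximal cardinality. `X ≠ C` because
`C ⊆ cn G C`. An edge of `C` leaves `X`: `x ∈ X`, `z ∈ C \ X`. `X' = X ∪ {z}` is connected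
(`cun`, `csg`), so `τ ≤ ms μ (cn G X')`, and `cn G X' ⊆ cn G X ∪ ({z} ∪ nb G z)`. -/
theorem gro {G : SimpleGraph V} {μ : V → ℝ} {δ η : ℝ} (h : Hyp G μ δ η) (τ : ℝ)
    (h1 : η + δ < τ) (h2 : τ + δ ≤ 1) (h3 : 3 * δ ≤ 1) :
    ∃ X : Finset V, Conn G X ∧ τ ≤ ms μ (cn G X) ∧ ms μ (cn G X) < τ + η + δ := by
  classical
  obtain ⟨C, _, hCc, _, hCm⟩ := gia h Finset.univ (by rw [h.tot]; exact h3)
  rw [h.tot] at hCm
  set F : Finset (Finset V) := C.powerset.filter (fun X => Conn G X ∧ ms μ (cn G X) < τ) with hF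
  have hne : F.Nonempty := by
    obtain ⟨v, hv⟩ := hCc.1
    refine ⟨{v}, ?_⟩
    rw [hF, Finset.mem_filter, Finset.mem_powerset]
    exact ⟨Finset.singleton_subset_iff.2 hv, csg G v, lt_of_le_of_lt (gro_single h v) h1⟩
  obtain ⟨X, hXF, hmax⟩ := Finset.exists_max_image F (fun X => X.card) hne
  rw [hF, Finset.mem_filter, Finset.mem_powerset] at hXF
  obtain ⟨hXC, hXc, hXτ⟩ := hXF
  have hXne : X ≠ C := by
    intro hEq
    subst hEq
    have hsub : X ⊆ cn G X := by
      intro u hu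
      rw [mem_cn]
      exact Or.inl hu
    have e1 := ms_mono μ h.nn hsub
    linarith
  obtain ⟨x, hx, z, hz, hzX, hxz⟩ := hCc.2 X hXC hXc.1 hXne
  have hdisj : Disjoint X ({z} : Finset V) := Finset.disjoint_singleton_right.2 hzX
  have hconn : Conn G (X ∪ {z}) :=
    cun G X {z} hXc (csg G z) hdisj ⟨x, hx, z, Finset.mem_singleton_self z, hxz⟩
  refine ⟨X ∪ {z}, hconn, ?_, ?_⟩
  · by_contra hlt
    rw [not_le] at hlt
    have hmem : X ∪ {z} ∈ F := by
      rw [hF, Finset.mem_filter, Finset.mem_powerset]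
      exact ⟨Finset.union_subset hXC (Finset.singleton_subset_iff.2 hz), hconn, hlt⟩
    have hc : (X ∪ {z}).card ≤ X.card := hmax _ hmem
    rw [Finset.card_union_of_disjoint hdisj, Finset.card_singleton] at hc
    omega
  · have hsub : cn G (X ∪ {z}) ⊆ cn G X ∪ cn G {z} := by
      intro u hu
      rw [mem_cn] at hu
      rw [Finset.mem_union, mem_cn, mem_cn]
      rcases hu with hu | ⟨y, hy, hyu⟩
      · rcases Finset.mem_union.1 hu with hu | hu
        · exact Or.inl (Or.inl hu)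
        · exact Or.inr (Or.inl hu)
      · rcases Finset.mem_union.1 hy with hy | hy
        · exact Or.inl (Or.inr ⟨y, hy, hyu⟩)
        · exact Or.inr (Or.inr ⟨y, hy, hyu⟩)
    have e1 := ms_mono μ h.nn hsub
    have e2 := ms_union_le μ h.nn (cn G X) (cn G {z})
    have e3 := gro_single h z
    linarith
-- END gro

-- BEGIN wit
private theorem wit_bu {G : SimpleGraph V} {μ : V → ℝ} {η : ℝ} (nn : ∀ v, 0 ≤ μ v) (nbd : ∀ v, ms μ (nb G v) ≤ η)
    (P : Finset V) : ms μ (P.biUnion (nb G)) ≤ (P.card : ℝ) * η := by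
  induction P using Finset.induction_on with
  | empty => simp [ms]
  | insert a s ha ih =>
    rw [Finset.biUnion_insert, Finset.card_insert_of_notMem ha]
    have h1 := ms_union_le μ nn (nb G a) (s.biUnion (nb G))
    have h2 := nbd a
    push_cast
    linarith

/-- A vertex of `N` attached to `C` and not adjacent to any vertex of `P`.
Hint: the set `B` of vertices of `N` with no neighbour in `C` is anticomplete to `C`, so
`ms μ B < δ` (`h.no`, as `δ ≤ ms μ C`); the union of the `nb G p`, `p ∈ P`, has measure at most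
`P.card * η`; hence `N \ (B ∪ ⋃ nb G p)` has positive measure (`Finset.biUnion`). -/
theorem wit {G : SimpleGraph V} {μ : V → ℝ} {δ η : ℝ} (h : Hyp G μ δ η) (N C : Finset V)
    (hd : Disjoint N C) (hC : δ ≤ ms μ C) (P : Finset V)
    (hm : (P.card : ℝ) * η + δ ≤ ms μ N) :
    ∃ w ∈ N, (∃ c ∈ C, G.Adj w c) ∧ ∀ p ∈ P, ¬ G.Adj p w := by
  classical
  by_contra hcon
  push Not at hcon
  have hB : ms μ (N.filter fun w => ∀ c ∈ C, ¬ G.Adj w c) < δ := by
    have h1 := h.no (N.filter fun w => ∀ c ∈ C, ¬ G.Adj w c) C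
      (hd.mono_left (Finset.filter_subset _ _)) (fun a ha b hb => (Finset.mem_filter.1 ha).2 b hb)
    rcases h1 with h1 | h1
    · exact h1
    · exact absurd h1 (not_lt.2 hC)
  have hsub : N ⊆ (N.filter fun w => ∀ c ∈ C, ¬ G.Adj w c) ∪ P.biUnion (nb G) := by
    intro w hw
    rw [Finset.mem_union]
    by_cases hw1 : ∀ c ∈ C, ¬ G.Adj w c
    · exact Or.inl (Finset.mem_filter.2 ⟨hw, hw1⟩)
    · push Not at hw1
      obtain ⟨c, hc, hwc⟩ := hw1
      obtain ⟨p, hp, hpw⟩ := hcon w hw ⟨c, hc, hwc⟩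
      exact Or.inr (Finset.mem_biUnion.2 ⟨p, hp, (mem_nb G p w).2 hpw⟩)
  have h2 := ms_mono μ h.nn hsub
  have h3 := ms_union_le μ h.nn (N.filter fun w => ∀ c ∈ C, ¬ G.Adj w c) (P.biUnion (nb G))
  have h4 := wit_bu h.nn h.nbd P
  linarith
-- END wit

-- BEGIN gst
/-- One step of the path of Gyarfas. Hint: `X = C \ nb G p`, measure `≥ ms μ C - η ≥ 3 δ`
(`ms_sdiff_ge`); `C'` = `gia` for `X`. `C' ≠ C` since `p` has a neighbour in `C`; the edge of
`Conn G C` leaving `C'` ends in a `w ∈ C \ C'` which must be adjacent to `p` (else `w ∈ X \ C'`,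
contradiction to `Anti`). -/
theorem gst {G : SimpleGraph V} {μ : V → ℝ} {δ η : ℝ} (h : Hyp G μ δ η) (C : Finset V)
    (hC : Conn G C) (p : V) (hpC : ∃ c ∈ C, G.Adj p c) (hm : η + 3 * δ ≤ ms μ C) :
    ∃ C' : Finset V, C' ⊆ C ∧ ∃ w ∈ C, w ∉ C' ∧ G.Adj p w ∧ Conn G C' ∧
      (∃ c ∈ C', G.Adj w c) ∧ (∀ c ∈ C', ¬ G.Adj p c) ∧ ms μ C - η - δ ≤ ms μ C' := by
  have hX := ms_sdiff_ge μ h.nn (nb G p) C
  have hη := h.nbd p
  obtain ⟨C', hsub, hconn, hanti, hms⟩ := gia h (C \ nb G p) (by linarith)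
  have hC'C : C' ⊆ C := hsub.trans Finset.sdiff_subset
  have hnp : ∀ c ∈ C', ¬ G.Adj p c := fun c hc hadj =>
    (Finset.mem_sdiff.1 (hsub hc)).2 ((mem_nb G p c).2 hadj)
  have hne : C' ≠ C := by
    intro heq
    obtain ⟨c, hc, hpc⟩ := hpC
    exact hnp c (heq ▸ hc) hpc
  obtain ⟨y, hy, z, hz, hzC', hyz⟩ := hC.2 C' hC'C hconn.1 hne
  have hpz : G.Adj p z := by
    by_contra hpz
    refine hanti y hy z (Finset.mem_sdiff.2 ⟨Finset.mem_sdiff.2 ⟨hz, ?_⟩, hzC'⟩) hyz
    exact fun hmem => hpz ((mem_nb G p z).1 hmem)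
  exact ⟨C', hC'C, z, hz, hzC', hpz, hconn, ⟨y, hy, hyz.symm⟩, hnp, by linarith⟩
-- END gst

-- BEGIN gya
/-- The path of Gyarfas. Hint: induction on `m` with `gst` applied to `p m` and `C`;
the new path is `fun i => if i ≤ m then p i else w`. -/
theorem gya {G : SimpleGraph V} {μ : V → ℝ} {δ η : ℝ} (h : Hyp G μ δ η) (Z : Finset V)
    (hZ : Conn G Z) (p0 : V) (hp0 : p0 ∉ Z) (hp0Z : ∃ c ∈ Z, G.Adj p0 c) (m : ℕ)
    (hm : (m : ℝ) * (η + δ) + 3 * δ ≤ ms μ Z) :
    ∃ p : ℕ → V, ∃ C : Finset V, C ⊆ Z ∧ p 0 = p0 ∧ Conn G C ∧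
      (∀ i, 1 ≤ i → i ≤ m → p i ∈ Z) ∧ (∀ i, i ≤ m → p i ∉ C) ∧
      (∀ i j, i ≤ m → j ≤ m → p i = p j → i = j) ∧
      (∀ i j, i < j → j ≤ m → (G.Adj (p i) (p j) ↔ i + 1 = j)) ∧
      (∀ i, i < m → ∀ c ∈ C, ¬ G.Adj (p i) c) ∧ (∃ c ∈ C, G.Adj (p m) c) ∧
      ms μ Z - (m : ℝ) * (η + δ) ≤ ms μ C := by
  have hη : 0 ≤ η := (ms_nonneg μ h.nn (nb G p0)).trans (h.nbd p0)
  have hδ := h.dpos
  induction m with
  | zero =>
    refine ⟨fun _ => p0, Z, subset_rfl, rfl, hZ, fun i h1 h2 => absurd h2 (by omega), fun i _ => hp0,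
      fun i j h1 h2 _ => by omega, fun i j h1 h2 => absurd h2 (by omega), fun i hi => absurd hi (by omega), hp0Z, ?_⟩
    push_cast
    linarith
  | succ m ih =>
    have hm' : (m : ℝ) * (η + δ) + 3 * δ ≤ ms μ Z := by
      push_cast at hm
      linarith
    obtain ⟨p, C, hCZ, hp0', hconn, hpZ, hpC, hinj, hadj, hno, hex, hms⟩ := ih hm'
    obtain ⟨C', hC'C, w, hw, hwC', hpw, hconn', hex', hno', hms'⟩ := gst h C hconn (p m) hex (by
      push_cast at hm
      linarith)
    refine ⟨fun i => if i ≤ m then p i else w, C', hC'C.trans hCZ, ?_, hconn', ?_, ?_, ?_, ?_, ?_, ?_, ?_⟩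
    · change (if 0 ≤ m then p 0 else w) = p0
      rw [if_pos (Nat.zero_le m), hp0']
    · intro i h1 h2
      change (if i ≤ m then p i else w) ∈ Z
      by_cases hi : i ≤ m
      · rw [if_pos hi]
        exact hpZ i h1 hi
      · rw [if_neg hi]
        exact hCZ hw
    · intro i h2
      change (if i ≤ m then p i else w) ∉ C'
      by_cases hi : i ≤ m
      · rw [if_pos hi]
        exact fun hmem => hpC i hi (hC'C hmem)
      · rw [if_neg hi]
        exact hwC'
    · intro i j hi' hj'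
      change (if i ≤ m then p i else w) = (if j ≤ m then p j else w) → i = j
      by_cases hi : i ≤ m
      · by_cases hj : j ≤ m
        · rw [if_pos hi, if_pos hj]
          exact hinj i j hi hj
        · rw [if_pos hi, if_neg hj]
          intro heq
          exact absurd (heq ▸ hw) (hpC i hi)
      · by_cases hj : j ≤ m
        · rw [if_neg hi, if_pos hj]
          intro heq
          exact absurd (heq ▸ hw) (hpC j hj)
        · intro _
          omega
    · intro i j hij hj'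
      change G.Adj (if i ≤ m then p i else w) (if j ≤ m then p j else w) ↔ i + 1 = j
      have hi : i ≤ m := by omega
      rw [if_pos hi]
      by_cases hj : j ≤ m
      · rw [if_pos hj]
        exact hadj i j hij hj
      · rw [if_neg hj]
        have hjm : j = m + 1 := by omega
        subst hjm
        rcases Nat.lt_or_ge i m with hlt | hge
        · constructor
          · intro hA
            exact absurd hA (hno i hlt w hw)
          · intro hA
            omega
        · have him : i = m := by omega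
          subst him
          exact ⟨fun _ => rfl, fun _ => hpw⟩
    · intro i hi c hc
      change ¬ G.Adj (if i ≤ m then p i else w) c
      have hi' : i ≤ m := by omega
      rw [if_pos hi']
      rcases Nat.lt_or_ge i m with hlt | hge
      · exact hno i hlt c (hC'C hc)
      · have him : i = m := by omega
        subst him
        exact hno' c hc
    · change ∃ c ∈ C', G.Adj (if m + 1 ≤ m then p (m + 1) else w) c
      rw [if_neg (by omega)]
      exact hex'
    · push_cast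
      linarith
-- END gya

end Pool.Agent.Xbh
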