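import Pool.Agent.Xbh.Defs

set_option autoImplicit false
set_option linter.unusedSectionVars false

namespace Pool.Agent.Xbh

open Finset

variable {V : Type} [Fintype V] [DecidableEq V]

-- BEGIN gre
/-- The greedy embedding of `H`, one vertex at a time.
Hint: induction on `h`, for all `H`, `W`. `h = 0`: the left side, trivially. Step: for
`j : Fin h` let `B j` be the set of `v ∈ W 0` with less than `ε |W j.succ|` neighbours
(if `H.Adj 0 j.succ`; non-neighbours otherwise) in `W j.succ`. If `m ≤ (B j).card` for some `j`: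
the right side with `A = B j`, `C = W j.succ` (`m ≤ (W j.succ).card` as `ε ^ (h+1) ≤ 1`).
Otherwise the union of the `B j` has at most `h m < (W 0).card` elements; take `v ∈ W 0` outside
and apply the induction hypothesis to `H.comap Fin.succ` and
`W' j = W j.succ ∩ nb G v` resp. `W j.succ \ nb G v`, with `|W' j| ≥ ε |W j.succ|`, and
`2 (h + 1) m ≤ 2 (h + 2) m ≤ ε ^ (h+1) |W j.succ| ≤ ε ^ h |W' j|`; finally `Fin.cons v f`. -/
theorem gre (G : SimpleGraph V) (ε : ℝ) (hε : 0 < ε) (hε1 : ε ≤ 1) (m : ℕ) (hm : 1 ≤ m) :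
    ∀ (h : ℕ) (H : SimpleGraph (Fin h)) (W : Fin h → Finset V),
      (∀ i j, i ≠ j → Disjoint (W i) (W j)) →
      (∀ j, 2 * ((h : ℝ) + 1) * m ≤ ε ^ h * (W j).card) →
      (∃ f : Fin h → V, (∀ j, f j ∈ W j) ∧ ∀ i j, i ≠ j → (G.Adj (f i) (f j) ↔ H.Adj i j)) ∨
      ∃ A C : Finset V, ∃ i j : Fin h, i ≠ j ∧ A ⊆ W i ∧ C ⊆ W j ∧ m ≤ A.card ∧ m ≤ C.card ∧
        ((∀ v ∈ A, ((nb G v ∩ C).card : ℝ) ≤ ε * C.card) ∨
         (∀ v ∈ A, ((C \ nb G v).card : ℝ) ≤ ε * C.card)) := by
  classical
  intro h
  induction h with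
  | zero =>
    intro H W _ _
    exact Or.inl ⟨fun j => j.elim0, fun j => j.elim0, fun i => i.elim0⟩
  | succ h ih =>
    intro H W hW hc
    have hm0 : (1 : ℝ) ≤ m := by exact_mod_cast hm
    have hh0 : (0 : ℝ) ≤ h := Nat.cast_nonneg h
    have hWc : ∀ j, m ≤ (W j).card := by
      intro j
      have h1 := hc j
      push_cast at h1
      have h2 : ε ^ (h + 1) ≤ 1 := pow_le_one₀ hε.le hε1
      have h3 : ε ^ (h + 1) * ((W j).card : ℝ) ≤ 1 * ((W j).card : ℝ) :=
        mul_le_mul_of_nonneg_right h2 (Nat.cast_nonneg _)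
      have h4 : (m : ℝ) ≤ ((W j).card : ℝ) := by nlinarith
      exact_mod_cast h4
    set B : Fin h → Finset V := fun j => (W 0).filter (fun v =>
      (H.Adj 0 j.succ → ((nb G v ∩ W j.succ).card : ℝ) < ε * (W j.succ).card) ∧
      (¬ H.Adj 0 j.succ → ((W j.succ \ nb G v).card : ℝ) < ε * (W j.succ).card)) with hB
    by_cases hex : ∃ j, m ≤ (B j).card
    · obtain ⟨j, hj⟩ := hex
      refine Or.inr ⟨B j, W j.succ, 0, j.succ, (Fin.succ_ne_zero j).symm,
        Finset.filter_subset _ _, Finset.Subset.refl _, hj, hWc _, ?_⟩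
      by_cases ha : H.Adj 0 j.succ
      · exact Or.inl fun v hv => ((Finset.mem_filter.1 hv).2.1 ha).le
      · exact Or.inr fun v hv => ((Finset.mem_filter.1 hv).2.2 ha).le
    · push_neg at hex
      have hU : (Finset.univ.biUnion B).card ≤ h * m := by
        refine (Finset.card_biUnion_le).trans ?_
        refine (Finset.sum_le_sum (fun j _ => (hex j).le)).trans ?_
        rw [Finset.sum_const, Finset.card_univ, Fintype.card_fin, smul_eq_mul]
      have hW0 : h * m < (W 0).card := by
        have h1 := hc 0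
        push_cast at h1
        have h2 : ε ^ (h + 1) ≤ 1 := pow_le_one₀ hε.le hε1
        have h3 : ε ^ (h + 1) * ((W 0).card : ℝ) ≤ 1 * ((W 0).card : ℝ) :=
          mul_le_mul_of_nonneg_right h2 (Nat.cast_nonneg _)
        have h4 : ((h * m : ℕ) : ℝ) < ((W 0).card : ℝ) := by
          push_cast
          nlinarith
        exact_mod_cast h4
      obtain ⟨v, hvW, hvB⟩ : ∃ v ∈ W 0, v ∉ Finset.univ.biUnion B := by
        by_contra hcon
        push_neg at hcon
        have := Finset.card_le_card (show W 0 ⊆ Finset.univ.biUnion B from fun x hx => hcon x hx)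
        omega
      have hvB' : ∀ j, v ∉ B j := by
        intro j hj
        exact hvB (Finset.mem_biUnion.2 ⟨j, Finset.mem_univ _, hj⟩)
      set W' : Fin h → Finset V := fun j =>
        if H.Adj 0 j.succ then W j.succ ∩ nb G v else W j.succ \ nb G v with hW'
      have hsub : ∀ j, W' j ⊆ W j.succ := by
        intro j
        rw [hW']
        dsimp only
        split_ifs
        · exact Finset.inter_subset_left
        · exact Finset.sdiff_subset
      have hcard : ∀ j, ε * ((W j.succ).card : ℝ) ≤ ((W' j).card : ℝ) := by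
        intro j
        by_contra hlt
        rw [not_le] at hlt
        apply hvB' j
        rw [hB]
        refine Finset.mem_filter.2 ⟨hvW, ?_, ?_⟩
        · intro ha
          rw [hW'] at hlt
          dsimp only at hlt
          rw [if_pos ha] at hlt
          rw [Finset.inter_comm]
          exact hlt
        · intro ha
          rw [hW'] at hlt
          dsimp only at hlt
          rw [if_neg ha] at hlt
          exact hlt
      rcases ih (H.comap Fin.succ) W' (fun i j hij =>
        (hW i.succ j.succ (fun e => hij (Fin.succ_injective _ e))).mono (hsub i) (hsub j)) (by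
          intro j
          have h1 := hc j.succ
          push_cast at h1
          have h2 : ε ^ (h + 1) * ((W j.succ).card : ℝ) = ε ^ h * (ε * ((W j.succ).card : ℝ)) := by
            ring
          have h3 : ε ^ h * (ε * ((W j.succ).card : ℝ)) ≤ ε ^ h * ((W' j).card : ℝ) :=
            mul_le_mul_of_nonneg_left (hcard j) (pow_nonneg hε.le _)
          nlinarith) with hl | hr
      · obtain ⟨f, hf1, hf2⟩ := hl
        refine Or.inl ⟨Fin.cons v f, ?_, ?_⟩
        · intro j
          refine Fin.cases ?_ (fun j => ?_) j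
          · exact hvW
          · rw [Fin.cons_succ]
            exact hsub j (hf1 j)
        · have key : ∀ j : Fin h, G.Adj v (f j) ↔ H.Adj 0 j.succ := by
            intro j
            have hj := hf1 j
            rw [hW'] at hj
            dsimp only at hj
            by_cases ha : H.Adj 0 j.succ
            · rw [if_pos ha] at hj
              exact ⟨fun _ => ha, fun _ => (mem_nb G v (f j)).1 (Finset.mem_inter.1 hj).2⟩
            · rw [if_neg ha] at hj
              exact ⟨fun h0 => absurd ((mem_nb G v (f j)).2 h0) (Finset.mem_sdiff.1 hj).2,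
                fun h0 => absurd h0 ha⟩
          intro i j hij
          induction i using Fin.cases with
          | zero =>
            induction j using Fin.cases with
            | zero => exact absurd rfl hij
            | succ j =>
              rw [Fin.cons_zero, Fin.cons_succ]
              exact key j
          | succ i =>
            induction j using Fin.cases with
            | zero =>
              rw [Fin.cons_zero, Fin.cons_succ, G.adj_comm, H.adj_comm]
              exact key i
            | succ j =>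
              rw [Fin.cons_succ, Fin.cons_succ]
              exact hf2 i j (fun e => hij (by rw [e]))
      · obtain ⟨A, C, i, j, hij, hA, hC, h1, h2, h3⟩ := hr
        exact Or.inr ⟨A, C, i.succ, j.succ, fun e => hij (Fin.succ_injective _ e),
          hA.trans (hsub i), hC.trans (hsub j), h1, h2, h3⟩
-- END gre

-- BEGIN prt
/-- `h` disjoint subsets of size `q`. Hint: `U.equivFin` or induction on `h`
(`Finset.exists_subset_card_eq`). -/
theorem prt (h q : ℕ) (U : Finset V) (hq : h * q ≤ U.card) :
    ∃ W : Fin h → Finset V, (∀ j, W j ⊆ U) ∧ (∀ i j, i ≠ j → Disjoint (W i) (W j)) ∧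
      ∀ j, (W j).card = q := by
  induction h generalizing U with
  | zero => exact ⟨fun i => i.elim0, fun i => i.elim0, fun i => i.elim0, fun i => i.elim0⟩
  | succ h ih =>
    have h1 : (h + 1) * q = h * q + q := by ring
    rw [h1] at hq
    obtain ⟨A, hA, hAq⟩ := Finset.exists_subset_card_eq (s := U) (n := q) (by omega)
    have h2 : h * q ≤ (U \ A).card := by
      rw [Finset.card_sdiff_of_subset hA, hAq]
      omega
    obtain ⟨W, hW1, hW2, hW3⟩ := ih (U \ A) h2
    have h3 : ∀ j, Disjoint A (W j) := fun j =>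
      Finset.disjoint_left.2 fun a ha ha' => (Finset.mem_sdiff.1 (hW1 j ha')).2 ha
    refine ⟨Fin.cons A W, ?_, ?_, ?_⟩
    · intro j
      refine Fin.cases ?_ (fun j => ?_) j
      · rw [Fin.cons_zero]
        exact hA
      · rw [Fin.cons_succ]
        exact (hW1 j).trans Finset.sdiff_subset
    · intro i j
      refine Fin.cases ?_ (fun i => ?_) i
      · refine Fin.cases ?_ (fun j => ?_) j
        · intro hne
          exact absurd rfl hne
        · intro _
          rw [Fin.cons_zero, Fin.cons_succ]
          exact h3 j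
      · refine Fin.cases ?_ (fun j => ?_) j
        · intro _
          rw [Fin.cons_zero, Fin.cons_succ]
          exact (h3 i).symm
        · intro hne
          rw [Fin.cons_succ, Fin.cons_succ]
          exact hW2 i j fun heq => hne (congrArg Fin.succ heq)
    · intro j
      refine Fin.cases ?_ (fun j => ?_) j
      · rw [Fin.cons_zero]
        exact hAq
      · rw [Fin.cons_succ]
        exact hW3 j
-- END prt

-- BEGIN pex
private theorem pex_q (h N : ℕ) (hh : 1 ≤ h) (hN : 2 * h ≤ N) : (N : ℝ) / (2 * h) ≤ ((N / h : ℕ) : ℝ) := by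
  have hpos : (0 : ℝ) < h := by exact_mod_cast hh
  have h1 : N < (N / h + 1) * h := by
    have := Nat.lt_mul_div_succ N (show 0 < h by omega)
    rw [mul_comm]
    exact this
  have h2 : (N : ℝ) < (((N / h : ℕ) : ℝ) + 1) * h := by exact_mod_cast h1
  have h3 : (2 : ℝ) * h ≤ N := by exact_mod_cast hN
  rw [div_le_iff₀ (by positivity)]
  nlinarith

/-- In a graph without induced `H` every set with at least two vertices contains a pair of
linear size which is sparse or dense in one direction.
Hint: `δ = ε ^ h / (8 h (h + 1)) ≤ 1`. Let `N = U.card`. If `δ N ≤ 1` take two distinct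
vertices, `A = {u}`, `C = {w}`: adjacent (`C \ nb G u = ∅`) or not (`nb G u ∩ C = ∅`). Otherwise
`m = ⌈δ N⌉₊ ≤ 2 δ N`, `q = N / h ≥ N / (2 h)` (as `N > h`), `prt`, and
`2 (h + 1) m ≤ 4 (h + 1) δ N = ε ^ h N / (2 h) ≤ ε ^ h q`; `gre`; the left side would be an
embedding `H ↪g G` (injective since the `W j` are disjoint). -/
theorem pex (h : ℕ) (hh : 1 ≤ h) (H : SimpleGraph (Fin h)) (ε : ℝ) (hε : 0 < ε) (hε1 : ε ≤ 1) :
    ∃ δ : ℝ, 0 < δ ∧ δ ≤ 1 ∧ ∀ (V : Type) [Fintype V] [DecidableEq V] (G : SimpleGraph V),
      IsEmpty (H ↪g G) → ∀ U : Finset V, 2 ≤ U.card →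
      ∃ A C : Finset V, A ⊆ U ∧ C ⊆ U ∧ Disjoint A C ∧ A.Nonempty ∧ C.Nonempty ∧
        δ * U.card ≤ A.card ∧ δ * U.card ≤ C.card ∧
        ((∀ v ∈ A, ((nb G v ∩ C).card : ℝ) ≤ ε * C.card) ∨
         (∀ v ∈ A, ((C \ nb G v).card : ℝ) ≤ ε * C.card)) := by
  have hh' : (1 : ℝ) ≤ h := by exact_mod_cast hh
  have hpos : (0 : ℝ) < h := by linarith
  have hp : (0 : ℝ) < ε ^ h := pow_pos hε h
  have hp1 : ε ^ h ≤ 1 := pow_le_one₀ hε.le hε1
  have hd : (0 : ℝ) < 8 * h * (h + 1) := by positivity
  have hd1 : (16 : ℝ) ≤ 8 * h * (h + 1) := by nlinarith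
  have hδ1 : ε ^ h / (8 * h * (h + 1)) ≤ 1 := by
    rw [div_le_one hd]
    linarith
  refine ⟨ε ^ h / (8 * h * (h + 1)), by positivity, hδ1, ?_⟩
  intro V _ _ G hG U hU
  set δ : ℝ := ε ^ h / (8 * h * (h + 1)) with hδ
  have hδpos : 0 < δ := by positivity
  rcases le_or_gt (δ * U.card) 1 with hs | hs
  · obtain ⟨u, hu, w, hw, huw⟩ := Finset.one_lt_card.1 (show 1 < U.card by omega)
    refine ⟨{u}, {w}, Finset.singleton_subset_iff.2 hu, Finset.singleton_subset_iff.2 hw,
      Finset.disjoint_singleton.2 huw, Finset.singleton_nonempty u, Finset.singleton_nonempty w, ?_, ?_, ?_⟩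
    · rw [Finset.card_singleton, Nat.cast_one]
      exact hs
    · rw [Finset.card_singleton, Nat.cast_one]
      exact hs
    · by_cases hadj : G.Adj u w
      · right
        intro v hv
        rw [Finset.mem_singleton] at hv
        subst hv
        have : ({w} : Finset V) \ nb G v = ∅ := by
          rw [Finset.sdiff_eq_empty_iff_subset, Finset.singleton_subset_iff, mem_nb]
          exact hadj
        rw [this, Finset.card_empty, Nat.cast_zero]
        positivity
      · left
        intro v hv
        rw [Finset.mem_singleton] at hv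
        subst hv
        have : nb G v ∩ {w} = ∅ := by
          rw [Finset.eq_empty_iff_forall_notMem]
          intro x hx
          rw [Finset.mem_inter, mem_nb, Finset.mem_singleton] at hx
          exact hadj (hx.2 ▸ hx.1)
        rw [this, Finset.card_empty, Nat.cast_zero]
        positivity
  · have hNbig : 8 * (h : ℝ) * (h + 1) < U.card := by
      have h1 : 1 * (8 * (h : ℝ) * (h + 1)) < δ * U.card * (8 * h * (h + 1)) :=
        mul_lt_mul_of_pos_right hs hd
      have h2 : δ * U.card * (8 * h * (h + 1)) = ε ^ h * U.card := by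
        rw [hδ]
        field_simp
      have h3 : ε ^ h * (U.card : ℝ) ≤ 1 * U.card :=
        mul_le_mul_of_nonneg_right hp1 (Nat.cast_nonneg _)
      linarith
    have hN2 : 2 * h ≤ U.card := by
      have : (2 : ℝ) * h ≤ U.card := by nlinarith
      exact_mod_cast this
    have hq := pex_q h U.card hh hN2
    obtain ⟨W, hW1, hW2, hW3⟩ := prt h (U.card / h) U (Nat.mul_div_le U.card h)
    have hm1 : 1 ≤ ⌈δ * U.card⌉₊ := Nat.one_le_ceil_iff.2 (by linarith)
    have hm2 : δ * U.card ≤ ⌈δ * U.card⌉₊ := Nat.le_ceil _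
    have hm3 : (⌈δ * U.card⌉₊ : ℝ) < δ * U.card + 1 := Nat.ceil_lt_add_one (by linarith)
    have hcard : ∀ j, 2 * ((h : ℝ) + 1) * (⌈δ * U.card⌉₊ : ℕ) ≤ ε ^ h * (W j).card := by
      intro j
      rw [hW3 j]
      have h1 : 2 * ((h : ℝ) + 1) * (⌈δ * U.card⌉₊ : ℕ) ≤ 2 * ((h : ℝ) + 1) * (2 * (δ * U.card)) :=
        mul_le_mul_of_nonneg_left (by linarith) (by positivity)
      have h2 : 2 * ((h : ℝ) + 1) * (2 * (δ * U.card)) = ε ^ h * ((U.card : ℝ) / (2 * h)) := by
        rw [hδ]
        field_simp
        ring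
      have h3 : ε ^ h * ((U.card : ℝ) / (2 * h)) ≤ ε ^ h * ((U.card / h : ℕ) : ℝ) :=
        mul_le_mul_of_nonneg_left hq hp.le
      linarith
    rcases gre G ε hε hε1 _ hm1 h H W hW2 hcard with ⟨f, hf1, hf2⟩ | ⟨A, C, i, j, hij, hA, hC, hmA, hmC, hlast⟩
    · exfalso
      refine hG.false ⟨⟨f, fun i j hij => ?_⟩, fun {i j} => ?_⟩
      · by_contra hne
        have h1 := hf1 i
        have h2 := hf1 j
        rw [hij] at h1
        exact Finset.disjoint_left.1 (hW2 i j hne) h1 h2
      · by_cases hne : i = j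
        · subst hne
          simp
        · exact hf2 i j hne
    · have hA0 : 0 < A.card := lt_of_lt_of_le hm1 hmA
      have hC0 : 0 < C.card := lt_of_lt_of_le hm1 hmC
      have hA1 : ((⌈δ * U.card⌉₊ : ℕ) : ℝ) ≤ A.card := by exact_mod_cast hmA
      have hC1 : ((⌈δ * U.card⌉₊ : ℕ) : ℝ) ≤ C.card := by exact_mod_cast hmC
      exact ⟨A, C, hA.trans (hW1 i), hC.trans (hW1 j),
        Finset.disjoint_of_subset_left hA (Finset.disjoint_of_subset_right hC (hW2 i j hij)),
        Finset.card_pos.1 hA0, Finset.card_pos.1 hC0, hm2.trans hA1, hm2.trans hC1, hlast⟩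
-- END pex

end Pool.Agent.Xbh
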