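import Pool.Agent.Xbh.Rank

set_option autoImplicit false

/-!
# The rank with long holes and antiholes (used in the proofs)
-/

namespace Pool.Agent.Xbh

variable {V : Type}

/-- As `Rank`, but rank `0` means: no hole and no antihole of length at least `l` inside `W`. -/
def HRank (l : ℕ) (G : SimpleGraph V) : ℕ → Set V → Prop
  | 0, W => ∀ m : ℕ, l ≤ m → (∀ e : SimpleGraph.cycleGraph m ↪g G, ∃ x, e x ∉ W) ∧
      ∀ e : SimpleGraph.cycleGraph m ↪g Gᶜ, ∃ x, e x ∉ W
  | r + 1, W => ∀ S : Set V, S ⊆ W → S.Nonempty → Prim G S →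
      ∃ v ∈ S, HRank l G r {u | u ∈ S ∧ G.Adj v u} ∨
        HRank l G r {u | u ∈ S ∧ u ≠ v ∧ ¬ G.Adj v u}

theorem hrk (l : ℕ) (e : ℝ) (G : SimpleGraph V) (h0 : ∀ W : Set V, HRank l G 0 W → Pairs e G W)
    (r : ℕ) : ∀ W : Set V, HRank l G r W → Rank e G r W := by
  induction r with
  | zero => exact fun W h => h0 W h
  | succ r ih =>
    intro W h S hS hne hp
    obtain ⟨v, hv, h1⟩ := h S hS hne hp
    exact ⟨v, hv, h1.imp (ih _) (ih _)⟩

end Pool.Agent.Xbh
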