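import Pool.Agent.Xbh.Loop
import Pool.Agent.Xbh.Giant

set_option autoImplicit false
set_option linter.unusedSectionVars false

namespace Pool.Agent.Xbh

open Finset

variable {V : Type} [Fintype V] [DecidableEq V]

-- BEGIN clo
/-- Closing the long path. Hint: `gya` gives `p 0 = p0, ..., p m`, `C ⊆ Z`,
`ms μ C ≥ 3 δ ≥ δ`. `wit` with `N = cn G X`, this `C` and `P` = the set of `p 1, ..., p m`
(image of `Finset.Icc 1 m`, cardinality `≤ m`): a vertex `w ∈ cn G X`, with a neighbour in `C`,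
not adjacent to `p 1, ..., p m`. `w ∉ X` (`Anti G X Z`), `w ≠ p0` (`p0` is adjacent to `p 1`).
Then `loo` with the path `fun i => p (i + 1)`, `q = m`, and `Y = ((X ∪ {w}) ∪ {p0}) ∪ C`,
connected by `cun`, `csg` (if `w` or `p0` were in `X` ... they are not; both lie in `cn G X`). -/
theorem clo {G : SimpleGraph V} {μ : V → ℝ} {δ η : ℝ} (h : Hyp G μ δ η) (X Z : Finset V)
    (hX : Conn G X) (hZ : Conn G Z) (hXZ : Anti G X Z) (hcZ : Disjoint (cn G X) Z)
    (p0 : V) (hp0 : p0 ∈ cn G X) (hp0X : p0 ∉ X) (hp0Z : ∃ c ∈ Z, G.Adj p0 c) (m : ℕ)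
    (hm3 : 3 ≤ m) (hm : (m : ℝ) * (η + δ) + 3 * δ ≤ ms μ Z)
    (hτ : (m : ℝ) * η + δ ≤ ms μ (cn G X)) :
    ∃ r : ℕ, m + 1 ≤ r ∧ Nonempty (SimpleGraph.cycleGraph r ↪g G) := by
  have hdp := h.dpos
  have hp0Zn : p0 ∉ Z := fun hz => Finset.disjoint_left.1 hcZ hp0 hz
  obtain ⟨p, C, hCZ, hp0e, hC, hpZ, hpC, hpinj, hpadj, hpCa, hpm, hmsC⟩ :=
    gya h Z hZ p0 hp0Zn hp0Z m hm
  have hd : Disjoint (cn G X) C := Finset.disjoint_of_subset_right hCZ hcZ
  have hdC : δ ≤ ms μ C := by linarith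
  have hXcn : X ⊆ cn G X := fun x hx => (mem_cn G X x).2 (Or.inl hx)
  have hPc : (((Finset.Icc 1 m).image p).card : ℝ) ≤ m := by
    have h1 : ((Finset.Icc 1 m).image p).card ≤ (Finset.Icc 1 m).card := Finset.card_image_le
    rw [Nat.card_Icc] at h1
    have h2 : ((Finset.Icc 1 m).image p).card ≤ m := by omega
    exact_mod_cast h2
  have hη : 0 ≤ η := le_trans (ms_nonneg μ h.nn _) (h.nbd p0)
  obtain ⟨w, hwN, hwC, hwP⟩ := wit h (cn G X) C hd hdC ((Finset.Icc 1 m).image p)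
    (by have := mul_le_mul_of_nonneg_right hPc hη; linarith)
  have hwX : w ∉ X := by
    intro hw
    obtain ⟨c, hc, hcw⟩ := hwC
    exact hXZ w hw c (hCZ hc) hcw
  have hwadj : ∀ i, 1 ≤ i → i ≤ m → ¬ G.Adj (p i) w := fun i h1 h2 =>
    hwP (p i) (Finset.mem_image.2 ⟨i, Finset.mem_Icc.2 ⟨h1, h2⟩, rfl⟩)
  have h01 : G.Adj (p 0) (p 1) := (hpadj 0 1 (by omega) (by omega)).2 rfl
  have hwp0 : w ≠ p0 := by
    intro he
    apply hwadj 1 le_rfl (by omega)
    rw [he, ← hp0e]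
    exact h01.symm
  have hex : ∀ v, v ∈ cn G X → v ∉ X → ∃ x ∈ X, G.Adj x v := by
    intro v hv hvX
    rcases (mem_cn G X v).1 hv with h1 | h1
    · exact absurd h1 hvX
    · exact h1
  obtain ⟨xw, hxw, hxwa⟩ := hex w hwN hwX
  obtain ⟨xp, hxp, hxpa⟩ := hex p0 hp0 hp0X
  have c1 : Conn G (X ∪ {w}) := cun G X {w} hX (csg G w)
    (Finset.disjoint_singleton_right.2 hwX) ⟨xw, hxw, w, Finset.mem_singleton_self w, hxwa⟩
  have hp01 : p0 ∉ X ∪ {w} := by
    intro hh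
    rcases Finset.mem_union.1 hh with h1 | h1
    · exact hp0X h1
    · exact hwp0 (Finset.mem_singleton.1 h1).symm
  have c2 : Conn G ((X ∪ {w}) ∪ {p0}) := cun G (X ∪ {w}) {p0} c1 (csg G p0)
    (Finset.disjoint_singleton_right.2 hp01)
    ⟨xp, Finset.mem_union_left _ hxp, p0, Finset.mem_singleton_self p0, hxpa⟩
  have hsub : (X ∪ {w}) ∪ {p0} ⊆ cn G X := by
    intro v hv
    rcases Finset.mem_union.1 hv with h1 | h1
    · rcases Finset.mem_union.1 h1 with h2 | h2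
      · exact hXcn h2
      · rw [Finset.mem_singleton.1 h2]; exact hwN
    · rw [Finset.mem_singleton.1 h1]; exact hp0
  obtain ⟨cw, hcw, hcwa⟩ := hwC
  have c3 : Conn G (((X ∪ {w}) ∪ {p0}) ∪ C) := cun G ((X ∪ {w}) ∪ {p0}) C c2 hC
    (Finset.disjoint_of_subset_left hsub hd)
    ⟨w, Finset.mem_union_left _ (Finset.mem_union_right _ (Finset.mem_singleton_self w)),
      cw, hcw, hcwa⟩
  refine loo G m hm3 (fun i => p (i + 1)) ?_ ?_ (((X ∪ {w}) ∪ {p0}) ∪ C) c3 ?_ ?_ ?_ ?_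
  · intro i j hi hj hij
    have := hpinj (i + 1) (j + 1) (by omega) (by omega) hij
    omega
  · intro i j hij hj
    have := hpadj (i + 1) (j + 1) (by omega) (by omega)
    rw [this]
    omega
  · intro i hi hmem
    rcases Finset.mem_union.1 hmem with h1 | h1
    · exact Finset.disjoint_left.1 hcZ (hsub h1) (hpZ (i + 1) (by omega) (by omega))
    · exact hpC (i + 1) (by omega) h1
  · intro i hi hi2 y hy hadj
    rcases Finset.mem_union.1 hy with h1 | h1
    · rcases Finset.mem_union.1 h1 with h2 | h2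
      · rcases Finset.mem_union.1 h2 with h3 | h3
        · exact hXZ y h3 (p (i + 1)) (hpZ (i + 1) (by omega) (by omega)) hadj.symm
        · rw [Finset.mem_singleton.1 h3] at hadj
          exact hwadj (i + 1) (by omega) (by omega) hadj
      · rw [Finset.mem_singleton.1 h2, ← hp0e] at hadj
        have := (hpadj 0 (i + 1) (by omega) (by omega)).1 hadj.symm
        omega
    · exact hpCa (i + 1) (by omega) y h1 hadj
  · refine ⟨p0, Finset.mem_union_left _ (Finset.mem_union_right _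
      (Finset.mem_singleton_self p0)), ?_⟩
    rw [← hp0e]
    exact h01.symm
  · obtain ⟨c, hc, hca⟩ := hpm
    refine ⟨c, Finset.mem_union_right _ hc, ?_⟩
    have : m - 1 + 1 = m := by omega
    simp only [this]
    exact hca
-- END clo

-- BEGIN hop
/-- A long hole or an anticomplete pair. Hint: if there is no such pair, `Hyp G μ δ η` holds;
`gro` with `τ = m η + 2 δ` gives `X`; `W = univ \ cn G X` has measure
`> 1 - (m+1) η - 3 δ ≥ 3 δ`; `Z` = `gia` for `W`, measure `≥ 1 - (m+1) η - 4 δ ≥ m (η + δ) + 3 δ`;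
`h.no` for `(cn G X, Z)`: both have measure `≥ δ`, so there is an edge `p0 z`, `p0 ∈ cn G X`,
`z ∈ Z`, and `p0 ∉ X` since the vertices of `Z` are outside `cn G X`; then `clo`. (`0 ≤ η`
because `V` is nonempty: `ms μ univ = 1`.) -/
theorem hop (m : ℕ) (hm : 3 ≤ m) (G : SimpleGraph V) (μ : V → ℝ) (δ η : ℝ)
    (nn : ∀ v, 0 ≤ μ v) (tot : ms μ Finset.univ = 1) (dpos : 0 < δ) (pt : ∀ v, μ v ≤ δ)
    (nbd : ∀ v, ms μ (nb G v) ≤ η)
    (hpar : 2 * ((m : ℝ) + 1) * η + ((m : ℝ) + 8) * δ ≤ 1) :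
    (∃ r : ℕ, m + 1 ≤ r ∧ Nonempty (SimpleGraph.cycleGraph r ↪g G)) ∨
      ∃ A B : Finset V, Disjoint A B ∧ Anti G A B ∧ δ ≤ ms μ A ∧ δ ≤ ms μ B := by
  classical
  by_cases hpair : ∃ A B : Finset V, Disjoint A B ∧ Anti G A B ∧ δ ≤ ms μ A ∧ δ ≤ ms μ B
  · exact Or.inr hpair
  · refine Or.inl ?_
    have h : Hyp G μ δ η := by
      refine ⟨nn, tot, dpos, pt, nbd, fun A B hAB hanti => ?_⟩
      by_contra hcon
      push Not at hcon
      exact hpair ⟨A, B, hAB, hanti, hcon.1, hcon.2⟩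
    obtain ⟨v0, -⟩ : (Finset.univ : Finset V).Nonempty := ms_pos_nonempty μ (by rw [tot]; exact one_pos)
    have hη : 0 ≤ η := (ms_nonneg μ nn (nb G v0)).trans (nbd v0)
    have hm3 : (3 : ℝ) ≤ m := by exact_mod_cast hm
    have hmη : 3 * η ≤ (m : ℝ) * η := mul_le_mul_of_nonneg_right hm3 hη
    have hmδ : 3 * δ ≤ (m : ℝ) * δ := mul_le_mul_of_nonneg_right hm3 dpos.le
    have hpar' : 2 * ((m : ℝ) * η) + 2 * η + (m : ℝ) * δ + 8 * δ ≤ 1 := by linarith
    obtain ⟨X, hX, hX1, hX2⟩ := gro h ((m : ℝ) * η + 2 * δ) (by linarith) (by linarith) (by linarith)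
    have hW : ms μ (Finset.univ \ cn G X) = 1 - ms μ (cn G X) := by
      rw [ms_sdiff μ (Finset.subset_univ _), tot]
    obtain ⟨Z, hZW, hZ, hZanti, hZms⟩ := gia h (Finset.univ \ cn G X) (by rw [hW]; linarith)
    rw [hW] at hZms
    have hout : ∀ z ∈ Z, z ∉ cn G X := fun z hz => (Finset.mem_sdiff.1 (hZW hz)).2
    have hdisj : Disjoint (cn G X) Z := by
      rw [Finset.disjoint_left]
      exact fun a ha ha' => hout a ha' ha
    have hXZ : Anti G X Z := by
      intro x hx z hz hadj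
      exact hout z hz ((mem_cn G X z).2 (Or.inr ⟨x, hx, hadj⟩))
    have hedge : ∃ p0 ∈ cn G X, ∃ z ∈ Z, G.Adj p0 z := by
      by_contra hcon
      push Not at hcon
      rcases h.no (cn G X) Z hdisj (fun a ha b hb => hcon a ha b hb) with h1 | h1
      · linarith
      · linarith
    obtain ⟨p0, hp0, z, hz, hadj⟩ := hedge
    have hp0X : p0 ∉ X := by
      intro hmem
      exact hXZ p0 hmem z hz hadj
    exact clo h X Z hX hZ hXZ hdisj p0 hp0 hp0X ⟨z, hz, hadj⟩ m hm (by linarith) (by linarith)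
-- END hop

end Pool.Agent.Xbh
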