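import Pool.Agent.Xbh.Fre

set_option autoImplicit false

/-!
# Iteration of the closure theorem
-/

namespace Pool.Agent.Xbh

open Finset

/-- `Itr B t u 0` is the class `B`, and `Itr B t u (r + 1)` is the class
`SCls (Itr B t u r) t u 0`. -/
def Itr (B : (V : Type) → SimpleGraph V → Prop) (t u : ℕ) :
    ℕ → (V : Type) → SimpleGraph V → Prop
  | 0 => B
  | r + 1 => fun V G => ∃ (_ : Fintype V) (_ : DecidableEq V), SCls (Itr B t u r) t u 0 V G

private theorem itx_num (t n P : ℕ) (hP : 1 ≤ P) :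
    2 ^ (0 + 2) * n ^ (t + 5) * (P + 2 * n + 6) ≤ (n + 1) ^ (t + 10) * P := by
  calc 2 ^ (0 + 2) * n ^ (t + 5) * (P + 2 * n + 6)
      ≤ 2 ^ (0 + 2) * n ^ (t + 5) * (P * (2 * n + 7)) := by
        refine Nat.mul_le_mul_left _ ?_
        nlinarith [Nat.mul_le_mul_right (2 * n + 6) hP]
    _ = n ^ (t + 4) * (4 * n * (2 * n + 7)) * P := by ring
    _ ≤ (n + 1) ^ (t + 4) * (n + 1) ^ 6 * P := by
        refine Nat.mul_le_mul_right _ (Nat.mul_le_mul (Nat.pow_le_pow_left (Nat.le_succ n) _) ?_)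
        rcases Nat.eq_zero_or_pos n with h0 | h0
        · subst h0
          norm_num
        · obtain ⟨m, rfl⟩ : ∃ m, n = m + 1 := ⟨n - 1, by omega⟩
          have h4 : (m + 1 + 1) ^ 6 = 4 * (m + 1) * (2 * (m + 1) + 7) +
            (28 + 148 * m + 232 * m ^ 2 + 160 * m ^ 3 + 60 * m ^ 4 + 12 * m ^ 5 + m ^ 6) := by
            ring
          rw [h4]
          exact Nat.le_add_right _ _
    _ = (n + 1) ^ (t + 10) * P := by ring

/-- the iterated closure theorem -/
theorem itx (B : (V : Type) → SimpleGraph V → Prop) (p : ℕ → ℕ) (hp : Monotone p)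
    (hB : ∀ (V : Type) [Fintype V] [DecidableEq V] (G : SimpleGraph V), B V G →
      XC (STAB G univ) (p (Fintype.card V)) ∧ XC (STAB Gᶜ univ) (p (Fintype.card V)))
    (t u r : ℕ) : ∀ (V : Type) [Fintype V] [DecidableEq V] (G : SimpleGraph V), Itr B t u r V G →
      XC (STAB G univ) ((Fintype.card V + 1) ^ ((t + 5 * u + 10) * r) * (p (Fintype.card V) + 1)) ∧
        XC (STAB Gᶜ univ) ((Fintype.card V + 1) ^ ((t + 5 * u + 10) * r) * (p (Fintype.card V) + 1)) := by
  induction r with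
  | zero =>
    intro V _ _ G h
    have h1 := hB V G h
    rw [Nat.mul_zero, pow_zero, Nat.one_mul]
    exact ⟨XC_mono _ _ _ h1.1 (Nat.le_succ _), XC_mono _ _ _ h1.2 (Nat.le_succ _)⟩
  | succ r ih =>
    intro V i1 i2 G h
    obtain ⟨j1, j2, h⟩ := h
    have e1 : j1 = i1 := Subsingleton.elim _ _
    have e2 : j2 = i2 := Subsingleton.elim _ _
    subst e1
    subst e2
    have hm : Monotone fun n : ℕ => (n + 1) ^ ((t + 5 * u + 10) * r) * (p n + 1) := fun a b hab =>
      Nat.mul_le_mul (Nat.pow_le_pow_left (Nat.add_le_add_right hab 1) _)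
        (Nat.add_le_add_right (hp hab) 1)
    have hc : SCls (Itr B t u r) t u 0 V Gᶜ := by
      refine SCls.compl 0 V Gᶜ ?_
      rw [compl_compl]
      exact h
    have hP : 1 ≤ (Fintype.card V + 1) ^ ((t + 5 * u + 10) * r) * (p (Fintype.card V) + 1) :=
      Nat.mul_pos (Nat.pow_pos (Nat.succ_pos _)) (Nat.succ_pos _)
    have hnum : 2 ^ (0 + 2) * Fintype.card V ^ (t + 5 * u + 5) *
        ((Fintype.card V + 1) ^ ((t + 5 * u + 10) * r) * (p (Fintype.card V) + 1) +
          2 * Fintype.card V + 6) ≤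
        (Fintype.card V + 1) ^ ((t + 5 * u + 10) * (r + 1)) * (p (Fintype.card V) + 1) := by
      refine (itx_num (t + 5 * u) (Fintype.card V) _ hP).trans (le_of_eq ?_)
      rw [show (t + 5 * u + 10) * (r + 1) = (t + 5 * u + 10) + (t + 5 * u + 10) * r by ring,
        pow_add _ (t + 5 * u + 10) ((t + 5 * u + 10) * r), Nat.mul_assoc]
    exact ⟨XC_mono _ _ _ (scy (Itr B t u r) _ hm ih t u 0 V G h) hnum,
      XC_mono _ _ _ (scy (Itr B t u r) _ hm ih t u 0 V Gᶜ hc) hnum⟩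

/-- the iterated classes over the basic graphs -/
theorem itz : ∃ c : ℕ, ∀ (t u r n : ℕ) (G : SimpleGraph (Fin n)), Itr Bas t u r (Fin n) G →
    XC (STAB G univ) ((n + 1) ^ (c + (t + 5 * u + 10) * r)) := by
  obtain ⟨c, hc⟩ := jba
  refine ⟨c + 1, fun t u r n G h => ?_⟩
  have hm : Monotone fun m : ℕ => (m + 1) ^ c := fun a b hab =>
    Nat.pow_le_pow_left (Nat.add_le_add_right hab 1) c
  have h1 := (itx Bas (fun m => (m + 1) ^ c) hm hc t u r (Fin n) G h).1
  rw [Fintype.card_fin] at h1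
  rcases Nat.eq_zero_or_pos n with h0 | h0
  · subst h0
    have hu : (univ : Finset (Fin 0)) = ∅ := by
      rw [← Finset.card_eq_zero, Finset.card_univ, Fintype.card_fin]
    rw [hu]
    exact XC_mono _ _ _ (ba0 G) (Nat.zero_le _)
  · refine XC_mono _ _ _ h1 ?_
    have h2 : (n + 1) ^ c + 1 ≤ (n + 1) ^ c * (n + 1) := by
      have h3 : 1 ≤ (n + 1) ^ c := Nat.one_le_pow _ _ (by omega)
      nlinarith [Nat.mul_le_mul h3 h0]
    calc (n + 1) ^ ((t + 5 * u + 10) * r) * ((n + 1) ^ c + 1)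
        ≤ (n + 1) ^ ((t + 5 * u + 10) * r) * ((n + 1) ^ c * (n + 1)) := Nat.mul_le_mul_left _ h2
      _ = (n + 1) ^ (c + 1 + (t + 5 * u + 10) * r) := by ring

end Pool.Agent.Xbh
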