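import Pool.Agent.Xbh.Defs

set_option autoImplicit false

/-!
# `k`-joins and their blocks
-/

namespace Pool.Agent.Xbh

/-- The block of `G` at the vertex set `X` for the labels `l`: the subgraph of `G` induced on `X`
and `k` further vertices, pairwise not adjacent, the `j`-th of which is adjacent to the vertices
`u ∈ X` with `l u = some j`. -/
def Blk {V : Type} {k : ℕ} (G : SimpleGraph V) (X : Finset V) (l : V → Option (Fin k)) :
    SimpleGraph ({v // v ∈ X} ⊕ Fin k) where
  Adj a b := match a, b with
    | Sum.inl u, Sum.inl w => G.Adj u.1 w.1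
    | Sum.inl u, Sum.inr j => l u.1 = some j
    | Sum.inr j, Sum.inl u => l u.1 = some j
    | Sum.inr _, Sum.inr _ => False
  symm := ⟨by
    rintro (u | i) (w | j) h
    · exact SimpleGraph.Adj.symm (G := G) h
    · exact h
    · exact h
    · exact h⟩
  loopless := ⟨by
    rintro (u | i) h
    · exact G.loopless.irrefl u.1 h
    · exact h⟩

/-- `S` and its complement form a `k`-join of `G` with the labels `l`: a vertex `u ∈ S` and a vertex
`w ∉ S` are adjacent if and only if they have the same label `j < k` (`none` is no label). -/
def KJn {V : Type} {k : ℕ} (G : SimpleGraph V) (S : Finset V) (l : V → Option (Fin k)) : Prop :=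
  ∀ u ∈ S, ∀ w, w ∉ S → (G.Adj u w ↔ ∃ j, l u = some j ∧ l w = some j)

end Pool.Agent.Xbh
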