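import Pool.Agent.Xbh.Rk
import Pool.Agent.Xbh.Join

set_option autoImplicit false

/-!
# Extended formulations along `k`-joins
-/

namespace Pool.Agent.Xbh

open Finset

variable {V W : Type} [Fintype V] [DecidableEq V] [Fintype W] [DecidableEq W]

-- BEGIN prd
/-- Product. PROOF. `h₁ = ⟨k₁, A₁, b₁, π₁, ..⟩`, `h₂ = ⟨k₂, ..⟩`: `xof` with `ι = Fin f₁ ⊕ Fin f₂`, `κ = Fin k₁ ⊕ Fin k₂`, the block
diagonal system, `π (y) = Sum.elim (π₁ (y ∘ inl)) (π₂ (y ∘ inr))`. See the proof of `glu` in `Poly.lean` (the same construction, with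
another map at the end; its boundedness argument can be copied). -/
theorem prd (P₁ : Set (V → ℝ)) (P₂ : Set (W → ℝ)) (f₁ f₂ : ℕ) (h₁ : XC P₁ f₁) (h₂ : XC P₂ f₂) :
    XC {x : V ⊕ W → ℝ | (fun v => x (Sum.inl v)) ∈ P₁ ∧ (fun w => x (Sum.inr w)) ∈ P₂}
      (f₁ + f₂) := by
  classical
  obtain ⟨k₁, M₁, b₁, π₁, hb₁, him₁⟩ := h₁
  obtain ⟨k₂, M₂, b₂, π₂, hb₂, him₂⟩ := h₂
  let L₁ : (Fin k₁ ⊕ Fin k₂ → ℝ) →ₗ[ℝ] (Fin k₁ → ℝ) := LinearMap.funLeft ℝ ℝ Sum.inl
  let L₂ : (Fin k₁ ⊕ Fin k₂ → ℝ) →ₗ[ℝ] (Fin k₂ → ℝ) := LinearMap.funLeft ℝ ℝ Sum.inr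
  let g₁ : (Fin k₁ ⊕ Fin k₂ → ℝ) →ᵃ[ℝ] (V → ℝ) := π₁.comp L₁.toAffineMap
  let g₂ : (Fin k₁ ⊕ Fin k₂ → ℝ) →ᵃ[ℝ] (W → ℝ) := π₂.comp L₂.toAffineMap
  let π : (Fin k₁ ⊕ Fin k₂ → ℝ) →ᵃ[ℝ] (V ⊕ W → ℝ) := AffineMap.pi (fun v =>
    Sum.elim (fun v => ((LinearMap.proj v : (V → ℝ) →ₗ[ℝ] ℝ).toAffineMap).comp g₁)
      (fun w => ((LinearMap.proj w : (W → ℝ) →ₗ[ℝ] ℝ).toAffineMap).comp g₂) v)
  have hπ₁ : ∀ (y : Fin k₁ ⊕ Fin k₂ → ℝ) (v : V), π y (Sum.inl v) =
      π₁ (fun j => y (Sum.inl j)) v := fun y v => rfl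
  have hπ₂ : ∀ (y : Fin k₁ ⊕ Fin k₂ → ℝ) (w : W), π y (Sum.inr w) =
      π₂ (fun j => y (Sum.inr j)) w := fun y w => rfl
  obtain ⟨M, hM⟩ : ∃ M : Fin f₁ ⊕ Fin f₂ → Fin k₁ ⊕ Fin k₂ → ℝ,
      M = Sum.elim (fun i => Sum.elim (M₁ i) (fun _ => 0)) (fun i => Sum.elim (fun _ => 0) (M₂ i)) :=
    ⟨_, rfl⟩
  have hM₁ : ∀ (y : Fin k₁ ⊕ Fin k₂ → ℝ) (i : Fin f₁), ∑ j, M (Sum.inl i) j * y j =
      ∑ j, M₁ i j * y (Sum.inl j) := by
    intro y i
    rw [Fintype.sum_sum_type, hM]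
    simp only [Sum.elim_inl, Sum.elim_inr, zero_mul, Finset.sum_const_zero, add_zero]
  have hM₂ : ∀ (y : Fin k₁ ⊕ Fin k₂ → ℝ) (i : Fin f₂), ∑ j, M (Sum.inr i) j * y j =
      ∑ j, M₂ i j * y (Sum.inr j) := by
    intro y i
    rw [Fintype.sum_sum_type, hM]
    simp only [Sum.elim_inl, Sum.elim_inr, zero_mul, Finset.sum_const_zero, zero_add]
  have hQ : ∀ y : Fin k₁ ⊕ Fin k₂ → ℝ,
      (∀ i, ∑ j, M i j * y j ≤ (Sum.elim b₁ b₂ : Fin f₁ ⊕ Fin f₂ → ℝ) i) ↔
      (∀ i, ∑ j, M₁ i j * y (Sum.inl j) ≤ b₁ i) ∧ (∀ i, ∑ j, M₂ i j * y (Sum.inr j) ≤ b₂ i) := by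
    intro y
    constructor
    · intro h
      refine ⟨fun i => ?_, fun i => ?_⟩
      · have := h (Sum.inl i)
        rw [hM₁] at this
        exact this
      · have := h (Sum.inr i)
        rw [hM₂] at this
        exact this
    · rintro ⟨h1, h2⟩ i
      rcases i with i | i
      · rw [hM₁]
        exact h1 i
      · rw [hM₂]
        exact h2 i
  refine xof (Fin f₁ ⊕ Fin f₂) (Fin k₁ ⊕ Fin k₂) _ ⟨M, Sum.elim b₁ b₂, π, ?_, ?_⟩ (f₁ + f₂) ?_
  · obtain ⟨R₁, hR₁⟩ := isBounded_iff_forall_norm_le.mp hb₁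
    obtain ⟨R₂, hR₂⟩ := isBounded_iff_forall_norm_le.mp hb₂
    rw [isBounded_iff_forall_norm_le]
    refine ⟨max (max R₁ R₂) 0, fun y hy => ?_⟩
    obtain ⟨h1, h2⟩ := (hQ y).mp hy
    have n1 := hR₁ (fun j => y (Sum.inl j)) h1
    have n2 := hR₂ (fun j => y (Sum.inr j)) h2
    rw [pi_norm_le_iff_of_nonneg (le_max_right _ _)]
    intro j
    rcases j with j | j
    · have h3 := norm_le_pi_norm (fun j : Fin k₁ => y (Sum.inl j)) j
      exact (h3.trans n1).trans ((le_max_left _ _).trans (le_max_left _ _))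
    · have h3 := norm_le_pi_norm (fun j : Fin k₂ => y (Sum.inr j)) j
      exact (h3.trans n2).trans ((le_max_right _ _).trans (le_max_left _ _))
  · ext x
    constructor
    · rintro ⟨y, hy, rfl⟩
      obtain ⟨h1, h2⟩ := (hQ y).mp hy
      constructor
      · rw [← him₁]
        exact ⟨fun j => y (Sum.inl j), h1, rfl⟩
      · rw [← him₂]
        exact ⟨fun j => y (Sum.inr j), h2, rfl⟩
    · rintro ⟨h1, h2⟩
      rw [← him₁] at h1
      rw [← him₂] at h2
      obtain ⟨y₁, hy₁, e₁⟩ := h1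
      obtain ⟨y₂, hy₂, e₂⟩ := h2
      refine ⟨Sum.elim y₁ y₂, (hQ _).mpr ⟨hy₁, hy₂⟩, ?_⟩
      funext v
      rcases v with v | w
      · rw [hπ₁]
        exact congrFun e₁ v
      · rw [hπ₂]
        exact congrFun e₂ w
  · rw [Fintype.card_sum, Fintype.card_fin, Fintype.card_fin]
-- END prd

-- BEGIN eqc
/-- Cutting with one equation costs two inequalities. PROOF. `∑ v, u v * π y v = c` is one linear equation in `y` (`π y v` is
`π.linear y v + π 0 v`, see `bal_up`; `π.linear y v = ∑ j, y j * π.linear (Pi.single j 1) v`), that is two inequalities: `xof` with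
`ι = Fin f ⊕ Bool`, `κ = Fin k`, the same `π`. The new polyhedron is a subset of the old one, so bounded. -/
theorem eqc (P : Set (V → ℝ)) (f : ℕ) (h : XC P f) (u : V → ℝ) (c : ℝ) :
    XC {x : V → ℝ | x ∈ P ∧ ∑ v, u v * x v = c} (f + 2) := by
  obtain ⟨k, A, b, π, hb, him⟩ := h
  have hexp : ∃ a : Fin k → ℝ, ∃ d : ℝ, ∀ y : Fin k → ℝ,
      ∑ v, u v * π y v = ∑ j, a j * y j + d := by
    refine ⟨fun j => ∑ v, u v * π.linear (Pi.single j 1) v, ∑ v, u v * π 0 v, fun y => ?_⟩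
    have h1 : ∀ v, π y v = ∑ j, y j * π.linear (Pi.single j 1) v + π 0 v := by
      intro v
      have h2 : π y = π.linear y + π 0 := by
        have h3 := congrFun (AffineMap.decomp π) y
        exact h3
      have h4 : π.linear y = ∑ j, y j • π.linear (Pi.single j 1) := by
        conv_lhs => rw [pi_eq_sum_univ' y]
        rw [map_sum]
        refine Finset.sum_congr rfl fun j _ => ?_
        rw [map_smul]
      rw [h2, Pi.add_apply, h4, Finset.sum_apply]
      simp only [Pi.smul_apply, smul_eq_mul]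
    have h5 : ∀ v, u v * π y v =
        ∑ j, u v * (y j * π.linear (Pi.single j 1) v) + u v * π 0 v := by
      intro v
      rw [h1 v, mul_add, Finset.mul_sum]
    rw [Finset.sum_congr rfl (fun v _ => h5 v), Finset.sum_add_distrib, Finset.sum_comm]
    congr 1
    refine Finset.sum_congr rfl fun j _ => ?_
    rw [Finset.sum_mul]
    refine Finset.sum_congr rfl fun v _ => ?_
    ring
  obtain ⟨a, d, had⟩ := hexp
  let A' : Fin f ⊕ Bool → Fin k → ℝ := fun i j =>
    Sum.elim (fun i => A i j) (fun t => if t = true then a j else - a j) i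
  let b' : Fin f ⊕ Bool → ℝ := Sum.elim b (fun t => if t = true then c - d else d - c)
  have hs : ∀ y : Fin k → ℝ, (∀ i, ∑ j, A' i j * y j ≤ b' i) ↔
      (∀ i, ∑ j, A i j * y j ≤ b i) ∧ ∑ v, u v * π y v = c := by
    intro y
    rw [had y]
    constructor
    · intro hy
      refine ⟨fun i => hy (Sum.inl i), ?_⟩
      have h1 : ∑ j, a j * y j ≤ c - d := by
        have := hy (Sum.inr true)
        simpa [A', b'] using this
      have h2 : ∑ j, -(a j * y j) ≤ d - c := by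
        have := hy (Sum.inr false)
        simpa [A', b'] using this
      rw [Finset.sum_neg_distrib] at h2
      linarith
    · rintro ⟨hy, hc⟩ (i | t)
      · exact hy i
      · cases t
        · have h2 : ∑ j, -(a j * y j) ≤ d - c := by
            rw [Finset.sum_neg_distrib]
            linarith
          simpa [A', b'] using h2
        · have h1 : ∑ j, a j * y j ≤ c - d := by linarith
          simpa [A', b'] using h1
  refine xof (Fin f ⊕ Bool) (Fin k) _ ⟨A', b', π, ?_, ?_⟩ (f + 2) (by simp)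
  · refine hb.subset ?_
    intro y hy
    exact ((hs y).1 hy).1
  · ext x
    constructor
    · rintro ⟨y, hy, rfl⟩
      have h1 := (hs y).1 hy
      refine ⟨?_, h1.2⟩
      rw [← him]
      exact ⟨y, h1.1, rfl⟩
    · rintro ⟨hx, hc⟩
      rw [← him] at hx
      obtain ⟨y, hy, rfl⟩ := hx
      exact ⟨y, (hs y).2 ⟨hy, hc⟩, rfl⟩
-- END eqc

-- BEGIN img
/-- Affine images. PROOF. Compose `π` with `φ` (`AffineMap.comp`, `Set.image_comp`). -/
theorem img (P : Set (V → ℝ)) (f : ℕ) (h : XC P f) (φ : (V → ℝ) →ᵃ[ℝ] (W → ℝ)) :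
    XC (φ '' P) f := by
  obtain ⟨k, A, b, π, hb, hP⟩ := h
  refine ⟨k, A, b, φ.comp π, hb, ?_⟩
  rw [AffineMap.coe_comp, Set.image_comp, hP]
-- END img

-- BEGIN con
private noncomputable def con_A {f k : ℕ} (A : Fin f → Fin k → ℝ) (b : Fin f → ℝ) :
    Fin f ⊕ (Unit ⊕ Unit) → Fin k ⊕ Unit → ℝ :=
  Sum.elim (fun i => Sum.elim (fun j => A i j) (fun _ => - b i))
    (Sum.elim (fun _ => Sum.elim (fun _ => 0) (fun _ => 1))
      (fun _ => Sum.elim (fun _ => 0) (fun _ => -1)))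

private noncomputable def con_B (f : ℕ) : Fin f ⊕ (Unit ⊕ Unit) → ℝ :=
  Sum.elim (fun _ => 0) (Sum.elim (fun _ => 1) (fun _ => 0))

private theorem con_mem {f k : ℕ} (A : Fin f → Fin k → ℝ) (b : Fin f → ℝ)
    (w : Fin k ⊕ Unit → ℝ) :
    (∀ i, ∑ j, con_A A b i j * w j ≤ con_B f i) ↔
      (∀ i, ∑ j, A i j * w (Sum.inl j) ≤ w (Sum.inr ()) * b i) ∧
      w (Sum.inr ()) ≤ 1 ∧ 0 ≤ w (Sum.inr ()) := by
  constructor
  · intro h
    refine ⟨?_, ?_, ?_⟩
    · intro i
      have h1 := h (Sum.inl i)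
      simp only [con_A, con_B, Fintype.sum_sum_type, Sum.elim_inl, Sum.elim_inr,
        Finset.univ_unique, Finset.sum_singleton] at h1
      have h2 : w (Sum.inr default) = w (Sum.inr ()) := rfl
      rw [h2] at h1
      linarith
    · have h1 := h (Sum.inr (Sum.inl ()))
      simp only [con_A, con_B, Fintype.sum_sum_type, Sum.elim_inl, Sum.elim_inr, zero_mul,
        Finset.sum_const_zero, zero_add, Finset.univ_unique, Finset.sum_singleton, one_mul] at h1
      exact h1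
    · have h1 := h (Sum.inr (Sum.inr ()))
      simp only [con_A, con_B, Fintype.sum_sum_type, Sum.elim_inl, Sum.elim_inr, zero_mul,
        Finset.sum_const_zero, zero_add, Finset.univ_unique, Finset.sum_singleton] at h1
      have h2 : w (Sum.inr default) = w (Sum.inr ()) := rfl
      rw [h2] at h1
      linarith
  · rintro ⟨h1, h3, h4⟩ i
    rcases i with i | (i | i)
    · simp only [con_A, con_B, Fintype.sum_sum_type, Sum.elim_inl, Sum.elim_inr,
        Finset.univ_unique, Finset.sum_singleton]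
      have h5 : w (Sum.inr default) = w (Sum.inr ()) := rfl
      rw [h5]
      have h6 := h1 i
      linarith
    · simp only [con_A, con_B, Fintype.sum_sum_type, Sum.elim_inl, Sum.elim_inr, zero_mul,
        Finset.sum_const_zero, zero_add, Finset.univ_unique, Finset.sum_singleton, one_mul]
      exact h3
    · simp only [con_A, con_B, Fintype.sum_sum_type, Sum.elim_inl, Sum.elim_inr, zero_mul,
        Finset.sum_const_zero, zero_add, Finset.univ_unique, Finset.sum_singleton]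
      have h5 : w (Sum.inr default) = w (Sum.inr ()) := rfl
      rw [h5]
      linarith

private noncomputable def con_L {V : Type} {k : ℕ} (π : (Fin k → ℝ) →ᵃ[ℝ] (V → ℝ)) :
    (Fin k ⊕ Unit → ℝ) →ₗ[ℝ] (Option V → ℝ) where
  toFun w := fun o => Option.elim o (w (Sum.inr ()))
    (fun v => (π.linear (fun j => w (Sum.inl j)) + w (Sum.inr ()) • π 0) v)
  map_add' w z := by
    have h1 : (fun j => (w + z) (Sum.inl j))
        = (fun j : Fin k => w (Sum.inl j)) + (fun j => z (Sum.inl j)) := rfl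
    funext o
    rcases o with _ | v
    · rfl
    · show (π.linear (fun j => (w + z) (Sum.inl j)) + (w + z) (Sum.inr ()) • π 0) v =
        (π.linear (fun j => w (Sum.inl j)) + w (Sum.inr ()) • π 0) v +
          (π.linear (fun j => z (Sum.inl j)) + z (Sum.inr ()) • π 0) v
      rw [h1, map_add]
      simp only [Pi.add_apply, Pi.smul_apply, smul_eq_mul]
      ring
  map_smul' c w := by
    have h1 : (fun j => (c • w) (Sum.inl j)) = c • (fun j : Fin k => w (Sum.inl j)) := rfl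
    funext o
    rcases o with _ | v
    · rfl
    · show (π.linear (fun j => (c • w) (Sum.inl j)) + (c • w) (Sum.inr ()) • π 0) v =
        c • (π.linear (fun j => w (Sum.inl j)) + w (Sum.inr ()) • π 0) v
      rw [h1, map_smul]
      simp only [Pi.add_apply, Pi.smul_apply, smul_eq_mul]
      ring

/-- The cone over `P` up to the height one; the height is the coordinate `none`. PROOF. `h = ⟨k, A, b, π, hb, him⟩`. Polyhedron in
`ℝ^(Fin k ⊕ Unit)`: `A y ≤ s b`, `s ≤ 1`, `0 ≤ s` (`f + 2` inequalities; as in `bal_A`, `bal_mem`), map `(y, s) ↦ π.linear y + s • π 0` on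
`some v`, `s` on `none`. Bounded: `rec1`. Image: `bal_in`, `bal_out` (`Poly.lean`); for `s = 0` use `rec0` as there. `xof` with
`ι = Fin f ⊕ (Unit ⊕ Unit)`. -/
theorem con (P : Set (V → ℝ)) (f : ℕ) (h : XC P f) (hn : P.Nonempty) :
    XC {x : Option V → ℝ | 0 ≤ x none ∧ x none ≤ 1 ∧
      ∃ y ∈ P, ∀ v, x (some v) = x none * y v} (f + 2) := by
  obtain ⟨k, A, b, π, hb, rfl⟩ := h
  have m : ({y : Fin k → ℝ | ∀ i, ∑ j, A i j * y j ≤ b i}).Nonempty := hn.of_image
  apply xof (Fin f ⊕ (Unit ⊕ Unit)) (Fin k ⊕ Unit)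
  swap
  · simp
  refine ⟨con_A A b, con_B f, (con_L π).toAffineMap, ?_, ?_⟩
  · obtain ⟨R, hR, hR'⟩ := rec1 _ _ A b hb m
    rw [isBounded_iff_forall_norm_le]
    refine ⟨R + 1, ?_⟩
    intro w hw
    obtain ⟨g1, g3, g4⟩ := (con_mem A b w).1 hw
    rw [pi_norm_le_iff_of_nonneg (by linarith)]
    intro j
    rw [Real.norm_eq_abs]
    rcases j with j | j
    · have h := hR' (w (Sum.inr ())) g4 g3 (fun j => w (Sum.inl j)) g1 j
      linarith
    · have h5 : w (Sum.inr j) = w (Sum.inr ()) := rfl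
      rw [h5, abs_of_nonneg g4]
      linarith
  · ext x
    constructor
    · rintro ⟨w, hw, rfl⟩
      obtain ⟨g1, g3, g4⟩ := (con_mem A b w).1 hw
      obtain ⟨y, hy, e⟩ := bal_in _ _ A b π hb m (w (Sum.inr ())) g4 _ g1
      refine ⟨g4, g3, y, hy, fun v => ?_⟩
      show (π.linear (fun j => w (Sum.inl j)) + w (Sum.inr ()) • π 0) v = w (Sum.inr ()) * y v
      rw [e]
      rfl
    · rintro ⟨h0, h1, y, hy, hx⟩
      obtain ⟨z, hz, e⟩ := bal_out _ _ A b π (x none) h0 y hy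
      refine ⟨Sum.elim z (fun _ => x none), (con_mem A b _).2 ⟨hz, h1, h0⟩, ?_⟩
      funext o
      rcases o with _ | v
      · rfl
      · show (π.linear z + x none • π 0) v = x (some v)
        rw [e, hx v]
        rfl
-- END con

-- BEGIN js1
private theorem js1_point {k : ℕ} (G : SimpleGraph V) (S : Finset V) (l : V → Option (Fin k))
    (hj : KJn G S l) (s : Finset V) (hs : Stb G s) :
    ∃ y ∈ STAB (Blk G S l) univ, ∃ z ∈ STAB (Blk G Sᶜ l) univ,
      (∀ j, y (Sum.inr j) + z (Sum.inr j) = 1) ∧ (∀ v, ind s v.1 = y (Sum.inl v)) ∧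
        ∀ v, ind s v.1 = z (Sum.inl v) := by
  classical
  refine ⟨ind ((s.subtype (fun v => v ∈ S)).disjSum
      (univ.filter fun j => ¬ ∃ u ∈ s, u ∈ S ∧ l u = some j)), ?_,
    ind ((s.subtype (fun v => v ∈ Sᶜ)).disjSum
      (univ.filter fun j => ∃ u ∈ s, u ∈ S ∧ l u = some j)), ?_, ?_, ?_, ?_⟩
  · refine subset_convexHull ℝ _ ⟨_, Finset.subset_univ _, ?_, rfl⟩
    rintro (u | i) ha (w | j) hb hadj
    · have hu := Finset.mem_subtype.mp (Finset.inl_mem_disjSum.mp ha)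
      have hw := Finset.mem_subtype.mp (Finset.inl_mem_disjSum.mp hb)
      exact hs u.1 hu w.1 hw hadj
    · have hu := Finset.mem_subtype.mp (Finset.inl_mem_disjSum.mp ha)
      have hj' := (Finset.mem_filter.mp (Finset.inr_mem_disjSum.mp hb)).2
      exact hj' ⟨u.1, hu, u.2, hadj⟩
    · have hw := Finset.mem_subtype.mp (Finset.inl_mem_disjSum.mp hb)
      have hi' := (Finset.mem_filter.mp (Finset.inr_mem_disjSum.mp ha)).2
      exact hi' ⟨w.1, hw, w.2, hadj⟩
    · exact hadj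
  · refine subset_convexHull ℝ _ ⟨_, Finset.subset_univ _, ?_, rfl⟩
    rintro (u | i) ha (w | j) hb hadj
    · have hu := Finset.mem_subtype.mp (Finset.inl_mem_disjSum.mp ha)
      have hw := Finset.mem_subtype.mp (Finset.inl_mem_disjSum.mp hb)
      exact hs u.1 hu w.1 hw hadj
    · have hu := Finset.mem_subtype.mp (Finset.inl_mem_disjSum.mp ha)
      obtain ⟨w, hw, hwS, hwl⟩ := (Finset.mem_filter.mp (Finset.inr_mem_disjSum.mp hb)).2
      exact hs w hw u.1 hu ((hj w hwS u.1 (Finset.mem_compl.mp u.2)).mpr ⟨j, hwl, hadj⟩)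
    · have hw := Finset.mem_subtype.mp (Finset.inl_mem_disjSum.mp hb)
      obtain ⟨u, hu, huS, hul⟩ := (Finset.mem_filter.mp (Finset.inr_mem_disjSum.mp ha)).2
      exact hs u hu w.1 hw ((hj u huS w.1 (Finset.mem_compl.mp w.2)).mpr ⟨i, hul, hadj⟩)
    · exact hadj
  · intro j
    unfold ind
    simp only [Finset.inr_mem_disjSum, Finset.mem_filter, Finset.mem_univ, true_and]
    by_cases hP : ∃ u ∈ s, u ∈ S ∧ l u = some j
    · rw [if_neg (not_not.mpr hP), if_pos hP, zero_add]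
    · rw [if_pos hP, if_neg hP, add_zero]
  · intro v
    unfold ind
    simp only [Finset.inl_mem_disjSum, Finset.mem_subtype]
  · intro v
    unfold ind
    simp only [Finset.inl_mem_disjSum, Finset.mem_subtype]

/-- PROOF. The right side is convex (`STAB` is a convex hull; take convex combinations of `y` and of `z`), so it is enough to treat
`x = ind s`, `s` stable in `G`: `y = ind` of the `inl u`, `u ∈ s`, and of the `inr j` such that no `u ∈ s ∩ S` has `l u = some j`; `z = ind` of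
the `inl w`, `w ∈ s`, and of the other `inr j`. Both sets are stable in the blocks: if `u ∈ s ∩ S` and `w ∈ s`, `w ∉ S` have the same
label they are adjacent (`KJn`). -/
theorem js1 {k : ℕ} (G : SimpleGraph V) (S : Finset V) (l : V → Option (Fin k)) (hj : KJn G S l)
    (x : V → ℝ) (hx : x ∈ STAB G univ) :
    ∃ y ∈ STAB (Blk G S l) univ, ∃ z ∈ STAB (Blk G Sᶜ l) univ,
      (∀ j, y (Sum.inr j) + z (Sum.inr j) = 1) ∧ (∀ v, x v.1 = y (Sum.inl v)) ∧
        ∀ v, x v.1 = z (Sum.inl v) := by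
  have hsub : STAB G univ ⊆ {x : V → ℝ | ∃ y ∈ STAB (Blk G S l) univ,
      ∃ z ∈ STAB (Blk G Sᶜ l) univ, (∀ j, y (Sum.inr j) + z (Sum.inr j) = 1) ∧
        (∀ v, x v.1 = y (Sum.inl v)) ∧ ∀ v, x v.1 = z (Sum.inl v)} := by
    refine convexHull_min ?_ ?_
    · rintro _ ⟨s, _, hs, rfl⟩
      exact js1_point G S l hj s hs
    · rintro x1 ⟨y1, hy1, z1, hz1, e1, f1, g1⟩ x2 ⟨y2, hy2, z2, hz2, e2, f2, g2⟩ a b ha hb hab
      refine ⟨a • y1 + b • y2, convex_convexHull ℝ _ hy1 hy2 ha hb hab, a • z1 + b • z2,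
        convex_convexHull ℝ _ hz1 hz2 ha hb hab, ?_, ?_, ?_⟩
      · intro j
        have h1 := e1 j
        have h2 := e2 j
        simp only [Pi.add_apply, Pi.smul_apply, smul_eq_mul]
        linear_combination a * h1 + b * h2 + hab
      · intro v
        simp only [Pi.add_apply, Pi.smul_apply, smul_eq_mul]
        rw [f1 v, f2 v]
      · intro v
        simp only [Pi.add_apply, Pi.smul_apply, smul_eq_mul]
        rw [g1 v, g2 v]
  exact hsub hx
-- END js1

-- BEGIN js2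
private theorem js2_side {k : ℕ} (G : SimpleGraph V) (S : Finset V) (l : V → Option (Fin k))
    (x : V → ℝ) (y : {v // v ∈ S} ⊕ Fin k → ℝ) (hy : y ∈ STAB (Blk G S l) univ)
    (h2 : ∀ v, x v.1 = y (Sum.inl v)) (K : Finset V) (hK : Clq G K) (T : Finset (Fin k))
    (hT : ∀ j ∈ T, ∀ v ∈ K, v ∈ S → l v = some j) (hT2 : ∀ i ∈ T, ∀ j ∈ T, i = j) :
    ∑ v ∈ K with v ∈ S, x v + ∑ j ∈ T, y (Sum.inr j) ≤ 1 := by
  have h := (sti _ univ y hy).2.2 ((K.subtype (fun v => v ∈ S)).disjSum T) (by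
    rintro (u | i) ha (w | j) hb hab
    · have hu := Finset.mem_subtype.mp (Finset.inl_mem_disjSum.mp ha)
      have hw := Finset.mem_subtype.mp (Finset.inl_mem_disjSum.mp hb)
      exact hK u.1 hu w.1 hw (fun h => hab (congrArg Sum.inl (Subtype.ext h)))
    · have hu := Finset.mem_subtype.mp (Finset.inl_mem_disjSum.mp ha)
      have hj := Finset.inr_mem_disjSum.mp hb
      exact hT j hj u.1 hu u.2
    · have hw := Finset.mem_subtype.mp (Finset.inl_mem_disjSum.mp hb)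
      have hi := Finset.inr_mem_disjSum.mp ha
      exact hT i hi w.1 hw w.2
    · have hi := Finset.inr_mem_disjSum.mp ha
      have hj := Finset.inr_mem_disjSum.mp hb
      exact absurd (congrArg Sum.inr (hT2 i hi j hj)) hab)
  rw [Finset.sum_disjSum] at h
  have e : ∑ v ∈ K.subtype (fun v => v ∈ S), y (Sum.inl v) = ∑ v ∈ K with v ∈ S, x v := by
    rw [← Finset.sum_subtype_eq_sum_filter]
    exact Finset.sum_congr rfl fun v _ => (h2 v).symm
  rw [e] at h
  exact h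

/-- PROOF. `cut` (row of `Rep.lean`): `x ≥ 0` by `sti`; let `K` be a clique of `G`. If `K ⊆ S` (or `K` is disjoint from `S`) the sum over
`K` is the sum of `y` (of `z`) over a clique of the block, `≤ 1` by `sti`. Otherwise let `u ∈ K ∩ S`, `w ∈ K`, `w ∉ S`: adjacent, so
they have a label `j`, and every vertex of `K` is adjacent to `u` or to `w` on the other side, so all of `K` has the label
`j`. Then `K ∩ S` with `inr j`, and `K \ S` with `inr j`, are cliques of the blocks: add the two inequalities of `sti` and use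
`y (inr j) + z (inr j) = 1`. -/
theorem js2 {k : ℕ} (G : SimpleGraph V) (hG : Perf G) (S : Finset V) (l : V → Option (Fin k))
    (hj : KJn G S l) (x : V → ℝ) (y : {v // v ∈ S} ⊕ Fin k → ℝ)
    (hy : y ∈ STAB (Blk G S l) univ) (z : {v // v ∈ Sᶜ} ⊕ Fin k → ℝ)
    (hz : z ∈ STAB (Blk G Sᶜ l) univ) (h1 : ∀ j, y (Sum.inr j) + z (Sum.inr j) = 1)
    (h2 : ∀ v, x v.1 = y (Sum.inl v)) (h3 : ∀ v, x v.1 = z (Sum.inl v)) : x ∈ STAB G univ := by
  refine cut G hG univ x ?_ (fun v hv => absurd (Finset.mem_univ v) hv) ?_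
  · intro v
    by_cases hv : v ∈ S
    · have e : x v = y (Sum.inl ⟨v, hv⟩) := h2 ⟨v, hv⟩
      rw [e]
      exact (sti _ univ y hy).1 _
    · have e : x v = z (Sum.inl ⟨v, Finset.mem_compl.mpr hv⟩) := h3 ⟨v, Finset.mem_compl.mpr hv⟩
      rw [e]
      exact (sti _ univ z hz).1 _
  · intro K _ hK
    have hsum : ∑ v ∈ K, x v = ∑ v ∈ K with v ∈ S, x v + ∑ v ∈ K with v ∈ Sᶜ, x v := by
      rw [← Finset.sum_filter_add_sum_filter_not K (fun v => v ∈ S)]
      congr 1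
      refine Finset.sum_congr ?_ fun _ _ => rfl
      ext v
      simp only [Finset.mem_filter, Finset.mem_compl]
    rw [hsum]
    by_cases hA : ∃ u ∈ K, u ∈ S
    · by_cases hB : ∃ w ∈ K, w ∉ S
      · obtain ⟨u, hu, huS⟩ := hA
        obtain ⟨w, hw, hwS⟩ := hB
        have huw : u ≠ w := fun h => hwS (h ▸ huS)
        obtain ⟨j, hju, hjw⟩ := (hj u huS w hwS).mp (hK u hu w hw huw)
        have hlab : ∀ v ∈ K, l v = some j := by
          intro v hv
          by_cases hvS : v ∈ S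
          · have hvw : v ≠ w := fun h => hwS (h ▸ hvS)
            obtain ⟨i, hi1, hi2⟩ := (hj v hvS w hwS).mp (hK v hv w hw hvw)
            rw [hi1, ← hi2, hjw]
          · have huv : u ≠ v := fun h => hvS (h ▸ huS)
            obtain ⟨i, hi1, hi2⟩ := (hj u huS v hvS).mp (hK u hu v hv huv)
            rw [hi2, ← hi1, hju]
        have e1 := js2_side G S l x y hy h2 K hK {j}
          (fun i hi v hv _ => by rw [Finset.mem_singleton.mp hi]; exact hlab v hv)
          (fun a ha b hb => by rw [Finset.mem_singleton.mp ha, Finset.mem_singleton.mp hb])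
        have e2 := js2_side G Sᶜ l x z hz h3 K hK {j}
          (fun i hi v hv _ => by rw [Finset.mem_singleton.mp hi]; exact hlab v hv)
          (fun a ha b hb => by rw [Finset.mem_singleton.mp ha, Finset.mem_singleton.mp hb])
        rw [Finset.sum_singleton] at e1 e2
        have e3 := h1 j
        linarith
      · have e1 := js2_side G S l x y hy h2 K hK ∅ (fun i hi => absurd hi (Finset.notMem_empty i))
          (fun i hi => absurd hi (Finset.notMem_empty i))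
        have e2 : ∑ v ∈ K with v ∈ Sᶜ, x v = 0 := by
          rw [Finset.filter_eq_empty_iff.mpr, Finset.sum_empty]
          intro v hv hvS
          exact hB ⟨v, hv, Finset.mem_compl.mp hvS⟩
        rw [Finset.sum_empty] at e1
        linarith
    · have e1 := js2_side G Sᶜ l x z hz h3 K hK ∅ (fun i hi => absurd hi (Finset.notMem_empty i))
        (fun i hi => absurd hi (Finset.notMem_empty i))
      have e2 : ∑ v ∈ K with v ∈ S, x v = 0 := by
        rw [Finset.filter_eq_empty_iff.mpr, Finset.sum_empty]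
        intro v hv hvS
        exact hA ⟨v, hv, hvS⟩
      rw [Finset.sum_empty] at e1
      linarith
-- END js2

-- BEGIN jc1
/-- the vertices of `K` in `X` and the label `o` -/
private noncomputable def jc1_set {k : ℕ} (X K : Finset V) (o : Option (Fin k)) :
    Finset ({v // v ∈ X} ⊕ Fin k) :=
  (K.subtype fun v => v ∈ X).disjSum o.toFinset

private theorem jc1_l {k : ℕ} (X K : Finset V) (o : Option (Fin k)) (v : {v // v ∈ X}) :
    ind (jc1_set X K o) (Sum.inl v) = ind K v.1 := by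
  unfold ind jc1_set
  simp only [Finset.inl_mem_disjSum, Finset.mem_subtype]

private theorem jc1_r {k : ℕ} (X K : Finset V) (o : Option (Fin k)) (i : Fin k) :
    ind (jc1_set X K o) (Sum.inr i) = if o = some i then (1 : ℝ) else 0 := by
  unfold ind jc1_set
  simp only [Finset.inr_mem_disjSum, Option.mem_toFinset, Option.mem_def]

private theorem jc1_stb {k : ℕ} (G : SimpleGraph V) (X K : Finset V) (l : V → Option (Fin k))
    (o : Option (Fin k)) (hK : ∀ u ∈ K, ∀ w ∈ K, u ≠ w → G.Adj u w)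
    (ho : ∀ j, o = some j → ∀ v ∈ K, l v = some j) :
    ind (jc1_set X K o) ∈ STAB (Blk G X l)ᶜ univ := by
  refine subset_convexHull ℝ _ ⟨jc1_set X K o, subset_univ _, ?_, rfl⟩
  rintro (u | i) hu (w | j) hw h
  all_goals rw [SimpleGraph.compl_adj] at h
  all_goals unfold jc1_set at hu hw
  all_goals simp only [Finset.inl_mem_disjSum, Finset.inr_mem_disjSum, Finset.mem_subtype,
    Option.mem_toFinset, Option.mem_def] at hu hw
  · exact h.2 (hK u.1 hu w.1 hw fun e => h.1 (by rw [Subtype.ext e]))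
  · exact h.2 (ho j hw u.1 hu)
  · exact h.2 (ho i hu w.1 hw)
  · exact h.1 (by rw [Option.some.inj (hu.symm.trans hw)])

private theorem jc1_cone {α : Type} (P : Set (α → ℝ)) (hP : Convex ℝ P) (s s' a b : ℝ)
    (hs : 0 ≤ s) (hs' : 0 ≤ s') (ha : 0 ≤ a) (hb : 0 ≤ b) (y y' : α → ℝ) (hy : y ∈ P)
    (hy' : y' ∈ P) :
    ∃ z ∈ P, ∀ i, (a * s + b * s') * z i = a * (s * y i) + b * (s' * y' i) := by
  have hp : 0 ≤ a * s := mul_nonneg ha hs
  have hq : 0 ≤ b * s' := mul_nonneg hb hs'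
  by_cases h0 : a * s + b * s' = 0
  · have h1 : a * s = 0 := by linarith
    have h2 : b * s' = 0 := by linarith
    refine ⟨y, hy, fun i => ?_⟩
    rw [h0, ← mul_assoc, ← mul_assoc, h1, h2]
    ring
  · have h1 : 0 < a * s + b * s' := lt_of_le_of_ne (add_nonneg hp hq) (Ne.symm h0)
    refine ⟨(a * s / (a * s + b * s')) • y + (b * s' / (a * s + b * s')) • y',
      hP hy hy' (div_nonneg hp h1.le) (div_nonneg hq h1.le) ?_, fun i => ?_⟩
    · rw [← add_div, div_self h0]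
    · show (a * s + b * s') * (a * s / (a * s + b * s') * y i + b * s' / (a * s + b * s') * y' i) =
        a * (s * y i) + b * (s' * y' i)
      field_simp

private theorem jc1_conv {k : ℕ} (G : SimpleGraph V) (S : Finset V) (l : V → Option (Fin k)) :
    Convex ℝ {x : V → ℝ | ∃ s t : ℝ, 0 ≤ s ∧ s ≤ 1 ∧ 0 ≤ t ∧ t ≤ 1 ∧
      ∃ y ∈ STAB (Blk G S l)ᶜ univ,
      ∃ z ∈ STAB (Blk G Sᶜ l)ᶜ univ, (∀ j, s * y (Sum.inr j) = t * z (Sum.inr j)) ∧
        s + t = 1 + ∑ j, s * y (Sum.inr j) ∧ (∀ v, x v.1 = s * y (Sum.inl v)) ∧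
        ∀ v, x v.1 = t * z (Sum.inl v)} := by
  rintro x ⟨s, t, hs0, hs1, ht0, ht1, y, hy, z, hz, h1, h2, h3, h4⟩ x'
    ⟨s', t', hs0', hs1', ht0', ht1', y', hy', z', hz', h1', h2', h3', h4'⟩ a b ha hb hab
  obtain ⟨Y, hY, eY⟩ := jc1_cone (STAB (Blk G S l)ᶜ univ) (convex_convexHull ℝ _) s s' a b
    hs0 hs0' ha hb y y' hy hy'
  obtain ⟨Z, hZ, eZ⟩ := jc1_cone (STAB (Blk G Sᶜ l)ᶜ univ) (convex_convexHull ℝ _) t t' a b
    ht0 ht0' ha hb z z' hz hz'
  refine ⟨a * s + b * s', a * t + b * t', ?_, ?_, ?_, ?_, Y, hY, Z, hZ, fun j => ?_, ?_,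
    fun v => ?_, fun v => ?_⟩
  · positivity
  · nlinarith [mul_le_mul_of_nonneg_left hs1 ha, mul_le_mul_of_nonneg_left hs1' hb]
  · positivity
  · nlinarith [mul_le_mul_of_nonneg_left ht1 ha, mul_le_mul_of_nonneg_left ht1' hb]
  · rw [eY, eZ, h1, h1']
  · have e : ∑ j, (a * s + b * s') * Y (Sum.inr j) =
        a * ∑ j, s * y (Sum.inr j) + b * ∑ j, s' * y' (Sum.inr j) := by
      rw [Finset.mul_sum, Finset.mul_sum, ← Finset.sum_add_distrib]
      exact Finset.sum_congr rfl fun j _ => eY _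
    rw [e]
    linear_combination a * h2 + b * h2' + hab
  · rw [eY, ← h3, ← h3']
    rfl
  · rw [eZ, ← h4, ← h4']
    rfl

/-- The complement side. PROOF. It is enough to treat `x = ind K`, `K` a clique of `G` (`Stb Gᶜ K`; `u ≠ v` both in `K` are not adjacent in
`Gᶜ`), because the right side is convex in `(s, t, x, Y, Z)` where `Y = s • y`, `Z = t • z` (`s y + s' y'` is `(s + s')` times a point of the
convex set `STAB`, also if `s + s' = 0`). `K ⊆ S`: `s = 1`, `t = 0`, `y = ind (K)`. `K` disjoint from `S`: `s = 0`, `t = 1`. Otherwise all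
vertices of `K` have a common label `j` (see `js2`): `s = t = 1`, `y = ind (K ∩ S, inr j)`, `z = ind (K \ S, inr j)`. -/
theorem jc1 {k : ℕ} (G : SimpleGraph V) (S : Finset V) (l : V → Option (Fin k)) (hj : KJn G S l)
    (x : V → ℝ) (hx : x ∈ STAB Gᶜ univ) :
    ∃ s t : ℝ, 0 ≤ s ∧ s ≤ 1 ∧ 0 ≤ t ∧ t ≤ 1 ∧ ∃ y ∈ STAB (Blk G S l)ᶜ univ,
      ∃ z ∈ STAB (Blk G Sᶜ l)ᶜ univ, (∀ j, s * y (Sum.inr j) = t * z (Sum.inr j)) ∧
        s + t = 1 + ∑ j, s * y (Sum.inr j) ∧ (∀ v, x v.1 = s * y (Sum.inl v)) ∧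
        ∀ v, x v.1 = t * z (Sum.inl v) := by
  refine convexHull_min ?_ (jc1_conv G S l) hx
  rintro x ⟨K, -, hK, rfl⟩
  have hadj : ∀ u ∈ K, ∀ w ∈ K, u ≠ w → G.Adj u w := fun u hu w hw hne => by
    by_contra hn
    exact hK u hu w hw ((SimpleGraph.compl_adj G u w).2 ⟨hne, hn⟩)
  have hnone : ∀ j : Fin k, (none : Option (Fin k)) = some j → ∀ v ∈ K, l v = some j :=
    fun j h => by cases h
  have hind0 : ∀ v, v ∉ K → ind K v = 0 := fun v hv => if_neg hv
  by_cases h1 : K ⊆ S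
  · refine ⟨1, 0, zero_le_one, le_refl 1, le_refl 0, zero_le_one, _,
      jc1_stb G S K l none hadj hnone, _, jc1_stb G Sᶜ K l none hadj hnone, fun j => ?_, ?_,
      fun v => ?_, fun v => ?_⟩
    · rw [jc1_r, if_neg (by simp)]
      ring
    · simp [jc1_r]
    · rw [jc1_l, one_mul]
    · rw [zero_mul]
      exact hind0 _ fun h => (Finset.mem_compl.1 v.2) (h1 h)
  by_cases h2 : ∀ v ∈ K, v ∉ S
  · refine ⟨0, 1, le_refl 0, zero_le_one, zero_le_one, le_refl 1, _,
      jc1_stb G S K l none hadj hnone, _, jc1_stb G Sᶜ K l none hadj hnone, fun j => ?_, ?_,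
      fun v => ?_, fun v => ?_⟩
    · rw [zero_mul, jc1_r, if_neg (by simp)]
      ring
    · simp
    · rw [zero_mul]
      exact hind0 _ fun h => h2 _ h v.2
    · rw [jc1_l, one_mul]
  · obtain ⟨w, hwK, hwS⟩ := Finset.not_subset.1 h1
    push Not at h2
    obtain ⟨u, huK, huS⟩ := h2
    have huw : u ≠ w := fun h => hwS (h ▸ huS)
    obtain ⟨j, hju, hjw⟩ := (hj u huS w hwS).1 (hadj u huK w hwK huw)
    have hall : ∀ v ∈ K, l v = some j := by
      intro v hv
      by_cases hvS : v ∈ S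
      · have hne : v ≠ w := fun h => hwS (h ▸ hvS)
        obtain ⟨i, h3, h4⟩ := (hj v hvS w hwS).1 (hadj v hv w hwK hne)
        rw [h3, ← h4, hjw]
      · have hne : u ≠ v := fun h => hvS (h ▸ huS)
        obtain ⟨i, h3, h4⟩ := (hj u huS v hvS).1 (hadj u huK v hv hne)
        rw [h4, ← h3, hju]
    have hsome : ∀ i : Fin k, some j = some i → ∀ v ∈ K, l v = some i := fun i h v hv => by
      rw [← h]
      exact hall v hv
    refine ⟨1, 1, zero_le_one, le_refl 1, zero_le_one, le_refl 1, _,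
      jc1_stb G S K l (some j) hadj hsome, _, jc1_stb G Sᶜ K l (some j) hadj hsome, fun i => ?_,
      ?_, fun v => ?_, fun v => ?_⟩
    · rw [jc1_r, jc1_r]
    · simp [jc1_r]
    · rw [jc1_l, one_mul]
    · rw [jc1_l, one_mul]
-- END jc1

-- BEGIN jc2
private theorem jc2_side {k : ℕ} (G : SimpleGraph V) (T X : Finset V) (l : V → Option (Fin k))
    (J : Finset (Fin k)) (hT : Clq Gᶜ T) (hJ : ∀ u ∈ T, u ∈ X → ∀ j ∈ J, l u ≠ some j)
    (y : {v // v ∈ X} ⊕ Fin k → ℝ) (hy : y ∈ STAB (Blk G X l)ᶜ univ) (s : ℝ) (hs : 0 ≤ s)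
    (x : V → ℝ) (h2 : ∀ v : {v // v ∈ X}, x v.1 = s * y (Sum.inl v)) :
    ∑ v ∈ T.filter (fun v => v ∈ X), x v + ∑ j ∈ J, s * y (Sum.inr j) ≤ s := by
  have hK : Clq (Blk G X l)ᶜ ((T.subtype (fun v => v ∈ X)).disjSum J) := by
    rintro (u | i) hu (w | j) hw hne
    · rw [Finset.inl_mem_disjSum, Finset.mem_subtype] at hu hw
      refine (SimpleGraph.compl_adj _ _ _).2 ⟨hne, fun h => ?_⟩
      have hne' : u.1 ≠ w.1 := fun he => hne (by rw [Subtype.ext he])
      exact ((SimpleGraph.compl_adj _ _ _).1 (hT u.1 hu w.1 hw hne')).2 h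
    · rw [Finset.inl_mem_disjSum, Finset.mem_subtype] at hu
      rw [Finset.inr_mem_disjSum] at hw
      exact (SimpleGraph.compl_adj _ _ _).2 ⟨hne, fun h => hJ u.1 hu u.2 j hw h⟩
    · rw [Finset.inl_mem_disjSum, Finset.mem_subtype] at hw
      rw [Finset.inr_mem_disjSum] at hu
      exact (SimpleGraph.compl_adj _ _ _).2 ⟨hne, fun h => hJ w.1 hw w.2 i hu h⟩
    · exact (SimpleGraph.compl_adj _ _ _).2 ⟨hne, fun h => h⟩
  have h := (sti _ _ _ hy).2.2 _ hK
  rw [Finset.sum_disjSum] at h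
  have h' := mul_le_mul_of_nonneg_left h hs
  rw [mul_add, Finset.mul_sum, Finset.mul_sum, mul_one] at h'
  have e : ∑ v ∈ T.filter (fun v => v ∈ X), x v =
      ∑ v ∈ T.subtype (fun v => v ∈ X), s * y (Sum.inl v) := by
    rw [← Finset.sum_subtype_eq_sum_filter]
    exact Finset.sum_congr rfl fun v _ => h2 v
  rw [e]
  exact h'

/-- PROOF. `cut` for `Gᶜ`: `x ≥ 0` by `sti`; let `T` be a clique of `Gᶜ`, a stable set of `G`, and `J` the set of the labels of the
`u ∈ T ∩ S`. `T ∩ S` with the `inr j`, `j ∉ J`, is a stable set of the first block, so a clique of its complement: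
`∑_(T ∩ S) y + ∑_(j ∉ J) y (inr j) ≤ 1` (`sti`). No `w ∈ T`, `w ∉ S` has a label in `J` (it would be adjacent to a vertex of `T`), so
`T \ S` with the `inr j`, `j ∈ J`, is a stable set of the second block: `∑_(T \ S) z + ∑_(j ∈ J) z (inr j) ≤ 1`. Multiply by
`s`, `t` and add: `∑_T x + ∑_j s y (inr j) ≤ s + t = 1 + ∑_j s y (inr j)`. -/
theorem jc2 {k : ℕ} (G : SimpleGraph V) (hG : Perf Gᶜ) (S : Finset V) (l : V → Option (Fin k))
    (hj : KJn G S l) (x : V → ℝ) (s t : ℝ) (hs : 0 ≤ s) (ht : 0 ≤ t)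
    (y : {v // v ∈ S} ⊕ Fin k → ℝ)
    (hy : y ∈ STAB (Blk G S l)ᶜ univ) (z : {v // v ∈ Sᶜ} ⊕ Fin k → ℝ)
    (hz : z ∈ STAB (Blk G Sᶜ l)ᶜ univ)
    (h1 : ∀ j, s * y (Sum.inr j) = t * z (Sum.inr j))
    (h0 : s + t = 1 + ∑ j, s * y (Sum.inr j))
    (h2 : ∀ v, x v.1 = s * y (Sum.inl v)) (h3 : ∀ v, x v.1 = t * z (Sum.inl v)) :
    x ∈ STAB Gᶜ univ := by
  classical
  refine cut Gᶜ hG univ x (fun v => ?_) (fun v hv => absurd (mem_univ v) hv) fun T _ hT => ?_
  · by_cases hv : v ∈ S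
    · have := h2 ⟨v, hv⟩
      rw [show x v = s * y (Sum.inl ⟨v, hv⟩) from this]
      exact mul_nonneg hs ((sti _ _ _ hy).1 _)
    · have := h3 ⟨v, Finset.mem_compl.2 hv⟩
      rw [show x v = t * z (Sum.inl ⟨v, Finset.mem_compl.2 hv⟩) from this]
      exact mul_nonneg ht ((sti _ _ _ hz).1 _)
  · obtain ⟨J, hJ⟩ : ∃ J : Finset (Fin k), ∀ j, j ∈ J ↔ ∃ u ∈ T, u ∈ S ∧ l u = some j :=
      ⟨univ.filter (fun j => ∃ u ∈ T, u ∈ S ∧ l u = some j), fun j => by simp⟩
    have a1 := jc2_side G T S l Jᶜ hT (fun u hu huS j hjJ hl =>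
      (Finset.mem_compl.1 hjJ) ((hJ j).2 ⟨u, hu, huS, hl⟩)) y hy s hs x h2
    have a2 := jc2_side G T Sᶜ l J hT (fun w hw hwS j hjJ hl => by
      obtain ⟨u, hu, huS, hlu⟩ := (hJ j).1 hjJ
      have hwS' : w ∉ S := Finset.mem_compl.1 hwS
      have hne : u ≠ w := fun he => hwS' (he ▸ huS)
      exact ((SimpleGraph.compl_adj _ _ _).1 (hT u hu w hw hne)).2
        ((hj u huS w hwS').2 ⟨j, hlu, hl⟩)) z hz t ht x h3
    have e1 : ∑ j ∈ J, t * z (Sum.inr j) = ∑ j ∈ J, s * y (Sum.inr j) :=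
      Finset.sum_congr rfl fun j _ => (h1 j).symm
    have e2 : ∑ j ∈ J, s * y (Sum.inr j) + ∑ j ∈ Jᶜ, s * y (Sum.inr j) =
        ∑ j, s * y (Sum.inr j) := Finset.sum_add_sum_compl J _
    have e3 : T.filter (fun v => v ∈ Sᶜ) = T.filter (fun v => ¬ v ∈ S) :=
      Finset.filter_congr fun v _ => Finset.mem_compl
    have e4 : ∑ v ∈ T.filter (fun v => v ∈ S), x v + ∑ v ∈ T.filter (fun v => ¬ v ∈ S), x v =
        ∑ v ∈ T, x v := Finset.sum_filter_add_sum_filter_not T _ _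
    rw [e1, e3] at a2
    linarith
-- END jc2

-- BEGIN wpg
private theorem wpg_stb (G : SimpleGraph V) (t : Finset V) : Clq Gᶜ t ↔ Stb G t := by
  constructor
  · intro h u hu v hv hadj
    exact ((SimpleGraph.compl_adj G u v).mp (h u hu v hv (G.ne_of_adj hadj))).2 hadj
  · intro h u hu v hv hne
    exact (SimpleGraph.compl_adj G u v).mpr ⟨hne, h u hu v hv⟩

private theorem wpg_claim (G : SimpleGraph V) (hG : Perf G) (S : Finset V) (m : ℕ) (hm : 1 ≤ m)
    (hS : ∀ t : Finset V, t ⊆ S → Stb G t → t.card ≤ m) :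
    ∃ K : Finset V, K ⊆ S ∧ Clq G K ∧ ∀ t : Finset V, t ⊆ S → Stb G t → t.card = m →
      ∃ v ∈ K, v ∈ t := by
  classical
  by_contra hcon
  push Not at hcon
  choose! T hT1 hT2 hT3 hT4 using hcon
  obtain ⟨Q, hQ⟩ : ∃ Q : Finset (Finset V), ∀ K, K ∈ Q ↔ K ⊆ S ∧ Clq G K :=
    ⟨S.powerset.filter (fun K => Clq G K), fun K => by rw [Finset.mem_filter, Finset.mem_powerset]⟩
  have hempty : ∅ ∈ Q :=
    (hQ ∅).mpr ⟨Finset.empty_subset S, fun u hu => absurd hu (Finset.notMem_empty u)⟩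
  have hM : 1 ≤ Q.card := Finset.card_pos.mpr ⟨∅, hempty⟩
  have hcl : ∀ K₀ : Finset V, Clq G K₀ →
      ∑ v ∈ K₀, (∑ K ∈ Q, if v ∈ T K then 1 else 0) ≤ Q.card - 1 := by
    intro K₀ hK₀
    rw [Finset.sum_comm]
    have h1 : ∀ K ∈ Q, ∑ v ∈ K₀, (if v ∈ T K then 1 else 0) ≤ 1 := by
      intro K hK
      rw [← Finset.card_filter, Finset.card_le_one]
      intro u hu v hv
      by_contra hne
      have hu' := Finset.mem_filter.mp hu
      have hv' := Finset.mem_filter.mp hv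
      exact hT2 K ((hQ K).mp hK).1 ((hQ K).mp hK).2 u hu'.2 v hv'.2 (hK₀ u hu'.1 v hv'.1 hne)
    have h2 : K₀ ∩ S ∈ Q := (hQ _).mpr ⟨Finset.inter_subset_right, fun u hu v hv h =>
      hK₀ u (Finset.mem_inter.mp hu).1 v (Finset.mem_inter.mp hv).1 h⟩
    have h3 : ∑ v ∈ K₀, (if v ∈ T (K₀ ∩ S) then 1 else 0) = 0 := by
      refine Finset.sum_eq_zero fun v hv => if_neg fun hvT => ?_
      have e1 := (hQ _).mp h2
      have hvS := hT1 _ e1.1 e1.2 hvT
      exact hT4 _ e1.1 e1.2 v (Finset.mem_inter.mpr ⟨hv, hvS⟩) hvT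
    rw [← Finset.sum_erase_add Q _ h2, h3, add_zero]
    calc ∑ K ∈ Q.erase (K₀ ∩ S), ∑ v ∈ K₀, (if v ∈ T K then 1 else 0)
        ≤ ∑ K ∈ Q.erase (K₀ ∩ S), 1 :=
          Finset.sum_le_sum fun K hK => h1 K (Finset.mem_of_mem_erase hK)
      _ = Q.card - 1 := by
          rw [Finset.sum_const, smul_eq_mul, mul_one, Finset.card_erase_of_mem h2]
  obtain ⟨T', hT'1, hT'2⟩ := rep G hG (fun v => ∑ K ∈ Q, if v ∈ T K then 1 else 0)
    (Q.card - 1) hcl
  have hsum1 : ∑ v, ∑ K ∈ Q, (if v ∈ T K then 1 else 0) = Q.card * m := by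
    rw [Finset.sum_comm]
    have h1 : ∀ K ∈ Q, ∑ v, (if v ∈ T K then 1 else 0) = m := by
      intro K hK
      rw [← Finset.card_filter, Finset.filter_mem_eq_inter, Finset.univ_inter]
      exact hT3 K ((hQ K).mp hK).1 ((hQ K).mp hK).2
    rw [Finset.sum_congr rfl h1, Finset.sum_const, smul_eq_mul]
  have hsum2 : ∑ v, ∑ K ∈ Q, (if v ∈ T K then 1 else 0) ≤ (Q.card - 1) * m := by
    have h0 : ∑ v, ∑ K ∈ Q, (if v ∈ T K then 1 else 0) =
        ∑ v, ∑ i : Fin (Q.card - 1), (if v ∈ T' i then 1 else 0) :=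
      Finset.sum_congr rfl fun v _ => (hT'2 v).symm
    rw [h0, Finset.sum_comm]
    calc ∑ i : Fin (Q.card - 1), ∑ v, (if v ∈ T' i then 1 else 0)
        ≤ ∑ _i : Fin (Q.card - 1), m := by
          refine Finset.sum_le_sum fun i _ => ?_
          rw [← Finset.card_filter, Finset.filter_mem_eq_inter, Finset.univ_inter]
          refine hS (T' i) ?_ (hT'1 i)
          intro v hv
          by_contra hvS
          have g1 : (∑ K ∈ Q, if v ∈ T K then 1 else 0) = 0 :=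
            Finset.sum_eq_zero fun K hK => if_neg fun h =>
              hvS (hT1 K ((hQ K).mp hK).1 ((hQ K).mp hK).2 h)
          have g2 : (1 : ℕ) ≤ ∑ i : Fin (Q.card - 1), if v ∈ T' i then 1 else 0 := by
            have g3 := Finset.single_le_sum (f := fun i => if v ∈ T' i then 1 else 0)
              (fun _ _ => Nat.zero_le _) (Finset.mem_univ i)
            simp only [if_pos hv] at g3
            exact g3
          rw [hT'2 v] at g2
          omega
      _ = (Q.card - 1) * m := by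
          rw [Finset.sum_const, Finset.card_univ, Fintype.card_fin, smul_eq_mul]
  rw [hsum1] at hsum2
  have hlt : (Q.card - 1) * m < Q.card * m := Nat.mul_lt_mul_of_pos_right (by omega) hm
  omega

/-- The weak perfect graph theorem (Lovasz). PROOF. By induction on `#S`: if all cliques of `Gᶜ` in `S` (stable sets of `G`) have at most `m`
vertices, `S` is covered by `m` cliques of `G`. Let `m` be the exact maximum (`S` nonempty, `m ≥ 1`). It is enough to find a
clique `K ⊆ S` of `G` which meets all stable sets of `G` in `S` with `m` vertices: colour `K` with one colour and `S \ K` with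
`m - 1` colours (make `K` nonempty). If there is none choose for every clique `K ⊆ S` a stable `T_K ⊆ S`, `#T_K = m`, disjoint from `K`.
Let `M` be the number of cliques `K ⊆ S` (`M ≥ 1`: the empty one) and `a v = #{K : v ∈ T_K}`. A clique `K₀` (intersected with `S`) meets
every `T_K` in at most one vertex and `T_(K₀)` in none, so `∑_(v ∈ K₀) a v ≤ M - 1`, and `rep` gives `M - 1` stable sets which
cover `v` exactly `a v` times; they lie in `S`, so `m M = ∑ a v ≤ (M - 1) m`: contradiction. -/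
theorem wpg (G : SimpleGraph V) (hG : Perf G) : Perf Gᶜ := by
  classical
  have key : ∀ n : ℕ, ∀ S : Finset V, S.card = n → ∀ m : ℕ,
      (∀ t : Finset V, t ⊆ S → Clq Gᶜ t → t.card ≤ m) →
      ∃ c : V → ℕ, (∀ u ∈ S, c u < m) ∧ ∀ u ∈ S, ∀ v ∈ S, Gᶜ.Adj u v → c u ≠ c v := by
    intro n
    induction n using Nat.strong_induction_on with
    | _ n ih =>
      intro S hSn m hS
      rcases S.eq_empty_or_nonempty with rfl | ⟨v0, hv0⟩
      · exact ⟨fun _ => 0, fun u hu => absurd hu (Finset.notMem_empty u),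
          fun u hu => absurd hu (Finset.notMem_empty u)⟩
      · obtain ⟨t0, ht0, hmax⟩ := Finset.exists_max_image (S.powerset.filter (fun t => Stb G t))
          Finset.card ⟨∅, Finset.mem_filter.mpr ⟨Finset.empty_mem_powerset S,
            fun u hu => absurd hu (Finset.notMem_empty u)⟩⟩
        have ht0' := Finset.mem_filter.mp ht0
        have ht0S : t0 ⊆ S := Finset.mem_powerset.mp ht0'.1
        have hb : ∀ t : Finset V, t ⊆ S → Stb G t → t.card ≤ t0.card := fun t ht hst =>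
          hmax t (Finset.mem_filter.mpr ⟨Finset.mem_powerset.mpr ht, hst⟩)
        have h1 : 1 ≤ t0.card := by
          have h := hb {v0} (Finset.singleton_subset_iff.mpr hv0) (by
            intro u hu v hv hadj
            rw [Finset.mem_singleton] at hu hv
            rw [hu, hv] at hadj
            exact G.loopless.irrefl v0 hadj)
          rwa [Finset.card_singleton] at h
        have hm : t0.card ≤ m := hS t0 ht0S ((wpg_stb G t0).mpr ht0'.2)
        obtain ⟨K, hKS, hK, hKt⟩ := wpg_claim G hG S t0.card h1 hb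
        obtain ⟨v1, hv1, _⟩ := hKt t0 ht0S ht0'.2 rfl
        have hlt : (S \ K).card < n := by
          rw [← hSn]
          exact Finset.card_lt_card (Finset.sdiff_ssubset hKS ⟨v1, hv1⟩)
        obtain ⟨c', hc1, hc2⟩ := ih _ hlt (S \ K) rfl (t0.card - 1) (by
          intro t ht htc
          have e1 := hb t (ht.trans Finset.sdiff_subset) ((wpg_stb G t).mp htc)
          by_contra hcon
          have e2 : t.card = t0.card := by omega
          obtain ⟨v, hvK, hvt⟩ := hKt t (ht.trans Finset.sdiff_subset) ((wpg_stb G t).mp htc) e2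
          exact (Finset.mem_sdiff.mp (ht hvt)).2 hvK)
        refine ⟨fun u => if u ∈ K then t0.card - 1 else c' u, ?_, ?_⟩
        · intro u hu
          show (if u ∈ K then t0.card - 1 else c' u) < m
          by_cases huK : u ∈ K
          · rw [if_pos huK]
            omega
          · rw [if_neg huK]
            have h := hc1 u (Finset.mem_sdiff.mpr ⟨hu, huK⟩)
            omega
        · intro u hu v hv hadj
          have hadj' := (SimpleGraph.compl_adj G u v).mp hadj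
          show (if u ∈ K then t0.card - 1 else c' u) ≠ (if v ∈ K then t0.card - 1 else c' v)
          by_cases huK : u ∈ K
          · by_cases hvK : v ∈ K
            · exact absurd (hK u huK v hvK hadj'.1) hadj'.2
            · rw [if_pos huK, if_neg hvK]
              have h := hc1 v (Finset.mem_sdiff.mpr ⟨hv, hvK⟩)
              omega
          · by_cases hvK : v ∈ K
            · rw [if_neg huK, if_pos hvK]
              have h := hc1 u (Finset.mem_sdiff.mpr ⟨hu, huK⟩)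
              omega
            · rw [if_neg huK, if_neg hvK]
              exact hc2 u (Finset.mem_sdiff.mpr ⟨hu, huK⟩) v (Finset.mem_sdiff.mpr ⟨hv, hvK⟩) hadj
  intro S m hS
  exact key S.card S rfl m hS
-- END wpg

-- BEGIN rcp
private theorem rcp_prim {U : Type} (G : SimpleGraph U) (S : Set U) (h : Prim Gᶜ S) : Prim G S := by
  intro M hM
  refine h M ⟨hM.1, fun x hx hxM => ?_⟩
  rcases hM.2 x hx hxM with h1 | h1
  · right
    intro u hu hc
    exact ((SimpleGraph.compl_adj G x u).1 hc).2 (h1 u hu)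
  · left
    intro u hu
    exact (SimpleGraph.compl_adj G x u).2 ⟨fun he => hxM (he ▸ hu), h1 u hu⟩

/-- The rank of the complement. PROOF. Induction on `r`, as `rkc` in `Gsp.lean`. Rank `0`: `A`, `B` disjoint, so complete in `G` is
anticomplete in `Gᶜ` and vice versa. `Prim Gᶜ S` iff `Prim G S` (a module of `Gᶜ` is a module of `G`). The neighbours of `v` in `Gᶜ` are
the other vertices not adjacent to `v` in `G`. -/
theorem rcp (e : ℝ) {U : Type} (G : SimpleGraph U) (r : ℕ) (X : Set U) (h : Rank e G r X) :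
    Rank e Gᶜ r X := by
  induction r generalizing X with
  | zero =>
    intro S hS h2
    obtain ⟨A, B, hA, hB, hd, ha, hb, hh⟩ := h S hS h2
    refine ⟨A, B, hA, hB, hd, ha, hb, ?_⟩
    rcases hh with h1 | h1
    · right
      intro a haA b hbB hc
      exact ((SimpleGraph.compl_adj G a b).1 hc).2 (h1 a haA b hbB)
    · left
      intro a haA b hbB
      exact (SimpleGraph.compl_adj G a b).2
        ⟨fun he => (Finset.disjoint_left.1 hd haA) (he ▸ hbB), h1 a haA b hbB⟩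
  | succ r ih =>
    intro S hS hne hP
    obtain ⟨v, hv, h1 | h1⟩ := h S hS hne (rcp_prim G S hP)
    · refine ⟨v, hv, Or.inr ?_⟩
      have h2 := ih _ h1
      have h3 : {u | u ∈ S ∧ u ≠ v ∧ ¬ Gᶜ.Adj v u} = {u | u ∈ S ∧ G.Adj v u} := by
        ext u
        simp only [Set.mem_ofPred_eq, SimpleGraph.compl_adj]
        constructor
        · rintro ⟨a, b, c⟩
          refine ⟨a, ?_⟩
          by_contra hc
          exact c ⟨fun hh => b hh.symm, hc⟩
        · rintro ⟨a, b⟩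
          exact ⟨a, fun hh => b.ne hh.symm, fun hh => hh.2 b⟩
      rw [h3]
      exact h2
    · refine ⟨v, hv, Or.inl ?_⟩
      have h2 := ih _ h1
      have h3 : {u | u ∈ S ∧ Gᶜ.Adj v u} = {u | u ∈ S ∧ u ≠ v ∧ ¬ G.Adj v u} := by
        ext u
        simp only [Set.mem_ofPred_eq, SimpleGraph.compl_adj]
        constructor
        · rintro ⟨a, b, c⟩
          exact ⟨a, fun hh => b hh.symm, c⟩
        · rintro ⟨a, b, c⟩
          exact ⟨a, fun hh => b hh.symm, c⟩
      rw [h3]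
      exact h2
-- END rcp

-- BEGIN jxa
private theorem jxa_cut {A B : Type} [Fintype A] [DecidableEq A] [Fintype B] [DecidableEq B] {k : ℕ}
    (P : Set ((A ⊕ Fin k) ⊕ (B ⊕ Fin k) → ℝ)) (f : ℕ) (h : XC P f) (T : Finset (Fin k)) :
    XC {x : (A ⊕ Fin k) ⊕ (B ⊕ Fin k) → ℝ | x ∈ P ∧
      ∀ j ∈ T, x (Sum.inl (Sum.inr j)) + x (Sum.inr (Sum.inr j)) = 1} (f + 2 * T.card) := by
  induction T using Finset.induction_on with
  | empty =>
    have e : {x : (A ⊕ Fin k) ⊕ (B ⊕ Fin k) → ℝ | x ∈ P ∧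
        ∀ j ∈ (∅ : Finset (Fin k)), x (Sum.inl (Sum.inr j)) + x (Sum.inr (Sum.inr j)) = 1} = P := by
      ext x
      simp
    rw [e, Finset.card_empty, mul_zero, add_zero]
    exact h
  | insert i T hi ih =>
    have h1 := eqc _ _ ih (Pi.single (Sum.inl (Sum.inr i)) 1 + Pi.single (Sum.inr (Sum.inr i)) 1) 1
    have e : {x : (A ⊕ Fin k) ⊕ (B ⊕ Fin k) → ℝ | x ∈ P ∧
        ∀ j ∈ insert i T, x (Sum.inl (Sum.inr j)) + x (Sum.inr (Sum.inr j)) = 1} =
        {x : (A ⊕ Fin k) ⊕ (B ⊕ Fin k) → ℝ |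
          x ∈ {x : (A ⊕ Fin k) ⊕ (B ⊕ Fin k) → ℝ | x ∈ P ∧
            ∀ j ∈ T, x (Sum.inl (Sum.inr j)) + x (Sum.inr (Sum.inr j)) = 1} ∧
          ∑ v, (Pi.single (Sum.inl (Sum.inr i)) 1 + Pi.single (Sum.inr (Sum.inr i)) 1 :
            (A ⊕ Fin k) ⊕ (B ⊕ Fin k) → ℝ) v * x v = 1} := by
      ext x
      have h2 : ∑ v, (Pi.single (Sum.inl (Sum.inr i)) 1 + Pi.single (Sum.inr (Sum.inr i)) 1 :
            (A ⊕ Fin k) ⊕ (B ⊕ Fin k) → ℝ) v * x v =
          x (Sum.inl (Sum.inr i)) + x (Sum.inr (Sum.inr i)) := by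
        have h3 : ∀ v, (Pi.single (Sum.inl (Sum.inr i)) 1 + Pi.single (Sum.inr (Sum.inr i)) 1 :
            (A ⊕ Fin k) ⊕ (B ⊕ Fin k) → ℝ) v * x v =
            (Pi.single (Sum.inl (Sum.inr i)) 1 : (A ⊕ Fin k) ⊕ (B ⊕ Fin k) → ℝ) v * x v +
            (Pi.single (Sum.inr (Sum.inr i)) 1 : (A ⊕ Fin k) ⊕ (B ⊕ Fin k) → ℝ) v * x v := by
          intro v
          rw [Pi.add_apply, add_mul]
        rw [Finset.sum_congr rfl fun v _ => h3 v, Finset.sum_add_distrib]
        have h4 : ∀ a : (A ⊕ Fin k) ⊕ (B ⊕ Fin k),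
            ∑ v, (Pi.single a 1 : (A ⊕ Fin k) ⊕ (B ⊕ Fin k) → ℝ) v * x v = x a := by
          intro a
          rw [Finset.sum_eq_single a]
          · rw [Pi.single_eq_same, one_mul]
          · intro b _ hb
            rw [Pi.single_eq_of_ne hb, zero_mul]
          · intro ha
            exact absurd (Finset.mem_univ a) ha
        rw [h4, h4]
      rw [Set.mem_ofPred_eq, Set.mem_ofPred_eq, Set.mem_ofPred_eq, h2, Finset.forall_mem_insert]
      constructor
      · rintro ⟨a, b, c⟩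
        exact ⟨⟨a, c⟩, b⟩
      · rintro ⟨⟨a, c⟩, b⟩
        exact ⟨a, b, c⟩
    rw [e, Finset.card_insert_of_notMem hi]
    have e2 : f + 2 * (T.card + 1) = f + 2 * T.card + 2 := by ring
    rw [e2]
    exact h1

/-- PROOF. `js1`, `js2`: `STAB G univ` is the image of `Q = {w : ({v // v ∈ S} ⊕ Fin k) ⊕ ({v // v ∈ Sᶜ} ⊕ Fin k) → ℝ | w ∘ inl ∈ STAB (Blk G S l) univ ∧
w ∘ inr ∈ STAB (Blk G Sᶜ l) univ ∧ ∀ j, w (inl (inr j)) + w (inr (inr j)) = 1}` under the linear map with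
`v ↦ if h : v ∈ S then w (inl (inl ⟨v, h⟩)) else w (inr (inl ⟨v, _⟩))`. `prd`, then `eqc` for every `j` (induction over a finset of labels
`j`, or over `m ≤ k`), then `img`. -/
theorem jxa {k : ℕ} (G : SimpleGraph V) (hG : Perf G) (S : Finset V) (l : V → Option (Fin k))
    (hj : KJn G S l) (f₁ f₂ : ℕ) (h₁ : XC (STAB (Blk G S l) univ) f₁)
    (h₂ : XC (STAB (Blk G Sᶜ l) univ) f₂) : XC (STAB G univ) (f₁ + f₂ + 2 * k) := by
  have hP := prd _ _ f₁ f₂ h₁ h₂
  have hQ := jxa_cut _ _ hP (univ : Finset (Fin k))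
  rw [Finset.card_univ, Fintype.card_fin] at hQ
  let φ : (({v // v ∈ S} ⊕ Fin k) ⊕ ({v // v ∈ Sᶜ} ⊕ Fin k) → ℝ) →ₗ[ℝ] (V → ℝ) :=
    LinearMap.pi fun v => if h : v ∈ S then LinearMap.proj (Sum.inl (Sum.inl ⟨v, h⟩))
      else LinearMap.proj (Sum.inr (Sum.inl ⟨v, Finset.mem_compl.2 h⟩))
  have hφ1 : ∀ w (v : {v // v ∈ S}), φ w v.1 = w (Sum.inl (Sum.inl v)) := by
    intro w v
    show (if h : v.1 ∈ S then LinearMap.proj (R := ℝ)
      (φ := fun _ : ({v // v ∈ S} ⊕ Fin k) ⊕ ({v // v ∈ Sᶜ} ⊕ Fin k) => ℝ) (Sum.inl (Sum.inl ⟨v.1, h⟩))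
      else LinearMap.proj (Sum.inr (Sum.inl ⟨v.1, Finset.mem_compl.2 h⟩))) w = _
    rw [dif_pos v.2]
    rfl
  have hφ2 : ∀ w (v : {v // v ∈ Sᶜ}), φ w v.1 = w (Sum.inr (Sum.inl v)) := by
    intro w v
    show (if h : v.1 ∈ S then LinearMap.proj (R := ℝ)
      (φ := fun _ : ({v // v ∈ S} ⊕ Fin k) ⊕ ({v // v ∈ Sᶜ} ⊕ Fin k) => ℝ) (Sum.inl (Sum.inl ⟨v.1, h⟩))
      else LinearMap.proj (Sum.inr (Sum.inl ⟨v.1, Finset.mem_compl.2 h⟩))) w = _
    rw [dif_neg (Finset.mem_compl.1 v.2)]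
    rfl
  have himg := img _ _ hQ φ.toAffineMap
  have e : STAB G univ = φ.toAffineMap '' {x : ({v // v ∈ S} ⊕ Fin k) ⊕ ({v // v ∈ Sᶜ} ⊕ Fin k) → ℝ |
      x ∈ {x : ({v // v ∈ S} ⊕ Fin k) ⊕ ({v // v ∈ Sᶜ} ⊕ Fin k) → ℝ |
        (fun v => x (Sum.inl v)) ∈ STAB (Blk G S l) univ ∧
        (fun v => x (Sum.inr v)) ∈ STAB (Blk G Sᶜ l) univ} ∧
      ∀ j ∈ (univ : Finset (Fin k)), x (Sum.inl (Sum.inr j)) + x (Sum.inr (Sum.inr j)) = 1} := by
    ext x
    constructor
    · intro hx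
      obtain ⟨y, hy, z, hz, g1, g2, g3⟩ := js1 G S l hj x hx
      refine ⟨Sum.elim y z, ⟨⟨hy, hz⟩, fun j _ => g1 j⟩, ?_⟩
      rw [LinearMap.coe_toAffineMap]
      funext v
      by_cases hv : v ∈ S
      · rw [hφ1 _ ⟨v, hv⟩, g2 ⟨v, hv⟩]
        rfl
      · rw [hφ2 _ ⟨v, Finset.mem_compl.2 hv⟩, g3 ⟨v, Finset.mem_compl.2 hv⟩]
        rfl
    · rintro ⟨w, ⟨⟨hy, hz⟩, g1⟩, rfl⟩
      rw [LinearMap.coe_toAffineMap]
      exact js2 G hG S l hj (φ w) _ hy _ hz (fun j => g1 j (Finset.mem_univ j)) (hφ1 w) (hφ2 w)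
  rw [e]
  exact himg
-- END jxa

-- BEGIN jxb
theorem jxb_eqs (P : Set (V → ℝ)) (f : ℕ) (h : XC P f) : ∀ (k : ℕ) (u : Fin k → V → ℝ) (c : Fin k → ℝ),
    XC {x : V → ℝ | x ∈ P ∧ ∀ j, ∑ v, u j v * x v = c j} (f + 2 * k) := by
  intro k
  induction k with
  | zero =>
    intro u c
    have h1 : {x : V → ℝ | x ∈ P ∧ ∀ j, ∑ v, u j v * x v = c j} = P := by
      ext x
      constructor
      · intro hx
        exact hx.1
      · intro hx
        exact ⟨hx, fun j => j.elim0⟩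
    rw [h1]
    exact h
  | succ k ih =>
    intro u c
    have h1 := eqc _ _ (ih (fun j => u j.castSucc) (fun j => c j.castSucc)) (u (Fin.last k)) (c (Fin.last k))
    have h2 : {x : V → ℝ | x ∈ {x : V → ℝ | x ∈ P ∧ ∀ j : Fin k, ∑ v, u j.castSucc v * x v = c j.castSucc} ∧
        ∑ v, u (Fin.last k) v * x v = c (Fin.last k)} =
        {x : V → ℝ | x ∈ P ∧ ∀ j, ∑ v, u j v * x v = c j} := by
      ext x
      constructor
      · rintro ⟨⟨h3, h4⟩, h5⟩
        refine ⟨h3, fun j => ?_⟩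
        induction j using Fin.lastCases with
        | last => exact h5
        | cast j => exact h4 j
      · rintro ⟨h3, h4⟩
        exact ⟨⟨h3, fun j => h4 _⟩, h4 _⟩
    rw [h2] at h1
    exact h1

theorem jxb_ne (G : SimpleGraph V) : (STAB G univ).Nonempty :=
  ⟨ind ∅, subset_convexHull ℝ _ ⟨∅, Finset.subset_univ _, fun u hu => absurd hu (Finset.notMem_empty u), rfl⟩⟩

/-- the map -/
noncomputable def jxb_phi {k : ℕ} (S : Finset V) :
    (Option ({v // v ∈ S} ⊕ Fin k) ⊕ Option ({v // v ∈ Sᶜ} ⊕ Fin k) → ℝ) →ᵃ[ℝ] (V → ℝ) :=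
  (LinearMap.pi fun v : V => if h : v ∈ S
    then (LinearMap.proj (Sum.inl (some (Sum.inl ⟨v, h⟩))) :
      (Option ({v // v ∈ S} ⊕ Fin k) ⊕ Option ({v // v ∈ Sᶜ} ⊕ Fin k) → ℝ) →ₗ[ℝ] ℝ)
    else LinearMap.proj (Sum.inr (some (Sum.inl ⟨v, Finset.mem_compl.2 h⟩)))).toAffineMap

theorem jxb_phi_pos {k : ℕ} (S : Finset V)
    (w : Option ({v // v ∈ S} ⊕ Fin k) ⊕ Option ({v // v ∈ Sᶜ} ⊕ Fin k) → ℝ) (v : {v // v ∈ S}) :
    jxb_phi S w v.1 = w (Sum.inl (some (Sum.inl v))) := by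
  show (if h : v.1 ∈ S
    then (LinearMap.proj (Sum.inl (some (Sum.inl ⟨v.1, h⟩))) :
      (Option ({v // v ∈ S} ⊕ Fin k) ⊕ Option ({v // v ∈ Sᶜ} ⊕ Fin k) → ℝ) →ₗ[ℝ] ℝ)
    else LinearMap.proj (Sum.inr (some (Sum.inl ⟨v.1, Finset.mem_compl.2 h⟩)))) w = _
  rw [dif_pos v.2]
  rfl

theorem jxb_phi_neg {k : ℕ} (S : Finset V)
    (w : Option ({v // v ∈ S} ⊕ Fin k) ⊕ Option ({v // v ∈ Sᶜ} ⊕ Fin k) → ℝ) (v : {v // v ∈ Sᶜ}) :
    jxb_phi S w v.1 = w (Sum.inr (some (Sum.inl v))) := by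
  show (if h : v.1 ∈ S
    then (LinearMap.proj (Sum.inl (some (Sum.inl ⟨v.1, h⟩))) :
      (Option ({v // v ∈ S} ⊕ Fin k) ⊕ Option ({v // v ∈ Sᶜ} ⊕ Fin k) → ℝ) →ₗ[ℝ] ℝ)
    else LinearMap.proj (Sum.inr (some (Sum.inl ⟨v.1, Finset.mem_compl.2 h⟩)))) w = _
  rw [dif_neg (Finset.mem_compl.1 v.2)]
  rfl

/-- the coefficients of the equation `j` -/
noncomputable def jxb_u {A B : Type} {k : ℕ} (j : Fin k) : Option (A ⊕ Fin k) ⊕ Option (B ⊕ Fin k) → ℝ :=
  Sum.elim (fun o => Option.elim o 0 (Sum.elim (fun _ => 0) (fun i => if i = j then 1 else 0)))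
    (fun o => Option.elim o 0 (Sum.elim (fun _ => 0) (fun i => if i = j then -1 else 0)))

theorem jxb_u_sum {A B : Type} [Fintype A] [Fintype B] {k : ℕ} (j : Fin k)
    (w : Option (A ⊕ Fin k) ⊕ Option (B ⊕ Fin k) → ℝ) :
    ∑ v, jxb_u j v * w v = w (Sum.inl (some (Sum.inr j))) - w (Sum.inr (some (Sum.inr j))) := by
  simp [jxb_u, Fintype.sum_sum_type, Fintype.sum_option, sub_eq_add_neg]

/-- the coefficients of the last equation -/
noncomputable def jxb_z {A B : Type} {k : ℕ} : Option (A ⊕ Fin k) ⊕ Option (B ⊕ Fin k) → ℝ :=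
  Sum.elim (fun o => Option.elim o 1 (Sum.elim (fun _ => 0) (fun _ => -1)))
    (fun o => Option.elim o 1 (fun _ => 0))

theorem jxb_z_sum {A B : Type} [Fintype A] [Fintype B] {k : ℕ}
    (w : Option (A ⊕ Fin k) ⊕ Option (B ⊕ Fin k) → ℝ) :
    ∑ v, jxb_z v * w v = w (Sum.inl none) + w (Sum.inr none) - ∑ j, w (Sum.inl (some (Sum.inr j))) := by
  simp [jxb_z, Fintype.sum_sum_type, Fintype.sum_option]
  ring

/-- PROOF. As `jxa`, with `con` for both polytopes (nonempty: `ind ∅`): `prd` of the two cones in `Option _ ⊕ Option _`, then `eqc` for the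
`k` equations `w (inl (some (inr j))) = w (inr (some (inr j)))` and for
`w (inl none) + w (inr none) - ∑ j, w (inl (some (inr j))) = 1`, then `img`; `jc1`, `jc2`. -/
theorem jxb {k : ℕ} (G : SimpleGraph V) (hG : Perf Gᶜ) (S : Finset V) (l : V → Option (Fin k))
    (hj : KJn G S l) (f₁ f₂ : ℕ) (h₁ : XC (STAB (Blk G S l)ᶜ univ) f₁)
    (h₂ : XC (STAB (Blk G Sᶜ l)ᶜ univ) f₂) : XC (STAB Gᶜ univ) (f₁ + f₂ + 2 * k + 6) := by
  have c1 := con _ _ h₁ (jxb_ne _)
  have c2 := con _ _ h₂ (jxb_ne _)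
  have c3 := prd _ _ _ _ c1 c2
  have c4 := jxb_eqs _ _ c3 k (fun j => jxb_u j) (fun _ => 0)
  have c5 := eqc _ _ c4 jxb_z 1
  have c6 := img _ _ c5 (jxb_phi (k := k) S)
  have hf : f₁ + 2 + (f₂ + 2) + 2 * k + 2 = f₁ + f₂ + 2 * k + 6 := by omega
  rw [hf] at c6
  refine (congrArg (fun P => XC P (f₁ + f₂ + 2 * k + 6)) ?_).mp c6
  ext x
  constructor
  · rintro ⟨w, ⟨⟨⟨⟨h3, h4, y, hy, h5⟩, ⟨h6, h7, z, hz, h8⟩⟩, h9⟩, h10⟩, rfl⟩
    rw [jxb_z_sum] at h10
    refine jc2 G hG S l hj _ (w (Sum.inl none)) (w (Sum.inr none)) h3 h6 y hy z hz ?_ ?_ ?_ ?_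
    · intro j
      have h11 := h9 j
      rw [jxb_u_sum] at h11
      rw [← h5 (Sum.inr j), ← h8 (Sum.inr j)]
      linarith
    · have h12 : ∀ j, w (Sum.inl none) * y (Sum.inr j) = w (Sum.inl (some (Sum.inr j))) := fun j => (h5 (Sum.inr j)).symm
      rw [Finset.sum_congr rfl fun j _ => h12 j]
      linarith
    · intro v
      rw [jxb_phi_pos]
      exact h5 (Sum.inl v)
    · intro v
      rw [jxb_phi_neg]
      exact h8 (Sum.inl v)
  · intro hx
    obtain ⟨s, t, hs0, hs1, ht0, ht1, y, hy, z, hz, h3, h4, h5, h6⟩ := jc1 G S l hj x hx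
    refine ⟨Sum.elim (fun o => Option.elim o s (fun v => s * y v)) (fun o => Option.elim o t (fun v => t * z v)),
      ⟨⟨⟨⟨hs0, hs1, y, hy, fun v => rfl⟩, ⟨ht0, ht1, z, hz, fun v => rfl⟩⟩, fun j => ?_⟩, ?_⟩, ?_⟩
    · rw [jxb_u_sum]
      show s * y (Sum.inr j) - t * z (Sum.inr j) = 0
      rw [h3 j, sub_self]
    · rw [jxb_z_sum]
      show s + t - ∑ j, s * y (Sum.inr j) = 1
      rw [h4]
      ring
    · funext v
      by_cases hv : v ∈ S
      · have h7 := jxb_phi_pos (k := k) S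
          (Sum.elim (fun o => Option.elim o s (fun v => s * y v)) (fun o => Option.elim o t (fun v => t * z v))) ⟨v, hv⟩
        refine h7.trans ?_
        exact (h5 ⟨v, hv⟩).symm
      · have h7 := jxb_phi_neg (k := k) S
          (Sum.elim (fun o => Option.elim o s (fun v => s * y v)) (fun o => Option.elim o t (fun v => t * z v)))
          ⟨v, Finset.mem_compl.2 hv⟩
        refine h7.trans ?_
        exact (h6 ⟨v, Finset.mem_compl.2 hv⟩).symm
-- END jxb

/-- bound for the number of leaves -/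
def lvs (k m : ℕ) : ℕ := max 1 (2 * (m - 2 * k) - 1)

-- BEGIN lva
/-- PROOF. `omega` after `unfold lvs` (`max` by cases). -/
theorem lva (k a b : ℕ) (ha : k < a) (hb : k < b) :
    lvs k (a + k) + lvs k (b + k) + 1 ≤ lvs k (a + b) := by
  unfold lvs
  omega
-- END lva

-- BEGIN lvb
/-- PROOF. `lvs k n ≤ 2 * n - 1`, and `(2 n - 1) ((n + 1) ^ a + 2 n + 6) ≤ (n + 1) ^ (a + 4)` for `n ≥ 1`:
`(n + 1) ^ (a + 4) = (n + 1) ^ a * (n + 1) ^ 4`, `(n + 1) ^ 4 ≥ (2 n - 1) (2 n + 7)` and `(n + 1) ^ a ≥ 1` (write `n = m + 1`). -/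
theorem lvb (k n a : ℕ) (hn : 1 ≤ n) :
    lvs k n * ((n + 1) ^ a + 2 * n + 6) ≤ (n + 1) ^ (a + 4) := by
  obtain ⟨m, rfl⟩ : ∃ m, n = m + 1 := ⟨n - 1, by omega⟩
  have h1 : lvs k (m + 1) ≤ 2 * m + 1 := by
    unfold lvs
    exact max_le (by omega) (by omega)
  obtain ⟨A, hA⟩ : ∃ A : ℕ, A = (m + 1 + 1) ^ a := ⟨_, rfl⟩
  have hA1 : 1 ≤ A := by
    rw [hA]
    exact Nat.one_le_pow _ _ (by omega)
  rw [pow_add, ← hA]
  calc lvs k (m + 1) * (A + 2 * (m + 1) + 6) ≤ (2 * m + 1) * (A + 2 * (m + 1) + 6) :=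
        Nat.mul_le_mul_right _ h1
    _ ≤ (2 * m + 1) * (A * (2 * m + 9)) := by
        refine Nat.mul_le_mul_left _ ?_
        nlinarith [Nat.mul_le_mul_right (2 * m + 8) hA1]
    _ = A * ((2 * m + 1) * (2 * m + 9)) := by ring
    _ ≤ A * (m + 1 + 1) ^ 4 := by
        refine Nat.mul_le_mul_left _ ?_
        have h2 : (m + 1 + 1) ^ 4 = (2 * m + 1) * (2 * m + 9) + (m ^ 4 + 8 * m ^ 3 + 20 * m ^ 2 + 12 * m + 7) := by
          ring
        rw [h2]
        exact Nat.le_add_right _ _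
-- END lvb

end Pool.Agent.Xbh
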