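import Pool.Agent.Xbh.Wts
import Pool.Agent.Xbh.Hole

set_option autoImplicit false
set_option linter.unusedSectionVars false

namespace Pool.Agent.Xbh

open Finset

variable {V : Type} [Fintype V] [DecidableEq V]

-- BEGIN mkv
/-- Markov. Hint: `W = U.filter (fun v => ms μ (nb G v) ≤ 2 * d)`; the sum of
`μ v * ms μ (nb G v)` over `U \ W` is at most `d` and at least `2 d * ms μ (U \ W)`. -/
theorem mkv (G : SimpleGraph V) (U : Finset V) (μ : V → ℝ) (δ d : ℝ) (hd : 0 < d)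
    (h : Wt μ U δ) (he : en G μ ≤ d) :
    ∃ W : Finset V, W ⊆ U ∧ 1 / 2 ≤ ms μ W ∧ ∀ v ∈ W, ms μ (nb G v) ≤ 2 * d := by
  classical
  have hW : U.filter (fun v => ms μ (nb G v) ≤ 2 * d) ⊆ U := Finset.filter_subset _ _
  refine ⟨U.filter (fun v => ms μ (nb G v) ≤ 2 * d), hW, ?_, fun v hv => (Finset.mem_filter.1 hv).2⟩
  have h1 : ms μ U = 1 := by
    rw [← h.tot]
    exact Finset.sum_subset (Finset.subset_univ U) (fun v _ hv => h.out v hv)
  have h2 := ms_sdiff μ hW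
  have h3 : ms μ (U \ U.filter (fun v => ms μ (nb G v) ≤ 2 * d)) * (2 * d) ≤ en G μ := by
    have h4 : ms μ (U \ U.filter (fun v => ms μ (nb G v) ≤ 2 * d)) * (2 * d) ≤
        ∑ u ∈ U \ U.filter (fun v => ms μ (nb G v) ≤ 2 * d), μ u * ms μ (nb G u) := by
      unfold ms
      rw [Finset.sum_mul]
      refine Finset.sum_le_sum fun v hv => mul_le_mul_of_nonneg_left ?_ (h.nn v)
      rw [Finset.mem_sdiff, Finset.mem_filter] at hv
      by_contra hcon
      exact hv.2 ⟨hv.1, (not_le.1 hcon).le⟩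
    refine h4.trans ?_
    exact Finset.sum_le_sum_of_subset_of_nonneg (Finset.subset_univ _)
      (fun u _ _ => mul_nonneg (h.nn u) (ms_nonneg μ h.nn _))
  have h5 : ms μ (U \ U.filter (fun v => ms μ (nb G v) ≤ 2 * d)) * (2 * d) ≤ 1 / 2 * (2 * d) := by
    linarith
  have h6 := le_of_mul_le_mul_right h5 (by linarith)
  linarith
-- END mkv

-- BEGIN sbt
theorem sbt_map (W : Finset V) (μ : V → ℝ) (c : ℝ) (A : Finset {v // v ∈ W}) :
    ms (fun v : {v // v ∈ W} => μ v / c) A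
      = ms μ (A.map (Function.Embedding.subtype (fun v => v ∈ W))) / c := by
  unfold ms
  rw [Finset.sum_map, Finset.sum_div]
  rfl

/-- Transfer of `hop` to a measure on a subset. Hint: apply `hop` to the type `{v // v ∈ W}`,
the graph `G.comap (fun v => (v : V))`, the measure `fun v => μ v / ms μ W`, and
`δ' = 1 / (2 (m + 8))`, `η = 1 / (4 (m + 1))`: atoms `≤ 2 * μ v ≤ δ'` and neighbourhoods
`≤ 2 * ms μ (nb G v) ≤ η`. A hole of the induced subgraph is one of `G`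
(`SimpleGraph.Embedding.comap` composed). A pair `A`, `B` is mapped to `V`
(`Finset.map (Function.Embedding.subtype _)`); `ms μ (A.map _) = ms μ W * ms μ' A ≥ δ' / 2`. -/
theorem sbt (m : ℕ) (hm : 3 ≤ m) (G : SimpleGraph V) (W : Finset V) (μ : V → ℝ)
    (nn : ∀ v, 0 ≤ μ v) (hW : 1 / 2 ≤ ms μ W)
    (hnb : ∀ v ∈ W, 8 * ((m : ℝ) + 1) * ms μ (nb G v) ≤ 1)
    (hpt : ∀ v ∈ W, 4 * ((m : ℝ) + 8) * μ v ≤ 1)
    (hno : ∀ r : ℕ, m + 1 ≤ r → IsEmpty (SimpleGraph.cycleGraph r ↪g G)) :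
    ∃ A B : Finset V, A ⊆ W ∧ B ⊆ W ∧ Disjoint A B ∧ Anti G A B ∧
      1 ≤ 4 * ((m : ℝ) + 8) * ms μ A ∧ 1 ≤ 4 * ((m : ℝ) + 8) * ms μ B := by
  have hW0 : 0 < ms μ W := by linarith
  have hm1 : (0 : ℝ) < (m : ℝ) + 1 := by positivity
  have hm8 : (0 : ℝ) < (m : ℝ) + 8 := by positivity
  have hdiv : ∀ x : ℝ, 0 ≤ x → x / ms μ W ≤ 2 * x := by
    intro x hx
    rw [div_le_iff₀ hW0]
    have := mul_le_mul_of_nonneg_left hW (by linarith : 0 ≤ 2 * x)
    linarith
  have key := hop m hm (G.comap (Function.Embedding.subtype (fun v => v ∈ W)))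
    (fun v : {v // v ∈ W} => μ v / ms μ W) (1 / (2 * ((m : ℝ) + 8))) (1 / (4 * ((m : ℝ) + 1)))
    (fun v => div_nonneg (nn v) hW0.le)
    (by
      rw [sbt_map]
      have h1 : (Finset.univ : Finset {v // v ∈ W}).map
          (Function.Embedding.subtype (fun v => v ∈ W)) = W := by
        ext v
        simp
      rw [h1]
      exact div_self hW0.ne')
    (by positivity)
    (by
      intro v
      refine le_trans (hdiv (μ v) (nn v)) ?_
      rw [le_div_iff₀ (by positivity)]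
      have := hpt v v.2
      linarith)
    (by
      intro v
      rw [sbt_map]
      have h1 : (nb (G.comap (Function.Embedding.subtype (fun v => v ∈ W))) v).map
          (Function.Embedding.subtype (fun v => v ∈ W)) ⊆ nb G v := by
        intro u hu
        obtain ⟨w, hw, rfl⟩ := Finset.mem_map.1 hu
        rw [mem_nb] at hw ⊢
        exact hw
      have h2 := ms_mono μ nn h1
      refine le_trans (hdiv _ (ms_nonneg μ nn _)) ?_
      rw [le_div_iff₀ (by positivity)]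
      have h3 := hnb v v.2
      have h4 := mul_le_mul_of_nonneg_left h2 (by linarith : 0 ≤ 8 * ((m : ℝ) + 1))
      linarith)
    (by
      have e1 : 2 * ((m : ℝ) + 1) * (1 / (4 * ((m : ℝ) + 1))) = 1 / 2 := by
        field_simp
        norm_num
      have e2 : ((m : ℝ) + 8) * (1 / (2 * ((m : ℝ) + 8))) = 1 / 2 := by
        field_simp
      rw [e1, e2]
      norm_num)
  rcases key with ⟨r, hr, ⟨e⟩⟩ | ⟨A, B, hAB, hanti, hA, hB⟩
  · exact ((hno r hr).false
      ((SimpleGraph.Embedding.comap (Function.Embedding.subtype (fun v => v ∈ W)) G).comp e)).elim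
  · have hsub : ∀ D : Finset {v // v ∈ W},
        D.map (Function.Embedding.subtype (fun v => v ∈ W)) ⊆ W := by
      intro D v hv
      obtain ⟨w, hw, rfl⟩ := Finset.mem_map.1 hv
      exact w.2
    have hbd : ∀ D : Finset {v // v ∈ W},
        1 / (2 * ((m : ℝ) + 8)) ≤ ms (fun v : {v // v ∈ W} => μ v / ms μ W) D →
        1 ≤ 4 * ((m : ℝ) + 8) * ms μ (D.map (Function.Embedding.subtype (fun v => v ∈ W))) := by
      intro D hD
      rw [sbt_map] at hD
      have h1 := le_trans hD (hdiv _ (ms_nonneg μ nn _))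
      rw [div_le_iff₀ (by positivity)] at h1
      linarith
    refine ⟨A.map (Function.Embedding.subtype (fun v => v ∈ W)),
      B.map (Function.Embedding.subtype (fun v => v ∈ W)), hsub A, hsub B, ?_, ?_,
      hbd A hA, hbd B hB⟩
    · exact (Finset.disjoint_map _).2 hAB
    · intro a ha b hb hadj
      obtain ⟨a', ha', rfl⟩ := Finset.mem_map.1 ha
      obtain ⟨b', hb', rfl⟩ := Finset.mem_map.1 hb
      exact hanti a' ha' b' hb' hadj
-- END sbt

-- BEGIN pow
/-- An anticomplete pair of linear size from a measure of small energy. Hint: `mkv` with `d`,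
then `sbt` (`8 (m+1) * 2 d ≤ 1`, and
`4 (m+8) μ v ≤ δ |U| μ v ≤ 1` by `h.pt`); a set `A ⊆ U` with `1 ≤ 4 (m+8) ms μ A` has
`δ |U| ≤ 4 (m+8) * ∑ v ∈ A, μ v * (δ |U|) ≤ 4 (m+8) |A|`. -/
theorem pow (m : ℕ) (hm : 3 ≤ m) (G : SimpleGraph V) (U : Finset V) (μ : V → ℝ) (δ d : ℝ)
    (hδ : 0 < δ) (hd : 0 < d) (hd1 : 16 * ((m : ℝ) + 1) * d ≤ 1) (h : Wt μ U δ)
    (he : en G μ ≤ d) (hbig : 4 * ((m : ℝ) + 8) ≤ δ * U.card)
    (hno : ∀ r : ℕ, m + 1 ≤ r → IsEmpty (SimpleGraph.cycleGraph r ↪g G)) :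
    ∃ A B : Finset V, A ⊆ U ∧ B ⊆ U ∧ Disjoint A B ∧ Anti G A B ∧ A.Nonempty ∧ B.Nonempty ∧
      δ * U.card ≤ 4 * ((m : ℝ) + 8) * A.card ∧ δ * U.card ≤ 4 * ((m : ℝ) + 8) * B.card := by
  obtain ⟨W, hWU, hW, hWn⟩ := mkv G U μ δ d hd h he
  have hm0 : (0 : ℝ) ≤ (m : ℝ) := Nat.cast_nonneg _
  obtain ⟨A, B, hA, hB, hAB, hanti, hA1, hB1⟩ := sbt m hm G W μ h.nn hW
    (fun v hv => by
      have h1 := hWn v hv
      have h2 : 8 * ((m : ℝ) + 1) * ms μ (nb G v) ≤ 8 * ((m : ℝ) + 1) * (2 * d) :=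
        mul_le_mul_of_nonneg_left h1 (by positivity)
      linarith)
    (fun v _ => by
      have h1 := mul_le_mul_of_nonneg_left hbig (h.nn v)
      have h2 := h.pt v
      linarith) hno
  have key : ∀ X : Finset V, 1 ≤ 4 * ((m : ℝ) + 8) * ms μ X →
      X.Nonempty ∧ δ * U.card ≤ 4 * ((m : ℝ) + 8) * X.card := by
    intro X hX
    constructor
    · apply ms_pos_nonempty μ
      by_contra hc
      have h1 : 4 * ((m : ℝ) + 8) * ms μ X ≤ 0 :=
        mul_nonpos_of_nonneg_of_nonpos (by positivity) (not_lt.1 hc)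
      linarith
    · have hD : 0 ≤ δ * (U.card : ℝ) := by positivity
      have h1 : ms μ X * (δ * U.card) ≤ X.card := by
        unfold ms
        rw [Finset.sum_mul]
        calc ∑ v ∈ X, μ v * (δ * U.card) ≤ ∑ v ∈ X, (1 : ℝ) :=
              Finset.sum_le_sum fun v _ => h.pt v
          _ = X.card := by simp
      calc δ * U.card = 1 * (δ * U.card) := (one_mul _).symm
        _ ≤ 4 * ((m : ℝ) + 8) * ms μ X * (δ * U.card) := mul_le_mul_of_nonneg_right hX hD
        _ = 4 * ((m : ℝ) + 8) * (ms μ X * (δ * U.card)) := by ring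
        _ ≤ 4 * ((m : ℝ) + 8) * X.card := mul_le_mul_of_nonneg_left h1 (by positivity)
  obtain ⟨hA2, hA3⟩ := key A hA1
  obtain ⟨hB2, hB3⟩ := key B hB1
  exact ⟨A, B, hA.trans hWU, hB.trans hWU, hAB, hanti, hA2, hB2, hA3, hB3⟩
-- END pow

-- BEGIN pur
/-- Pure pairs of linear size (Bonamy, Bousquet, Thomassé). Hint: `m = max l 3`,
`H = cycleGraph (m + 1)`, `d = 1 / (16 (m + 1))`, `δ₀` from `wfi`,
`δ = δ₀ / (4 (m + 8)) ≤ 1/2`. If `δ₀ |U| < 4 (m + 8)`: two vertices `u ≠ w` of `U`,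
`A = {u}`, `B = {w}`. Otherwise `wfi` and `pow` for `G` or for `Gᶜ`. -/
theorem pur (l : ℕ) : ∃ δ : ℝ, 0 < δ ∧ δ ≤ 1 / 2 ∧
    ∀ (V : Type) [Fintype V] [DecidableEq V] (G : SimpleGraph V),
      (∀ m : ℕ, l ≤ m → IsEmpty (SimpleGraph.cycleGraph m ↪g G) ∧
        IsEmpty (SimpleGraph.cycleGraph m ↪g Gᶜ)) →
      ∀ U : Finset V, 2 ≤ U.card →
      ∃ A B : Finset V, A ⊆ U ∧ B ⊆ U ∧ Disjoint A B ∧ A.Nonempty ∧ B.Nonempty ∧
        δ * U.card ≤ A.card ∧ δ * U.card ≤ B.card ∧ (Anti G A B ∨ Anti Gᶜ A B) := by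
  obtain ⟨m, hm3, hml⟩ : ∃ m : ℕ, 3 ≤ m ∧ l ≤ m := ⟨max l 3, le_max_right _ _, le_max_left _ _⟩
  have hm0 : (0 : ℝ) < (m : ℝ) + 1 := by positivity
  have hm8 : (0 : ℝ) < 4 * ((m : ℝ) + 8) := by positivity
  obtain ⟨δ₀, hδ₀, hδ₁, hw⟩ := wfi (m + 1) (by omega) (SimpleGraph.cycleGraph (m + 1))
    (1 / (16 * ((m : ℝ) + 1))) (by positivity)
  refine ⟨δ₀ / (4 * ((m : ℝ) + 8)), by positivity, ?_, ?_⟩
  · rw [div_le_iff₀ hm8]
    have : (0 : ℝ) ≤ m := Nat.cast_nonneg m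
    linarith
  · intro V _ _ G hG U hU
    have hUc : δ₀ / (4 * ((m : ℝ) + 8)) * U.card = δ₀ * U.card / (4 * ((m : ℝ) + 8)) := by ring
    rw [hUc]
    rcases lt_or_ge (δ₀ * U.card) (4 * ((m : ℝ) + 8)) with hs | hb
    · obtain ⟨u, hu, w, hw', huw⟩ := Finset.one_lt_card.mp hU
      have h1 : δ₀ * U.card / (4 * ((m : ℝ) + 8)) ≤ 1 := by
        rw [div_le_one hm8]
        exact hs.le
      refine ⟨{u}, {w}, Finset.singleton_subset_iff.mpr hu, Finset.singleton_subset_iff.mpr hw', ?_,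
        Finset.singleton_nonempty _, Finset.singleton_nonempty _, ?_, ?_, ?_⟩
      · rw [Finset.disjoint_singleton]
        exact huw
      · rw [Finset.card_singleton, Nat.cast_one]
        exact h1
      · rw [Finset.card_singleton, Nat.cast_one]
        exact h1
      · by_cases ha : G.Adj u w
        · right
          intro a ha' b hb'
          rw [Finset.mem_singleton.mp ha', Finset.mem_singleton.mp hb', SimpleGraph.compl_adj]
          exact fun h => h.2 ha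
        · left
          intro a ha' b hb'
          rw [Finset.mem_singleton.mp ha', Finset.mem_singleton.mp hb']
          exact ha
    · have hUn : U.Nonempty := Finset.card_pos.mp (by omega)
      have hd1 : 16 * ((m : ℝ) + 1) * (1 / (16 * ((m : ℝ) + 1))) ≤ 1 := by
        rw [mul_one_div, div_self (by positivity)]
      obtain ⟨μ, hμ, he⟩ := hw V G (hG (m + 1) (by omega)).1 U hUn
      rcases he with he | he
      · obtain ⟨A, B, hA, hB, hd, hAnti, hAn, hBn, h1, h2⟩ := pow m hm3 G U μ δ₀ _ hδ₀ (by positivity)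
          hd1 hμ he hb (fun r hr => (hG r (by omega)).1)
        refine ⟨A, B, hA, hB, hd, hAn, hBn, ?_, ?_, Or.inl hAnti⟩
        · rw [div_le_iff₀ hm8]
          linarith
        · rw [div_le_iff₀ hm8]
          linarith
      · obtain ⟨A, B, hA, hB, hd, hAnti, hAn, hBn, h1, h2⟩ := pow m hm3 Gᶜ U μ δ₀ _ hδ₀
          (by positivity) hd1 hμ he hb (fun r hr => (hG r (by omega)).2)
        refine ⟨A, B, hA, hB, hd, hAn, hBn, ?_, ?_, Or.inr hAnti⟩
        · rw [div_le_iff₀ hm8]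
          linarith
        · rw [div_le_iff₀ hm8]
          linarith
-- END pur

end Pool.Agent.Xbh
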