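import Pool.Agent.Xbh.Rec
import Pool.Agent.Xbh.Pure
import Pool.Agent.Xbh.HRank

set_option autoImplicit false
set_option linter.unusedSectionVars false

/-!
# Sets without long holes and antiholes
-/

namespace Pool.Agent.Xbh

open Finset

variable {V : Type} [Fintype V] [DecidableEq V]

/-- all induced subgraphs inside `W` have extension complexity at most `F` -/
def XB (G : SimpleGraph V) (W : Finset V) (F : ℕ) : Prop := ∀ S : Finset V, S ⊆ W → XC (STAB G S) F

theorem XC_mono (P : Set (V → ℝ)) (f g : ℕ) (h : XC P f) (hfg : f ≤ g) : XC P g := by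
  obtain ⟨k, hk⟩ := h
  exact xof (Fin f) (Fin k) P hk g (by simpa using hfg)

theorem XB_mono (G : SimpleGraph V) (W : Finset V) (F F' : ℕ) (h : XB G W F) (hF : F ≤ F') :
    XB G W F' := fun S hS => XC_mono _ _ _ (h S hS) hF

-- BEGIN puw
/-- `pur` inside a set `W`. Hint: apply `pur` to the type `{v // v ∈ W}` and
`G.comap (Function.Embedding.subtype (fun v => v ∈ W))`; an embedding of the cycle into it (or
into its complement) gives one into `G` (into `Gᶜ`) with values in `W`; `U' = U.subtype (· ∈ W)`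
has the same cardinality as `U`; `A = A'.map (Function.Embedding.subtype _)`. Compare row `sbt`. -/
theorem puw (l : ℕ) : ∃ δ : ℝ, 0 < δ ∧ δ ≤ 1 / 2 ∧
    ∀ (V : Type) [Fintype V] [DecidableEq V] (G : SimpleGraph V) (W : Finset V),
      (∀ m : ℕ, l ≤ m → (∀ e : SimpleGraph.cycleGraph m ↪g G, ¬ ∀ x, e x ∈ W) ∧
        (∀ e : SimpleGraph.cycleGraph m ↪g Gᶜ, ¬ ∀ x, e x ∈ W)) →
      ∀ U : Finset V, U ⊆ W → 2 ≤ U.card →
      ∃ A B : Finset V, A ⊆ U ∧ B ⊆ U ∧ Disjoint A B ∧ A.Nonempty ∧ B.Nonempty ∧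
        δ * U.card ≤ A.card ∧ δ * U.card ≤ B.card ∧ (Anti G A B ∨ Anti Gᶜ A B) := by
  obtain ⟨δ, h0, h1, hp⟩ := pur l
  refine ⟨δ, h0, h1, fun V _ _ G W hW U hUW hU => ?_⟩
  have hh : ∀ m : ℕ, l ≤ m →
      IsEmpty (SimpleGraph.cycleGraph m ↪g
        G.comap (Function.Embedding.subtype (fun v => v ∈ W))) ∧
      IsEmpty (SimpleGraph.cycleGraph m ↪g
        (G.comap (Function.Embedding.subtype (fun v => v ∈ W)))ᶜ) := by
    intro m hm
    constructor
    · refine ⟨fun e => (hW m hm).1 ((SimpleGraph.Embedding.comap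
        (Function.Embedding.subtype (fun v => v ∈ W)) G).comp e) ?_⟩
      intro x
      exact (e x).2
    · refine ⟨fun e => (hW m hm).2 ⟨⟨fun x => (e x).1, ?_⟩, ?_⟩ ?_⟩
      · intro a b hab
        exact e.injective (Subtype.ext hab)
      · intro a b
        have h2 : (G.comap (Function.Embedding.subtype (fun v => v ∈ W)))ᶜ.Adj (e a) (e b) ↔
            (SimpleGraph.cycleGraph m).Adj a b := e.map_rel_iff
        have h5 : Gᶜ.Adj (e a).1 (e b).1 ↔
            (G.comap (Function.Embedding.subtype (fun v => v ∈ W)))ᶜ.Adj (e a) (e b) := by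
          rw [SimpleGraph.compl_adj, SimpleGraph.compl_adj]
          constructor
          · rintro ⟨h3, h4⟩
            exact ⟨fun h5 => h3 (congrArg Subtype.val h5), h4⟩
          · rintro ⟨h3, h4⟩
            exact ⟨fun h5 => h3 (Subtype.ext h5), h4⟩
        exact h5.trans h2
      · intro x
        exact (e x).2
  have hcard : (U.subtype (fun v => v ∈ W)).card = U.card := by
    rw [Finset.card_subtype, Finset.filter_true_of_mem (fun v hv => hUW hv)]
  obtain ⟨A, B, hA, hB, hAB, hAn, hBn, hAc, hBc, hor⟩ :=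
    hp {v // v ∈ W} (G.comap (Function.Embedding.subtype (fun v => v ∈ W))) hh
      (U.subtype (fun v => v ∈ W)) (by rw [hcard]; exact hU)
  rw [hcard] at hAc hBc
  have hsub : ∀ D : Finset {v // v ∈ W}, D ⊆ U.subtype (fun v => v ∈ W) →
      D.map (Function.Embedding.subtype (fun v => v ∈ W)) ⊆ U := by
    intro D hD v hv
    obtain ⟨w, hw, rfl⟩ := Finset.mem_map.1 hv
    exact Finset.mem_subtype.1 (hD hw)
  refine ⟨A.map (Function.Embedding.subtype (fun v => v ∈ W)),
    B.map (Function.Embedding.subtype (fun v => v ∈ W)), hsub A hA, hsub B hB,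
    (Finset.disjoint_map _).2 hAB, hAn.map, hBn.map, ?_, ?_, ?_⟩
  · rw [Finset.card_map]
    exact hAc
  · rw [Finset.card_map]
    exact hBc
  · rcases hor with h2 | h2
    · left
      intro a ha b hb hadj
      obtain ⟨a', ha', rfl⟩ := Finset.mem_map.1 ha
      obtain ⟨b', hb', rfl⟩ := Finset.mem_map.1 hb
      exact h2 a' ha' b' hb' hadj
    · right
      intro a ha b hb hadj
      obtain ⟨a', ha', rfl⟩ := Finset.mem_map.1 ha
      obtain ⟨b', hb', rfl⟩ := Finset.mem_map.1 hb
      rw [SimpleGraph.compl_adj] at hadj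
      refine h2 a' ha' b' hb' ?_
      rw [SimpleGraph.compl_adj]
      exact ⟨fun h3 => hadj.1 (congrArg _ h3), fun h3 => hadj.2 h3⟩
-- END puw

-- BEGIN rcw
/-- `rcn` inside a set `W`. Hint: the proof of `rcn` (file Rec), with `S ⊆ W`. -/
theorem rcw (G : SimpleGraph V) (hG : Perf G) (W : Finset V) (δ : ℝ) (hδ : 0 < δ) (c : ℕ)
    (hc : ∀ s s₁ s₂ : ℕ, (s₁ : ℝ) ≤ (1 - δ) * s → (s₂ : ℝ) ≤ (1 - δ) * s →
      s₁ ^ c + s₂ ^ c ≤ s ^ c)
    (hpair : ∀ U : Finset V, U ⊆ W → 2 ≤ U.card →
      ∃ A B : Finset V, A ⊆ U ∧ B ⊆ U ∧ Disjoint A B ∧ A.Nonempty ∧ B.Nonempty ∧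
        δ * U.card ≤ A.card ∧ δ * U.card ≤ B.card ∧ (Anti G A B ∨ Anti Gᶜ A B)) :
    ∀ S : Finset V, S ⊆ W → S.Nonempty → ∃ f : ℕ,
      f + (2 * Fintype.card V + 2) ≤ (2 * Fintype.card V + 4) * S.card ^ c ∧
      XC (STAB G S) f := by
  have hmono : ∀ (P : Set (V → ℝ)) (f g : ℕ), XC P f → f ≤ g → XC P g := by
    intro P f g h hfg
    obtain ⟨k, hk⟩ := h
    exact xof (Fin f) (Fin k) P hk g (by rw [Fintype.card_fin]; exact hfg)
  have hnon : ∀ S : Finset V, (STAB G S).Nonempty := by
    intro S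
    refine ⟨ind ∅, subset_convexHull ℝ _ ⟨∅, Finset.empty_subset _, ?_, rfl⟩⟩
    intro u hu
    exact absurd hu (Finset.notMem_empty u)
  have hmain : ∀ n : ℕ, ∀ S : Finset V, S ⊆ W → S.card = n → S.Nonempty → ∃ f : ℕ,
      f + (2 * Fintype.card V + 2) ≤ (2 * Fintype.card V + 4) * S.card ^ c ∧
      XC (STAB G S) f := by
    intro n
    induction n using Nat.strong_induction_on with
    | _ n ih =>
      intro S hSW hSn hSne
      by_cases h2 : 2 ≤ S.card
      · obtain ⟨A, B, hAS, hBS, hAB, hA, hB, hAc, hBc, hor⟩ := hpair S hSW h2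
        have hApos : 0 < A.card := Finset.card_pos.2 hA
        have hBpos : 0 < B.card := Finset.card_pos.2 hB
        have hAle := Finset.card_le_card hAS
        have hBle := Finset.card_le_card hBS
        have hcA : (S \ A).card = S.card - A.card := Finset.card_sdiff_of_subset hAS
        have hcB : (S \ B).card = S.card - B.card := Finset.card_sdiff_of_subset hBS
        have hneA : (S \ A).Nonempty := by
          obtain ⟨b, hb⟩ := hB
          exact ⟨b, Finset.mem_sdiff.2 ⟨hBS hb, fun h => (Finset.disjoint_left.1 hAB h) hb⟩⟩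
        have hneB : (S \ B).Nonempty := by
          obtain ⟨a, ha⟩ := hA
          exact ⟨a, Finset.mem_sdiff.2 ⟨hAS ha, fun h => (Finset.disjoint_left.1 hAB ha) h⟩⟩
        obtain ⟨f₁, hf₁, hX₁⟩ := ih (S \ A).card (by omega) (S \ A) (Finset.sdiff_subset.trans hSW) rfl hneA
        obtain ⟨f₂, hf₂, hX₂⟩ := ih (S \ B).card (by omega) (S \ B) (Finset.sdiff_subset.trans hSW) rfl hneB
        have hr₁ : (((S \ A).card : ℕ) : ℝ) ≤ (1 - δ) * (S.card : ℕ) := by
          rw [hcA, Nat.cast_sub hAle]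
          linarith
        have hr₂ : (((S \ B).card : ℕ) : ℝ) ≤ (1 - δ) * (S.card : ℕ) := by
          rw [hcB, Nat.cast_sub hBle]
          linarith
        have hpow := hc S.card (S \ A).card (S \ B).card hr₁ hr₂
        refine ⟨f₁ + f₂ + 2 * Fintype.card V + 2, ?_, ?_⟩
        · calc f₁ + f₂ + 2 * Fintype.card V + 2 + (2 * Fintype.card V + 2)
              = (f₁ + (2 * Fintype.card V + 2)) + (f₂ + (2 * Fintype.card V + 2)) := by ring
            _ ≤ (2 * Fintype.card V + 4) * (S \ A).card ^ c +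
                (2 * Fintype.card V + 4) * (S \ B).card ^ c := Nat.add_le_add hf₁ hf₂
            _ = (2 * Fintype.card V + 4) * ((S \ A).card ^ c + (S \ B).card ^ c) := by ring
            _ ≤ (2 * Fintype.card V + 4) * S.card ^ c := Nat.mul_le_mul_left _ hpow
        · rcases hor with h | h
          · rw [sgl G hG S A B hAB h]
            have hg := glu A B hAB (STAB G (S \ A)) (STAB G (S \ B)) f₁ f₂ hX₁ hX₂
              (by
                intro x hx v hv
                exact (sti G (S \ A) x hx).2.1 v (fun h' => (Finset.mem_sdiff.1 h').2 hv))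
              (by
                intro x hx v hv
                exact (sti G (S \ B) x hx).2.1 v (fun h' => (Finset.mem_sdiff.1 h').2 hv))
            exact hmono _ _ _ hg (by omega)
          · rw [sjn G S A B hAB h]
            have hg := bal (STAB G (S \ A)) (STAB G (S \ B)) f₁ f₂ hX₁ hX₂
              (hnon _) (hnon _)
            exact hmono _ _ _ hg (by omega)
      · have h1 : S.card = 1 := by
          have := Finset.card_pos.2 hSne
          omega
        obtain ⟨v, hv⟩ := Finset.card_eq_one.1 h1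
        refine ⟨2, ?_, ?_⟩
        · rw [h1, one_pow, mul_one]
          omega
        · rw [hv]
          exact ba1 G v
  intro S hSW hS
  exact hmain S.card S hSW rfl hS
-- END rcw

/-- Long holes and antiholes excluded: linear pure pairs. -/
theorem pbs (l : ℕ) : ∃ e : ℝ, 0 < e ∧ ∀ (V : Type) [Fintype V] (G : SimpleGraph V) (W : Set V),
    HRank l G 0 W → Pairs e G W := by
  classical
  obtain ⟨δ, hδ, _, hp⟩ := puw l
  refine ⟨δ, hδ, fun V _ G W hW S hS h2 => ?_⟩
  have hh : ∀ m : ℕ, l ≤ m → (∀ e : SimpleGraph.cycleGraph m ↪g G, ¬ ∀ x, e x ∈ S) ∧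
      (∀ e : SimpleGraph.cycleGraph m ↪g Gᶜ, ¬ ∀ x, e x ∈ S) := by
    intro m hm
    refine ⟨fun e he => ?_, fun e he => ?_⟩
    · obtain ⟨x, hx⟩ := (hW m hm).1 e
      exact hx (hS _ (he x))
    · obtain ⟨x, hx⟩ := (hW m hm).2 e
      exact hx (hS _ (he x))
  obtain ⟨A, B, hA, hB, hd, _, _, h3, h4, h5⟩ := hp V G S hh S (Finset.Subset.refl S) h2
  refine ⟨A, B, hA, hB, hd, h3, h4, ?_⟩
  rcases h5 with h5 | h5
  · exact Or.inr h5
  · left
    intro a ha b hb
    by_contra hn
    refine h5 a ha b hb ((SimpleGraph.compl_adj G a b).2 ⟨?_, hn⟩)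
    intro hab
    exact Finset.disjoint_left.1 hd ha (hab ▸ hb)

/-- Linear pure pairs: polynomial extension complexity. -/
theorem bsp (e : ℝ) (he : 0 < e) : ∃ c : ℕ, 3 ≤ c ∧ ∀ (V : Type) [Fintype V] [DecidableEq V]
    (G : SimpleGraph V) (W : Finset V), Perf G → Pairs e G (W : Set V) →
    XC (STAB G W) ((Fintype.card V + 1) ^ c) := by
  have hδ : 0 < min e (1 / 2) := lt_min he (by norm_num)
  have hδ1 : min e (1 / 2) ≤ 1 / 2 := min_le_right _ _
  obtain ⟨c, hc1, hc⟩ := cst (min e (1 / 2)) hδ hδ1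
  refine ⟨c + 3, by omega, fun V _ _ G W hG hh => ?_⟩
  rcases W.eq_empty_or_nonempty with hS0 | hS0
  · rw [hS0]
    exact XC_mono _ _ _ (ba0 G) (Nat.zero_le _)
  · have hpair : ∀ U : Finset V, U ⊆ W → 2 ≤ U.card →
        ∃ A B : Finset V, A ⊆ U ∧ B ⊆ U ∧ Disjoint A B ∧ A.Nonempty ∧ B.Nonempty ∧
          min e (1 / 2) * U.card ≤ A.card ∧ min e (1 / 2) * U.card ≤ B.card ∧
            (Anti G A B ∨ Anti Gᶜ A B) := by
      intro U hU h2
      obtain ⟨A, B, hA, hB, hd, h3, h4, h5⟩ := hh U (fun v hv => Finset.mem_coe.2 (hU hv)) h2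
      have hU0 : (0:ℝ) < U.card := by
        have : 0 < U.card := by omega
        exact_mod_cast this
      have hle : min e (1 / 2) * U.card ≤ e * U.card :=
        mul_le_mul_of_nonneg_right (min_le_left _ _) hU0.le
      have hpos : 0 < e * U.card := mul_pos he hU0
      have hA0 : A.Nonempty := by
        rw [← Finset.card_pos]
        have : (0:ℝ) < A.card := lt_of_lt_of_le hpos h3
        exact_mod_cast this
      have hB0 : B.Nonempty := by
        rw [← Finset.card_pos]
        have : (0:ℝ) < B.card := lt_of_lt_of_le hpos h4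
        exact_mod_cast this
      refine ⟨A, B, hA, hB, hd, hA0, hB0, hle.trans h3, hle.trans h4, ?_⟩
      rcases h5 with h5 | h5
      · right
        intro a ha b hb hab
        exact ((SimpleGraph.compl_adj G a b).1 hab).2 (h5 a ha b hb)
      · exact Or.inl h5
    obtain ⟨f, hf, hX⟩ := rcw G hG W (min e (1 / 2)) hδ c hc hpair W (Finset.Subset.refl W) hS0
    refine XC_mono _ _ _ hX ?_
    have h1 : W.card ^ c ≤ (Fintype.card V) ^ c :=
      Nat.pow_le_pow_left (Finset.card_le_univ W) c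
    have hn : 1 ≤ Fintype.card V := le_trans hS0.card_pos (Finset.card_le_univ W)
    have h2 : (2 * Fintype.card V + 4) * W.card ^ c ≤ (2 * Fintype.card V + 4) *
        (Fintype.card V) ^ c := Nat.mul_le_mul_left _ h1
    have h3 : (2 * Fintype.card V + 4) * (Fintype.card V) ^ c ≤ (Fintype.card V + 1) ^ (c + 3) := by
      have h4 : (Fintype.card V) ^ c ≤ (Fintype.card V + 1) ^ c :=
        Nat.pow_le_pow_left (Nat.le_succ _) c
      have h5 : 2 * Fintype.card V + 4 ≤ (Fintype.card V + 1) ^ 3 := by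
        nlinarith [sq_nonneg (Fintype.card V), Nat.mul_le_mul hn hn]
      calc (2 * Fintype.card V + 4) * (Fintype.card V) ^ c
          ≤ (Fintype.card V + 1) ^ 3 * (Fintype.card V + 1) ^ c := Nat.mul_le_mul h5 h4
        _ = (Fintype.card V + 1) ^ (c + 3) := by rw [← pow_add]; congr 1; omega
    omega

end Pool.Agent.Xbh
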