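import Pool.Agent.Xbh.Defs

set_option autoImplicit false
set_option linter.unusedSectionVars false

namespace Pool.Agent.Xbh

open Finset

variable {V : Type} [Fintype V] [DecidableEq V]

-- BEGIN cyc
/-- A sequence `c 0, ..., c (m-1)` of distinct vertices, consecutive ones adjacent, `c 0` and
`c (m-1)` adjacent, and no other adjacencies, is an induced cycle.
Hint: the embedding sends `i : Fin m` to `c i.val`; `SimpleGraph.cycleGraph_adj'` says that
adjacency in `cycleGraph m` is `(u - v).val = 1` or `(v - u).val = 1`; compute `(u - v).val` with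
`Fin.sub_def` / `Fin.coe_sub` (cases `u ≥ v` and `u < v`). -/
theorem cyc (G : SimpleGraph V) (m : ℕ) (hm : 4 ≤ m) (c : ℕ → V)
    (hinj : ∀ i j, i < m → j < m → c i = c j → i = j)
    (hadj : ∀ i j, i < j → j < m → (G.Adj (c i) (c j) ↔ (i + 1 = j ∨ (i = 0 ∧ j + 1 = m)))) :
    Nonempty (SimpleGraph.cycleGraph m ↪g G) := by
  have key : ∀ u v : Fin m, u < v →
      (G.Adj (c u.val) (c v.val) ↔ (u - v).val = 1 ∨ (v - u).val = 1) := by
    intro u v huv
    have h1 : (u - v).val = m + u.val - v.val := Fin.coe_sub_iff_lt.2 huv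
    have h2 : (v - u).val = v.val - u.val := Fin.coe_sub_iff_le.2 huv.le
    have h3 : u.val < v.val := huv
    have h4 := v.isLt
    rw [hadj u.val v.val h3 h4, h1, h2]
    omega
  refine ⟨⟨⟨fun i => c i.val, ?_⟩, ?_⟩⟩
  · intro i j hij
    exact Fin.ext (hinj i.val j.val i.isLt j.isLt hij)
  · intro u v
    show G.Adj (c u.val) (c v.val) ↔ (SimpleGraph.cycleGraph m).Adj u v
    rw [SimpleGraph.cycleGraph_adj']
    rcases lt_trichotomy u v with h | h | h
    · exact key u v h
    · subst h
      have h1 : (u - u).val = u.val - u.val := Fin.coe_sub_iff_le.2 le_rfl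
      rw [h1, Nat.sub_self]
      constructor
      · intro h2
        exact absurd h2 (G.irrefl)
      · intro h2
        omega
    · rw [G.adj_comm, or_comm]
      exact key v u h
-- END cyc

-- BEGIN wlk
/-- Two vertices of a connected set are joined by a walk inside it.
Hint: `Y` = the set of vertices of `Z` reachable from `a` by such a walk (filter, classical); it
is nonempty; if it is not `Z`, `Conn` gives an edge leaving it, extend the walk
(`y' i = if i ≤ r then y i else z`). -/
theorem wlk (G : SimpleGraph V) (Z : Finset V) (hZ : Conn G Z) (a b : V) (ha : a ∈ Z)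
    (hb : b ∈ Z) :
    ∃ r : ℕ, ∃ y : ℕ → V, y 0 = a ∧ y r = b ∧ (∀ i, i ≤ r → y i ∈ Z) ∧
      ∀ i, i < r → G.Adj (y i) (y (i + 1)) := by
  classical
  by_contra hcon
  let Y : Finset V := Z.filter (fun v => ∃ r : ℕ, ∃ y : ℕ → V, y 0 = a ∧ y r = v ∧
    (∀ i, i ≤ r → y i ∈ Z) ∧ ∀ i, i < r → G.Adj (y i) (y (i + 1)))
  have haY : a ∈ Y := Finset.mem_filter.2 ⟨ha, 0, fun _ => a, rfl, rfl, fun i _ => ha,
    fun i hi => absurd hi (Nat.not_lt_zero i)⟩
  have hbY : b ∉ Y := fun h => hcon (Finset.mem_filter.1 h).2
  have hne : Y ≠ Z := fun h => hbY (h ▸ hb)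
  obtain ⟨y, hy, z, hz, hzY, hadj⟩ := hZ.2 Y (Finset.filter_subset _ _) ⟨a, haY⟩ hne
  obtain ⟨hyZ, r, f, h0, hr, hin, hst⟩ := Finset.mem_filter.1 hy
  apply hzY
  refine Finset.mem_filter.2 ⟨hz, r + 1, fun i => if i ≤ r then f i else z, ?_, ?_, ?_, ?_⟩
  · show (if 0 ≤ r then f 0 else z) = a
    rw [if_pos (Nat.zero_le r), h0]
  · show (if r + 1 ≤ r then f (r + 1) else z) = z
    rw [if_neg (by omega)]
  · intro i hi
    show (if i ≤ r then f i else z) ∈ Z
    by_cases h : i ≤ r
    · rw [if_pos h]
      exact hin i h
    · rw [if_neg h]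
      exact hz
  · intro i hi
    show G.Adj (if i ≤ r then f i else z) (if i + 1 ≤ r then f (i + 1) else z)
    have h1 : i ≤ r := by omega
    rw [if_pos h1]
    by_cases h : i + 1 ≤ r
    · rw [if_pos h]
      exact hst i (by omega)
    · have h2 : i = r := by omega
      rw [if_neg h, h2, hr]
      exact hadj
-- END wlk

-- BEGIN sht
/-- A shortest walk in the connected set `Z` from a vertex satisfying `S` to a vertex satisfying
`T` is an induced path, only its first vertex satisfies `S` and only its last one satisfies `T`.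
Hint: take `r` minimal (`Nat.find`) such that there is `y : ℕ → V` with `S (y 0)`, `T (y r)`,
`y i ∈ Z` for `i ≤ r` and `G.Adj (y i) (y (i+1))` for `i < r` (exists by `wlk`). If `S (y i)` with
`i > 0`, drop the first `i` vertices; if `T (y i)` with `i < r`, stop at `i`; if `y i = y j`
with `i < j`, or `y i` adjacent to `y j` with `i + 1 < j`, use
`y' t = if t ≤ i then y t else y (t + (j - i))` or `y (t + (j - i - 1))`. -/
theorem sht (G : SimpleGraph V) (Z : Finset V) (hZ : Conn G Z) (S T : V → Prop)
    (hS : ∃ a ∈ Z, S a) (hT : ∃ b ∈ Z, T b) :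
    ∃ r : ℕ, ∃ y : ℕ → V, S (y 0) ∧ T (y r) ∧ (∀ i, i ≤ r → y i ∈ Z) ∧
      (∀ i, 0 < i → i ≤ r → ¬ S (y i)) ∧ (∀ i, i < r → ¬ T (y i)) ∧
      (∀ i j, i ≤ r → j ≤ r → y i = y j → i = j) ∧
      (∀ i j, i < j → j ≤ r → (G.Adj (y i) (y j) ↔ i + 1 = j)) := by
  classical
  obtain ⟨a, haZ, ha⟩ := hS
  obtain ⟨b, hbZ, hb⟩ := hT
  have hex : ∃ r : ℕ, ∃ y : ℕ → V, S (y 0) ∧ T (y r) ∧ (∀ i, i ≤ r → y i ∈ Z) ∧
      ∀ i, i < r → G.Adj (y i) (y (i + 1)) := by
    obtain ⟨r, y, h0, hr, h1, h2⟩ := wlk G Z hZ a b haZ hbZ
    exact ⟨r, y, h0.symm ▸ ha, hr.symm ▸ hb, h1, h2⟩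
  obtain ⟨y, h0, hr, hin, hst⟩ := Nat.find_spec hex
  have hmin : ∀ r', r' < Nat.find hex → ¬ ∃ y : ℕ → V, S (y 0) ∧ T (y r') ∧
      (∀ i, i ≤ r' → y i ∈ Z) ∧ ∀ i, i < r' → G.Adj (y i) (y (i + 1)) :=
    fun r' h => Nat.find_min hex h
  generalize Nat.find hex = r at hr hin hst hmin
  -- a shortcut of the walk: `i` is followed by `i + 1 + d`
  have hcut : ∀ i d, 0 < d → i + 1 + d ≤ r → ¬ G.Adj (y i) (y (i + 1 + d)) := by
    intro i d hd hle hA
    refine hmin (r - d) (by omega) ⟨fun t => if t ≤ i then y t else y (t + d), ?_, ?_, ?_, ?_⟩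
    · show S (if 0 ≤ i then y 0 else y (0 + d))
      rw [if_pos (Nat.zero_le i)]
      exact h0
    · show T (if r - d ≤ i then y (r - d) else y (r - d + d))
      rw [if_neg (by omega), Nat.sub_add_cancel (by omega)]
      exact hr
    · intro t ht
      show (if t ≤ i then y t else y (t + d)) ∈ Z
      by_cases h : t ≤ i
      · rw [if_pos h]
        exact hin t (by omega)
      · rw [if_neg h]
        exact hin _ (by omega)
    · intro t ht
      show G.Adj (if t ≤ i then y t else y (t + d)) (if t + 1 ≤ i then y (t + 1) else y (t + 1 + d))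
      by_cases h : t + 1 ≤ i
      · rw [if_pos (by omega : t ≤ i), if_pos h]
        exact hst t (by omega)
      · rw [if_neg h]
        by_cases h' : t ≤ i
        · have : t = i := by omega
          rw [if_pos h', this]
          exact hA
        · rw [if_neg h']
          have h3 := hst (t + d) (by omega)
          have h4 : t + d + 1 = t + 1 + d := by omega
          rwa [h4] at h3
  have hS' : ∀ i, 0 < i → i ≤ r → ¬ S (y i) := by
    intro i hi hir hSi
    refine hmin (r - i) (by omega) ⟨fun t => y (t + i), ?_, ?_, ?_, ?_⟩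
    · show S (y (0 + i))
      rw [Nat.zero_add]
      exact hSi
    · show T (y (r - i + i))
      rw [Nat.sub_add_cancel hir]
      exact hr
    · intro t ht
      exact hin _ (by omega)
    · intro t ht
      show G.Adj (y (t + i)) (y (t + 1 + i))
      have h3 := hst (t + i) (by omega)
      have h4 : t + i + 1 = t + 1 + i := by omega
      rwa [h4] at h3
  have hT' : ∀ i, i < r → ¬ T (y i) := by
    intro i hi hTi
    exact hmin i hi ⟨y, h0, hTi, fun t ht => hin t (by omega), fun t ht => hst t (by omega)⟩
  have hne : ∀ i j, i < j → j ≤ r → y i ≠ y j := by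
    intro i j hij hjr he
    rcases Nat.lt_or_ge j r with h | h
    · have h1 := hst j h
      rw [← he] at h1
      have h2 : j + 1 = i + 1 + (j - i) := by omega
      rw [h2] at h1
      exact hcut i (j - i) (by omega) (by omega) h1
    · have h1 : j = r := by omega
      rw [h1] at he
      exact hT' i (by omega) (he ▸ hr)
  refine ⟨r, y, h0, hr, hin, hS', hT', ?_, ?_⟩
  · intro i j hi hj he
    rcases lt_trichotomy i j with h | h | h
    · exact absurd he (hne i j h hj)
    · exact h
    · exact absurd he.symm (hne j i h hi)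
  · intro i j hij hj
    constructor
    · intro hA
      by_contra hc
      have h2 : j = i + 1 + (j - i - 1) := by omega
      rw [h2] at hA
      exact hcut i (j - i - 1) (by omega) (by omega) hA
    · intro h
      rw [← h]
      exact hst i (by omega)
-- END sht

-- BEGIN loo
/-- An induced path `p 0, ..., p (q-1)` with at least three vertices, and a connected set `Y`
disjoint from it, with no neighbour of the interior of the path, but with a neighbour of each of
its ends: there is an induced cycle of length at least `q + 1`.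
Hint: `sht` with `S y = G.Adj (p 0) y`, `T y = G.Adj (p (q-1)) y`; the cycle has `m = q + r + 1`
vertices `c i = if i < q then p i else y (q + r - i)` (so `c q = y r`, `c (q + r) = y 0`); then
`cyc`. -/
theorem loo (G : SimpleGraph V) (q : ℕ) (hq : 3 ≤ q) (p : ℕ → V)
    (hinj : ∀ i j, i < q → j < q → p i = p j → i = j)
    (hadj : ∀ i j, i < j → j < q → (G.Adj (p i) (p j) ↔ i + 1 = j))
    (Y : Finset V) (hY : Conn G Y) (hYp : ∀ i, i < q → p i ∉ Y)
    (hint : ∀ i, 0 < i → i + 1 < q → ∀ y ∈ Y, ¬ G.Adj (p i) y)
    (h0 : ∃ y ∈ Y, G.Adj (p 0) y) (h1 : ∃ y ∈ Y, G.Adj (p (q - 1)) y) :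
    ∃ m : ℕ, q + 1 ≤ m ∧ Nonempty (SimpleGraph.cycleGraph m ↪g G) := by
  obtain ⟨r, y, hS, hT, hy, hS', hT', hyi, hya⟩ :=
    sht G Y hY (fun v => G.Adj (p 0) v) (fun v => G.Adj (p (q - 1)) v) h0 h1
  refine ⟨q + r + 1, by omega, cyc G (q + r + 1) (by omega)
    (fun i => if i < q then p i else y (q + r - i)) ?_ ?_⟩
  · intro i j hi hj h
    beta_reduce at h
    by_cases hi' : i < q
    · by_cases hj' : j < q
      · rw [if_pos hi', if_pos hj'] at h
        exact hinj i j hi' hj' h
      · rw [if_pos hi', if_neg hj'] at h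
        exact absurd (h ▸ hy (q + r - j) (by omega)) (hYp i hi')
    · by_cases hj' : j < q
      · rw [if_neg hi', if_pos hj'] at h
        exact absurd (h ▸ hy (q + r - i) (by omega)) (hYp j hj')
      · rw [if_neg hi', if_neg hj'] at h
        have := hyi (q + r - i) (q + r - j) (by omega) (by omega) h
        omega
  · intro i j hij hj
    by_cases hj' : j < q
    · have hi' : i < q := hij.trans hj'
      rw [if_pos hi', if_pos hj', hadj i j hij hj']
      constructor
      · exact fun h => Or.inl h
      · rintro (h | ⟨_, h⟩)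
        · exact h
        · omega
    · rw [if_neg hj']
      by_cases hi' : i < q
      · rw [if_pos hi']
        rcases Nat.eq_zero_or_pos i with rfl | hi0
        · constructor
          · intro h
            refine Or.inr ⟨rfl, ?_⟩
            by_contra hne
            exact hS' (q + r - j) (by omega) (by omega) h
          · rintro (h | ⟨_, h⟩)
            · omega
            · have : q + r - j = 0 := by omega
              rw [this]
              exact hS
        · by_cases hi1 : i + 1 < q
          · constructor
            · intro h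
              exact absurd h (hint i hi0 hi1 _ (hy (q + r - j) (by omega)))
            · rintro (h | ⟨h, _⟩)
              · omega
              · omega
          · have hiq : i = q - 1 := by omega
            subst hiq
            constructor
            · intro h
              refine Or.inl ?_
              by_contra hne
              exact hT' (q + r - j) (by omega) h
            · rintro (h | ⟨h, _⟩)
              · have : q + r - j = r := by omega
                rw [this]
                exact hT
              · omega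
      · rw [if_neg hi', G.adj_comm, hya (q + r - j) (q + r - i) (by omega) (by omega)]
        constructor
        · intro h
          exact Or.inl (by omega)
        · rintro (h | ⟨h, _⟩)
          · omega
          · omega
-- END loo

end Pool.Agent.Xbh
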