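import Pool.Agent.Xbh.Defs

set_option autoImplicit false
set_option linter.unusedSectionVars false

namespace Pool.Agent.Xbh

open Finset

variable {V : Type} [Fintype V] [DecidableEq V]

-- BEGIN xof
/-- Other index types, and more inequalities than necessary.
Hint: `Fintype.equivFin ι`, `Fintype.equivFin κ`; the extra inequalities are `0 ≤ 0`
(`A i = 0`, `b i = 0` for `i.val ≥ card ι`); the change of variables is
`LinearEquiv.funCongrLeft ℝ ℝ e` (or `ContinuousLinearEquiv.piCongrLeft`); boundedness of the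
new polyhedron: it is contained in the image of the old one under a permutation of
coordinates, `Bornology.IsBounded` via `isBounded_iff_forall_norm_le` and `pi_norm_le_iff_of_nonneg`. -/
theorem xof (ι κ : Type) [Fintype ι] [Fintype κ] (P : Set (V → ℝ)) (h : XCg ι κ P) (f : ℕ)
    (hf : Fintype.card ι ≤ f) : XC P f := by
  obtain ⟨A, b, π, hbd, himg⟩ := h
  let e : κ ≃ Fin (Fintype.card κ) := Fintype.equivFin κ
  let g : ι ≃ Fin (Fintype.card ι) := Fintype.equivFin ι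
  let A' : Fin f → Fin (Fintype.card κ) → ℝ := fun i j =>
    if h : i.val < Fintype.card ι then A (g.symm ⟨i.val, h⟩) (e.symm j) else 0
  let b' : Fin f → ℝ := fun i => if h : i.val < Fintype.card ι then b (g.symm ⟨i.val, h⟩) else 0
  have hs : ∀ (y : Fin (Fintype.card κ) → ℝ) (i : ι),
      ∑ j : κ, A i j * y (e j) = ∑ j : Fin (Fintype.card κ), A i (e.symm j) * y j := by
    intro y i
    rw [← Equiv.sum_comp e]
    refine Finset.sum_congr rfl fun j _ => ?_
    rw [Equiv.symm_apply_apply]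
  have key : ∀ y : Fin (Fintype.card κ) → ℝ, (∀ i, ∑ j, A' i j * y j ≤ b' i) ↔
      (∀ i, ∑ j, A i j * y (e j) ≤ b i) := by
    intro y
    constructor
    · intro hy i
      have hi := (g i).isLt
      have h1 := hy ⟨(g i).val, lt_of_lt_of_le hi hf⟩
      have e1 : ∀ j, A' ⟨(g i).val, lt_of_lt_of_le hi hf⟩ j = A i (e.symm j) := by
        intro j
        simp only [A', hi, dif_pos]
        rw [Fin.eta, Equiv.symm_apply_apply]
      have e2 : b' ⟨(g i).val, lt_of_lt_of_le hi hf⟩ = b i := by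
        simp only [b', hi, dif_pos]
        rw [Fin.eta, Equiv.symm_apply_apply]
      rw [e2] at h1
      rw [hs]
      refine le_trans (le_of_eq ?_) h1
      exact Finset.sum_congr rfl fun j _ => by rw [e1]
    · intro hy i
      by_cases hi : i.val < Fintype.card ι
      · have h1 := hy (g.symm ⟨i.val, hi⟩)
        rw [hs] at h1
        simp only [A', b', hi, dif_pos]
        exact h1
      · simp only [A', b', hi, dif_neg, not_false_iff, zero_mul, Finset.sum_const_zero]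
        exact le_refl _
  refine ⟨Fintype.card κ, A', b',
    π.comp (LinearEquiv.funCongrLeft ℝ ℝ e).toLinearMap.toAffineMap, ?_, ?_⟩
  · obtain ⟨R, hR⟩ := isBounded_iff_forall_norm_le.mp hbd
    rw [isBounded_iff_forall_norm_le]
    refine ⟨max R 0, fun y hy => ?_⟩
    have h1 : (fun j : κ => y (e j)) ∈ {y : κ → ℝ | ∀ i, ∑ j, A i j * y j ≤ b i} := (key y).mp hy
    have h2 := hR _ h1
    rw [pi_norm_le_iff_of_nonneg (le_max_right _ _)]
    intro j
    have h3 := norm_le_pi_norm (fun j : κ => y (e j)) (e.symm j)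
    simp only [Equiv.apply_symm_apply] at h3
    exact (h3.trans h2).trans (le_max_left _ _)
  · rw [← himg]
    ext x
    constructor
    · rintro ⟨y, hy, rfl⟩
      exact ⟨fun j => y (e j), (key y).mp hy, rfl⟩
    · rintro ⟨z, hz, rfl⟩
      refine ⟨fun j => z (e.symm j), (key _).mpr ?_, ?_⟩
      · intro i
        simp only [Equiv.symm_apply_apply]
        exact hz i
      · have : (LinearEquiv.funCongrLeft ℝ ℝ e).toLinearMap.toAffineMap (fun j => z (e.symm j)) = z := by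
          funext j
          change z (e.symm (e j)) = z j
          rw [Equiv.symm_apply_apply]
        rw [AffineMap.comp_apply, this]
-- END xof

-- BEGIN ba0
/-- Hint: `k = 0`, no inequality (`Fin 0`), constant map; `STAB G ∅ = {0}`. -/
theorem ba0 (G : SimpleGraph V) : XC (STAB G ∅) 0 := by
  classical
  have h1 : STAB G ∅ = {0} := by
    unfold STAB
    have h2 : {x : V → ℝ | ∃ s : Finset V, s ⊆ ∅ ∧ Stb G s ∧ x = ind s} = {0} := by
      ext x
      simp only [Set.mem_setOf_eq, Set.mem_singleton_iff]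
      constructor
      · rintro ⟨s, hs, -, rfl⟩
        rw [Finset.subset_empty.1 hs]
        funext i
        simp [ind]
      · rintro rfl
        refine ⟨∅, Finset.Subset.refl _, ?_, ?_⟩
        · intro u hu
          simp at hu
        · funext i
          simp [ind]
    rw [h2, convexHull_singleton]
  refine ⟨0, fun i => i.elim0, fun i => i.elim0, AffineMap.const ℝ (Fin 0 → ℝ) (0 : V → ℝ), ?_, ?_⟩
  · exact (Set.subsingleton_of_subsingleton).finite.isBounded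
  · rw [h1]
    ext x
    simp only [Set.mem_image, Set.mem_setOf_eq, Set.mem_singleton_iff, AffineMap.const_apply]
    constructor
    · rintro ⟨y, -, h⟩
      exact h.symm
    · rintro rfl
      exact ⟨fun i => i.elim0, fun i => i.elim0, rfl⟩
-- END ba0

-- BEGIN ba1
/-- Hint: `k = 1`, the inequalities `y ≤ 1`, `-y ≤ 0`, the map `y ↦ y • ind {v}`; the stable
subsets of `{v}` are `∅` and `{v}` (`convexHull_pair`, `segment`). -/
theorem ba1 (G : SimpleGraph V) (v : V) : XC (STAB G {v}) 2 := by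
  have hset : {y : Fin 1 → ℝ | ∀ i, ∑ j, (fun (i : Fin 2) (_ : Fin 1) => if i = 0 then (1 : ℝ) else -1) i j * y j ≤
      (fun i : Fin 2 => if i = 0 then (1 : ℝ) else 0) i} = {y : Fin 1 → ℝ | 0 ≤ y 0 ∧ y 0 ≤ 1} := by
    ext y
    simp only [Set.mem_ofPred_eq, Fin.forall_fin_two, Fin.sum_univ_one]
    constructor
    · rintro ⟨h1, h2⟩
      simp at h1 h2
      exact ⟨h2, h1⟩
    · rintro ⟨h1, h2⟩
      simp
      exact ⟨h2, h1⟩
  have hst : {x : V → ℝ | ∃ s : Finset V, s ⊆ {v} ∧ Stb G s ∧ x = ind s} = {(0 : V → ℝ), ind {v}} := by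
    have h0 : ind (∅ : Finset V) = 0 := by
      funext i
      simp [ind]
    ext x
    simp only [Set.mem_ofPred_eq, Set.mem_insert_iff, Set.mem_singleton_iff]
    constructor
    · rintro ⟨s, hs, _, rfl⟩
      rcases Finset.subset_singleton_iff.1 hs with rfl | rfl
      · exact Or.inl h0
      · exact Or.inr rfl
    · rintro (rfl | rfl)
      · exact ⟨∅, Finset.empty_subset _, fun u hu => absurd hu (Finset.notMem_empty u), h0.symm⟩
      · refine ⟨{v}, Finset.Subset.refl _, fun a ha b hb => ?_, rfl⟩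
        rw [Finset.mem_singleton] at ha hb
        subst ha
        subst hb
        exact G.loopless.irrefl _
  refine ⟨1, fun (i : Fin 2) (_ : Fin 1) => if i = 0 then (1 : ℝ) else -1,
    fun i : Fin 2 => if i = 0 then (1 : ℝ) else 0,
    (LinearMap.smulRight (LinearMap.proj (0 : Fin 1) : (Fin 1 → ℝ) →ₗ[ℝ] ℝ) (ind {v})).toAffineMap, ?_, ?_⟩
  · rw [hset]
    refine (isCompact_Icc (a := (0 : Fin 1 → ℝ)) (b := 1)).isBounded.subset ?_
    rintro y ⟨h1, h2⟩
    constructor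
    · intro i
      rw [Subsingleton.elim i 0]
      exact h1
    · intro i
      rw [Subsingleton.elim i 0]
      exact h2
  · rw [hset]
    unfold STAB
    rw [hst, convexHull_pair, segment_eq_image']
    ext x
    constructor
    · rintro ⟨y, ⟨h1, h2⟩, rfl⟩
      refine ⟨y 0, ⟨h1, h2⟩, ?_⟩
      show (0 : V → ℝ) + y 0 • (ind {v} - 0) = y 0 • ind {v}
      rw [sub_zero, zero_add]
    · rintro ⟨t, ⟨h1, h2⟩, rfl⟩
      refine ⟨fun _ => t, ⟨h1, h2⟩, ?_⟩
      show t • ind {v} = (0 : V → ℝ) + t • (ind {v} - 0)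
      rw [sub_zero, zero_add]
-- END ba1

-- BEGIN rec0
/-- A nonempty bounded polyhedron has trivial recession cone, quantitatively.
Hint: `y₀` a point of the polyhedron; if `y ≠ 0` satisfied `∑ A i j * y j ≤ 0` for all `i` then
`y₀ + t • y` would be in the polyhedron for all `t ≥ 0`. -/
theorem rec0 (ι κ : Type) [Fintype ι] [Fintype κ] (A : ι → κ → ℝ) (b : ι → ℝ)
    (hb : Bornology.IsBounded {y : κ → ℝ | ∀ i, ∑ j, A i j * y j ≤ b i})
    (hne : ({y : κ → ℝ | ∀ i, ∑ j, A i j * y j ≤ b i}).Nonempty) (y : κ → ℝ)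
    (hy : ∀ i, ∑ j, A i j * y j ≤ 0) : y = 0 := by
  obtain ⟨y₀, hy₀⟩ := hne
  obtain ⟨C, hC⟩ := isBounded_iff_forall_norm_le.1 hb
  by_contra hne
  have hpos : 0 < ‖y‖ := norm_pos_iff.2 hne
  have hC0 : 0 ≤ C := le_trans (norm_nonneg _) (hC y₀ hy₀)
  have hmem : ∀ t : ℝ, 0 ≤ t → (y₀ + t • y) ∈ {y : κ → ℝ | ∀ i, ∑ j, A i j * y j ≤ b i} := by
    intro t ht i
    have h1 : ∑ j, A i j * (y₀ + t • y) j = ∑ j, A i j * y₀ j + t * ∑ j, A i j * y j := by
      rw [Finset.mul_sum, ← Finset.sum_add_distrib]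
      apply Finset.sum_congr rfl
      intro j _
      simp only [Pi.add_apply, Pi.smul_apply, smul_eq_mul]
      ring
    rw [h1]
    have h2 := hy₀ i
    have h3 := mul_nonpos_of_nonneg_of_nonpos ht (hy i)
    linarith
  have ht : 0 ≤ (2 * C + 1) / ‖y‖ := by positivity
  have h1 := hC _ (hmem _ ht)
  have h2 : ‖((2 * C + 1) / ‖y‖) • y‖ = 2 * C + 1 := by
    rw [norm_smul, Real.norm_of_nonneg ht]
    field_simp
  have h3 : ‖((2 * C + 1) / ‖y‖) • y‖ ≤ ‖y₀ + ((2 * C + 1) / ‖y‖) • y‖ + ‖y₀‖ := by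
    have h4 : ((2 * C + 1) / ‖y‖) • y = (y₀ + ((2 * C + 1) / ‖y‖) • y) - y₀ := by
      rw [add_sub_cancel_left]
    calc ‖((2 * C + 1) / ‖y‖) • y‖ = ‖(y₀ + ((2 * C + 1) / ‖y‖) • y) - y₀‖ := by rw [← h4]
      _ ≤ _ := norm_sub_le _ _
  have h5 := hC y₀ hy₀
  linarith
-- END rec0

-- BEGIN rec1
/-- The homogenized polyhedron is bounded. Hint: `R` a bound for the norm on the polyhedron
(`R ≥ 0`); if `lam > 0` then `lam⁻¹ • y` is in the polyhedron, so `‖y‖ ≤ lam * R ≤ R`; if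
`lam = 0` use `rec0`. -/
theorem rec1 (ι κ : Type) [Fintype ι] [Fintype κ] (A : ι → κ → ℝ) (b : ι → ℝ)
    (hb : Bornology.IsBounded {y : κ → ℝ | ∀ i, ∑ j, A i j * y j ≤ b i})
    (hne : ({y : κ → ℝ | ∀ i, ∑ j, A i j * y j ≤ b i}).Nonempty) :
    ∃ R : ℝ, 0 ≤ R ∧ ∀ lam : ℝ, 0 ≤ lam → lam ≤ 1 → ∀ y : κ → ℝ,
      (∀ i, ∑ j, A i j * y j ≤ lam * b i) → ∀ j, |y j| ≤ R := by
  obtain ⟨R, hR⟩ := isBounded_iff_forall_norm_le.1 hb
  refine ⟨max R 0, le_max_right _ _, ?_⟩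
  intro lam h0 h1 y hy j
  rcases h0.eq_or_lt with h | h
  · have e : y = 0 := by
      refine rec0 ι κ A b hb hne y ?_
      intro i
      have := hy i
      rw [← h, zero_mul] at this
      exact this
    rw [e]
    simp
  · have hmem : lam⁻¹ • y ∈ {y : κ → ℝ | ∀ i, ∑ j, A i j * y j ≤ b i} := by
      intro i
      have e1 : ∑ j, A i j * (lam⁻¹ • y) j = lam⁻¹ * ∑ j, A i j * y j := by
        rw [Finset.mul_sum]
        refine Finset.sum_congr rfl (fun j _ => ?_)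
        rw [Pi.smul_apply, smul_eq_mul]
        ring
      rw [e1]
      have e2 := mul_le_mul_of_nonneg_left (hy i) (inv_nonneg.2 h0)
      rw [← mul_assoc, inv_mul_cancel₀ h.ne', one_mul] at e2
      exact e2
    have n1 := hR _ hmem
    have n2 := norm_le_pi_norm (lam⁻¹ • y) j
    rw [Pi.smul_apply, smul_eq_mul, norm_mul, Real.norm_eq_abs, Real.norm_eq_abs,
      abs_of_pos (inv_pos.2 h)] at n2
    have n3 : lam⁻¹ * |y j| ≤ max R 0 := (n2.trans n1).trans (le_max_left _ _)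
    have n4 := mul_le_mul_of_nonneg_left n3 h.le
    rw [← mul_assoc, mul_inv_cancel₀ h.ne', one_mul] at n4
    refine n4.trans ?_
    exact mul_le_of_le_one_left (le_max_right _ _) h1
-- END rec1

-- BEGIN bal
theorem bal_up (κ : Type) [Fintype κ] (π : (κ → ℝ) →ᵃ[ℝ] (V → ℝ)) (y : κ → ℝ) :
    π y = π.linear y + π 0 := by
  have h := π.map_vadd 0 y
  simpa using h

theorem bal_in (ι κ : Type) [Fintype ι] [Fintype κ] (A : ι → κ → ℝ) (b : ι → ℝ)
    (π : (κ → ℝ) →ᵃ[ℝ] (V → ℝ))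
    (hb : Bornology.IsBounded {y : κ → ℝ | ∀ i, ∑ j, A i j * y j ≤ b i})
    (hne : ({y : κ → ℝ | ∀ i, ∑ j, A i j * y j ≤ b i}).Nonempty)
    (lam : ℝ) (hl : 0 ≤ lam) (y : κ → ℝ) (hy : ∀ i, ∑ j, A i j * y j ≤ lam * b i) :
    ∃ x ∈ π '' {y : κ → ℝ | ∀ i, ∑ j, A i j * y j ≤ b i},
      π.linear y + lam • π 0 = lam • x := by
  rcases hl.eq_or_lt with h0 | h0
  · subst h0
    have hy0 : y = 0 := by
      apply rec0 ι κ A b hb hne y
      intro i
      have h := hy i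
      rw [zero_mul] at h
      exact h
    obtain ⟨z, hz⟩ := hne
    refine ⟨π z, ⟨z, hz, rfl⟩, ?_⟩
    rw [hy0]
    simp
  · refine ⟨π (lam⁻¹ • y), ⟨lam⁻¹ • y, ?_, rfl⟩, ?_⟩
    · intro i
      have h := hy i
      have h2 : ∑ j, A i j * (lam⁻¹ • y) j = lam⁻¹ * ∑ j, A i j * y j := by
        rw [Finset.mul_sum]
        apply Finset.sum_congr rfl
        intro j _
        simp only [Pi.smul_apply, smul_eq_mul]
        ring
      rw [h2]
      have h3 : lam⁻¹ * ∑ j, A i j * y j ≤ lam⁻¹ * (lam * b i) :=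
        mul_le_mul_of_nonneg_left h (inv_nonneg.2 hl)
      rw [← mul_assoc, inv_mul_cancel₀ h0.ne', one_mul] at h3
      exact h3
    · rw [bal_up κ π (lam⁻¹ • y), smul_add, map_smul, smul_smul, mul_inv_cancel₀ h0.ne', one_smul]

theorem bal_out (ι κ : Type) [Fintype ι] [Fintype κ] (A : ι → κ → ℝ) (b : ι → ℝ)
    (π : (κ → ℝ) →ᵃ[ℝ] (V → ℝ)) (lam : ℝ) (hl : 0 ≤ lam) (x : V → ℝ)
    (hx : x ∈ π '' {y : κ → ℝ | ∀ i, ∑ j, A i j * y j ≤ b i}) :
    ∃ y : κ → ℝ, (∀ i, ∑ j, A i j * y j ≤ lam * b i) ∧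
      π.linear y + lam • π 0 = lam • x := by
  obtain ⟨z, hz, rfl⟩ := hx
  refine ⟨lam • z, ?_, ?_⟩
  · intro i
    have h := hz i
    have h2 : ∑ j, A i j * (lam • z) j = lam * ∑ j, A i j * z j := by
      rw [Finset.mul_sum]
      apply Finset.sum_congr rfl
      intro j _
      simp only [Pi.smul_apply, smul_eq_mul]
      ring
    rw [h2]
    exact mul_le_mul_of_nonneg_left h hl
  · rw [bal_up κ π z, smul_add, map_smul]

theorem bal_cvx (ι κ : Type) [Fintype ι] [Fintype κ] (A : ι → κ → ℝ) (b : ι → ℝ)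
    (π : (κ → ℝ) →ᵃ[ℝ] (V → ℝ)) :
    Convex ℝ (π '' {y : κ → ℝ | ∀ i, ∑ j, A i j * y j ≤ b i}) := by
  apply Convex.affine_image
  intro x hx y hy s t hs ht hst i
  have hx1 := hx i
  have hy1 := hy i
  have h2 : ∑ j, A i j * (s • x + t • y) j
      = s * ∑ j, A i j * x j + t * ∑ j, A i j * y j := by
    rw [Finset.mul_sum, Finset.mul_sum, ← Finset.sum_add_distrib]
    apply Finset.sum_congr rfl
    intro j _
    simp only [Pi.add_apply, Pi.smul_apply, smul_eq_mul]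
    ring
  have h3 : s * ∑ j, A i j * x j ≤ s * b i := mul_le_mul_of_nonneg_left hx1 hs
  have h4 : t * ∑ j, A i j * y j ≤ t * b i := mul_le_mul_of_nonneg_left hy1 ht
  have h5 : s * b i + t * b i = b i := by rw [← add_mul, hst, one_mul]
  rw [h2]
  linarith

/-- the coefficients of the polyhedron of the union -/
noncomputable def bal_A {f₁ f₂ k₁ k₂ : ℕ} (A₁ : Fin f₁ → Fin k₁ → ℝ) (b₁ : Fin f₁ → ℝ)
    (A₂ : Fin f₂ → Fin k₂ → ℝ) (b₂ : Fin f₂ → ℝ) :
    (Fin f₁ ⊕ Fin f₂) ⊕ (Unit ⊕ Unit) → (Fin k₁ ⊕ Fin k₂) ⊕ Unit → ℝ :=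
  Sum.elim
    (Sum.elim
      (fun i => Sum.elim (Sum.elim (fun j => A₁ i j) (fun _ => 0)) (fun _ => - b₁ i))
      (fun i => Sum.elim (Sum.elim (fun _ => 0) (fun j => A₂ i j)) (fun _ => b₂ i)))
    (Sum.elim
      (fun _ => Sum.elim (Sum.elim (fun _ => 0) (fun _ => 0)) (fun _ => 1))
      (fun _ => Sum.elim (Sum.elim (fun _ => 0) (fun _ => 0)) (fun _ => -1)))

/-- the right sides of the polyhedron of the union -/
noncomputable def bal_B {f₁ f₂ : ℕ} (b₂ : Fin f₂ → ℝ) :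
    (Fin f₁ ⊕ Fin f₂) ⊕ (Unit ⊕ Unit) → ℝ :=
  Sum.elim (Sum.elim (fun _ => 0) (fun i => b₂ i)) (Sum.elim (fun _ => 1) (fun _ => 0))

theorem bal_mem {f₁ f₂ k₁ k₂ : ℕ} (A₁ : Fin f₁ → Fin k₁ → ℝ) (b₁ : Fin f₁ → ℝ)
    (A₂ : Fin f₂ → Fin k₂ → ℝ) (b₂ : Fin f₂ → ℝ) (w : (Fin k₁ ⊕ Fin k₂) ⊕ Unit → ℝ) :
    (∀ i, ∑ j, bal_A A₁ b₁ A₂ b₂ i j * w j ≤ bal_B (f₁ := f₁) b₂ i) ↔
      (∀ i, ∑ j, A₁ i j * w (Sum.inl (Sum.inl j)) ≤ w (Sum.inr ()) * b₁ i) ∧
      (∀ i, ∑ j, A₂ i j * w (Sum.inl (Sum.inr j)) ≤ (1 - w (Sum.inr ())) * b₂ i) ∧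
      w (Sum.inr ()) ≤ 1 ∧ 0 ≤ w (Sum.inr ()) := by
  constructor
  · intro h
    refine ⟨?_, ?_, ?_, ?_⟩
    · intro i
      have h1 := h (Sum.inl (Sum.inl i))
      simp only [bal_A, bal_B, Fintype.sum_sum_type, Sum.elim_inl, Sum.elim_inr, zero_mul,
        Finset.sum_const_zero, add_zero, Finset.univ_unique, Finset.sum_singleton] at h1
      have h2 : w (Sum.inr default) = w (Sum.inr ()) := rfl
      rw [h2] at h1
      linarith
    · intro i
      have h1 := h (Sum.inl (Sum.inr i))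
      simp only [bal_A, bal_B, Fintype.sum_sum_type, Sum.elim_inl, Sum.elim_inr, zero_mul,
        Finset.sum_const_zero, zero_add, Finset.univ_unique, Finset.sum_singleton] at h1
      have h2 : w (Sum.inr default) = w (Sum.inr ()) := rfl
      rw [h2] at h1
      linarith
    · have h1 := h (Sum.inr (Sum.inl ()))
      simp only [bal_A, bal_B, Fintype.sum_sum_type, Sum.elim_inl, Sum.elim_inr, zero_mul,
        Finset.sum_const_zero, zero_add, Finset.univ_unique, Finset.sum_singleton, one_mul] at h1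
      exact h1
    · have h1 := h (Sum.inr (Sum.inr ()))
      simp only [bal_A, bal_B, Fintype.sum_sum_type, Sum.elim_inl, Sum.elim_inr, zero_mul,
        Finset.sum_const_zero, zero_add, Finset.univ_unique, Finset.sum_singleton] at h1
      have h2 : w (Sum.inr default) = w (Sum.inr ()) := rfl
      rw [h2] at h1
      linarith
  · rintro ⟨h1, h2, h3, h4⟩ i
    rcases i with (i | i) | (i | i)
    · simp only [bal_A, bal_B, Fintype.sum_sum_type, Sum.elim_inl, Sum.elim_inr, zero_mul,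
        Finset.sum_const_zero, add_zero, Finset.univ_unique, Finset.sum_singleton]
      have h5 : w (Sum.inr default) = w (Sum.inr ()) := rfl
      rw [h5]
      have h6 := h1 i
      linarith
    · simp only [bal_A, bal_B, Fintype.sum_sum_type, Sum.elim_inl, Sum.elim_inr, zero_mul,
        Finset.sum_const_zero, zero_add, Finset.univ_unique, Finset.sum_singleton]
      have h5 : w (Sum.inr default) = w (Sum.inr ()) := rfl
      rw [h5]
      have h6 := h2 i
      linarith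
    · simp only [bal_A, bal_B, Fintype.sum_sum_type, Sum.elim_inl, Sum.elim_inr, zero_mul,
        Finset.sum_const_zero, zero_add, Finset.univ_unique, Finset.sum_singleton, one_mul]
      exact h3
    · simp only [bal_A, bal_B, Fintype.sum_sum_type, Sum.elim_inl, Sum.elim_inr, zero_mul,
        Finset.sum_const_zero, zero_add, Finset.univ_unique, Finset.sum_singleton]
      have h5 : w (Sum.inr default) = w (Sum.inr ()) := rfl
      rw [h5]
      linarith

/-- the linear part of the map -/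
noncomputable def bal_L {k₁ k₂ : ℕ} (π₁ : (Fin k₁ → ℝ) →ᵃ[ℝ] (V → ℝ))
    (π₂ : (Fin k₂ → ℝ) →ᵃ[ℝ] (V → ℝ)) : ((Fin k₁ ⊕ Fin k₂) ⊕ Unit → ℝ) →ₗ[ℝ] (V → ℝ) where
  toFun w := π₁.linear (fun j => w (Sum.inl (Sum.inl j)))
    + π₂.linear (fun j => w (Sum.inl (Sum.inr j))) + w (Sum.inr ()) • (π₁ 0 - π₂ 0)
  map_add' w z := by
    have h1 : (fun j => (w + z) (Sum.inl (Sum.inl j)))
        = (fun j : Fin k₁ => w (Sum.inl (Sum.inl j))) + (fun j => z (Sum.inl (Sum.inl j))) := rfl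
    have h2 : (fun j => (w + z) (Sum.inl (Sum.inr j)))
        = (fun j : Fin k₂ => w (Sum.inl (Sum.inr j))) + (fun j => z (Sum.inl (Sum.inr j))) := rfl
    rw [h1, h2, map_add, map_add, Pi.add_apply, add_smul]
    abel
  map_smul' c w := by
    have h1 : (fun j => (c • w) (Sum.inl (Sum.inl j)))
        = c • (fun j : Fin k₁ => w (Sum.inl (Sum.inl j))) := rfl
    have h2 : (fun j => (c • w) (Sum.inl (Sum.inr j)))
        = c • (fun j : Fin k₂ => w (Sum.inl (Sum.inr j))) := rfl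
    rw [h1, h2, map_smul, map_smul, Pi.smul_apply, RingHom.id_apply, smul_add, smul_add,
      smul_eq_mul, mul_smul]

/-- Balas: the convex hull of a union. Hint: from `P₁ = π₁ '' Q₁`, `P₂ = π₂ '' Q₂` (variables
`Fin k₁`, `Fin k₂`) take the index type `(Fin f₁ ⊕ Fin f₂) ⊕ Fin 2` for the inequalities
and `(Fin k₁ ⊕ Fin k₂) ⊕ Unit` for the variables `(y₁, y₂, lam)`:
`A₁ y₁ - lam b₁ ≤ 0`, `A₂ y₂ + lam b₂ ≤ b₂`, `lam ≤ 1`, `-lam ≤ 0`, and the affine map
`π₁.linear y₁ + lam • π₁ 0 + π₂.linear y₂ + (1 - lam) • π₂ 0`; bounded by `rec1`; the image is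
`{lam • x₁ + (1 - lam) • x₂}` (for `lam = 0` or `1` use `rec0`), which is
`convexHull (P₁ ∪ P₂)` (`Convex.convexHull_union`, `mem_convexJoin`, `segment`);
`xof` at the end. `P₁`, `P₂` are convex as images of polyhedra. -/
theorem bal (P₁ P₂ : Set (V → ℝ)) (f₁ f₂ : ℕ) (h₁ : XC P₁ f₁) (h₂ : XC P₂ f₂)
    (n₁ : P₁.Nonempty) (n₂ : P₂.Nonempty) : XC (convexHull ℝ (P₁ ∪ P₂)) (f₁ + f₂ + 2) := by
  obtain ⟨k₁, A₁, b₁, π₁, hb₁, rfl⟩ := h₁
  obtain ⟨k₂, A₂, b₂, π₂, hb₂, rfl⟩ := h₂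
  have m₁ : ({y : Fin k₁ → ℝ | ∀ i, ∑ j, A₁ i j * y j ≤ b₁ i}).Nonempty := n₁.of_image
  have m₂ : ({y : Fin k₂ → ℝ | ∀ i, ∑ j, A₂ i j * y j ≤ b₂ i}).Nonempty := n₂.of_image
  apply xof ((Fin f₁ ⊕ Fin f₂) ⊕ (Unit ⊕ Unit)) ((Fin k₁ ⊕ Fin k₂) ⊕ Unit)
  swap
  · simp
  refine ⟨bal_A A₁ b₁ A₂ b₂, bal_B b₂,
    (bal_L π₁ π₂).toAffineMap + AffineMap.const ℝ ((Fin k₁ ⊕ Fin k₂) ⊕ Unit → ℝ) (π₂ 0), ?_, ?_⟩
  · obtain ⟨R₁, hR₁, hR₁'⟩ := rec1 _ _ A₁ b₁ hb₁ m₁
    obtain ⟨R₂, hR₂, hR₂'⟩ := rec1 _ _ A₂ b₂ hb₂ m₂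
    rw [isBounded_iff_forall_norm_le]
    refine ⟨R₁ + R₂ + 1, ?_⟩
    intro w hw
    obtain ⟨g1, g2, g3, g4⟩ := (bal_mem A₁ b₁ A₂ b₂ w).1 hw
    rw [pi_norm_le_iff_of_nonneg (by linarith)]
    intro j
    rw [Real.norm_eq_abs]
    rcases j with (j | j) | j
    · have h := hR₁' (w (Sum.inr ())) g4 g3 (fun j => w (Sum.inl (Sum.inl j))) g1 j
      linarith
    · have h := hR₂' (1 - w (Sum.inr ())) (by linarith) (by linarith)
        (fun j => w (Sum.inl (Sum.inr j))) g2 j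
      linarith
    · have h5 : w (Sum.inr j) = w (Sum.inr ()) := rfl
      rw [h5, abs_of_nonneg g4]
      linarith
  · rw [(bal_cvx _ _ A₁ b₁ π₁).convexHull_union (bal_cvx _ _ A₂ b₂ π₂) n₁ n₂]
    have key : ∀ w : (Fin k₁ ⊕ Fin k₂) ⊕ Unit → ℝ,
        ((bal_L π₁ π₂).toAffineMap + AffineMap.const ℝ ((Fin k₁ ⊕ Fin k₂) ⊕ Unit → ℝ) (π₂ 0)) w
          = (π₁.linear (fun j => w (Sum.inl (Sum.inl j))) + w (Sum.inr ()) • π₁ 0)
          + (π₂.linear (fun j => w (Sum.inl (Sum.inr j))) + (1 - w (Sum.inr ())) • π₂ 0) := by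
      intro w
      have h1 : ((bal_L π₁ π₂).toAffineMap + AffineMap.const ℝ ((Fin k₁ ⊕ Fin k₂) ⊕ Unit → ℝ) (π₂ 0)) w
          = π₁.linear (fun j => w (Sum.inl (Sum.inl j)))
            + π₂.linear (fun j => w (Sum.inl (Sum.inr j)))
            + w (Sum.inr ()) • (π₁ 0 - π₂ 0) + π₂ 0 := rfl
      rw [h1, smul_sub, sub_smul, one_smul]
      abel
    ext x
    rw [mem_convexJoin]
    constructor
    · rintro ⟨w, hw, rfl⟩
      obtain ⟨g1, g2, g3, g4⟩ := (bal_mem A₁ b₁ A₂ b₂ w).1 hw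
      obtain ⟨x₁, hx₁, e₁⟩ := bal_in _ _ A₁ b₁ π₁ hb₁ m₁ (w (Sum.inr ())) g4 _ g1
      obtain ⟨x₂, hx₂, e₂⟩ := bal_in _ _ A₂ b₂ π₂ hb₂ m₂ (1 - w (Sum.inr ())) (by linarith) _ g2
      refine ⟨x₁, hx₁, x₂, hx₂, ?_⟩
      refine ⟨w (Sum.inr ()), 1 - w (Sum.inr ()), g4, by linarith, by ring, ?_⟩
      rw [key, e₁, e₂]
    · rintro ⟨x₁, hx₁, x₂, hx₂, s, t, hs, ht, hst, rfl⟩
      obtain ⟨y₁, hy₁, e₁⟩ := bal_out _ _ A₁ b₁ π₁ s hs x₁ hx₁
      obtain ⟨y₂, hy₂, e₂⟩ := bal_out _ _ A₂ b₂ π₂ t ht x₂ hx₂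
      have ht' : 1 - s = t := by linarith
      refine ⟨Sum.elim (Sum.elim y₁ y₂) (fun _ => s), ?_, ?_⟩
      · apply (bal_mem A₁ b₁ A₂ b₂ _).2
        refine ⟨?_, ?_, ?_, ?_⟩
        · intro i
          exact hy₁ i
        · intro i
          have h := hy₂ i
          simp only [Sum.elim_inl, Sum.elim_inr]
          rw [ht']
          exact h
        · simp only [Sum.elim_inr]
          linarith
        · simp only [Sum.elim_inr]
          exact hs
      · rw [key]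
        simp only [Sum.elim_inl, Sum.elim_inr]
        rw [ht']
        rw [show (fun j => y₁ j) = y₁ from rfl, show (fun j => y₂ j) = y₂ from rfl, e₁, e₂]
-- END bal

-- BEGIN glu
omit [Fintype V] [DecidableEq V] in
private theorem glu_aff {k : ℕ} (π : (Fin k → ℝ) →ᵃ[ℝ] (V → ℝ)) (y : Fin k → ℝ) (v : V) :
    π y v = ∑ j, π.linear (Pi.single j 1) v * y j + π 0 v := by
  classical
  have h1 : π y = π.linear y + π 0 := by
    have := π.decomp
    rw [this]
    simp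
  have h2 : π.linear y = ∑ j, y j • π.linear (Pi.single j 1) := by
    conv_lhs => rw [← Finset.univ_sum_single y]
    rw [map_sum]
    refine Finset.sum_congr rfl (fun j _ => ?_)
    rw [← map_smul]
    congr 1
    ext i
    by_cases hij : i = j
    · subst hij
      simp
    · simp [hij]
  rw [h1, Pi.add_apply, h2, Finset.sum_apply]
  congr 1
  refine Finset.sum_congr rfl (fun j _ => ?_)
  rw [Pi.smul_apply, smul_eq_mul, mul_comm]

/-- Gluing. Hint: from `P₁ = π₁ '' Q₁`, `P₂ = π₂ '' Q₂` take the index type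
`(Fin f₁ ⊕ Fin f₂) ⊕ (V ⊕ V)` for the inequalities and `Fin k₁ ⊕ Fin k₂` for the variables
`(y₁, y₂)`: `y₁ ∈ Q₁`, `y₂ ∈ Q₂`, and `π₁(y₁) v ≤ π₂(y₂) v`, `≥` for `v ∉ A ∪ B` (`0 ≤ 0` for
`v ∈ A ∪ B`), the map `v ↦ if v ∈ A then π₂(y₂) v else π₁(y₁) v`; coefficients of an affine map:
`π y v = ∑ j, (π.linear (Pi.single j 1) v) * y j + π 0 v`. -/
theorem glu (A B : Finset V) (hAB : Disjoint A B) (P₁ P₂ : Set (V → ℝ)) (f₁ f₂ : ℕ)
    (h₁ : XC P₁ f₁) (h₂ : XC P₂ f₂) (z₁ : ∀ x ∈ P₁, ∀ v ∈ A, x v = 0)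
    (z₂ : ∀ x ∈ P₂, ∀ v ∈ B, x v = 0) :
    XC {x : V → ℝ | kill A x ∈ P₁ ∧ kill B x ∈ P₂} (f₁ + f₂ + 2 * Fintype.card V) := by
  classical
  obtain ⟨k₁, M₁, b₁, π₁, hb₁, him₁⟩ := h₁
  obtain ⟨k₂, M₂, b₂, π₂, hb₂, him₂⟩ := h₂
  set L₁ : (Fin k₁ ⊕ Fin k₂ → ℝ) →ₗ[ℝ] (Fin k₁ → ℝ) := LinearMap.funLeft ℝ ℝ Sum.inl with hL₁
  set L₂ : (Fin k₁ ⊕ Fin k₂ → ℝ) →ₗ[ℝ] (Fin k₂ → ℝ) := LinearMap.funLeft ℝ ℝ Sum.inr with hL₂
  set g₁ : (Fin k₁ ⊕ Fin k₂ → ℝ) →ᵃ[ℝ] (V → ℝ) := π₁.comp L₁.toAffineMap with hg₁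
  set g₂ : (Fin k₁ ⊕ Fin k₂ → ℝ) →ᵃ[ℝ] (V → ℝ) := π₂.comp L₂.toAffineMap with hg₂
  have hg₁' : ∀ y, g₁ y = π₁ (fun j => y (Sum.inl j)) := fun y => rfl
  have hg₂' : ∀ y, g₂ y = π₂ (fun j => y (Sum.inr j)) := fun y => rfl
  set π : (Fin k₁ ⊕ Fin k₂ → ℝ) →ᵃ[ℝ] (V → ℝ) := AffineMap.pi (fun v =>
    if v ∈ A then ((LinearMap.proj v : (V → ℝ) →ₗ[ℝ] ℝ).toAffineMap).comp g₂
    else ((LinearMap.proj v : (V → ℝ) →ₗ[ℝ] ℝ).toAffineMap).comp g₁) with hπ
  have hπ' : ∀ y v, π y v = if v ∈ A then π₂ (fun j => y (Sum.inr j)) v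
      else π₁ (fun j => y (Sum.inl j)) v := by
    intro y v
    rw [hπ, AffineMap.pi_apply]
    split_ifs
    · rfl
    · rfl
  set c : V → Fin k₁ ⊕ Fin k₂ → ℝ := fun v => Sum.elim (fun j => π₁.linear (Pi.single j 1) v)
    (fun j => -π₂.linear (Pi.single j 1) v) with hc
  set M : (Fin f₁ ⊕ Fin f₂) ⊕ (V ⊕ V) → Fin k₁ ⊕ Fin k₂ → ℝ := fun i =>
    Sum.elim (Sum.elim (fun i => Sum.elim (M₁ i) 0) (fun i => Sum.elim 0 (M₂ i)))
      (Sum.elim (fun v => if v ∈ A ∪ B then 0 else c v)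
        (fun v => if v ∈ A ∪ B then 0 else -c v)) i with hM
  set b : (Fin f₁ ⊕ Fin f₂) ⊕ (V ⊕ V) → ℝ := fun i =>
    Sum.elim (Sum.elim b₁ b₂) (Sum.elim (fun v => if v ∈ A ∪ B then 0 else π₂ 0 v - π₁ 0 v)
        (fun v => if v ∈ A ∪ B then 0 else π₁ 0 v - π₂ 0 v)) i with hb
  have hcv : ∀ (y : Fin k₁ ⊕ Fin k₂ → ℝ) v, ∑ j, c v j * y j =
      (π₁ (fun j => y (Sum.inl j)) v - π₁ 0 v) - (π₂ (fun j => y (Sum.inr j)) v - π₂ 0 v) := by
    intro y v
    rw [Fintype.sum_sum_type, glu_aff π₁, glu_aff π₂]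
    simp only [hc, Sum.elim_inl, Sum.elim_inr, neg_mul, Finset.sum_neg_distrib]
    ring
  have hQ : ∀ y : Fin k₁ ⊕ Fin k₂ → ℝ, (∀ i, ∑ j, M i j * y j ≤ b i) ↔
      (∀ i, ∑ j, M₁ i j * y (Sum.inl j) ≤ b₁ i) ∧ (∀ i, ∑ j, M₂ i j * y (Sum.inr j) ≤ b₂ i) ∧
      ∀ v, v ∉ A ∪ B → π₁ (fun j => y (Sum.inl j)) v = π₂ (fun j => y (Sum.inr j)) v := by
    intro y
    constructor
    · intro h
      refine ⟨fun i => ?_, fun i => ?_, fun v hv => ?_⟩
      · have := h (Sum.inl (Sum.inl i))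
        rw [Fintype.sum_sum_type] at this
        simpa [hM, hb] using this
      · have := h (Sum.inl (Sum.inr i))
        rw [Fintype.sum_sum_type] at this
        simpa [hM, hb] using this
      · have e1 := h (Sum.inr (Sum.inl v))
        have e2 := h (Sum.inr (Sum.inr v))
        have m1 : M (Sum.inr (Sum.inl v)) = c v := by
          simp only [hM, Sum.elim_inr, Sum.elim_inl, if_neg hv]
        have m2 : M (Sum.inr (Sum.inr v)) = -c v := by
          simp only [hM, Sum.elim_inr, if_neg hv]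
        have m3 : b (Sum.inr (Sum.inl v)) = π₂ 0 v - π₁ 0 v := by
          simp only [hb, Sum.elim_inr, Sum.elim_inl, if_neg hv]
        have m4 : b (Sum.inr (Sum.inr v)) = π₁ 0 v - π₂ 0 v := by
          simp only [hb, Sum.elim_inr, if_neg hv]
        rw [m1, m3, hcv] at e1
        rw [m2, m4] at e2
        simp only [Pi.neg_apply, neg_mul, Finset.sum_neg_distrib] at e2
        rw [hcv] at e2
        linarith
    · rintro ⟨h1, h2, h3⟩ i
      rcases i with (i | i) | (v | v)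
      · rw [Fintype.sum_sum_type]
        simpa [hM, hb] using h1 i
      · rw [Fintype.sum_sum_type]
        simpa [hM, hb] using h2 i
      · by_cases hv : v ∈ A ∪ B
        · have m1 : M (Sum.inr (Sum.inl v)) = 0 := by
            simp only [hM, Sum.elim_inr, Sum.elim_inl, if_pos hv]
          have m3 : b (Sum.inr (Sum.inl v)) = 0 := by
            simp only [hb, Sum.elim_inr, Sum.elim_inl, if_pos hv]
          rw [m1, m3]
          simp
        · have m1 : M (Sum.inr (Sum.inl v)) = c v := by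
            simp only [hM, Sum.elim_inr, Sum.elim_inl, if_neg hv]
          have m3 : b (Sum.inr (Sum.inl v)) = π₂ 0 v - π₁ 0 v := by
            simp only [hb, Sum.elim_inr, Sum.elim_inl, if_neg hv]
          rw [m1, m3, hcv, h3 v hv]
          linarith
      · by_cases hv : v ∈ A ∪ B
        · have m2 : M (Sum.inr (Sum.inr v)) = 0 := by
            simp only [hM, Sum.elim_inr, if_pos hv]
          have m4 : b (Sum.inr (Sum.inr v)) = 0 := by
            simp only [hb, Sum.elim_inr, if_pos hv]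
          rw [m2, m4]
          simp
        · have m2 : M (Sum.inr (Sum.inr v)) = -c v := by
            simp only [hM, Sum.elim_inr, if_neg hv]
          have m4 : b (Sum.inr (Sum.inr v)) = π₁ 0 v - π₂ 0 v := by
            simp only [hb, Sum.elim_inr, if_neg hv]
          rw [m2, m4]
          simp only [Pi.neg_apply, neg_mul, Finset.sum_neg_distrib]
          rw [hcv, h3 v hv]
          linarith
  refine xof ((Fin f₁ ⊕ Fin f₂) ⊕ (V ⊕ V)) (Fin k₁ ⊕ Fin k₂) _ ⟨M, b, π, ?_, ?_⟩ _ ?_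
  · obtain ⟨R₁, hR₁⟩ := isBounded_iff_forall_norm_le.1 hb₁
    obtain ⟨R₂, hR₂⟩ := isBounded_iff_forall_norm_le.1 hb₂
    refine isBounded_iff_forall_norm_le.2 ⟨max (max R₁ R₂) 0, fun y hy => ?_⟩
    obtain ⟨h1, h2, _⟩ := (hQ y).1 hy
    refine (pi_norm_le_iff_of_nonneg (le_max_right _ _)).2 (fun j => ?_)
    rcases j with j | j
    · have e1 := hR₁ (fun j => y (Sum.inl j)) h1
      have e2 := norm_le_pi_norm (fun j => y (Sum.inl j)) j
      exact (e2.trans e1).trans ((le_max_left _ _).trans (le_max_left _ _))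
    · have e1 := hR₂ (fun j => y (Sum.inr j)) h2
      have e2 := norm_le_pi_norm (fun j => y (Sum.inr j)) j
      exact (e2.trans e1).trans ((le_max_right _ _).trans (le_max_left _ _))
  · ext x
    constructor
    · rintro ⟨y, hy, rfl⟩
      obtain ⟨h1, h2, h3⟩ := (hQ y).1 hy
      have hp1 : π₁ (fun j => y (Sum.inl j)) ∈ P₁ := by
        rw [← him₁]
        exact ⟨_, h1, rfl⟩
      have hp2 : π₂ (fun j => y (Sum.inr j)) ∈ P₂ := by
        rw [← him₂]
        exact ⟨_, h2, rfl⟩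
      constructor
      · have e : kill A (π y) = π₁ (fun j => y (Sum.inl j)) := by
          funext v
          unfold kill
          by_cases hv : v ∈ A
          · rw [if_pos hv, z₁ _ hp1 v hv]
          · rw [if_neg hv, hπ', if_neg hv]
        rw [e]
        exact hp1
      · have e : kill B (π y) = π₂ (fun j => y (Sum.inr j)) := by
          funext v
          unfold kill
          by_cases hv : v ∈ B
          · rw [if_pos hv, z₂ _ hp2 v hv]
          · rw [if_neg hv, hπ']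
            by_cases hvA : v ∈ A
            · rw [if_pos hvA]
            · rw [if_neg hvA]
              exact h3 v (by
                rw [Finset.mem_union]
                tauto)
        rw [e]
        exact hp2
    · rintro ⟨hx1, hx2⟩
      rw [← him₁] at hx1
      rw [← him₂] at hx2
      obtain ⟨y₁, hy₁, e₁⟩ := hx1
      obtain ⟨y₂, hy₂, e₂⟩ := hx2
      refine ⟨Sum.elim y₁ y₂, (hQ _).2 ⟨hy₁, hy₂, fun v hv => ?_⟩, ?_⟩
      · have a1 := congrFun e₁ v
        have a2 := congrFun e₂ v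
        have hvA : v ∉ A := fun h => hv (Finset.mem_union_left _ h)
        have hvB : v ∉ B := fun h => hv (Finset.mem_union_right _ h)
        unfold kill at a1 a2
        rw [if_neg hvA] at a1
        rw [if_neg hvB] at a2
        exact a1.trans a2.symm
      · funext v
        rw [hπ']
        have a1 := congrFun e₁ v
        have a2 := congrFun e₂ v
        unfold kill at a1 a2
        by_cases hvA : v ∈ A
        · rw [if_pos hvA]
          have hvB : v ∉ B := fun h => Finset.disjoint_left.1 hAB hvA h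
          rw [if_neg hvB] at a2
          exact a2
        · rw [if_neg hvA]
          rw [if_neg hvA] at a1
          exact a1
  · simp only [Fintype.card_sum, Fintype.card_fin]
    omega
-- END glu

end Pool.Agent.Xbh
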