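import Pool.Agent.Xbh.Cut
import Pool.Agent.Xbh.Bsc
import Pool.Agent.Xbh.JCls

set_option autoImplicit false

/-!
# The closure theorem for the classes `JCls` and the basic classes
-/

namespace Pool.Agent.Xbh

open Finset

private theorem jcx_one (k m : ℕ) : 1 ≤ lvs k m := le_max_left _ _

private theorem jcx_q (s : ℕ) : ∃ q : ℕ, 2 ^ (s + 1) - 1 = q ∧ 1 ≤ q ∧
    2 ^ (s + 1 + 1) - 1 = 2 * q + 1 := by
  have h1 : 1 ≤ 2 ^ s := Nat.one_le_two_pow
  have h2 : 2 ^ (s + 1) = 2 * 2 ^ s := by rw [pow_succ]; ring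
  have h3 : 2 ^ (s + 1 + 1) = 2 * 2 ^ (s + 1) := by rw [pow_succ]; ring
  exact ⟨2 ^ (s + 1) - 1, rfl, by omega, by omega⟩

private theorem jcx_num (q k a b N F : ℕ) (hq : 1 ≤ q) (ha : k < a) (hb : k < b) (hN : a + b ≤ N)
    (hF : 2 * N + 6 ≤ F) :
    q * (lvs k (a + k) * F) + q * (lvs k (b + k) * F) + 2 * k + 6 ≤ q * (lvs k (a + b) * F) := by
  have h1 := Nat.mul_le_mul_right F (lva k a b ha hb)
  have h2 : (lvs k (a + k) + lvs k (b + k) + 1) * F =
      lvs k (a + k) * F + lvs k (b + k) * F + F := by ring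
  have h3 : lvs k (a + k) * F + lvs k (b + k) * F + (2 * k + 6) ≤ lvs k (a + b) * F := by omega
  have h4 := Nat.mul_le_mul_left q h3
  have h5 : q * (lvs k (a + k) * F + lvs k (b + k) * F + (2 * k + 6)) =
      q * (lvs k (a + k) * F) + q * (lvs k (b + k) * F) + q * (2 * k + 6) := by ring
  have h6 : 2 * k + 6 ≤ q * (2 * k + 6) := Nat.le_mul_of_pos_left _ hq
  omega

private theorem jcx_cut (q L F N m t : ℕ) (hL : 1 ≤ L) (hm : m ≤ N) (ht : t ≤ 2 * m ∨ t ≤ 6)
    (hF : 2 * N + 6 ≤ F) : q * (L * F) + q * (L * F) + t ≤ (2 * q + 1) * (L * F) := by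
  have h1 : F ≤ L * F := Nat.le_mul_of_pos_left _ hL
  have h2 : (2 * q + 1) * (L * F) = q * (L * F) + q * (L * F) + L * F := by ring
  omega

/-- the closure theorem, with the number of vertices bounded by `N` -/
theorem jcx (B : (V : Type) → SimpleGraph V → Prop) (p : ℕ → ℕ) (hp' : Monotone p)
    (hB : ∀ (V : Type) [Fintype V] [DecidableEq V] (G : SimpleGraph V), B V G →
      XC (STAB G univ) (p (Fintype.card V)) ∧ XC (STAB Gᶜ univ) (p (Fintype.card V)))
    (k N s : ℕ) (V : Type) [Fintype V] [DecidableEq V] (G : SimpleGraph V)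
    (h : JCls B k s V G) : Fintype.card V ≤ N →
    XC (STAB G univ) ((2 ^ (s + 1) - 1) * (lvs k (Fintype.card V) * (p N + 2 * N + 6))) ∧
      XC (STAB Gᶜ univ) ((2 ^ (s + 1) - 1) *
        (lvs k (Fintype.card V) * (p N + 2 * N + 6))) := by
  induction h with
  | base s V G h =>
    intro hN
    obtain ⟨q, hq, hq1, -⟩ := jcx_q s
    rw [hq]
    have h1 : p (Fintype.card V) ≤ q * (lvs k (Fintype.card V) * (p N + 2 * N + 6)) := by
      have h2 : p (Fintype.card V) ≤ p N := hp' hN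
      have h3 := Nat.mul_le_mul_right (p N + 2 * N + 6) (jcx_one k (Fintype.card V))
      have h4 : lvs k (Fintype.card V) * (p N + 2 * N + 6) ≤
          q * (lvs k (Fintype.card V) * (p N + 2 * N + 6)) :=
        Nat.le_mul_of_pos_left _ hq1
      omega
    exact ⟨XC_mono _ _ _ (hB V G h).1 h1, XC_mono _ _ _ (hB V G h).2 h1⟩
  | compl s V G h ih =>
    intro hN
    obtain ⟨h1, h2⟩ := ih hN
    rw [compl_compl] at h2
    exact ⟨h2, h1⟩
  | join s V G S l hp hj h1 h2 hA hB₂ ihA ihB =>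
    intro hN
    obtain ⟨q, hq, hq1, -⟩ := jcx_q s
    rw [hq] at ihA ihB ⊢
    have hcard : S.card + Sᶜ.card = Fintype.card V := Finset.card_add_card_compl S
    have hcA : Fintype.card ({v // v ∈ S} ⊕ Fin k) = S.card + k := by
      rw [Fintype.card_sum, Fintype.card_coe, Fintype.card_fin]
    have hcB : Fintype.card ({v // v ∈ Sᶜ} ⊕ Fin k) = Sᶜ.card + k := by
      rw [Fintype.card_sum, Fintype.card_coe, Fintype.card_fin]
    obtain ⟨hA1, hA2⟩ := ihA (by omega)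
    obtain ⟨hB1, hB2⟩ := ihB (by omega)
    rw [hcA] at hA1 hA2
    rw [hcB] at hB1 hB2
    have hnum := jcx_num q k S.card Sᶜ.card N (p N + 2 * N + 6) hq1 h1 h2
      (by omega) (by omega)
    rw [hcard] at hnum
    exact ⟨XC_mono _ _ _ (jxa G hp S l hj _ _ hA1 hB1) (by omega),
      XC_mono _ _ _ (jxb G (wpg G hp) S l hj _ _ hA2 hB2) hnum⟩
  | cut s V G A B hp hd hn hA hB₂ ihA ihB =>
    intro hN
    obtain ⟨q, hq, hq1, hq2⟩ := jcx_q s
    rw [hq] at ihA ihB
    rw [hq2]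
    have hcA : Fintype.card {v // v ∈ Aᶜ} ≤ Fintype.card V := by
      rw [Fintype.card_coe]
      exact Finset.card_le_univ _
    have hcB : Fintype.card {v // v ∈ Bᶜ} ≤ Fintype.card V := by
      rw [Fintype.card_coe]
      exact Finset.card_le_univ _
    obtain ⟨hA1, hA2⟩ := ihA (by omega)
    obtain ⟨hB1, hB2⟩ := ihB (by omega)
    have mA : q * (lvs k (Fintype.card {v // v ∈ Aᶜ}) * (p N + 2 * N + 6)) ≤
        q * (lvs k (Fintype.card V) * (p N + 2 * N + 6)) :=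
      Nat.mul_le_mul_left _ (Nat.mul_le_mul_right _ (lvm k _ _ hcA))
    have mB : q * (lvs k (Fintype.card {v // v ∈ Bᶜ}) * (p N + 2 * N + 6)) ≤
        q * (lvs k (Fintype.card V) * (p N + 2 * N + 6)) :=
      Nat.mul_le_mul_left _ (Nat.mul_le_mul_right _ (lvm k _ _ hcB))
    refine ⟨XC_mono _ _ _ (cta G hp A B hd hn _ _ (XC_mono _ _ _ hA1 mA)
        (XC_mono _ _ _ hB1 mB)) ?_,
      XC_mono _ _ _ (ctb G A B hd hn _ _ (XC_mono _ _ _ hA2 mA) (XC_mono _ _ _ hB2 mB)) ?_⟩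
    · exact jcx_cut q _ _ N (Fintype.card V) _ (jcx_one k _) hN (Or.inl le_rfl) (by omega)
    · exact jcx_cut q _ _ N (Fintype.card V) _ (jcx_one k _) hN (Or.inr (by norm_num)) (by omega)

/-- `lvs k n ≤ 2 n` for `n ≥ 1` -/
theorem lvs_le (k n : ℕ) (hn : 1 ≤ n) : lvs k n ≤ 2 * n := by
  unfold lvs
  omega

/-- the closure theorem -/
theorem jcy (B : (V : Type) → SimpleGraph V → Prop) (p : ℕ → ℕ) (hp : Monotone p)
    (hB : ∀ (V : Type) [Fintype V] [DecidableEq V] (G : SimpleGraph V), B V G →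
      XC (STAB G univ) (p (Fintype.card V)) ∧ XC (STAB Gᶜ univ) (p (Fintype.card V)))
    (k s : ℕ) (V : Type) [Fintype V] [DecidableEq V] (G : SimpleGraph V) (h : JCls B k s V G) :
    XC (STAB G univ) (2 ^ (s + 2) * Fintype.card V *
      (p (Fintype.card V) + 2 * Fintype.card V + 6)) := by
  rcases Nat.eq_zero_or_pos (Fintype.card V) with h0 | h0
  · have hu : (univ : Finset V) = ∅ := by
      rw [← Finset.card_eq_zero, Finset.card_univ]
      exact h0
    rw [hu]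
    exact XC_mono _ _ _ (ba0 G) (Nat.zero_le _)
  · refine XC_mono _ _ _ (jcx B p hp hB k (Fintype.card V) s V G h le_rfl).1 ?_
    have h1 : 2 ^ (s + 1) - 1 ≤ 2 ^ (s + 1) := Nat.sub_le _ _
    have h2 := lvs_le k (Fintype.card V) h0
    calc (2 ^ (s + 1) - 1) * (lvs k (Fintype.card V) *
          (p (Fintype.card V) + 2 * Fintype.card V + 6))
        ≤ 2 ^ (s + 1) * ((2 * Fintype.card V) *
          (p (Fintype.card V) + 2 * Fintype.card V + 6)) :=
          Nat.mul_le_mul h1 (Nat.mul_le_mul_right _ h2)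
      _ = 2 ^ (s + 2) * Fintype.card V * (p (Fintype.card V) + 2 * Fintype.card V + 6) := by
          ring

/-- the perfect graphs which are diamond-free or doubled -/
theorem jba : ∃ c : ℕ, ∀ (V : Type) [Fintype V] [DecidableEq V] (G : SimpleGraph V), Bas V G →
    XC (STAB G univ) ((Fintype.card V + 1) ^ c) ∧ XC (STAB Gᶜ univ) ((Fintype.card V + 1) ^ c) := by
  obtain ⟨e, he, h5⟩ := pbs 5
  obtain ⟨c, hc⟩ := rkt e he
  refine ⟨c + 3 * 1, fun V _ _ G hG => ?_⟩
  have hr : Rank e G 1 Set.univ := by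
    rcases hG.2 with h | h
    · exact hrk 5 e G (h5 V G) 1 _ (dmf G h)
    · exact hrk 5 e G (h5 V G) 1 _ (dbl G h)
  constructor
  · exact hc 1 V G univ hG.1 (by rw [Finset.coe_univ]; exact hr)
  · exact hc 1 V Gᶜ univ (wpg G hG.1) (by rw [Finset.coe_univ]; exact rcp e G 1 _ hr)

/-- the classes over the basic graphs -/
theorem jcz : ∃ c : ℕ, ∀ (k s n : ℕ) (G : SimpleGraph (Fin n)), JCls Bas k s (Fin n) G →
    XC (STAB G univ) (2 ^ s * (n + 1) ^ c) := by
  obtain ⟨c, hc⟩ := jba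
  refine ⟨c + 6, fun k s n G h => ?_⟩
  have hm : Monotone fun m : ℕ => (m + 1) ^ c := fun a b hab =>
    Nat.pow_le_pow_left (Nat.add_le_add_right hab 1) c
  have h1 := jcy Bas (fun m => (m + 1) ^ c) hm hc k s (Fin n) G h
  rw [Fintype.card_fin] at h1
  refine XC_mono _ _ _ h1 ?_
  have h2 : 1 ≤ (n + 1) ^ c := Nat.one_le_pow _ _ (by omega)
  have h3 : 4 * n * ((n + 1) ^ c + 2 * n + 6) ≤ (n + 1) ^ (c + 6) := by
    rw [pow_add]
    obtain ⟨A, hA⟩ : ∃ A : ℕ, A = (n + 1) ^ c := ⟨_, rfl⟩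
    rw [← hA] at h2 ⊢
    calc 4 * n * (A + 2 * n + 6) ≤ 4 * n * (A * (2 * n + 7)) := by
          refine Nat.mul_le_mul_left _ ?_
          nlinarith [Nat.mul_le_mul_right (2 * n + 6) h2]
      _ = A * (4 * n * (2 * n + 7)) := by ring
      _ ≤ A * (n + 1) ^ 6 := by
          refine Nat.mul_le_mul_left _ ?_
          rcases Nat.eq_zero_or_pos n with h0 | h0
          · subst h0
            norm_num
          · obtain ⟨m, rfl⟩ : ∃ m, n = m + 1 := ⟨n - 1, by omega⟩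
            have h4 : (m + 1 + 1) ^ 6 = 4 * (m + 1) * (2 * (m + 1) + 7) +
              (28 + 148 * m + 232 * m ^ 2 + 160 * m ^ 3 + 60 * m ^ 4 + 12 * m ^ 5 + m ^ 6) := by
              ring
            rw [h4]
            exact Nat.le_add_right _ _
  calc 2 ^ (s + 2) * n * ((n + 1) ^ c + 2 * n + 6)
      = 2 ^ s * (4 * n * ((n + 1) ^ c + 2 * n + 6)) := by ring
    _ ≤ 2 ^ s * (n + 1) ^ (c + 6) := Nat.mul_le_mul_left _ h3

end Pool.Agent.Xbh
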