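import Pool.Agent.Xbh.SCls
import Pool.Agent.Xbh.Two

set_option autoImplicit false

/-!
# The potential of the closure theorem for the classes `SCls`
-/

namespace Pool.Agent.Xbh

open Finset

/-- the number of the vertices of `X` with the label `j` -/
def lbc {V : Type} {k : ℕ} (X : Finset V) (l : V → Option (Fin k)) (j : Fin k) : ℕ :=
  (X.filter fun v => l v = some j).card

/-- the number of leaves for 2-joins -/
def nnn (m : ℕ) : ℕ := max 1 (m - 4)

/-- the potential -/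
noncomputable def pot (V : Type) [Fintype V] (G : SimpleGraph V) : ℕ :=
  nnn (Fintype.card V) * ((prs G univ + 1) * (prs Gᶜ univ + 1))

-- BEGIN pto
/-- PROOF. The pairs of `C ×ˢ C` are the pairs adjacent in `G`, those adjacent in `Gᶜ` and the `C.card` pairs `(v, v)`
(`Finset.card_filter_add_card_filter_not` twice, `Finset.card_product`, the diagonal `C.diag`). -/
theorem pto {V : Type} (G : SimpleGraph V) (C : Finset V) :
    prs G C + prs Gᶜ C + C.card = C.card * C.card := by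
  classical
  have e1 : prs G C = ((C ×ˢ C).filter fun p => G.Adj p.1 p.2).card := by
    unfold prs
    congr
  have e2 : prs Gᶜ C = ((C ×ˢ C).filter fun p => ¬ G.Adj p.1 p.2 ∧ ¬ p.1 = p.2).card := by
    unfold prs
    refine congrArg Finset.card (Finset.ext fun p => ?_)
    simp only [Finset.mem_filter, SimpleGraph.compl_adj]
    exact ⟨fun h => ⟨h.1, h.2.2, h.2.1⟩, fun h => ⟨h.1, h.2.2, h.2.1⟩⟩
  have e3 : C.card = ((C ×ˢ C).filter fun p => ¬ G.Adj p.1 p.2 ∧ p.1 = p.2).card := by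
    symm
    refine Finset.card_bij (fun p _ => p.1) (fun p hp => ?_) (fun p hp r hr h => ?_)
      (fun v hv => ?_)
    · exact (Finset.mem_product.1 (Finset.mem_filter.1 hp).1).1
    · exact Prod.ext h (by rw [← (Finset.mem_filter.1 hp).2.2, ← (Finset.mem_filter.1 hr).2.2]; exact h)
    · exact ⟨(v, v), Finset.mem_filter.2 ⟨Finset.mem_product.2 ⟨hv, hv⟩, G.irrefl, rfl⟩, rfl⟩
  have h1 := Finset.card_filter_add_card_filter_not (s := C ×ˢ C)
    (fun p : V × V => G.Adj p.1 p.2)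
  have h2 := Finset.card_filter_add_card_filter_not
    (s := (C ×ˢ C).filter fun p => ¬ G.Adj p.1 p.2) (fun p : V × V => p.1 = p.2)
  rw [Finset.filter_filter, Finset.filter_filter] at h2
  rw [Finset.card_product] at h1
  rw [← h1, ← h2, e1, e2, ← e3]
  ring
-- END pto

-- BEGIN pmn
/-- PROOF. `Finset.card_le_card`, `filter_subset_filter`, `product_subset_product`. -/
theorem pmn {V : Type} (G : SimpleGraph V) (C D : Finset V) (h : C ⊆ D) : prs G C ≤ prs G D := by
  classical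
  unfold prs
  exact Finset.card_le_card (Finset.filter_subset_filter _ (Finset.product_subset_product h h))
-- END pmn

-- BEGIN pcm
/-- PROOF. The map `(a, b) ↦ (a.1, b.1)` is a bijection (`Finset.card_bij` or `card_map`). -/
theorem pcm {V : Type} (G : SimpleGraph V) (X : Finset V) :
    prs (G.comap (Subtype.val : {v // v ∈ X} → V)) univ = prs G X := by
  classical
  unfold prs
  refine Finset.card_bij (fun p _ => (p.1.1, p.2.1)) (fun p hp => ?_) (fun p _ q _ h => ?_)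
    (fun p hp => ?_)
  · have h1 := (Finset.mem_filter.1 hp).2
    exact Finset.mem_filter.2 ⟨Finset.mem_product.2 ⟨p.1.2, p.2.2⟩, h1⟩
  · have h1 : p.1.1 = q.1.1 := congrArg Prod.fst h
    have h2 : p.2.1 = q.2.1 := congrArg Prod.snd h
    exact Prod.ext (Subtype.ext h1) (Subtype.ext h2)
  · obtain ⟨h1, h2⟩ := Finset.mem_filter.1 hp
    obtain ⟨h3, h4⟩ := Finset.mem_product.1 h1
    exact ⟨(⟨p.1, h3⟩, ⟨p.2, h4⟩), Finset.mem_filter.2
      ⟨Finset.mem_product.2 ⟨Finset.mem_univ _, Finset.mem_univ _⟩, h2⟩, rfl⟩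
-- END pcm

-- BEGIN pcc
/-- PROOF. `pto` for both graphs and `pcm`, `Fintype.card_coe`; or as `pcm` (two vertices of the subtype are different if and only
if their values are). -/
theorem pcc {V : Type} (G : SimpleGraph V) (X : Finset V) :
    prs (G.comap (Subtype.val : {v // v ∈ X} → V))ᶜ univ = prs Gᶜ X := by
  unfold prs
  refine Finset.card_bij (fun p _ => (p.1.1, p.2.1)) ?_ ?_ ?_
  · rintro ⟨a, b⟩ h
    simp only [mem_filter, mem_product, mem_univ, true_and, SimpleGraph.compl_adj, SimpleGraph.comap_adj] at h ⊢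
    exact ⟨⟨a.2, b.2⟩, fun e => h.1 (Subtype.ext e), h.2⟩
  · rintro ⟨a, b⟩ _ ⟨c, d⟩ _ h
    simp only [Prod.mk.injEq] at h
    exact Prod.ext (Subtype.ext h.1) (Subtype.ext h.2)
  · rintro ⟨a, b⟩ h
    simp only [mem_filter, mem_product, SimpleGraph.compl_adj] at h
    refine ⟨(⟨a, h.1.1⟩, ⟨b, h.1.2⟩), ?_, rfl⟩
    simp only [mem_filter, mem_product, mem_univ, true_and, SimpleGraph.compl_adj, SimpleGraph.comap_adj]
    exact ⟨fun e => h.2.1 (congrArg Subtype.val e), h.2.2⟩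
-- END pcc

-- BEGIN pct
/-- PROOF. With `C = (A ∪ B)ᶜ` the pairs of `Aᶜ ×ˢ Aᶜ` and of `Bᶜ ×ˢ Bᶜ` have the intersection `C ×ˢ C`, and their union
misses exactly `A ×ˢ B` and `B ×ˢ A`, all of whose pairs are adjacent in `Gᶜ` (`hn`, `hd`): `Finset.card_union_add_card_inter`. -/
theorem pct {V : Type} [Fintype V] [DecidableEq V] (G : SimpleGraph V) (A B : Finset V)
    (hd : Disjoint A B) (hn : ∀ a ∈ A, ∀ b ∈ B, ¬ G.Adj a b) :
    prs Gᶜ Aᶜ + prs Gᶜ Bᶜ + 2 * (A.card * B.card) = prs Gᶜ univ + prs Gᶜ (A ∪ B)ᶜ := by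
  classical
  have hne : ∀ a ∈ A, ∀ b ∈ B, a ≠ b := fun a ha b hb h => 
    (Finset.disjoint_left.mp hd ha) (h ▸ hb)
  have e1 : (A ×ˢ B ∪ B ×ˢ A).card = 2 * (A.card * B.card) := by
    rw [Finset.card_union_of_disjoint, Finset.card_product, Finset.card_product]
    · ring
    · rw [Finset.disjoint_left]
      rintro ⟨a, b⟩ h1 h2
      rw [Finset.mem_product] at h1 h2
      exact (Finset.disjoint_left.mp hd h1.1) h2.1
  have e2 : prs Gᶜ Aᶜ + prs Gᶜ Bᶜ =
      (((Aᶜ ×ˢ Aᶜ) ∪ (Bᶜ ×ˢ Bᶜ)).filter fun p => Gᶜ.Adj p.1 p.2).card + prs Gᶜ (A ∪ B)ᶜ := by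
    unfold prs
    rw [← Finset.card_union_add_card_inter, ← Finset.filter_union, ← Finset.filter_inter_distrib]
    have ei : ((Aᶜ ×ˢ Aᶜ) ∩ (Bᶜ ×ˢ Bᶜ) : Finset (V × V)) = (A ∪ B)ᶜ ×ˢ (A ∪ B)ᶜ := by
      ext ⟨a, b⟩
      simp only [Finset.mem_inter, Finset.mem_product, Finset.mem_compl, Finset.mem_union]
      tauto
    rw [ei]
    congr!
  have e3 : prs Gᶜ univ =
      (((Aᶜ ×ˢ Aᶜ) ∪ (Bᶜ ×ˢ Bᶜ)).filter fun p => Gᶜ.Adj p.1 p.2).card +
        (A ×ˢ B ∪ B ×ˢ A).card := by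
    unfold prs
    rw [← Finset.card_union_of_disjoint]
    · congr 1
      ext ⟨a, b⟩
      simp only [Finset.mem_filter, Finset.mem_product, Finset.mem_compl, Finset.mem_union,
        Finset.mem_univ, true_and, SimpleGraph.compl_adj]
      constructor
      · intro h
        by_cases h1 : a ∈ A <;> by_cases h2 : b ∈ A <;> by_cases h3 : a ∈ B <;> by_cases h4 : b ∈ B
        all_goals first
          | (exfalso; exact Finset.disjoint_left.mp hd h1 h3)
          | (exfalso; exact Finset.disjoint_left.mp hd h2 h4)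
          | tauto
      · rintro (h | h | h)
        · exact h.2
        · exact ⟨hne a h.1 b h.2, hn a h.1 b h.2⟩
        · exact ⟨(hne b h.2 a h.1).symm, fun hh => hn b h.2 a h.1 hh.symm⟩
    · rw [Finset.disjoint_left]
      rintro ⟨a, b⟩ h1 h2
      simp only [Finset.mem_filter, Finset.mem_product, Finset.mem_compl, Finset.mem_union] at h1 h2
      tauto
  rw [e1] at e3
  omega
-- END pct

-- BEGIN pbk
open Classical in
private theorem pbk_sum {V : Type} (G : SimpleGraph V) (C : Finset V) :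
    prs G C = ∑ a ∈ C, ∑ b ∈ C, if G.Adj a b then 1 else 0 := by
  unfold prs
  rw [Finset.card_filter, Finset.sum_product]

private theorem pbk_lbc {V : Type} {k : ℕ} (X : Finset V) (l : V → Option (Fin k)) (j : Fin k) :
    lbc X l j = ∑ u ∈ X, if l u = some j then 1 else 0 := by
  unfold lbc
  rw [Finset.card_filter]

/-- PROOF. The adjacent pairs of the block: those inside `X`, the pairs `(u, j)` and `(j, u)` with `l u = some j`; none inside `Fin k`.
(Write `prs` as a double sum of `if` over `univ`, `Fintype.sum_sum_type`; or with `Finset.card` of a disjoint union of four images.) -/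
theorem pbk {V : Type} [Fintype V] [DecidableEq V] {k : ℕ} (G : SimpleGraph V) (X : Finset V)
    (l : V → Option (Fin k)) : prs (Blk G X l) univ = prs G X + 2 * ∑ j, lbc X l j := by
  classical
  have h1 : ∑ u : {v // v ∈ X}, ∑ w : {v // v ∈ X},
      (if (Blk G X l).Adj (Sum.inl u) (Sum.inl w) then 1 else 0) = prs G X := by
    rw [pbk_sum, ← Finset.sum_coe_sort X]
    refine Finset.sum_congr rfl fun u _ => ?_
    rw [← Finset.sum_coe_sort X]
    rfl
  have h2 : ∑ u : {v // v ∈ X}, ∑ j : Fin k,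
      (if (Blk G X l).Adj (Sum.inl u) (Sum.inr j) then 1 else 0) = ∑ j, lbc X l j := by
    rw [Finset.sum_comm]
    refine Finset.sum_congr rfl fun j _ => ?_
    rw [pbk_lbc, ← Finset.sum_coe_sort X]
    refine Finset.sum_congr rfl fun u _ => if_congr Iff.rfl rfl rfl
  have h3 : ∑ j : Fin k, ∑ u : {v // v ∈ X},
      (if (Blk G X l).Adj (Sum.inr j) (Sum.inl u) then 1 else 0) = ∑ j, lbc X l j := by
    refine Finset.sum_congr rfl fun j _ => ?_
    rw [pbk_lbc, ← Finset.sum_coe_sort X]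
    refine Finset.sum_congr rfl fun u _ => if_congr Iff.rfl rfl rfl
  have h4 : ∑ i : Fin k, ∑ j : Fin k,
      (if (Blk G X l).Adj (Sum.inr i) (Sum.inr j) then 1 else 0) = 0 := by
    refine Finset.sum_eq_zero fun i _ => Finset.sum_eq_zero fun j _ => if_neg fun h => h
  rw [pbk_sum, Fintype.sum_sum_type]
  simp only [Fintype.sum_sum_type]
  rw [Finset.sum_add_distrib, Finset.sum_add_distrib, h1, h2, h3, h4]
  ring
-- END pbk

-- BEGIN pgj
open Classical in
private theorem pgj_sum {V : Type} (G : SimpleGraph V) (C : Finset V) :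
    prs G C = ∑ a ∈ C, ∑ b ∈ C, (if G.Adj a b then 1 else 0 : ℕ) := by
  unfold prs
  rw [Finset.card_filter, Finset.sum_product]

open Classical in
private theorem pgj_key {V : Type} [Fintype V] [DecidableEq V] {k : ℕ} (G : SimpleGraph V)
    (X : Finset V) (l : V → Option (Fin k)) (hj : KJn G X l) {a b : V} (ha : a ∈ X)
    (hb : b ∈ Xᶜ) : (if G.Adj a b then 1 else 0 : ℕ) =
      ∑ j, (if l a = some j then 1 else 0) * (if l b = some j then 1 else 0) := by
  by_cases h : G.Adj a b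
  · obtain ⟨i, h1, h2⟩ := (hj a ha b (Finset.mem_compl.1 hb)).1 h
    rw [if_pos h, Finset.sum_eq_single i]
    · rw [if_pos h1, if_pos h2]
    · intro j _ hji
      have h3 : ¬ l a = some j := by
        rw [h1]
        intro e
        exact hji (Option.some.inj e).symm
      rw [if_neg h3, zero_mul]
    · intro h3
      exact absurd (Finset.mem_univ i) h3
  · rw [if_neg h]
    symm
    refine Finset.sum_eq_zero fun j _ => ?_
    by_cases h1 : l a = some j
    · by_cases h2 : l b = some j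
      · exact absurd ((hj a ha b (Finset.mem_compl.1 hb)).2 ⟨j, h1, h2⟩) h
      · rw [if_neg h2, mul_zero]
    · rw [if_neg h1, zero_mul]

open Classical in
private theorem pgj_cross {V : Type} [Fintype V] [DecidableEq V] {k : ℕ} (G : SimpleGraph V)
    (X : Finset V) (l : V → Option (Fin k)) (hj : KJn G X l) :
    ∑ a ∈ X, ∑ b ∈ Xᶜ, (if G.Adj a b then 1 else 0 : ℕ) = ∑ j, lbc X l j * lbc Xᶜ l j := by
  have h : ∀ j, lbc X l j * lbc Xᶜ l j =
      ∑ a ∈ X, ∑ b ∈ Xᶜ, (if l a = some j then 1 else 0) * (if l b = some j then 1 else 0) := by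
    intro j
    unfold lbc
    rw [Finset.card_filter, Finset.card_filter, Finset.sum_mul_sum]
  calc ∑ a ∈ X, ∑ b ∈ Xᶜ, (if G.Adj a b then 1 else 0 : ℕ)
      = ∑ a ∈ X, ∑ b ∈ Xᶜ, ∑ j,
          (if l a = some j then 1 else 0) * (if l b = some j then 1 else 0) :=
        Finset.sum_congr rfl fun a ha => Finset.sum_congr rfl fun b hb =>
          pgj_key G X l hj ha hb
    _ = ∑ a ∈ X, ∑ j, ∑ b ∈ Xᶜ,
          (if l a = some j then 1 else 0) * (if l b = some j then 1 else 0) :=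
        Finset.sum_congr rfl fun a _ => Finset.sum_comm
    _ = ∑ j, ∑ a ∈ X, ∑ b ∈ Xᶜ,
          (if l a = some j then 1 else 0) * (if l b = some j then 1 else 0) := Finset.sum_comm
    _ = ∑ j, lbc X l j * lbc Xᶜ l j := Finset.sum_congr rfl fun j _ => (h j).symm

/-- PROOF. The adjacent pairs of `V`: inside `X`, inside `Xᶜ`, and across, `2` times the number of the pairs `(u, w)` in `X ×ˢ Xᶜ` with
the same label (`hj`), the disjoint union over `j` of the products of the sets with label `j`. -/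
theorem pgj {V : Type} [Fintype V] [DecidableEq V] {k : ℕ} (G : SimpleGraph V) (X : Finset V)
    (l : V → Option (Fin k)) (hj : KJn G X l) :
    prs G univ = prs G X + prs G Xᶜ + 2 * ∑ j, lbc X l j * lbc Xᶜ l j := by
  rw [pgj_sum G univ, pgj_sum G X, pgj_sum G Xᶜ]
  rw [← pgj_cross G X l hj, ← Finset.sum_add_sum_compl X]
  have hA : ∀ C : Finset V, (∑ a ∈ C, ∑ b, (@ite ℕ (G.Adj a b) (Classical.propDecidable _) 1 0)) =
      (∑ a ∈ C, ∑ b ∈ X, (@ite ℕ (G.Adj a b) (Classical.propDecidable _) 1 0)) +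
      ∑ a ∈ C, ∑ b ∈ Xᶜ, (@ite ℕ (G.Adj a b) (Classical.propDecidable _) 1 0) := by
    intro C
    rw [← Finset.sum_add_distrib]
    exact Finset.sum_congr rfl fun a _ => (Finset.sum_add_sum_compl X _).symm
  have hD : (∑ a ∈ Xᶜ, ∑ b ∈ X, (@ite ℕ (G.Adj a b) (Classical.propDecidable _) 1 0)) =
      ∑ a ∈ X, ∑ b ∈ Xᶜ, (@ite ℕ (G.Adj a b) (Classical.propDecidable _) 1 0) := by
    rw [Finset.sum_comm]
    refine Finset.sum_congr rfl fun a _ => Finset.sum_congr rfl fun b _ => ?_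
    by_cases h : G.Adj a b
    · rw [if_pos h, if_pos h.symm]
    · rw [if_neg h, if_neg fun h' => h h'.symm]
  rw [hA X, hA Xᶜ, hD]
  ring
-- END pgj

-- BEGIN pcr
/-- PROOF. The right hand side counts the pairs `(u, w)` in `X ×ˢ Xᶜ` which are adjacent, the pair of `hn` is not. -/
theorem pcr {V : Type} [Fintype V] [DecidableEq V] {k : ℕ} (G : SimpleGraph V) (X : Finset V)
    (l : V → Option (Fin k)) (hj : KJn G X l) (hn : ∃ u ∈ X, ∃ w ∈ Xᶜ, ¬ G.Adj u w) :
    ∑ j, lbc X l j * lbc Xᶜ l j < X.card * Xᶜ.card := by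
  obtain ⟨u, hu, w, hw, huw⟩ := hn
  have h1 : ∑ j, lbc X l j * lbc Xᶜ l j =
      (univ.biUnion fun j : Fin k =>
        (X.filter fun v => l v = some j) ×ˢ (Xᶜ.filter fun v => l v = some j)).card := by
    rw [card_biUnion]
    · exact Finset.sum_congr rfl fun j _ => (card_product _ _).symm
    · intro i _ j _ hij
      refine Finset.disjoint_left.2 fun p hp hq => ?_
      rw [mem_product, mem_filter, mem_filter] at hp hq
      have h2 : some i = some j := hp.1.2.symm.trans hq.1.2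
      exact hij (Option.some.inj h2)
  rw [h1, ← card_product]
  apply card_lt_card
  rw [Finset.ssubset_iff_of_subset]
  · refine ⟨(u, w), mem_product.2 ⟨hu, hw⟩, fun h => ?_⟩
    rw [mem_biUnion] at h
    obtain ⟨j, _, h⟩ := h
    rw [mem_product, mem_filter, mem_filter] at h
    exact huw ((hj u hu w (mem_compl.1 hw)).2 ⟨j, h.1.2, h.2.2⟩)
  · intro p hp
    rw [mem_biUnion] at hp
    obtain ⟨j, _, h⟩ := hp
    rw [mem_product, mem_filter, mem_filter] at h
    exact mem_product.2 ⟨h.1.1, h.2.1⟩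
-- END pcr

-- BEGIN lbs
/-- PROOF. The sets of the vertices of `X` with label `j` are disjoint (`Finset.card_biUnion`). -/
theorem lbs {V : Type} {k : ℕ} (X : Finset V) (l : V → Option (Fin k)) :
    ∑ j, lbc X l j ≤ X.card := by
  classical
  unfold lbc
  rw [← Finset.card_biUnion]
  · exact Finset.card_le_card (Finset.biUnion_subset.2 fun j _ => Finset.filter_subset _ _)
  · intro i _ j _ hij
    refine Finset.disjoint_left.2 ?_
    intro v hv hw
    rw [Finset.mem_filter] at hv hw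
    exact hij (Option.some.inj (hv.2.symm.trans hw.2))
-- END lbs

-- BEGIN nja
/-- PROOF. `(x - a) + (y - b) + 1 ≤ x y - a b`: `x y - a b - (x - a) - (y - b) = (x - 1) (y - 1) - (a - 1) (b - 1) ≥ 1`. Substitute
`x = a + x'`, `y = b + y'`, `a = a' + 1`, `b = b' + 1`. -/
theorem nja (x y a b : ℕ) (hx : 2 ≤ x) (hy : 2 ≤ y) (ha : 1 ≤ a) (hb : 1 ≤ b) (hax : a ≤ x)
    (hby : b ≤ y) (h : a * b < x * y) : x + y + a * b + 1 ≤ x * y + a + b := by
  obtain ⟨a', rfl⟩ : ∃ a', a = a' + 1 := ⟨a - 1, by omega⟩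
  obtain ⟨b', rfl⟩ : ∃ b', b = b' + 1 := ⟨b - 1, by omega⟩
  obtain ⟨x', rfl⟩ : ∃ x', x = a' + 1 + x' := ⟨x - (a' + 1), by omega⟩
  obtain ⟨y', rfl⟩ : ∃ y', y = b' + 1 + y' := ⟨y - (b' + 1), by omega⟩
  rcases Nat.eq_zero_or_pos x' with h0 | h0
  · subst h0
    rcases Nat.eq_zero_or_pos y' with h1 | h1
    · subst h1
      simp at h
    · have : 1 ≤ a' := by omega
      nlinarith [Nat.mul_le_mul this h1]
  · rcases Nat.eq_zero_or_pos y' with h1 | h1
    · subst h1
      have : 1 ≤ b' := by omega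
      nlinarith [Nat.mul_le_mul h0 this]
    · nlinarith [Nat.mul_le_mul h0 h1, Nat.zero_le (a' * y'), Nat.zero_le (x' * b')]
-- END nja

-- BEGIN njb
/-- PROOF. `x y - a b - c d ≥ b (x - a) + d (x - c) + x (y - b - d)`, and `y ≥ 3` gives `b ≥ 2` or `d ≥ 2` or `b + d < y`. -/
theorem njb (x y a b c d : ℕ) (hy : 3 ≤ y) (ha : 1 ≤ a) (hb : 1 ≤ b) (hc : 1 ≤ c) (hd : 1 ≤ d)
    (hac : a + c ≤ x) (hbd : b + d ≤ y) : 2 * x + 1 + (a * b + c * d) ≤ x * y + (a + c) := by
  obtain ⟨p, rfl⟩ := Nat.exists_eq_add_of_le hac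
  obtain ⟨q, rfl⟩ := Nat.exists_eq_add_of_le hbd
  obtain ⟨a', rfl⟩ := Nat.exists_eq_add_of_le ha
  obtain ⟨b', rfl⟩ := Nat.exists_eq_add_of_le hb
  obtain ⟨c', rfl⟩ := Nat.exists_eq_add_of_le hc
  obtain ⟨d', rfl⟩ := Nat.exists_eq_add_of_le hd
  have h1 : (1 + a' + (1 + c') + p) * (1 + b' + (1 + d') + q) + (1 + a' + (1 + c')) =
      2 * (1 + a' + (1 + c') + p) + ((1 + a') * (1 + b') + (1 + c') * (1 + d')) +
        (d' + q + (b' + q) + (a' * (d' + q) + c' * (b' + q) + p * (b' + d' + q))) := by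
    ring
  rw [h1]
  have h2 : 1 ≤ d' + q + (b' + q) := by omega
  have h3 : 0 ≤ a' * (d' + q) + c' * (b' + q) + p * (b' + d' + q) := Nat.zero_le _
  omega
-- END njb

-- BEGIN ptm
/-- monotone. PROOF. `unfold nnn`, `Nat.mul_le_mul`, `omega`. -/
theorem ptm (n m e f e' f' : ℕ) (hn : n ≤ m) (he : e ≤ e') (hf : f ≤ f') :
    nnn n * ((e + 1) * (f + 1)) ≤ nnn m * ((e' + 1) * (f' + 1)) := by
  refine Nat.mul_le_mul ?_ (Nat.mul_le_mul (Nat.succ_le_succ he) (Nat.succ_le_succ hf))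
  unfold nnn
  omega
-- END ptm

-- BEGIN pta
/-- additive in the last factor. PROOF. `ptm` idea and `(f₁ + 1) + (f₂ + 1) ≤ f + 1`. -/
theorem pta (n₁ n₂ n e₁ e₂ e f₁ f₂ f : ℕ) (h1 : n₁ ≤ n) (h2 : n₂ ≤ n) (h3 : e₁ ≤ e) (h4 : e₂ ≤ e)
    (h5 : f₁ + f₂ + 1 ≤ f) : nnn n₁ * ((e₁ + 1) * (f₁ + 1)) + nnn n₂ * ((e₂ + 1) * (f₂ + 1)) ≤
      nnn n * ((e + 1) * (f + 1)) := by
  have a1 : nnn n₁ ≤ nnn n := by unfold nnn; omega
  have a2 : nnn n₂ ≤ nnn n := by unfold nnn; omega
  calc nnn n₁ * ((e₁ + 1) * (f₁ + 1)) + nnn n₂ * ((e₂ + 1) * (f₂ + 1))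
      ≤ nnn n * ((e + 1) * (f₁ + 1)) + nnn n * ((e + 1) * (f₂ + 1)) := by gcongr
    _ = nnn n * ((e + 1) * ((f₁ + 1) + (f₂ + 1))) := by ring
    _ ≤ nnn n * ((e + 1) * (f + 1)) :=
        Nat.mul_le_mul_left _ (Nat.mul_le_mul_left _ (by omega))
-- END pta

-- BEGIN ptb
/-- additive in the first factor. PROOF. `nnn (x + 2) + nnn (y + 2) = x - 2 + (y - 2) = nnn (x + y)`. -/
theorem ptb (x y e₁ e₂ e f₁ f₂ f : ℕ) (hx : 3 ≤ x) (hy : 3 ≤ y) (h1 : e₁ ≤ e) (h2 : e₂ ≤ e)
    (h3 : f₁ ≤ f) (h4 : f₂ ≤ f) :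
    nnn (x + 2) * ((e₁ + 1) * (f₁ + 1)) + nnn (y + 2) * ((e₂ + 1) * (f₂ + 1)) ≤
      nnn (x + y) * ((e + 1) * (f + 1)) := by
  have h5 : nnn (x + y) = nnn (x + 2) + nnn (y + 2) := by
    unfold nnn
    omega
  rw [h5, Nat.add_mul (nnn (x + 2)) (nnn (y + 2))]
  exact Nat.add_le_add
    (Nat.mul_le_mul le_rfl (Nat.mul_le_mul (Nat.succ_le_succ h1) (Nat.succ_le_succ h3)))
    (Nat.mul_le_mul le_rfl (Nat.mul_le_mul (Nat.succ_le_succ h2) (Nat.succ_le_succ h4)))
-- END ptb

-- BEGIN pjn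
private theorem pjn_blk {V : Type} [Fintype V] [DecidableEq V] {k : ℕ} (G : SimpleGraph V)
    (X : Finset V) (l : V → Option (Fin k)) :
    Fintype.card ({v // v ∈ X} ⊕ Fin k) = X.card + k ∧
    prs (Blk G X l) univ + prs (Blk G X l)ᶜ univ + (X.card + k) = (X.card + k) * (X.card + k) ∧
    prs (Blk G X l) univ = prs G X + 2 * ∑ j, lbc X l j := by
  have hc : Fintype.card ({v // v ∈ X} ⊕ Fin k) = X.card + k := by
    rw [Fintype.card_sum, Fintype.card_coe, Fintype.card_fin]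
  refine ⟨hc, ?_, pbk G X l⟩
  have := pto (Blk G X l) univ
  rw [Finset.card_univ, hc] at this
  exact this

/-- the join. PROOF. Put `x = X.card`, `y = Xᶜ.card`, `x + y = Fintype.card V`; the blocks have `x + k` and `y + k` vertices. `pbk` for `X`
and `Xᶜ`, `pgj`, and `pto` for `univ` of the blocks and of `G`, for `X`, `Xᶜ` express everything by `lbc`. `k = 1`: `nja`
(its hypothesis `a b < x y` is `pcr`) and `pta`; `k = 2`: `njb` twice (also with the sides exchanged) and `ptb` (`Fin.sum_univ_two`). `lbs`;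
`1 ≤ lbc X l j` from `ha`, `1 ≤ lbc Xᶜ l j` from `hb`. -/
theorem pjn {V : Type} [Fintype V] [DecidableEq V] {k : ℕ} (G : SimpleGraph V) (hk : k = 1 ∨ k = 2)
    (X : Finset V) (l : V → Option (Fin k)) (hj : KJn G X l) (h1 : k < X.card) (h2 : k < Xᶜ.card)
    (ha : ∀ j, ∃ u ∈ X, l u = some j) (hb : ∀ j, ∃ w ∈ Xᶜ, l w = some j)
    (hn : ∃ u ∈ X, ∃ w ∈ Xᶜ, ¬ G.Adj u w) :
    pot ({v // v ∈ X} ⊕ Fin k) (Blk G X l) + pot ({v // v ∈ Xᶜ} ⊕ Fin k) (Blk G Xᶜ l) ≤
      pot V G := by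
  obtain ⟨cX, tX, bX⟩ := pjn_blk G X l
  obtain ⟨cY, tY, bY⟩ := pjn_blk G Xᶜ l
  have g0 := pgj G X l hj
  have gX := pto G X
  have gY := pto G Xᶜ
  have gV := pto G univ
  have hcV : X.card + Xᶜ.card = Fintype.card V := Finset.card_add_card_compl X
  rw [Finset.card_univ, ← hcV] at gV
  have hcr := pcr G X l hj hn
  have a1 : ∀ j, 1 ≤ lbc X l j := fun j => by
    obtain ⟨u, hu, hl⟩ := ha j
    exact Finset.card_pos.mpr ⟨u, Finset.mem_filter.mpr ⟨hu, hl⟩⟩
  have b1 : ∀ j, 1 ≤ lbc Xᶜ l j := fun j => by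
    obtain ⟨u, hu, hl⟩ := hb j
    exact Finset.card_pos.mpr ⟨u, Finset.mem_filter.mpr ⟨hu, hl⟩⟩
  have sX := lbs X l
  have sY := lbs Xᶜ l
  unfold pot
  rw [cX, cY, ← hcV]
  generalize prs (Blk G X l) univ = e1 at *
  generalize prs (Blk G X l)ᶜ univ = f1 at *
  generalize prs (Blk G Xᶜ l) univ = e2 at *
  generalize prs (Blk G Xᶜ l)ᶜ univ = f2 at *
  generalize prs G univ = e at *
  generalize prs Gᶜ univ = f at *
  generalize prs G X = p at *
  generalize prs Gᶜ X = p' at *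
  generalize prs G Xᶜ = q at *
  generalize prs Gᶜ Xᶜ = q' at *
  rcases hk with rfl | rfl
  · rw [Fin.sum_univ_one] at *
    have a0 := a1 0
    have b0 := b1 0
    generalize lbc X l 0 = a at *
    generalize lbc Xᶜ l 0 = b at *
    generalize X.card = x at *
    generalize Xᶜ.card = y at *
    have hn' := nja x y a b h1 h2 a0 b0 sX sY hcr
    have hab : b ≤ a * b := Nat.le_mul_of_pos_left b a0
    have hab' : a ≤ a * b := Nat.le_mul_of_pos_right a b0
    have k1 : (x + 1) * (x + 1) = x * x + 2 * x + 1 := by ring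
    have k2 : (y + 1) * (y + 1) = y * y + 2 * y + 1 := by ring
    have k3 : (x + y) * (x + y) = x * x + 2 * (x * y) + y * y := by ring
    refine pta _ _ _ _ _ _ _ _ _ (by omega) (by omega) (by omega) (by omega) ?_
    rw [k1] at tX
    rw [k2] at tY
    rw [k3] at gV
    omega
  · rw [Fin.sum_univ_two] at *
    have a0 := a1 0
    have b0 := b1 0
    have a01 := a1 1
    have b01 := b1 1
    generalize lbc X l 0 = a at *
    generalize lbc Xᶜ l 0 = b at *
    generalize lbc X l 1 = c at *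
    generalize lbc Xᶜ l 1 = d at *
    generalize X.card = x at *
    generalize Xᶜ.card = y at *
    have n1 := njb x y a b c d h2 a0 b0 a01 b01 sX sY
    have n2 := njb y x b a d c h1 b0 a0 b01 a01 sY sX
    have m1 : a ≤ a * b := Nat.le_mul_of_pos_right a b0
    have m2 : b ≤ a * b := Nat.le_mul_of_pos_left b a0
    have m3 : c ≤ c * d := Nat.le_mul_of_pos_right c b01
    have m4 : d ≤ c * d := Nat.le_mul_of_pos_left d a01
    have k0 : b * a = a * b := mul_comm _ _
    have k0' : d * c = c * d := mul_comm _ _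
    have k0'' : y * x = x * y := mul_comm _ _
    rw [k0, k0', k0''] at n2
    have k1 : (x + 2) * (x + 2) = x * x + 4 * x + 4 := by ring
    have k2 : (y + 2) * (y + 2) = y * y + 4 * y + 4 := by ring
    have k3 : (x + y) * (x + y) = x * x + 2 * (x * y) + y * y := by ring
    rw [k1] at tX
    rw [k2] at tY
    rw [k3] at gV
    exact ptb x y _ _ _ _ _ _ h1 h2 (by omega) (by omega) (by omega) (by omega)
-- END pjn

-- BEGIN pfr
/-- the free cut. PROOF. `pcm`, `pcc`, `pmn`, `pct`, `pta`. -/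
theorem pfr {V : Type} [Fintype V] [DecidableEq V] (G : SimpleGraph V) (A B : Finset V)
    (hd : Disjoint A B) (hn : ∀ a ∈ A, ∀ b ∈ B, ¬ G.Adj a b)
    (hc : prs Gᶜ (A ∪ B)ᶜ < 2 * (A.card * B.card)) :
    pot {v // v ∈ Aᶜ} (G.comap Subtype.val) + pot {v // v ∈ Bᶜ} (G.comap Subtype.val) ≤
      pot V G := by
  have h := pct G A B hd hn
  unfold pot
  rw [pcm G Aᶜ, pcm G Bᶜ, pcc G Aᶜ, pcc G Bᶜ, Fintype.card_coe, Fintype.card_coe]
  refine pta _ _ _ _ _ _ _ _ _ (Finset.card_le_univ _) (Finset.card_le_univ _)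
    (pmn G _ _ (Finset.subset_univ _)) (pmn G _ _ (Finset.subset_univ _)) ?_
  omega
-- END pfr

-- BEGIN pin
/-- induced subgraphs. PROOF. `pcm`, `pcc`, `pmn`, `ptm`. -/
theorem pin {V : Type} [Fintype V] [DecidableEq V] (G : SimpleGraph V) (A : Finset V) :
    pot {v // v ∈ A} (G.comap Subtype.val) ≤ pot V G := by
  unfold pot
  have h1 : prs (G.comap (Subtype.val : {v // v ∈ A} → V)) univ ≤ prs G univ := by
    rw [pcm]
    exact pmn G A univ (subset_univ A)
  have h2 : prs (G.comap (Subtype.val : {v // v ∈ A} → V))ᶜ univ ≤ prs Gᶜ univ := by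
    rw [pcc]
    exact pmn Gᶜ A univ (subset_univ A)
  have h3 : Fintype.card {v // v ∈ A} ≤ Fintype.card V :=
    Fintype.card_le_of_injective _ Subtype.val_injective
  exact ptm _ _ _ _ _ _ h3 h1 h2
-- END pin

-- BEGIN pco
/-- PROOF. `compl_compl`, `mul_comm`. -/
theorem pco {V : Type} [Fintype V] (G : SimpleGraph V) : pot V Gᶜ = pot V G := by
  unfold pot
  rw [compl_compl, Nat.mul_comm (prs Gᶜ univ + 1)]
-- END pco

-- BEGIN ple
/-- PROOF. `pto` for `univ`: the two numbers `e`, `f` have `e + f + n = n * n`, so `4 (e + 1) (f + 1) ≤ (e + f + 2) ^ 2 ≤ (2 n ^ 2) ^ 2` for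
`n ≥ 1` (`n * n - n + 2 ≤ 2 * n * n`), and `nnn n ≤ n`. -/
theorem ple {V : Type} [Fintype V] (G : SimpleGraph V) (h : 1 ≤ Fintype.card V) :
    pot V G ≤ Fintype.card V ^ 5 := by
  have h0 := pto G univ
  rw [Finset.card_univ] at h0
  unfold pot
  generalize prs G univ = e at *
  generalize prs Gᶜ univ = f at *
  generalize Fintype.card V = n at *
  have h1 : nnn n ≤ n := by unfold nnn; omega
  have h2 : e + 1 + (f + 1) ≤ 2 * (n * n) := by nlinarith
  have h3 : 4 * ((e + 1) * (f + 1)) ≤ (2 * (n * n)) ^ 2 := by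
    have : 4 * ((e + 1) * (f + 1)) ≤ (e + 1 + (f + 1)) ^ 2 := by
      have := sq_nonneg (((e : ℤ) + 1) - (f + 1))
      zify
      nlinarith
    exact this.trans (Nat.pow_le_pow_left h2 2)
  have h4 : (e + 1) * (f + 1) ≤ n ^ 4 := by nlinarith
  calc nnn n * ((e + 1) * (f + 1)) ≤ n * n ^ 4 := Nat.mul_le_mul h1 h4
    _ = n ^ 5 := by ring
-- END ple

end Pool.Agent.Xbh
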