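import Mathlib

set_option autoImplicit false

/-!
# Linear pure pairs, modules, prime sets, the rank, bull-free graphs, generalized split graphs
-/

namespace Pool.Agent.Xbh

variable {V : Type}

/-- Linear pure pairs: every finite set `S ⊆ W` with at least two vertices contains two disjoint
sets `A`, `B` with at least `e * |S|` vertices each, such that all vertices of `A` are adjacent to
all vertices of `B`, or none is adjacent to any. -/
def Pairs (e : ℝ) (G : SimpleGraph V) (W : Set V) : Prop :=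
  ∀ S : Finset V, (∀ v ∈ S, v ∈ W) → 2 ≤ S.card →
    ∃ A B : Finset V, A ⊆ S ∧ B ⊆ S ∧ Disjoint A B ∧ e * S.card ≤ A.card ∧ e * S.card ≤ B.card ∧
      ((∀ a ∈ A, ∀ b ∈ B, G.Adj a b) ∨ ∀ a ∈ A, ∀ b ∈ B, ¬ G.Adj a b)

/-- `M` is a module of the subgraph of `G` induced on `S`: every vertex of `S` outside `M` is
adjacent to all vertices of `M` or to none. -/
def Mdl (G : SimpleGraph V) (S M : Set V) : Prop :=
  M ⊆ S ∧ ∀ x ∈ S, x ∉ M → (∀ u ∈ M, G.Adj x u) ∨ ∀ u ∈ M, ¬ G.Adj x u

/-- the subgraph of `G` induced on `S` is prime: all its modules have at most one vertex or are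
equal to `S` -/
def Prim (G : SimpleGraph V) (S : Set V) : Prop :=
  ∀ M : Set V, Mdl G S M → M.Subsingleton ∨ M = S

/-- `Rank e G r W`: the set `W` has rank at most `r`. Rank `0`: `W` has linear pure pairs (with the
constant `e`). Rank at most `r + 1`: every nonempty set `S ⊆ W` whose induced subgraph is prime has
a vertex `v` such that the set of all neighbours of `v` in `S`, or the set of all other vertices
of `S` not adjacent to `v`, has rank at most `r`. -/
def Rank (e : ℝ) (G : SimpleGraph V) : ℕ → Set V → Prop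
  | 0, W => Pairs e G W
  | r + 1, W => ∀ S : Set V, S ⊆ W → S.Nonempty → Prim G S →
      ∃ v ∈ S, Rank e G r {u | u ∈ S ∧ G.Adj v u} ∨
        Rank e G r {u | u ∈ S ∧ u ≠ v ∧ ¬ G.Adj v u}

/-- no induced bull (a triangle `b c e` with pendant edges `a b` and `c d`) -/
def BullFree (G : SimpleGraph V) : Prop :=
  ¬ ∃ a b c d e : V, G.Adj a b ∧ G.Adj b c ∧ G.Adj c d ∧ G.Adj b e ∧ G.Adj c e ∧
    ¬ G.Adj a c ∧ ¬ G.Adj a d ∧ ¬ G.Adj a e ∧ ¬ G.Adj b d ∧ ¬ G.Adj d e

/-- the vertices are the union of a clique `A` and a set `B` which induces a disjoint union of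
cliques -/
def Unipolar (G : SimpleGraph V) : Prop :=
  ∃ A B : Set V, (∀ v, v ∈ A ∨ v ∈ B) ∧ (∀ u ∈ A, ∀ v ∈ A, u ≠ v → G.Adj u v) ∧
    ∀ u ∈ B, ∀ v ∈ B, ∀ w ∈ B, G.Adj u v → G.Adj v w → u ≠ w → G.Adj u w

end Pool.Agent.Xbh
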