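import Pool.Agent.Xbh.Rep
import Pool.Agent.Xbh.Poly

set_option autoImplicit false
set_option linter.unusedSectionVars false

namespace Pool.Agent.Xbh

open Finset

variable {V : Type} [Fintype V] [DecidableEq V]

-- BEGIN sti
/-- Valid inequalities. Hint: `convexHull_min` into the convex set of all `x` with these
properties. -/
theorem sti (G : SimpleGraph V) (S : Finset V) (x : V → ℝ) (hx : x ∈ STAB G S) :
    (∀ v, 0 ≤ x v) ∧ (∀ v, v ∉ S → x v = 0) ∧
      ∀ K : Finset V, Clq G K → ∑ v ∈ K, x v ≤ 1 := by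
  let C : Set (V → ℝ) := {x | (∀ v, 0 ≤ x v) ∧ (∀ v, v ∉ S → x v = 0) ∧
      ∀ K : Finset V, Clq G K → ∑ v ∈ K, x v ≤ 1}
  have hC : Convex ℝ C := by
    intro y hy z hz a b ha hb hab
    refine ⟨fun v => ?_, fun v hv => ?_, fun K hK => ?_⟩
    · show 0 ≤ a * y v + b * z v
      exact add_nonneg (mul_nonneg ha (hy.1 v)) (mul_nonneg hb (hz.1 v))
    · show a * y v + b * z v = 0
      rw [hy.2.1 v hv, hz.2.1 v hv]
      ring
    · show ∑ v ∈ K, (a * y v + b * z v) ≤ 1
      rw [Finset.sum_add_distrib, ← Finset.mul_sum, ← Finset.mul_sum]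
      have h1 := mul_le_mul_of_nonneg_left (hy.2.2 K hK) ha
      have h2 := mul_le_mul_of_nonneg_left (hz.2.2 K hK) hb
      linarith
  have hsub : {x : V → ℝ | ∃ s : Finset V, s ⊆ S ∧ Stb G s ∧ x = ind s} ⊆ C := by
    rintro _ ⟨s, hs, hst, rfl⟩
    refine ⟨fun v => ?_, fun v hv => ?_, fun K hK => ?_⟩
    · show 0 ≤ (if v ∈ s then (1:ℝ) else 0)
      split_ifs
      · exact zero_le_one
      · exact le_rfl
    · show (if v ∈ s then (1:ℝ) else 0) = 0
      exact if_neg fun h => hv (hs h)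
    · show ∑ v ∈ K, (if v ∈ s then (1:ℝ) else 0) ≤ 1
      rw [Finset.sum_boole]
      have h1 : (K.filter fun v => v ∈ s).card ≤ 1 := by
        rw [Finset.card_le_one]
        intro u hu w hw
        rw [Finset.mem_filter] at hu hw
        by_contra hne
        exact hst u hu.2 w hw.2 (hK u hu.1 w hw.1 hne)
      exact_mod_cast h1
  exact convexHull_min hsub hC hx
-- END sti

-- BEGIN kil
/-- Hint: `convexHull_min` into the preimage of `STAB G (S \ A)` under the linear map `kill A`
(convex); `kill A (ind s) = ind (s \ A)`. -/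
theorem kil (G : SimpleGraph V) (S A : Finset V) (x : V → ℝ) (hx : x ∈ STAB G S) :
    kill A x ∈ STAB G (S \ A) := by
  let C : Set (V → ℝ) := {x | kill A x ∈ STAB G (S \ A)}
  have hC : Convex ℝ C := by
    intro y hy z hz a b ha hb hab
    have h1 : kill A (a • y + b • z) = a • kill A y + b • kill A z := by
      funext v
      show (if v ∈ A then 0 else a * y v + b * z v) =
        a * (if v ∈ A then 0 else y v) + b * (if v ∈ A then 0 else z v)
      split_ifs
      · ring
      · rfl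
    show kill A (a • y + b • z) ∈ STAB G (S \ A)
    rw [h1]
    exact convex_convexHull ℝ _ hy hz ha hb hab
  have hsub : {x : V → ℝ | ∃ s : Finset V, s ⊆ S ∧ Stb G s ∧ x = ind s} ⊆ C := by
    rintro _ ⟨s, hs, hst, rfl⟩
    refine subset_convexHull ℝ _ ⟨s \ A, Finset.sdiff_subset_sdiff hs (Finset.Subset.refl A), ?_, ?_⟩
    · intro u hu v hv
      exact hst u (Finset.mem_sdiff.1 hu).1 v (Finset.mem_sdiff.1 hv).1
    · funext v
      show (if v ∈ A then (0:ℝ) else if v ∈ s then 1 else 0) = if v ∈ s \ A then 1 else 0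
      by_cases hA : v ∈ A <;> by_cases hv : v ∈ s <;> simp [hA, hv]
  exact convexHull_min hsub hC hx
-- END kil

-- BEGIN sgl
/-- The anticomplete case. Hint: `⊆` is `kil`. `⊇`: `cut`; `0 ≤ x v` from one of the two points
(`A`, `B` disjoint), `x v = 0` off `S`; a clique `K ⊆ S` cannot meet both `A` and `B`; if
`K ∩ A = ∅` the sum of `x` over `K` is that of `kill A x` (`sti`). -/
theorem sgl (G : SimpleGraph V) (hG : Perf G) (S A B : Finset V)
    (hAB : Disjoint A B) (hanti : Anti G A B) :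
    STAB G S = {x : V → ℝ | kill A x ∈ STAB G (S \ A) ∧ kill B x ∈ STAB G (S \ B)} := by
  apply Set.Subset.antisymm
  · intro x hx
    exact ⟨kil G S A x hx, kil G S B x hx⟩
  · rintro x ⟨hA, hB⟩
    obtain ⟨a0, a1, a2⟩ := sti G (S \ A) _ hA
    obtain ⟨b0, b1, b2⟩ := sti G (S \ B) _ hB
    have kA : ∀ v, v ∉ A → kill A x v = x v := fun v hv => if_neg hv
    have kB : ∀ v, v ∉ B → kill B x v = x v := fun v hv => if_neg hv
    have hd : ∀ v, v ∉ A ∨ v ∉ B := by
      intro v
      by_cases h : v ∈ A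
      · right
        exact Finset.disjoint_left.1 hAB h
      · left
        exact h
    refine cut G hG S x ?_ ?_ ?_
    · intro v
      rcases hd v with h | h
      · have := a0 v
        rwa [kA v h] at this
      · have := b0 v
        rwa [kB v h] at this
    · intro v hv
      rcases hd v with h | h
      · have := a1 v (fun h' => hv (Finset.mem_sdiff.1 h').1)
        rwa [kA v h] at this
      · have := b1 v (fun h' => hv (Finset.mem_sdiff.1 h').1)
        rwa [kB v h] at this
    · intro K _ hKc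
      by_cases hKA : ∀ v ∈ K, v ∉ A
      · have e := a2 K hKc
        have e' : ∑ v ∈ K, kill A x v = ∑ v ∈ K, x v :=
          Finset.sum_congr rfl (fun v hv => kA v (hKA v hv))
        rwa [e'] at e
      · push Not at hKA
        obtain ⟨w, hwK, hwA⟩ := hKA
        have hKB : ∀ v ∈ K, v ∉ B := by
          intro v hv hvB
          have hne : w ≠ v := by
            rintro rfl
            exact Finset.disjoint_left.1 hAB hwA hvB
          exact hanti w hwA v hvB (hKc w hwK v hv hne)
        have e := b2 K hKc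
        have e' : ∑ v ∈ K, kill B x v = ∑ v ∈ K, x v :=
          Finset.sum_congr rfl (fun v hv => kB v (hKB v hv))
        rwa [e'] at e
-- END sgl

-- BEGIN sjn
/-- The complete case. Hint: a stable set cannot meet both `A` and `B` (for `a ∈ A`, `b ∈ B` we
have `a ≠ b` and `¬ Gᶜ.Adj a b`, so `G.Adj a b`), so each generator is in `STAB G (S \ A)` or
`STAB G (S \ B)`; `convexHull_min`, `convexHull_mono`. -/
theorem sjn (G : SimpleGraph V) (S A B : Finset V)
    (hAB : Disjoint A B) (hcomp : Anti Gᶜ A B) :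
    STAB G S = convexHull ℝ (STAB G (S \ A) ∪ STAB G (S \ B)) := by
  apply Set.Subset.antisymm
  · refine convexHull_min ?_ (convex_convexHull ℝ _)
    rintro _ ⟨s, hs, hst, rfl⟩
    apply subset_convexHull ℝ _
    by_cases hA : ∃ a ∈ s, a ∈ A
    · obtain ⟨a, has, haA⟩ := hA
      right
      refine subset_convexHull ℝ _ ⟨s, fun v hv => Finset.mem_sdiff.2 ⟨hs hv, fun hvB => ?_⟩, hst, rfl⟩
      have hne : a ≠ v := fun h => (Finset.disjoint_left.1 hAB haA) (h ▸ hvB)
      have h1 := hcomp a haA v hvB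
      rw [SimpleGraph.compl_adj] at h1
      have h2 : G.Adj a v := by
        by_contra h3
        exact h1 ⟨hne, h3⟩
      exact hst a has v hv h2
    · left
      exact subset_convexHull ℝ _ ⟨s, fun v hv => Finset.mem_sdiff.2 ⟨hs hv, fun hvA => hA ⟨v, hv, hvA⟩⟩, hst, rfl⟩
  · refine convexHull_min ?_ (convex_convexHull ℝ _)
    have hmono : ∀ T : Finset V, STAB G (S \ T) ⊆ STAB G S := by
      intro T
      refine convexHull_mono ?_
      rintro _ ⟨s, hs, hst, rfl⟩
      exact ⟨s, hs.trans Finset.sdiff_subset, hst, rfl⟩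
    exact Set.union_subset (hmono A) (hmono B)
-- END sjn

-- BEGIN cst
/-- The exponent. Hint: `(1 - δ)^c ≤ 1/2` for some `c` (`exists_pow_lt_of_lt_one`); then for
`s₁, s₂ ≤ (1 - δ) s`: `s₁^c + s₂^c ≤ 2 (1 - δ)^c s^c ≤ s^c`. -/
theorem cst (δ : ℝ) (h0 : 0 < δ) (h1 : δ ≤ 1 / 2) :
    ∃ c : ℕ, 1 ≤ c ∧ ∀ s s₁ s₂ : ℕ, (s₁ : ℝ) ≤ (1 - δ) * s → (s₂ : ℝ) ≤ (1 - δ) * s →
      s₁ ^ c + s₂ ^ c ≤ s ^ c := by
  obtain ⟨c, hc⟩ := exists_pow_lt_of_lt_one (show (0:ℝ) < 1 / 2 by norm_num) (show 1 - δ < 1 by linarith)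
  refine ⟨c, ?_, ?_⟩
  · rcases Nat.eq_zero_or_pos c with h | h
    · rw [h, pow_zero] at hc
      norm_num at hc
    · exact h
  · intro s s₁ s₂ hs₁ hs₂
    have key : ∀ t : ℕ, (t : ℝ) ≤ (1 - δ) * s → (t : ℝ) ^ c ≤ (1 / 2) * (s : ℝ) ^ c := by
      intro t ht
      calc (t : ℝ) ^ c ≤ ((1 - δ) * s) ^ c := pow_le_pow_left₀ (Nat.cast_nonneg t) ht c
        _ = (1 - δ) ^ c * (s : ℝ) ^ c := mul_pow _ _ _
        _ ≤ (1 / 2) * (s : ℝ) ^ c :=
          mul_le_mul_of_nonneg_right hc.le (pow_nonneg (Nat.cast_nonneg s) c)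
    have h2 := key s₁ hs₁
    have h3 := key s₂ hs₂
    have h4 : ((s₁ ^ c + s₂ ^ c : ℕ) : ℝ) ≤ ((s ^ c : ℕ) : ℝ) := by
      push_cast
      linarith
    exact_mod_cast h4
-- END cst

-- BEGIN rcn
/-- The recursion. Hint: strong induction on `S.card`. `S.card = 1`: `ba1`. `S.card ≥ 2`: the
pair `A`, `B` of `hpair`; `S \ A`, `S \ B` are nonempty, smaller, of size
`≤ (1 - δ) |S|`; induction hypothesis, and `sgl` with `glu` (the points of `STAB G (S \ A)` vanish
on `A`, `sti`) or `sjn` with `bal` (nonempty: `ind ∅`); monotonicity of `XC` in `f` by `xof`;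
`f = f₁ + f₂ + 2 n + 2`. -/
theorem rcn (G : SimpleGraph V) (hG : Perf G) (δ : ℝ) (hδ : 0 < δ) (c : ℕ)
    (hc : ∀ s s₁ s₂ : ℕ, (s₁ : ℝ) ≤ (1 - δ) * s → (s₂ : ℝ) ≤ (1 - δ) * s →
      s₁ ^ c + s₂ ^ c ≤ s ^ c)
    (hpair : ∀ U : Finset V, 2 ≤ U.card →
      ∃ A B : Finset V, A ⊆ U ∧ B ⊆ U ∧ Disjoint A B ∧ A.Nonempty ∧ B.Nonempty ∧
        δ * U.card ≤ A.card ∧ δ * U.card ≤ B.card ∧ (Anti G A B ∨ Anti Gᶜ A B)) :
    ∀ S : Finset V, S.Nonempty → ∃ f : ℕ,
      f + (2 * Fintype.card V + 2) ≤ (2 * Fintype.card V + 4) * S.card ^ c ∧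
      XC (STAB G S) f := by
  have hmono : ∀ (P : Set (V → ℝ)) (f g : ℕ), XC P f → f ≤ g → XC P g := by
    intro P f g h hfg
    obtain ⟨k, hk⟩ := h
    exact xof (Fin f) (Fin k) P hk g (by rw [Fintype.card_fin]; exact hfg)
  have hnon : ∀ S : Finset V, (STAB G S).Nonempty := by
    intro S
    refine ⟨ind ∅, subset_convexHull ℝ _ ⟨∅, Finset.empty_subset _, ?_, rfl⟩⟩
    intro u hu
    exact absurd hu (Finset.notMem_empty u)
  have hmain : ∀ n : ℕ, ∀ S : Finset V, S.card = n → S.Nonempty → ∃ f : ℕ,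
      f + (2 * Fintype.card V + 2) ≤ (2 * Fintype.card V + 4) * S.card ^ c ∧
      XC (STAB G S) f := by
    intro n
    induction n using Nat.strong_induction_on with
    | _ n ih =>
      intro S hSn hSne
      by_cases h2 : 2 ≤ S.card
      · obtain ⟨A, B, hAS, hBS, hAB, hA, hB, hAc, hBc, hor⟩ := hpair S h2
        have hApos : 0 < A.card := Finset.card_pos.2 hA
        have hBpos : 0 < B.card := Finset.card_pos.2 hB
        have hAle := Finset.card_le_card hAS
        have hBle := Finset.card_le_card hBS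
        have hcA : (S \ A).card = S.card - A.card := Finset.card_sdiff_of_subset hAS
        have hcB : (S \ B).card = S.card - B.card := Finset.card_sdiff_of_subset hBS
        have hneA : (S \ A).Nonempty := by
          obtain ⟨b, hb⟩ := hB
          exact ⟨b, Finset.mem_sdiff.2 ⟨hBS hb, fun h => (Finset.disjoint_left.1 hAB h) hb⟩⟩
        have hneB : (S \ B).Nonempty := by
          obtain ⟨a, ha⟩ := hA
          exact ⟨a, Finset.mem_sdiff.2 ⟨hAS ha, fun h => (Finset.disjoint_left.1 hAB ha) h⟩⟩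
        obtain ⟨f₁, hf₁, hX₁⟩ := ih (S \ A).card (by omega) (S \ A) rfl hneA
        obtain ⟨f₂, hf₂, hX₂⟩ := ih (S \ B).card (by omega) (S \ B) rfl hneB
        have hr₁ : (((S \ A).card : ℕ) : ℝ) ≤ (1 - δ) * (S.card : ℕ) := by
          rw [hcA, Nat.cast_sub hAle]
          linarith
        have hr₂ : (((S \ B).card : ℕ) : ℝ) ≤ (1 - δ) * (S.card : ℕ) := by
          rw [hcB, Nat.cast_sub hBle]
          linarith
        have hpow := hc S.card (S \ A).card (S \ B).card hr₁ hr₂
        refine ⟨f₁ + f₂ + 2 * Fintype.card V + 2, ?_, ?_⟩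
        · calc f₁ + f₂ + 2 * Fintype.card V + 2 + (2 * Fintype.card V + 2)
              = (f₁ + (2 * Fintype.card V + 2)) + (f₂ + (2 * Fintype.card V + 2)) := by ring
            _ ≤ (2 * Fintype.card V + 4) * (S \ A).card ^ c +
                (2 * Fintype.card V + 4) * (S \ B).card ^ c := Nat.add_le_add hf₁ hf₂
            _ = (2 * Fintype.card V + 4) * ((S \ A).card ^ c + (S \ B).card ^ c) := by ring
            _ ≤ (2 * Fintype.card V + 4) * S.card ^ c := Nat.mul_le_mul_left _ hpow
        · rcases hor with h | h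
          · rw [sgl G hG S A B hAB h]
            have hg := glu A B hAB (STAB G (S \ A)) (STAB G (S \ B)) f₁ f₂ hX₁ hX₂
              (by
                intro x hx v hv
                exact (sti G (S \ A) x hx).2.1 v (fun h' => (Finset.mem_sdiff.1 h').2 hv))
              (by
                intro x hx v hv
                exact (sti G (S \ B) x hx).2.1 v (fun h' => (Finset.mem_sdiff.1 h').2 hv))
            exact hmono _ _ _ hg (by omega)
          · rw [sjn G S A B hAB h]
            have hg := bal (STAB G (S \ A)) (STAB G (S \ B)) f₁ f₂ hX₁ hX₂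
              (hnon _) (hnon _)
            exact hmono _ _ _ hg (by omega)
      · have h1 : S.card = 1 := by
          have := Finset.card_pos.2 hSne
          omega
        obtain ⟨v, hv⟩ := Finset.card_eq_one.1 h1
        refine ⟨2, ?_, ?_⟩
        · rw [h1, one_pow, mul_one]
          omega
        · rw [hv]
          exact ba1 G v
  intro S hS
  exact hmain S.card S rfl hS
-- END rcn

end Pool.Agent.Xbh
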