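import Pool.Agent.Xbh.Defs

set_option autoImplicit false
set_option linter.unusedSectionVars false

namespace Pool.Agent.Xbh

open Finset

variable {V : Type} [Fintype V] [DecidableEq V]

-- BEGIN rpb
/-- The case of weights `0` and `1`. Hint: `Perf` for `S = {v | a v = 1}` (a clique `t ⊆ S` has
`t.card = ∑ v ∈ t, a v ≤ m`); `T i = S.filter (fun v => c v = i)`. -/
theorem rpb (G : SimpleGraph V) (hG : Perf G) (a : V → ℕ) (m : ℕ) (ha : ∀ v, a v ≤ 1)
    (hK : ∀ K : Finset V, Clq G K → ∑ v ∈ K, a v ≤ m) :
    ∃ T : Fin m → Finset V, (∀ i, Stb G (T i)) ∧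
      ∀ v, (∑ i : Fin m, if v ∈ T i then 1 else 0) = a v := by
  obtain ⟨c, hc1, hc2⟩ := hG (Finset.univ.filter (fun v => a v = 1)) m (by
    intro t ht hcl
    have h := hK t hcl
    have h2 : ∑ v ∈ t, a v = t.card := by
      rw [Finset.card_eq_sum_ones]
      exact Finset.sum_congr rfl (fun v hv => (Finset.mem_filter.1 (ht hv)).2)
    omega)
  refine ⟨fun i => Finset.univ.filter (fun v => a v = 1 ∧ c v = (i : ℕ)), ?_, ?_⟩
  · intro i u hu v hv hadj
    have hu' := (Finset.mem_filter.1 hu).2
    have hv' := (Finset.mem_filter.1 hv).2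
    exact hc2 u (Finset.mem_filter.2 ⟨Finset.mem_univ _, hu'.1⟩) v
      (Finset.mem_filter.2 ⟨Finset.mem_univ _, hv'.1⟩) hadj (hu'.2.trans hv'.2.symm)
  · intro v
    by_cases hv : a v = 1
    · have hlt := hc1 v (Finset.mem_filter.2 ⟨Finset.mem_univ _, hv⟩)
      rw [hv, Finset.sum_eq_single (⟨c v, hlt⟩ : Fin m)]
      · rw [if_pos]
        exact Finset.mem_filter.2 ⟨Finset.mem_univ _, hv, rfl⟩
      · intro b _ hb
        rw [if_neg]
        intro hmem
        apply hb
        apply Fin.ext
        exact ((Finset.mem_filter.1 hmem).2.2).symm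
      · intro h
        exact absurd (Finset.mem_univ _) h
    · have h0 : a v = 0 := by
        have := ha v
        omega
      rw [h0]
      apply Finset.sum_eq_zero
      intro i _
      rw [if_neg]
      intro hmem
      exact hv (Finset.mem_filter.1 hmem).2.1
-- END rpb

-- BEGIN rpc
/-- Removing one colour class. `T'` covers `v` exactly `a v - 1` times, `u ≠ v` exactly `a u`
times, `v ∈ T' i₀`. The weights `a''` (one less on `T' i₀` except at `v` where they are
`a v - 1`) have clique sums at most `m - 1`.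
Hint: if `v ∈ K` then `K ∩ T' i₀ = {v}` (two members of a stable set in a clique are equal), so
`∑ a'' = ∑ a - 1`. If `v ∉ K`:
`∑ u ∈ K, a'' u = ∑ i ≠ i₀, |K ∩ T' i| ≤ m - 1` (`Finset.sum_comm`, each `|K ∩ T' i| ≤ 1`). -/
theorem rpc (G : SimpleGraph V) (a : V → ℕ) (m : ℕ)
    (hK : ∀ K : Finset V, Clq G K → ∑ v ∈ K, a v ≤ m + 1) (v : V) (hv : 2 ≤ a v)
    (T' : Fin (m + 1) → Finset V) (hT : ∀ i, Stb G (T' i))
    (hc : ∀ u, (∑ i : Fin (m + 1), if u ∈ T' i then 1 else 0) = if u = v then a v - 1 else a u)
    (i₀ : Fin (m + 1)) (hi₀ : v ∈ T' i₀) (K : Finset V) (hKc : Clq G K) :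
    ∑ u ∈ K, (if u = v then a v - 1 else if u ∈ T' i₀ then a u - 1 else a u) ≤ m := by
  by_cases hvK : v ∈ K
  · have h1 : ∀ u ∈ K, u ≠ v → u ∉ T' i₀ := fun u hu huv hu' =>
      hT i₀ u hu' v hi₀ (hKc u hu v hvK huv)
    have h2 : ∀ u ∈ K, (if u = v then a v - 1 else if u ∈ T' i₀ then a u - 1 else a u) +
        (if u = v then 1 else 0) = a u := by
      intro u hu
      by_cases huv : u = v
      · rw [if_pos huv, if_pos huv, huv]
        omega
      · rw [if_neg huv, if_neg huv, if_neg (h1 u hu huv), add_zero]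
    have h3 : (∑ u ∈ K, (if u = v then a v - 1 else if u ∈ T' i₀ then a u - 1 else a u)) + 1 =
        ∑ u ∈ K, a u := by
      rw [← Finset.sum_congr rfl h2, Finset.sum_add_distrib, Finset.sum_ite_eq', if_pos hvK]
    have h4 := hK K hKc
    omega
  · have h2 : ∀ u ∈ K, (if u = v then a v - 1 else if u ∈ T' i₀ then a u - 1 else a u) =
        ∑ i ∈ Finset.univ.erase i₀, if u ∈ T' i then 1 else 0 := by
      intro u hu
      have huv : u ≠ v := fun h => hvK (h ▸ hu)
      have h3 := hc u
      rw [if_neg huv, ← Finset.add_sum_erase _ _ (Finset.mem_univ i₀)] at h3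
      rw [if_neg huv]
      by_cases hu0 : u ∈ T' i₀
      · rw [if_pos hu0] at h3 ⊢
        omega
      · rw [if_neg hu0] at h3 ⊢
        omega
    rw [Finset.sum_congr rfl h2, Finset.sum_comm]
    have h5 : ∀ i ∈ Finset.univ.erase i₀, (∑ u ∈ K, if u ∈ T' i then 1 else 0) ≤ 1 := by
      intro i _
      rw [← Finset.card_filter, Finset.card_le_one]
      intro x hx y hy
      by_contra hxy
      rw [Finset.mem_filter] at hx hy
      exact hT i x hx.2 y hy.2 (hKc x hx.1 y hy.1 hxy)
    refine (Finset.sum_le_sum h5).trans ?_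
    rw [Finset.sum_const, Finset.card_erase_of_mem (Finset.mem_univ _), Finset.card_univ,
      Fintype.card_fin]
    simp
-- END rpc

-- BEGIN rep
/-- Replication (Lovász): weights with clique sums at most `m` are covered by `m` stable sets.
Hint: strong induction on `∑ v, a v`, for all `m`. If all `a v ≤ 1`: `rpb`. Otherwise
`2 ≤ a v` for some `v`; `m ≥ 2` (the clique `{v}`), write `m = m' + 1`. The induction
hypothesis for `Function.update a v (a v - 1)` and `m` gives `T'`; `v` is in some `T' i₀`;
the induction hypothesis for `a''` of `rpc` and `m'` gives `T''`; `Fin.cons (T' i₀) T''`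
(`Fin.sum_univ_succ`). -/
theorem rep (G : SimpleGraph V) (hG : Perf G) (a : V → ℕ) (m : ℕ)
    (hK : ∀ K : Finset V, Clq G K → ∑ v ∈ K, a v ≤ m) :
    ∃ T : Fin m → Finset V, (∀ i, Stb G (T i)) ∧
      ∀ v, (∑ i : Fin m, if v ∈ T i then 1 else 0) = a v := by
  have key : ∀ n : ℕ, ∀ (a : V → ℕ) (m : ℕ), (∑ v, a v) = n →
      (∀ K : Finset V, Clq G K → ∑ v ∈ K, a v ≤ m) →
      ∃ T : Fin m → Finset V, (∀ i, Stb G (T i)) ∧
        ∀ v, (∑ i : Fin m, if v ∈ T i then 1 else 0) = a v := by
    intro n
    induction n using Nat.strong_induction_on with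
    | _ n ih =>
      intro a m hn hK
      by_cases h1 : ∀ v, a v ≤ 1
      · exact rpb G hG a m h1 hK
      · push Not at h1
        obtain ⟨v, hv⟩ := h1
        have hsing : Clq G {v} := by
          intro x hx y hy hxy
          rw [Finset.mem_singleton] at hx hy
          exact absurd (hx.trans hy.symm) hxy
        have hm := hK {v} hsing
        rw [Finset.sum_singleton] at hm
        obtain ⟨m', rfl⟩ : ∃ m', m = m' + 1 := ⟨m - 1, by omega⟩
        have hle' : ∀ u, (if u = v then a v - 1 else a u) ≤ a u := by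
          intro u
          split_ifs with h
          · subst h; omega
          · exact le_refl _
        have hsum' : (∑ u, (if u = v then a v - 1 else a u)) < n := by
          rw [← hn]
          apply Finset.sum_lt_sum
          · intro u _
            exact hle' u
          · exact ⟨v, Finset.mem_univ _, by rw [if_pos rfl]; omega⟩
        obtain ⟨T', hT', hc'⟩ := ih _ hsum' (fun u => if u = v then a v - 1 else a u) (m' + 1) rfl
          (fun K hKc => le_trans (Finset.sum_le_sum (fun u _ => hle' u)) (hK K hKc))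
        have hex : ∃ i₀, v ∈ T' i₀ := by
          by_contra hno
          push Not at hno
          have h2 := hc' v
          have h3 : (∑ i : Fin (m' + 1), if v ∈ T' i then 1 else 0) = 0 :=
            Finset.sum_eq_zero (fun i _ => if_neg (hno i))
          rw [h3] at h2
          simp only [if_true] at h2
          omega
        obtain ⟨i₀, hi₀⟩ := hex
        have hK'' := rpc G a m' hK v hv T' hT' hc' i₀ hi₀
        have hsum'' : (∑ u, (if u = v then a v - 1 else if u ∈ T' i₀ then a u - 1 else a u))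
            < n := by
          rw [← hn]
          apply Finset.sum_lt_sum
          · intro u _
            split_ifs with h h'
            · subst h; omega
            · omega
            · exact le_refl _
          · exact ⟨v, Finset.mem_univ _, by rw [if_pos rfl]; omega⟩
        obtain ⟨T'', hT'', hc''⟩ := ih _ hsum''
          (fun u => if u = v then a v - 1 else if u ∈ T' i₀ then a u - 1 else a u) m' rfl hK''
        refine ⟨Fin.cons (T' i₀) T'', ?_, ?_⟩
        · intro i
          refine Fin.cases ?_ (fun j => ?_) i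
          · exact hT' i₀
          · exact hT'' j
        · intro u
          rw [Fin.sum_univ_succ]
          simp only [Fin.cons_zero, Fin.cons_succ]
          rw [hc'' u]
          by_cases huv : u = v
          · subst huv
            rw [if_pos hi₀, if_pos rfl]
            omega
          · rw [if_neg huv]
            by_cases hu : u ∈ T' i₀
            · rw [if_pos hu, if_pos hu]
              have h3 := hc' u
              have h4 : (1:ℕ) ≤ ∑ i, if u ∈ T' i then 1 else 0 := by
                have h5 := Finset.single_le_sum (f := fun i => if u ∈ T' i then 1 else 0)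
                  (fun i _ => Nat.zero_le _) (Finset.mem_univ i₀)
                simpa [hu] using h5
              rw [if_neg huv] at h3
              omega
            · rw [if_neg hu, if_neg hu]
              omega
  exact key _ a m rfl hK
-- END rep

-- BEGIN avg
/-- The rational points. Hint: `fun v => (a v : ℝ) / N` is the average of the `ind (T i)`,
which are in the hull (`T i ⊆ S` because `a v = 0` off `S`);
`Convex.sum_mem` with weights `1 / N`. -/
theorem avg (G : SimpleGraph V) (S : Finset V) (N : ℕ) (hN : 0 < N) (a : V → ℕ)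
    (hS : ∀ v, v ∉ S → a v = 0) (T : Fin N → Finset V) (hT : ∀ i, Stb G (T i))
    (hc : ∀ v, (∑ i : Fin N, if v ∈ T i then 1 else 0) = a v) :
    (fun v => (a v : ℝ) / N) ∈ STAB G S := by
  have hN' : (N : ℝ) ≠ 0 := Nat.cast_ne_zero.2 hN.ne'
  have hsub : ∀ i, T i ⊆ S := by
    intro i v hv
    by_contra hvS
    have h1 := hc v
    rw [hS v hvS] at h1
    have h2 := (Finset.sum_eq_zero_iff.1 h1) i (Finset.mem_univ i)
    rw [if_pos hv] at h2
    exact one_ne_zero h2
  have hmem : ∀ i ∈ (Finset.univ : Finset (Fin N)), ind (T i) ∈ STAB G S := by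
    intro i _
    exact subset_convexHull ℝ _ ⟨T i, hsub i, hT i, rfl⟩
  have hconv : Convex ℝ (STAB G S) := convex_convexHull ℝ _
  have hsum := hconv.sum_mem (t := (Finset.univ : Finset (Fin N))) (w := fun _ => 1 / (N : ℝ))
    (z := fun i => ind (T i)) (fun i _ => by positivity) (by
      rw [Finset.sum_const, Finset.card_univ, Fintype.card_fin, nsmul_eq_mul]
      field_simp) hmem
  have heq : (fun v => (a v : ℝ) / N) = ∑ i : Fin N, (1 / (N : ℝ)) • ind (T i) := by
    funext v
    rw [Finset.sum_apply]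
    have h1 : (a v : ℝ) = ∑ i : Fin N, (if v ∈ T i then (1:ℝ) else 0) := by
      rw [← hc v]
      push_cast
      rfl
    rw [h1, Finset.sum_div]
    apply Finset.sum_congr rfl
    intro i _
    rw [Pi.smul_apply, smul_eq_mul]
    unfold ind
    ring
  rw [heq]
  exact hsum
-- END avg

-- BEGIN cut
/-- The clique inequalities describe the stable set polytope of a perfect graph.
Hint: for `N ≥ 1` let `a v = ⌊N * x v⌋₊`; clique sums `≤ N` (use `K ∩ S`); `rep`, `avg`: the point
`a v / N` is in `STAB G S` and tends to `x` (`|a v / N - x v| ≤ 1 / N`,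
`tendsto_pi_nhds`, or `tendsto_nat_floor_mul_div_atTop`); `STAB G S` is closed: convex hull of a
finite set (`Set.Finite.isCompact_convexHull`; the set is finite as a subset of the range of
`ind`). -/
theorem cut (G : SimpleGraph V) (hG : Perf G) (S : Finset V) (x : V → ℝ) (h0 : ∀ v, 0 ≤ x v)
    (hS : ∀ v, v ∉ S → x v = 0)
    (hK : ∀ K : Finset V, K ⊆ S → Clq G K → ∑ v ∈ K, x v ≤ 1) : x ∈ STAB G S := by
  have hfin : ({x : V → ℝ | ∃ s : Finset V, s ⊆ S ∧ Stb G s ∧ x = ind s}).Finite := by
    refine (Set.finite_range (fun s : Finset V => ind s)).subset ?_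
    rintro y ⟨s, _, _, rfl⟩
    exact ⟨s, rfl⟩
  have hcl : IsClosed (STAB G S) := (hfin.isCompact_convexHull ℝ).isClosed
  have hmem : ∀ N : ℕ, 0 < N → (fun v => ((⌊(N : ℝ) * x v⌋₊ : ℕ) : ℝ) / N) ∈ STAB G S := by
    intro N hN
    have hz : ∀ v, v ∉ S → ⌊(N : ℝ) * x v⌋₊ = 0 := by
      intro v hv
      rw [hS v hv, mul_zero]
      simp
    have hKs : ∀ K : Finset V, Clq G K → ∑ v ∈ K, ⌊(N : ℝ) * x v⌋₊ ≤ N := by
      intro K hKc
      have e1 : ∑ v ∈ K, ⌊(N : ℝ) * x v⌋₊ = ∑ v ∈ K ∩ S, ⌊(N : ℝ) * x v⌋₊ := by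
        symm
        refine Finset.sum_subset Finset.inter_subset_left ?_
        intro v hv hv'
        refine hz v (fun h => hv' (Finset.mem_inter.2 ⟨hv, h⟩))
      have e2 : ∑ v ∈ K ∩ S, x v ≤ 1 := by
        refine hK _ Finset.inter_subset_right ?_
        intro u hu v hv huv
        exact hKc u (Finset.mem_inter.1 hu).1 v (Finset.mem_inter.1 hv).1 huv
      have e3 : ((∑ v ∈ K ∩ S, ⌊(N : ℝ) * x v⌋₊ : ℕ) : ℝ) ≤ N := by
        push_cast
        have e4 : ∑ v ∈ K ∩ S, ((⌊(N : ℝ) * x v⌋₊ : ℕ) : ℝ) ≤ ∑ v ∈ K ∩ S, (N : ℝ) * x v := by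
          refine Finset.sum_le_sum (fun v _ => ?_)
          exact Nat.floor_le (mul_nonneg (Nat.cast_nonneg _) (h0 v))
        rw [← Finset.mul_sum] at e4
        refine e4.trans ?_
        exact mul_le_of_le_one_right (Nat.cast_nonneg _) e2
      rw [e1]
      exact_mod_cast e3
    obtain ⟨T, hT, hc⟩ := rep G hG (fun v => ⌊(N : ℝ) * x v⌋₊) N hKs
    exact avg G S N hN (fun v => ⌊(N : ℝ) * x v⌋₊) hz T hT hc
  have hlim : Filter.Tendsto (fun N : ℕ => fun v => ((⌊(N : ℝ) * x v⌋₊ : ℕ) : ℝ) / N)
      Filter.atTop (nhds x) := by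
    rw [tendsto_pi_nhds]
    intro v
    have t1 := (tendsto_nat_floor_mul_div_atTop (R := ℝ) (h0 v)).comp
      (tendsto_natCast_atTop_atTop (R := ℝ))
    refine t1.congr (fun N => ?_)
    simp only [Function.comp]
    rw [mul_comm]
  refine hcl.mem_of_tendsto hlim ?_
  filter_upwards [Filter.eventually_gt_atTop 0] with N hN
  exact hmem N hN
-- END cut

end Pool.Agent.Xbh
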