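import Pool.Agent.Xbh.Sub

set_option autoImplicit false

/-!
# Polynomial extension complexity for perfect graphs of bounded rank
-/

namespace Pool.Agent.Xbh

open Finset

variable {V : Type} [Fintype V] [DecidableEq V]

-- BEGIN stx
/-- The clique side: a clique contained in `insert v S'` contains `v` (so it lies in the closed
neighbourhood of `v`) or lies in `S'`. -/
theorem stx (G : SimpleGraph V) (hG : Perf G) (F : ℕ) (v : V) (S' : Finset V)
    (h : XC (STAB G (S' ∩ nb G v)) F) (hv : v ∉ S') (f' : ℕ)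
    (ih : XC (STAB G S') f') : XC (STAB G (insert v S')) (f' + (F + 2 * Fintype.card V + 4)) := by
  have hnon : ∀ S : Finset V, (STAB G S).Nonempty := by
    intro S
    refine ⟨ind ∅, subset_convexHull ℝ _ ⟨∅, Finset.empty_subset _, ?_, rfl⟩⟩
    intro u hu
    exact absurd hu (Finset.notMem_empty u)
  have e1 : (insert v S') \ {v} = S' := by
    ext u
    simp only [Finset.mem_sdiff, Finset.mem_insert, Finset.mem_singleton]
    constructor
    · rintro ⟨h1 | h1, h2⟩
      · exact absurd h1 h2
      · exact h1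
    · exact fun h1 => ⟨Or.inr h1, fun h2 => hv (h2 ▸ h1)⟩
  have e2 : (insert v S') \ (S' \ nb G v) = insert v (S' ∩ nb G v) := by
    ext u
    simp only [Finset.mem_sdiff, Finset.mem_insert, Finset.mem_inter, not_and, not_not]
    constructor
    · rintro ⟨h1 | h1, h2⟩
      · exact Or.inl h1
      · exact Or.inr ⟨h1, h2 h1⟩
    · rintro (h1 | h1)
      · exact ⟨Or.inl h1, fun h2 => absurd (h1 ▸ h2) hv⟩
      · exact ⟨Or.inr h1.1, fun _ => h1.2⟩
  have e3 : (insert v (S' ∩ nb G v)) \ {v} = S' ∩ nb G v := by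
    ext u
    simp only [Finset.mem_sdiff, Finset.mem_insert, Finset.mem_singleton, Finset.mem_inter]
    constructor
    · rintro ⟨h1 | h1, h2⟩
      · exact absurd h1 h2
      · exact h1
    · exact fun h1 => ⟨Or.inr h1, fun h2 => hv (h2 ▸ h1.1)⟩
  have e4 : (insert v (S' ∩ nb G v)) \ (S' ∩ nb G v) = {v} := by
    ext u
    simp only [Finset.mem_sdiff, Finset.mem_insert, Finset.mem_singleton, Finset.mem_inter]
    constructor
    · rintro ⟨h1 | h1, h2⟩
      · exact h1
      · exact absurd h1 h2
    · exact fun h1 => ⟨Or.inl h1, fun h2 => hv (h1 ▸ h2.1)⟩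
  have hX1 : XC (STAB G (insert v (S' ∩ nb G v))) (F + 2 + 2) := by
    have hd : Disjoint ({v} : Finset V) (S' ∩ nb G v) := by
      rw [Finset.disjoint_singleton_left]
      exact fun h1 => hv (Finset.mem_inter.1 h1).1
    have hc : Anti Gᶜ ({v} : Finset V) (S' ∩ nb G v) := by
      intro a ha b hb hab
      rw [Finset.mem_singleton] at ha
      rw [ha] at hab
      exact ((SimpleGraph.compl_adj G v b).1 hab).2 ((mem_nb G v b).1 (Finset.mem_inter.1 hb).2)
    rw [sjn G (insert v (S' ∩ nb G v)) {v} (S' ∩ nb G v) hd hc, e3, e4]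
    exact bal _ _ _ _ h (ba1 G v)
      (hnon _) (hnon _)
  have hd : Disjoint (S' \ nb G v) ({v} : Finset V) := by
    rw [Finset.disjoint_singleton_right]
    exact fun h1 => hv (Finset.mem_sdiff.1 h1).1
  have hanti : Anti G (S' \ nb G v) ({v} : Finset V) := by
    intro a ha b hb hab
    rw [Finset.mem_singleton] at hb
    rw [hb] at hab
    exact (Finset.mem_sdiff.1 ha).2 ((mem_nb G v a).2 hab.symm)
  rw [sgl G hG (insert v S') (S' \ nb G v) {v} hd hanti]
  have hg := glu (S' \ nb G v) {v} hd (STAB G ((insert v S') \ (S' \ nb G v)))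
    (STAB G ((insert v S') \ {v})) (F + 2 + 2) f'
    (by rw [e2]; exact hX1) (by rw [e1]; exact ih)
    (fun x hx u hu => (sti G _ x hx).2.1 u fun h' => (Finset.mem_sdiff.1 h').2 hu)
    (fun x hx u hu => (sti G _ x hx).2.1 u fun h' => (Finset.mem_sdiff.1 h').2 hu)
  exact XC_mono _ _ _ hg (by omega)
-- END stx

-- BEGIN sty
private theorem sty_non (G : SimpleGraph V) (S : Finset V) : (STAB G S).Nonempty :=
  ⟨ind ∅, subset_convexHull ℝ _ ⟨∅, Finset.empty_subset _,
    fun u hu => absurd hu (Finset.notMem_empty u), rfl⟩⟩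

/-- The stable side: a stable set contained in `insert v S'` contains `v` (so it avoids the
neighbours of `v`) or lies in `S'`. -/
theorem sty (G : SimpleGraph V) (hG : Perf G) (F : ℕ) (v : V) (S' : Finset V)
    (h : XC (STAB G (S' \ nb G v)) F) (hv : v ∉ S') (f' : ℕ)
    (ih : XC (STAB G S') f') : XC (STAB G (insert v S')) (f' + (F + 2 * Fintype.card V + 4)) := by
  have hvT : v ∉ S' \ nb G v := fun hh => hv (Finset.mem_sdiff.1 hh).1
  have hXT : XC (STAB G (S' \ nb G v)) F := h
  have hd1 : Disjoint ({v} : Finset V) (S' \ nb G v) :=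
    Finset.disjoint_singleton_left.2 hvT
  have ha1 : Anti G {v} (S' \ nb G v) := by
    intro a ha b hb hab
    rw [Finset.mem_singleton] at ha
    rw [ha] at hab
    exact (Finset.mem_sdiff.1 hb).2 ((mem_nb G v b).2 hab)
  have e1 : insert v (S' \ nb G v) \ {v} = S' \ nb G v := by
    rw [← Finset.erase_eq, Finset.erase_insert hvT]
  have e2 : insert v (S' \ nb G v) \ (S' \ nb G v) = {v} := by
    ext x
    simp only [Finset.mem_sdiff, Finset.mem_insert, Finset.mem_singleton]
    constructor
    · rintro ⟨h1 | h1, h2⟩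
      · exact h1
      · exact absurd h1 h2
    · rintro rfl
      exact ⟨Or.inl rfl, fun h2 => hv h2.1⟩
  have hI : XC (STAB G (insert v (S' \ nb G v))) (F + 2 + 2 * Fintype.card V) := by
    rw [sgl G hG (insert v (S' \ nb G v)) {v} (S' \ nb G v) hd1 ha1, e1, e2]
    refine glu {v} (S' \ nb G v) hd1 _ _ F 2 hXT (ba1 G v) ?_ ?_
    · intro x hx w hw
      rw [Finset.mem_singleton] at hw
      rw [hw]
      exact (sti G _ x hx).2.1 v hvT
    · intro x hx w hw
      refine (sti G _ x hx).2.1 w fun hh => ?_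
      rw [Finset.mem_singleton] at hh
      rw [hh] at hw
      exact hvT hw
  have hd2 : Disjoint (S' ∩ nb G v) ({v} : Finset V) :=
    Finset.disjoint_singleton_right.2 fun hh => hv (Finset.mem_inter.1 hh).1
  have ha2 : Anti Gᶜ (S' ∩ nb G v) {v} := by
    intro a ha b hb hab
    rw [Finset.mem_singleton] at hb
    rw [hb] at hab
    exact ((SimpleGraph.compl_adj G a v).1 hab).2
      ((mem_nb G v a).1 (Finset.mem_inter.1 ha).2).symm
  have e3 : insert v S' \ (S' ∩ nb G v) = insert v (S' \ nb G v) := by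
    ext x
    simp only [Finset.mem_sdiff, Finset.mem_insert, Finset.mem_inter]
    constructor
    · rintro ⟨h1 | h1, h2⟩
      · exact Or.inl h1
      · exact Or.inr ⟨h1, fun h3 => h2 ⟨h1, h3⟩⟩
    · rintro (h1 | h1)
      · exact ⟨Or.inl h1, fun h3 => hv (h1 ▸ h3.1)⟩
      · exact ⟨Or.inr h1.1, fun h3 => h1.2 h3.2⟩
  have e4 : insert v S' \ {v} = S' := by
    rw [← Finset.erase_eq, Finset.erase_insert hv]
  rw [sjn G (insert v S') (S' ∩ nb G v) {v} hd2 ha2, e3, e4]
  have hg := bal (STAB G (insert v (S' \ nb G v))) (STAB G S') _ _ hI ih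
    (sty_non G _) (sty_non G _)
  exact XC_mono _ _ _ hg (by omega)
-- END sty

-- BEGIN num
theorem num (n c : ℕ) (hc : 3 ≤ c) :
    3 * n * ((n + 1) ^ c + 2 * n + 4) ≤ (n + 1) ^ (c + 3) := by
  rcases Nat.eq_zero_or_pos n with rfl | hn
  · simp
  obtain ⟨m, rfl⟩ : ∃ m, n = m + 1 := ⟨n - 1, by omega⟩
  have h0 : (m + 1 + 1) ^ 3 = m ^ 3 + 6 * m ^ 2 + 12 * m + 8 := by ring
  have h2 : (m + 1 + 1) ^ 3 ≤ (m + 1 + 1) ^ c := Nat.pow_le_pow_right (by omega) hc
  have h5 : 0 ≤ m ^ 3 + 6 * m ^ 2 := Nat.zero_le _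
  have h1 : 2 * (m + 1) + 4 ≤ (m + 1 + 1) ^ c := by linarith
  have h4 : 6 * (m + 1) ≤ (m + 1 + 1) ^ 3 := by linarith
  calc 3 * (m + 1) * ((m + 1 + 1) ^ c + 2 * (m + 1) + 4)
      ≤ 3 * (m + 1) * (2 * (m + 1 + 1) ^ c) := Nat.mul_le_mul_left _ (by omega)
    _ = 6 * (m + 1) * (m + 1 + 1) ^ c := by ring
    _ ≤ (m + 1 + 1) ^ 3 * (m + 1 + 1) ^ c := Nat.mul_le_mul_right _ h4
    _ = (m + 1 + 1) ^ (c + 3) := by rw [← pow_add, Nat.add_comm 3 c]
-- END num

-- BEGIN rec
private theorem rec_arith {a s K : ℕ} (ha : 2 ≤ a) (has : a < s) :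
    (3 * (s - a + 1) - 4) * K + (3 * a - 4) * K ≤ (3 * s - 4) * K := by
  rw [← Nat.add_mul]
  exact Nat.mul_le_mul_right K (by omega)

/-- The recursion. Hint: strong induction on `S.card`. `K = F + 2 n + 4`. If `S` has two vertices and is not prime there is a module
`M` of `S` (a `Set`; make it a `Finset` by `Set.toFinset` or `Finset.filter` with `classical`) with two different vertices and `M ≠ S`; `m ∈ M`,
`R = insert m (S \ M)`: `M.card + R.card = S.card + 1`, both at least `2` and less than `S.card`; `mdl` and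
`(3 a - 4) K + (3 b - 4) K ≤ (3 (a + b - 1) - 4) K`. If `S` is prime: `hr` gives `v` and `S = insert v (S.erase v)`; `stx`, `sty` with
`S' = S.erase v` (`S' ∩ nb G v` is the set of the neighbours of `v` in `S`, `S' \ nb G v` the set of the other vertices not adjacent to `v`), and
for `S.card = 2` use `XC (STAB G S') 2` (`ba1`). -/
theorem rec (G : SimpleGraph V) (hG : Perf G) (W : Finset V) (F : ℕ)
    (hr : ∀ S : Finset V, S ⊆ W → S.Nonempty → Prim G (S : Set V) →
      ∃ v ∈ S, XC (STAB G ((S.erase v) ∩ nb G v)) F ∨ XC (STAB G ((S.erase v) \ nb G v)) F) :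
    ∀ S : Finset V, S ⊆ W → 2 ≤ S.card →
      XC (STAB G S) ((3 * S.card - 4) * (F + 2 * Fintype.card V + 4)) := by
  classical
  have key : ∀ n : ℕ, ∀ S : Finset V, S.card = n → S ⊆ W → 2 ≤ S.card →
      XC (STAB G S) ((3 * S.card - 4) * (F + 2 * Fintype.card V + 4)) := by
    intro n
    induction n using Nat.strong_induction_on with
    | _ n ih =>
    intro S hSn hSW hS2
    obtain ⟨K, hK⟩ : ∃ K, F + 2 * Fintype.card V + 4 = K := ⟨_, rfl⟩
    by_cases hp : Prim G (S : Set V)
    · obtain ⟨v, hv, hx⟩ := hr S hSW (Finset.card_pos.1 (by omega)) hp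
      have hins : insert v (S.erase v) = S := Finset.insert_erase hv
      have hcard : (S.erase v).card = S.card - 1 := Finset.card_erase_of_mem hv
      have hstep : ∀ f' : ℕ, XC (STAB G (S.erase v)) f' →
          XC (STAB G S) (f' + (F + 2 * Fintype.card V + 4)) := by
        intro f' hf'
        rcases hx with hx | hx
        · have := stx G hG F v (S.erase v) hx (Finset.notMem_erase v S) f' hf'
          rwa [hins] at this
        · have := sty G hG F v (S.erase v) hx (Finset.notMem_erase v S) f' hf'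
          rwa [hins] at this
      by_cases h2 : S.card = 2
      · obtain ⟨w, hw⟩ := Finset.card_eq_one.1 (by omega : (S.erase v).card = 1)
        have h3 := hstep 2 (by rw [hw]; exact ba1 G w)
        refine XC_mono _ _ _ h3 ?_
        rw [h2]
        omega
      · have h3 := hstep _ (ih (S.card - 1) (by omega) (S.erase v) hcard
          ((Finset.erase_subset v S).trans hSW) (by omega))
        refine XC_mono _ _ _ h3 ?_
        rw [hcard, hK]
        have h4 : (3 * (S.card - 1) - 4) * K + K = (3 * (S.card - 1) - 4 + 1) * K := by ring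
        rw [h4]
        exact Nat.mul_le_mul_right K (by omega)
    · unfold Prim at hp
      push Not at hp
      obtain ⟨M, hM, hMs, hMne⟩ := hp
      obtain ⟨hMS, hmod⟩ := hM
      have hmem : ∀ u, u ∈ S.filter (fun u => u ∈ M) ↔ u ∈ M := by
        intro u
        rw [Finset.mem_filter]
        exact ⟨fun h => h.2, fun h => ⟨hMS h, h⟩⟩
      have hsub : S.filter (fun u => u ∈ M) ⊆ S := Finset.filter_subset _ _
      have hne : S.filter (fun u => u ∈ M) ≠ S := by
        intro h
        apply hMne
        ext u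
        rw [← hmem u, h]
        rfl
      have hlt : (S.filter (fun u => u ∈ M)).card < S.card :=
        Finset.card_lt_card (Finset.ssubset_iff_subset_ne.2 ⟨hsub, hne⟩)
      obtain ⟨x, hx, y, hy, hxy⟩ := hMs
      have h2 : 2 ≤ (S.filter (fun u => u ∈ M)).card := by
        have := Finset.one_lt_card.2 ⟨x, (hmem x).2 hx, y, (hmem y).2 hy, hxy⟩
        omega
      have hxS : x ∉ S \ S.filter (fun u => u ∈ M) := by
        intro h
        exact (Finset.mem_sdiff.1 h).2 ((hmem x).2 hx)
      have hRc : (insert x (S \ S.filter (fun u => u ∈ M))).card =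
          S.card - (S.filter (fun u => u ∈ M)).card + 1 := by
        rw [Finset.card_insert_of_notMem hxS, Finset.card_sdiff_of_subset hsub]
      have hRS : insert x (S \ S.filter (fun u => u ∈ M)) ⊆ S := by
        intro u hu
        rcases Finset.mem_insert.1 hu with h | h
        · rw [h]; exact hMS hx
        · exact (Finset.mem_sdiff.1 h).1
      have h1 := ih _ (by omega) (insert x (S \ S.filter (fun u => u ∈ M))) hRc
        (hRS.trans hSW) (by omega)
      have h3 := ih _ (by omega) (S.filter (fun u => u ∈ M)) rfl (hsub.trans hSW) h2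
      have h4 := mdl G S (S.filter (fun u => u ∈ M)) x ((hmem x).2 hx) hsub
        (fun z hz hzM => by
          rcases hmod z hz (fun h => hzM ((hmem z).2 h)) with h | h
          · exact Or.inl fun u hu => h u ((hmem u).1 hu)
          · exact Or.inr fun u hu => h u ((hmem u).1 hu)) _ _ h1 h3
      refine XC_mono _ _ _ h4 ?_
      rw [hRc]
      exact rec_arith h2 hlt
  exact fun S hS h2 => key S.card S rfl hS h2
-- END rec

-- BEGIN rkt
/-- Perfect graphs of bounded rank. -/
theorem rkt (e : ℝ) (he : 0 < e) : ∃ c : ℕ, ∀ (r : ℕ) (V : Type) [Fintype V] [DecidableEq V]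
    (G : SimpleGraph V) (W : Finset V), Perf G → Rank e G r (W : Set V) →
    XC (STAB G W) ((Fintype.card V + 1) ^ (c + 3 * r)) := by
  obtain ⟨c, hc3, hc⟩ := bsp e he
  refine ⟨c, fun r => ?_⟩
  induction r with
  | zero =>
    intro V _ _ G W hG hR
    exact hc V G W hG hR
  | succ r ih =>
    intro V _ _ G W hG hR
    rcases Nat.lt_or_ge W.card 2 with hW | hW
    · rcases Nat.lt_or_ge W.card 1 with hW1 | hW1
      · have h0 : W = ∅ := Finset.card_eq_zero.1 (by omega)
        rw [h0]
        exact XC_mono _ _ _ (ba0 G) (Nat.zero_le _)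
      · obtain ⟨v, hv⟩ := Finset.card_eq_one.1 (by omega : W.card = 1)
        rw [hv]
        refine XC_mono _ _ _ (ba1 G v) ?_
        have hn : 1 ≤ Fintype.card V := Fintype.card_pos_iff.2 ⟨v⟩
        calc 2 = 2 ^ 1 := rfl
          _ ≤ 2 ^ (c + 3 * (r + 1)) := Nat.pow_le_pow_right (by omega) (by omega)
          _ ≤ (Fintype.card V + 1) ^ (c + 3 * (r + 1)) := Nat.pow_le_pow_left (by omega) _
    · have h1 := rec G hG W ((Fintype.card V + 1) ^ (c + 3 * r)) (fun S hS hne hP => by
        obtain ⟨v, hv, h2⟩ := hR (S : Set V) (Finset.coe_subset.2 hS) (Finset.coe_nonempty.2 hne) hP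
        refine ⟨v, Finset.mem_coe.1 hv, h2.imp (fun h3 => ?_) (fun h3 => ?_)⟩
        · apply ih V G _ hG
          have e : (((S.erase v) ∩ nb G v : Finset V) : Set V) =
              {u | u ∈ (S : Set V) ∧ G.Adj v u} := by
            ext u
            simp only [Finset.coe_inter, Set.mem_inter_iff, Finset.mem_coe, Finset.mem_erase,
              mem_nb, Set.mem_ofPred_eq]
            constructor
            · rintro ⟨⟨-, h4⟩, h5⟩
              exact ⟨h4, h5⟩
            · rintro ⟨h4, h5⟩
              exact ⟨⟨fun h6 => G.ne_of_adj h5 h6.symm, h4⟩, h5⟩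
          rw [e]
          exact h3
        · apply ih V G _ hG
          have e : (((S.erase v) \ nb G v : Finset V) : Set V) =
              {u | u ∈ (S : Set V) ∧ u ≠ v ∧ ¬ G.Adj v u} := by
            ext u
            simp only [Finset.coe_sdiff, Set.mem_sdiff, Finset.mem_coe, Finset.mem_erase,
              mem_nb, Set.mem_ofPred_eq]
            constructor
            · rintro ⟨⟨h4, h5⟩, h6⟩
              exact ⟨h5, h4, h6⟩
            · rintro ⟨h5, h4, h6⟩
              exact ⟨⟨h4, h5⟩, h6⟩
          rw [e]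
          exact h3) W (Finset.Subset.refl W) hW
      refine XC_mono _ _ _ h1 ?_
      have h2 : W.card ≤ Fintype.card V := Finset.card_le_univ W
      calc (3 * W.card - 4) *
            ((Fintype.card V + 1) ^ (c + 3 * r) + 2 * Fintype.card V + 4)
          ≤ 3 * Fintype.card V *
            ((Fintype.card V + 1) ^ (c + 3 * r) + 2 * Fintype.card V + 4) :=
            Nat.mul_le_mul_right _ (by omega)
        _ ≤ (Fintype.card V + 1) ^ (c + 3 * r + 3) := num _ _ (by omega)
        _ = (Fintype.card V + 1) ^ (c + 3 * (r + 1)) := by ring_nf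
-- END rkt

end Pool.Agent.Xbh
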