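import Pool.Agent.Xbh.Join

set_option autoImplicit false

/-!
# Classes of graphs given by complements, 1-joins, 2-joins, cutsets and free cutsets
-/

namespace Pool.Agent.Xbh

open Classical in
/-- the number of ordered pairs of adjacent vertices of `C`, twice the number of the edges of `G`
inside `C` -/
noncomputable def prs {V : Type} (G : SimpleGraph V) (C : Finset V) : ℕ :=
  ((C ×ˢ C).filter fun p => G.Adj p.1 p.2).card

/-- the potential `n ^ t * (max 1 (n - 4) * (e + 1) * (f + 1)) ^ (u + 1)` of a graph with `n`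
vertices, `e` ordered pairs of adjacent vertices and `f` ordered pairs of nonadjacent different
vertices (`n` is replaced by `max 1 n`) -/
noncomputable def phi (t u : ℕ) (V : Type) [Fintype V] (G : SimpleGraph V) : ℕ :=
  max 1 (Fintype.card V) ^ t * (max 1 (Fintype.card V - 4) *
    ((prs G Finset.univ + 1) * (prs Gᶜ Finset.univ + 1))) ^ (u + 1)

/-- `SCls B t u s` is the least sequence of classes of finite graphs (`s = 0, 1, 2, ..`) such that:
the graphs of `B` are in all of them; a graph is in the class `s` if its complement is; a perfect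
graph is in the class `s` if both blocks of a proper 1-join or 2-join are (more than `k` vertices
on both sides, all labels are used on both sides, not all pairs across are adjacent); a perfect
graph with two disjoint sets `A₁`, `A₂` of vertices without edges between them is in the class
`s + 1` if the subgraphs induced on the complements of `A₁` and of `A₂` are in the class `s`, and it
is in the class `s` itself if moreover the sum of the potentials `phi t u` of the two subgraphs is
at most the potential of the graph, or if `A₁` and `A₂` are nonempty and the subgraph induced on the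
complement of `A₂` is in `B`. -/
inductive SCls (B : (V : Type) → SimpleGraph V → Prop) (t u : ℕ) :
    ℕ → (V : Type) → [Fintype V] → [DecidableEq V] → SimpleGraph V → Prop
  | base (s : ℕ) (V : Type) [Fintype V] [DecidableEq V] (G : SimpleGraph V) (h : B V G) :
      SCls B t u s V G
  | compl (s : ℕ) (V : Type) [Fintype V] [DecidableEq V] (G : SimpleGraph V)
      (h : SCls B t u s V Gᶜ) : SCls B t u s V G
  | join (s : ℕ) (V : Type) [Fintype V] [DecidableEq V] (G : SimpleGraph V) (k : ℕ)
      (hk : k = 1 ∨ k = 2) (X : Finset V) (l : V → Option (Fin k)) (hp : Perf G)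
      (hj : KJn G X l) (h1 : k < X.card) (h2 : k < Xᶜ.card)
      (ha : ∀ j, ∃ u ∈ X, l u = some j) (hb : ∀ j, ∃ w ∈ Xᶜ, l w = some j)
      (hn : ∃ u ∈ X, ∃ w ∈ Xᶜ, ¬ G.Adj u w)
      (hX : SCls B t u s ({v // v ∈ X} ⊕ Fin k) (Blk G X l))
      (hY : SCls B t u s ({v // v ∈ Xᶜ} ⊕ Fin k) (Blk G Xᶜ l)) : SCls B t u s V G
  | cut (s : ℕ) (V : Type) [Fintype V] [DecidableEq V] (G : SimpleGraph V) (A₁ A₂ : Finset V)
      (hp : Perf G) (hd : Disjoint A₁ A₂) (hn : ∀ a ∈ A₁, ∀ b ∈ A₂, ¬ G.Adj a b)
      (h1 : SCls B t u s {v // v ∈ A₁ᶜ} (G.comap Subtype.val))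
      (h2 : SCls B t u s {v // v ∈ A₂ᶜ} (G.comap Subtype.val)) : SCls B t u (s + 1) V G
  | free (s : ℕ) (V : Type) [Fintype V] [DecidableEq V] (G : SimpleGraph V) (A₁ A₂ : Finset V)
      (hp : Perf G) (hd : Disjoint A₁ A₂) (hn : ∀ a ∈ A₁, ∀ b ∈ A₂, ¬ G.Adj a b)
      (hc : phi t u {v // v ∈ A₁ᶜ} (G.comap Subtype.val) +
        phi t u {v // v ∈ A₂ᶜ} (G.comap Subtype.val) ≤ phi t u V G)
      (h1 : SCls B t u s {v // v ∈ A₁ᶜ} (G.comap Subtype.val))
      (h2 : SCls B t u s {v // v ∈ A₂ᶜ} (G.comap Subtype.val)) : SCls B t u s V G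
  | ext (s : ℕ) (V : Type) [Fintype V] [DecidableEq V] (G : SimpleGraph V) (A₁ A₂ : Finset V)
      (hp : Perf G) (hd : Disjoint A₁ A₂) (hn : ∀ a ∈ A₁, ∀ b ∈ A₂, ¬ G.Adj a b)
      (h₁ : A₁.Nonempty) (h₂ : A₂.Nonempty)
      (hc : B {v // v ∈ A₂ᶜ} (G.comap Subtype.val))
      (h1 : SCls B t u s {v // v ∈ A₁ᶜ} (G.comap Subtype.val)) : SCls B t u s V G

end Pool.Agent.Xbh
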