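import Pool.Agent.Xbh.Local
import Pool.Agent.Xbh.Rank

set_option autoImplicit false

/-!
# Substitution
-/

namespace Pool.Agent.Xbh

open Finset

variable {V : Type} [Fintype V] [DecidableEq V]

-- BEGIN sxc
omit [Fintype V] [DecidableEq V] in
private theorem sxc_aff {k : ℕ} (π : (Fin k → ℝ) →ᵃ[ℝ] (V → ℝ)) (y : Fin k → ℝ) (v : V) :
    π y v = ∑ j, π.linear (Pi.single j 1) v * y j + π 0 v := by
  classical
  have h1 : π y = π.linear y + π 0 := by
    have := π.decomp
    rw [this]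
    simp
  have h2 : π.linear y = ∑ j, y j • π.linear (Pi.single j 1) := by
    conv_lhs => rw [← Finset.univ_sum_single y]
    rw [map_sum]
    refine Finset.sum_congr rfl (fun j _ => ?_)
    rw [← map_smul]
    congr 1
    ext i
    by_cases hij : i = j
    · subst hij
      simp
    · simp [hij]
  rw [h1, Pi.add_apply, h2, Finset.sum_apply]
  congr 1
  refine Finset.sum_congr rfl (fun j _ => ?_)
  rw [Pi.smul_apply, smul_eq_mul, mul_comm]

/-- the linear part of the map of the product -/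
private noncomputable def sxc_lin {k₁ k₂ : ℕ} (M : Finset V) (m : V)
    (π₁ : (Fin k₁ → ℝ) →ᵃ[ℝ] (V → ℝ)) (π₂ : (Fin k₂ → ℝ) →ᵃ[ℝ] (V → ℝ)) :
    (Fin k₁ ⊕ Fin k₂ → ℝ) →ₗ[ℝ] (V → ℝ) where
  toFun w := fun v => if v ∈ M then π₂.linear (fun j => w (Sum.inr j)) v +
    π₁.linear (fun j => w (Sum.inl j)) m * π₂ 0 v else π₁.linear (fun j => w (Sum.inl j)) v
  map_add' x y := by
    funext v
    have e1 : (fun j => (x + y) (Sum.inr j)) = (fun j => x (Sum.inr j)) + fun j => y (Sum.inr j) :=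
      rfl
    have e2 : (fun j => (x + y) (Sum.inl j)) = (fun j => x (Sum.inl j)) + fun j => y (Sum.inl j) :=
      rfl
    rw [e1, e2, map_add, map_add, Pi.add_apply, Pi.add_apply, Pi.add_apply, Pi.add_apply]
    split_ifs
    · ring
    · rfl
  map_smul' c x := by
    funext v
    have e1 : (fun j => (c • x) (Sum.inr j)) = c • (fun j => x (Sum.inr j)) := rfl
    have e2 : (fun j => (c • x) (Sum.inl j)) = c • (fun j => x (Sum.inl j)) := rfl
    rw [e1, e2, map_smul, map_smul, RingHom.id_apply, Pi.smul_apply, Pi.smul_apply, Pi.smul_apply,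
      Pi.smul_apply]
    simp only [smul_eq_mul]
    split_ifs
    · ring
    · rfl

/-- the map of the product -/
private noncomputable def sxc_map {k₁ k₂ : ℕ} (M : Finset V) (m : V)
    (π₁ : (Fin k₁ → ℝ) →ᵃ[ℝ] (V → ℝ)) (π₂ : (Fin k₂ → ℝ) →ᵃ[ℝ] (V → ℝ)) :
    (Fin k₁ ⊕ Fin k₂ → ℝ) →ᵃ[ℝ] (V → ℝ) where
  toFun w := sxc_lin M m π₁ π₂ w + fun v => if v ∈ M then π₁ 0 m * π₂ 0 v else π₁ 0 v
  linear := sxc_lin M m π₁ π₂
  map_vadd' p v := by
    simp only [vadd_eq_add, map_add]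
    abel

private theorem sxc_val {k₁ k₂ : ℕ} (M : Finset V) (m : V)
    (π₁ : (Fin k₁ → ℝ) →ᵃ[ℝ] (V → ℝ)) (π₂ : (Fin k₂ → ℝ) →ᵃ[ℝ] (V → ℝ))
    (w : Fin k₁ ⊕ Fin k₂ → ℝ) (v : V) :
    sxc_map M m π₁ π₂ w v = if v ∈ M then π₂.linear (fun j => w (Sum.inr j)) v +
      π₁ (fun j => w (Sum.inl j)) m * π₂ 0 v else π₁ (fun j => w (Sum.inl j)) v := by
  have h0 : sxc_map M m π₁ π₂ w v = (if v ∈ M then π₂.linear (fun j => w (Sum.inr j)) v +
      π₁.linear (fun j => w (Sum.inl j)) m * π₂ 0 v else π₁.linear (fun j => w (Sum.inl j)) v) +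
      (if v ∈ M then π₁ 0 m * π₂ 0 v else π₁ 0 v) := rfl
  rw [h0, bal_up _ π₁ (fun j => w (Sum.inl j)), Pi.add_apply, Pi.add_apply]
  split_ifs
  · ring
  · rfl

/-- Homogenized product. Hint (compare `glu` and `bal` in Poly.lean): `P₁ = π₁ '' Q₁`,
`P₂ = π₂ '' Q₂`, `Q_i = {A_i y ≤ b_i}` bounded; put `t y₁ = π₁ y₁ m` (an affine function of `y₁`, with
coefficients `τ j = π₁.linear (Pi.single j 1) m` and constant `π₁ 0 m`, see `glu_aff`, which is private: copy it
with the prefix sxc). Inequalities `Fin f₁ ⊕ Fin f₂`, variables `Fin k₁ ⊕ Fin k₂`: `A₁ y₁ ≤ b₁` and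
`A₂ y₂ - b₂ * (∑ τ j y₁ j) ≤ b₂ * π₁ 0 m`, i.e. `A₂ y₂ ≤ t b₂`; the map
`v ↦ if v ∈ M then (π₂.linear y₂) v + t * (π₂ 0) v else (π₁ y₁) v`. On `Q₁` `0 ≤ t ≤ T` for some `T ≥ 1`
(`hb` and boundedness: an affine map is bounded on a bounded set, or `rec1` for `Q₁` with `lam = 1` gives
`|y₁ j| ≤ R`). Boundedness of `y₂`: `rec1` for `Q₂` with `lam = t / T` applied to `y₂ / T`. Image: `bal_in`
and `bal_out` for `Q₂` with `lam = t` (they need only `0 ≤ lam`). At the end `xof`. If `Q₁` is empty both sides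
are empty. -/
theorem sxc (M : Finset V) (m : V) (P₁ P₂ : Set (V → ℝ)) (f₁ f₂ : ℕ) (h₁ : XC P₁ f₁)
    (h₂ : XC P₂ f₂) (n₁ : P₁.Nonempty) (n₂ : P₂.Nonempty) (hb : ∀ x ∈ P₁, 0 ≤ x m) :
    XC {x : V → ℝ | ∃ z ∈ P₁, ∃ y ∈ P₂, x = fun v => if v ∈ M then z m * y v else z v}
      (f₁ + f₂) := by
  obtain ⟨k₁, A₁, b₁, π₁, bd₁, im₁⟩ := h₁
  obtain ⟨k₂, A₂, b₂, π₂, bd₂, im₂⟩ := h₂
  have q₁ : ({y : Fin k₁ → ℝ | ∀ i, ∑ j, A₁ i j * y j ≤ b₁ i}).Nonempty := by
    rw [← im₁] at n₁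
    exact n₁.of_image
  have q₂ : ({y : Fin k₂ → ℝ | ∀ i, ∑ j, A₂ i j * y j ≤ b₂ i}).Nonempty := by
    rw [← im₂] at n₂
    exact n₂.of_image
  refine xof (Fin f₁ ⊕ Fin f₂) (Fin k₁ ⊕ Fin k₂) _ ?_ _ (by simp)
  set τ : Fin k₁ → ℝ := fun j => π₁.linear (Pi.single j 1) m with hτ
  have hT : ∀ y : Fin k₁ → ℝ, π₁ y m = ∑ j, τ j * y j + π₁ 0 m := fun y => sxc_aff π₁ y m
  have key : ∀ w : Fin k₁ ⊕ Fin k₂ → ℝ,
      (∀ i, ∑ j, (Sum.elim (fun i => Sum.elim (A₁ i) (fun _ => 0))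
        (fun i => Sum.elim (fun j => -(b₂ i * τ j)) (A₂ i)) : Fin f₁ ⊕ Fin f₂ →
          Fin k₁ ⊕ Fin k₂ → ℝ) i j * w j ≤
        (Sum.elim b₁ (fun i => b₂ i * π₁ 0 m) : Fin f₁ ⊕ Fin f₂ → ℝ) i) ↔
      (∀ i, ∑ j, A₁ i j * w (Sum.inl j) ≤ b₁ i) ∧
        ∀ i, ∑ j, A₂ i j * w (Sum.inr j) ≤ π₁ (fun j => w (Sum.inl j)) m * b₂ i := by
    intro w
    have e1 : ∀ i, ∑ j, (Sum.elim (fun i => Sum.elim (A₁ i) (fun _ => 0))
        (fun i => Sum.elim (fun j => -(b₂ i * τ j)) (A₂ i)) : Fin f₁ ⊕ Fin f₂ →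
          Fin k₁ ⊕ Fin k₂ → ℝ) (Sum.inl i) j * w j = ∑ j, A₁ i j * w (Sum.inl j) := by
      intro i
      rw [Fintype.sum_sum_type]
      simp only [Sum.elim_inl, Sum.elim_inr, zero_mul, Finset.sum_const_zero, add_zero]
    have e2 : ∀ i, ∑ j, (Sum.elim (fun i => Sum.elim (A₁ i) (fun _ => 0))
        (fun i => Sum.elim (fun j => -(b₂ i * τ j)) (A₂ i)) : Fin f₁ ⊕ Fin f₂ →
          Fin k₁ ⊕ Fin k₂ → ℝ) (Sum.inr i) j * w j =
        -(b₂ i * ∑ j, τ j * w (Sum.inl j)) + ∑ j, A₂ i j * w (Sum.inr j) := by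
      intro i
      rw [Fintype.sum_sum_type]
      simp only [Sum.elim_inl, Sum.elim_inr]
      rw [Finset.mul_sum, ← Finset.sum_neg_distrib]
      congr 1
      exact Finset.sum_congr rfl fun j _ => by ring
    constructor
    · intro h
      refine ⟨fun i => ?_, fun i => ?_⟩
      · have := h (Sum.inl i)
        rw [e1] at this
        exact this
      · have := h (Sum.inr i)
        rw [e2] at this
        rw [hT]
        have e3 : (Sum.elim b₁ (fun i => b₂ i * π₁ 0 m) : Fin f₁ ⊕ Fin f₂ → ℝ) (Sum.inr i) =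
            b₂ i * π₁ 0 m := rfl
        rw [e3] at this
        linarith
    · rintro ⟨h1, h2⟩ i
      rcases i with i | i
      · rw [e1]
        exact h1 i
      · rw [e2]
        have e3 : (Sum.elim b₁ (fun i => b₂ i * π₁ 0 m) : Fin f₁ ⊕ Fin f₂ → ℝ) (Sum.inr i) =
            b₂ i * π₁ 0 m := rfl
        rw [e3]
        have := h2 i
        rw [hT] at this
        linarith
  have hmem : ∀ y : Fin k₁ → ℝ, (∀ i, ∑ j, A₁ i j * y j ≤ b₁ i) → π₁ y ∈ P₁ := by
    intro y hy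
    rw [← im₁]
    exact ⟨y, hy, rfl⟩
  refine ⟨Sum.elim (fun i => Sum.elim (A₁ i) (fun _ => 0))
    (fun i => Sum.elim (fun j => -(b₂ i * τ j)) (A₂ i)), Sum.elim b₁ (fun i => b₂ i * π₁ 0 m),
    sxc_map M m π₁ π₂, ?_, ?_⟩
  · obtain ⟨R₁, hR₁, r₁⟩ := rec1 (Fin f₁) (Fin k₁) A₁ b₁ bd₁ q₁
    obtain ⟨R₂, hR₂, r₂⟩ := rec1 (Fin f₂) (Fin k₂) A₂ b₂ bd₂ q₂
    set T : ℝ := ∑ j, |τ j| * R₁ + |π₁ 0 m| + 1 with hTd
    have hT0 : 0 ≤ ∑ j, |τ j| * R₁ := Finset.sum_nonneg fun j _ => mul_nonneg (abs_nonneg _) hR₁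
    have hT1 : 1 ≤ T := by
      have := abs_nonneg (π₁ 0 m)
      linarith
    rw [isBounded_iff_forall_norm_le]
    refine ⟨max R₁ (T * R₂), fun w hw => ?_⟩
    obtain ⟨w1, w2⟩ := (key w).1 hw
    have c1 : ∀ j, |w (Sum.inl j)| ≤ R₁ := r₁ 1 zero_le_one le_rfl (fun j => w (Sum.inl j))
      (fun i => by rw [one_mul]; exact w1 i)
    have t0 : 0 ≤ π₁ (fun j => w (Sum.inl j)) m := hb _ (hmem _ w1)
    have t1 : π₁ (fun j => w (Sum.inl j)) m ≤ T := by
      rw [hT, hTd]
      have : ∑ j, τ j * w (Sum.inl j) ≤ ∑ j, |τ j| * R₁ := by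
        refine Finset.sum_le_sum fun j _ => ?_
        calc τ j * w (Sum.inl j) ≤ |τ j * w (Sum.inl j)| := le_abs_self _
          _ = |τ j| * |w (Sum.inl j)| := abs_mul _ _
          _ ≤ |τ j| * R₁ := mul_le_mul_of_nonneg_left (c1 j) (abs_nonneg _)
      have := le_abs_self (π₁ 0 m)
      linarith
    have hTpos : 0 < T := by linarith
    have c2 : ∀ j, |w (Sum.inr j)| ≤ T * R₂ := by
      intro j
      have c3 := r₂ (π₁ (fun j => w (Sum.inl j)) m / T) (div_nonneg t0 hTpos.le)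
        ((div_le_one hTpos).2 t1) (fun j => T⁻¹ * w (Sum.inr j)) (fun i => ?_) j
      · rw [abs_mul, abs_of_pos (inv_pos.2 hTpos)] at c3
        have c4 := mul_le_mul_of_nonneg_left c3 hTpos.le
        rw [← mul_assoc, mul_inv_cancel₀ hTpos.ne', one_mul] at c4
        exact c4
      · have e1 : ∑ j, A₂ i j * (T⁻¹ * w (Sum.inr j)) = T⁻¹ * ∑ j, A₂ i j * w (Sum.inr j) := by
          rw [Finset.mul_sum]
          exact Finset.sum_congr rfl fun j _ => by ring
        rw [e1]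
        have e2 := mul_le_mul_of_nonneg_left (w2 i) (inv_pos.2 hTpos).le
        calc T⁻¹ * ∑ j, A₂ i j * w (Sum.inr j)
            ≤ T⁻¹ * (π₁ (fun j => w (Sum.inl j)) m * b₂ i) := e2
          _ = π₁ (fun j => w (Sum.inl j)) m / T * b₂ i := by ring
    rw [pi_norm_le_iff_of_nonneg (hR₁.trans (le_max_left _ _))]
    intro j
    rcases j with j | j
    · exact (c1 j).trans (le_max_left _ _)
    · exact (c2 j).trans (le_max_right _ _)
  · ext x
    constructor
    · rintro ⟨w, hw, rfl⟩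
      obtain ⟨w1, w2⟩ := (key w).1 hw
      have hz := hmem _ w1
      obtain ⟨y, hy, e⟩ := bal_in (Fin f₂) (Fin k₂) A₂ b₂ π₂ bd₂ q₂ _ (hb _ hz)
        (fun j => w (Sum.inr j)) w2
      rw [im₂] at hy
      refine ⟨_, hz, y, hy, ?_⟩
      funext v
      rw [sxc_val]
      split_ifs
      · have e1 := congrFun e v
        simpa only [Pi.add_apply, Pi.smul_apply, smul_eq_mul] using e1
      · rfl
    · rintro ⟨z, hz, y, hy, rfl⟩
      have hz0 := hb z hz
      rw [← im₁] at hz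
      rw [← im₂] at hy
      obtain ⟨y₁, hy₁, rfl⟩ := hz
      obtain ⟨y₂, hy₂, e⟩ := bal_out (Fin f₂) (Fin k₂) A₂ b₂ π₂ _ hz0 y hy
      refine ⟨Sum.elim y₁ y₂, (key _).2 ⟨hy₁, hy₂⟩, ?_⟩
      funext v
      rw [sxc_val]
      show (if v ∈ M then π₂.linear y₂ v + π₁ y₁ m * π₂ 0 v else π₁ y₁ v) = _
      split_ifs
      · have e1 := congrFun e v
        simpa only [Pi.add_apply, Pi.smul_apply, smul_eq_mul] using e1
      · rfl
-- END sxc

-- BEGIN sst
private noncomputable def sstF (M : Finset V) (m : V) (z y : V → ℝ) : V → ℝ :=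
  fun v => if v ∈ M then z m * y v else z v

private theorem sst_conv (G : SimpleGraph V) (S : Finset V) : Convex ℝ (STAB G S) :=
  convex_convexHull ℝ _

private theorem sst_mem (G : SimpleGraph V) {S s : Finset V} (h : s ⊆ S) (hs : Stb G s) :
    ind s ∈ STAB G S := subset_convexHull ℝ _ ⟨s, h, hs, rfl⟩

private theorem sst_le (G : SimpleGraph V) (W M : Finset V) (m : V) (hm : m ∈ M) (hMW : M ⊆ W)
    (hmod : ∀ x ∈ W, x ∉ M → (∀ u ∈ M, G.Adj x u) ∨ ∀ u ∈ M, ¬ G.Adj x u) (s : Finset V)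
    (hsW : s ⊆ W) (hs : Stb G s) :
    ∃ z ∈ STAB G (insert m (W \ M)), ∃ y ∈ STAB G M, ind s = sstF M m z y := by
  rcases (s ∩ M).eq_empty_or_nonempty with h0 | ⟨w, hw⟩
  · have hnot : ∀ v, v ∈ s → v ∉ M := by
      intro v hv hvM
      have h1 : v ∈ s ∩ M := mem_inter.2 ⟨hv, hvM⟩
      rw [h0] at h1
      exact absurd h1 (notMem_empty v)
    refine ⟨ind s, sst_mem G ?_ hs, ind ∅, sst_mem G (empty_subset _) ?_, ?_⟩
    · intro v hv
      exact mem_insert_of_mem (mem_sdiff.2 ⟨hsW hv, hnot v hv⟩)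
    · intro u hu
      exact absurd hu (notMem_empty u)
    · funext v
      unfold sstF
      by_cases hv : v ∈ M
      · rw [if_pos hv]
        unfold ind
        rw [if_neg (fun hh => hnot v hh hv), if_neg (notMem_empty v), mul_zero]
      · rw [if_neg hv]
  · rw [mem_inter] at hw
    have hst : Stb G (insert m (s \ M)) := by
      have h1 : ∀ v ∈ s \ M, ¬ G.Adj v m := by
        intro v hv hvm
        rw [mem_sdiff] at hv
        rcases hmod v (hsW hv.1) hv.2 with h2 | h2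
        · exact hs v hv.1 w hw.1 (h2 w hw.2)
        · exact h2 m hm hvm
      intro u hu v hv huv
      rw [mem_insert] at hu hv
      rcases hu with rfl | hu
      · rcases hv with rfl | hv
        · exact G.loopless.irrefl _ huv
        · exact h1 v hv huv.symm
      · rcases hv with rfl | hv
        · exact h1 u hu huv
        · exact hs u (mem_sdiff.1 hu).1 v (mem_sdiff.1 hv).1 huv
    refine ⟨ind (insert m (s \ M)), sst_mem G ?_ hst, ind (s ∩ M), sst_mem G inter_subset_right ?_, ?_⟩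
    · exact insert_subset_insert _ (sdiff_subset_sdiff hsW (subset_refl _))
    · intro u hu v hv
      exact hs u (mem_inter.1 hu).1 v (mem_inter.1 hv).1
    · funext v
      unfold sstF ind
      rw [if_pos (mem_insert_self m _), one_mul]
      by_cases hv : v ∈ M
      · rw [if_pos hv]
        by_cases hvs : v ∈ s
        · rw [if_pos hvs, if_pos (mem_inter.2 ⟨hvs, hv⟩)]
        · rw [if_neg hvs, if_neg (fun hh => hvs (mem_inter.1 hh).1)]
      · rw [if_neg hv]
        have hvm : v ≠ m := fun hh => hv (hh ▸ hm)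
        by_cases hvs : v ∈ s
        · rw [if_pos hvs, if_pos (mem_insert_of_mem (mem_sdiff.2 ⟨hvs, hv⟩))]
        · rw [if_neg hvs, if_neg]
          intro hh
          rcases mem_insert.1 hh with h1 | h1
          · exact hvm h1
          · exact hvs (mem_sdiff.1 h1).1

private theorem sst_cv (G : SimpleGraph V) (W M : Finset V) (m : V) :
    Convex ℝ {x : V → ℝ | ∃ z ∈ STAB G W, ∃ y ∈ STAB G M, x = sstF M m z y} := by
  rintro x₁ ⟨z₁, hz₁, y₁, hy₁, rfl⟩ x₂ ⟨z₂, hz₂, y₂, hy₂, rfl⟩ a b ha hb hab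
  have hz : a • z₁ + b • z₂ ∈ STAB G W := sst_conv G W hz₁ hz₂ ha hb hab
  have p1 : 0 ≤ z₁ m := (sti G W z₁ hz₁).1 m
  have p2 : 0 ≤ z₂ m := (sti G W z₂ hz₂).1 m
  have q1 : 0 ≤ a * z₁ m := mul_nonneg ha p1
  have q2 : 0 ≤ b * z₂ m := mul_nonneg hb p2
  rcases (add_nonneg q1 q2).eq_or_lt with h0 | h0
  · have e1 : a * z₁ m = 0 := by linarith
    have e2 : b * z₂ m = 0 := by linarith
    refine ⟨a • z₁ + b • z₂, hz, y₁, hy₁, ?_⟩
    funext v
    change a * sstF M m z₁ y₁ v + b * sstF M m z₂ y₂ v = sstF M m (a • z₁ + b • z₂) y₁ v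
    unfold sstF
    by_cases hv : v ∈ M
    · rw [if_pos hv, if_pos hv, if_pos hv]
      change a * (z₁ m * y₁ v) + b * (z₂ m * y₂ v) = (a * z₁ m + b * z₂ m) * y₁ v
      rw [← mul_assoc, ← mul_assoc, e1, e2]
      ring
    · rw [if_neg hv, if_neg hv, if_neg hv]
      rfl
  · have hc1 : 0 ≤ a * z₁ m / (a * z₁ m + b * z₂ m) := div_nonneg q1 h0.le
    have hc2 : 0 ≤ b * z₂ m / (a * z₁ m + b * z₂ m) := div_nonneg q2 h0.le
    have hc3 : a * z₁ m / (a * z₁ m + b * z₂ m) + b * z₂ m / (a * z₁ m + b * z₂ m) = 1 := by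
      rw [← add_div, div_self h0.ne']
    refine ⟨a • z₁ + b • z₂, hz, _, sst_conv G M hy₁ hy₂ hc1 hc2 hc3, ?_⟩
    funext v
    change a * sstF M m z₁ y₁ v + b * sstF M m z₂ y₂ v = sstF M m (a • z₁ + b • z₂) _ v
    unfold sstF
    by_cases hv : v ∈ M
    · rw [if_pos hv, if_pos hv, if_pos hv]
      change a * (z₁ m * y₁ v) + b * (z₂ m * y₂ v) = (a * z₁ m + b * z₂ m) *
        (a * z₁ m / (a * z₁ m + b * z₂ m) * y₁ v + b * z₂ m / (a * z₁ m + b * z₂ m) * y₂ v)
      have h1 := h0.ne'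
      field_simp
    · rw [if_neg hv, if_neg hv, if_neg hv]
      rfl

private theorem sst_ge (G : SimpleGraph V) (W M : Finset V) (m : V) (hm : m ∈ M) (hMW : M ⊆ W)
    (hmod : ∀ x ∈ W, x ∉ M → (∀ u ∈ M, G.Adj x u) ∨ ∀ u ∈ M, ¬ G.Adj x u) (s u : Finset V)
    (hs1 : s ⊆ insert m (W \ M)) (hs : Stb G s) (hu1 : u ⊆ M) (hu : Stb G u) :
    sstF M m (ind s) (ind u) ∈ STAB G W := by
  have hsM : ∀ v ∈ s, v ∈ M → v = m := by
    intro v hv hvM
    rcases mem_insert.1 (hs1 hv) with h1 | h1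
    · exact h1
    · exact absurd hvM (mem_sdiff.1 h1).2
  have hsW : ∀ v ∈ s, v ∈ W := by
    intro v hv
    rcases mem_insert.1 (hs1 hv) with h1 | h1
    · rw [h1]; exact hMW hm
    · exact (mem_sdiff.1 h1).1
  have hF : sstF M m (ind s) (ind u) = ind ((s \ M) ∪ (if m ∈ s then u else ∅)) := by
    funext v
    unfold sstF ind
    by_cases hv : v ∈ M
    · rw [if_pos hv]
      by_cases hms : m ∈ s
      · rw [if_pos hms, if_pos hms, one_mul]
        by_cases hvu : v ∈ u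
        · rw [if_pos hvu, if_pos (mem_union_right _ hvu)]
        · rw [if_neg hvu, if_neg]
          intro hh
          rcases mem_union.1 hh with h1 | h1
          · exact (mem_sdiff.1 h1).2 hv
          · exact hvu h1
      · rw [if_neg hms, if_neg hms, zero_mul, if_neg]
        intro hh
        rcases mem_union.1 hh with h1 | h1
        · exact (mem_sdiff.1 h1).2 hv
        · exact notMem_empty v h1
    · rw [if_neg hv]
      by_cases hvs : v ∈ s
      · rw [if_pos hvs, if_pos (mem_union_left _ (mem_sdiff.2 ⟨hvs, hv⟩))]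
      · rw [if_neg hvs, if_neg]
        intro hh
        rcases mem_union.1 hh with h1 | h1
        · exact hvs (mem_sdiff.1 h1).1
        · by_cases hms : m ∈ s
          · rw [if_pos hms] at h1
            exact hv (hu1 h1)
          · rw [if_neg hms] at h1
            exact notMem_empty v h1
  rw [hF]
  apply sst_mem
  · intro v hv
    rcases mem_union.1 hv with h1 | h1
    · exact hsW v (mem_sdiff.1 h1).1
    · by_cases hms : m ∈ s
      · rw [if_pos hms] at h1
        exact hMW (hu1 h1)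
      · rw [if_neg hms] at h1
        exact absurd h1 (notMem_empty v)
  · have hcross : ∀ v ∈ s \ M, ∀ w ∈ (if m ∈ s then u else ∅), ¬ G.Adj v w := by
      intro v hv w hw hvw
      rw [mem_sdiff] at hv
      by_cases hms : m ∈ s
      · rw [if_pos hms] at hw
        rcases hmod v (hsW v hv.1) hv.2 with h1 | h1
        · exact hs v hv.1 m hms (h1 m hm)
        · exact h1 w (hu1 hw) hvw
      · rw [if_neg hms] at hw
        exact notMem_empty w hw
    intro v hv w hw hvw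
    rcases mem_union.1 hv with h1 | h1
    · rcases mem_union.1 hw with h2 | h2
      · exact hs v (mem_sdiff.1 h1).1 w (mem_sdiff.1 h2).1 hvw
      · exact hcross v h1 w h2 hvw
    · rcases mem_union.1 hw with h2 | h2
      · exact hcross w h2 v h1 hvw.symm
      · by_cases hms : m ∈ s
        · rw [if_pos hms] at h1 h2
          exact hu v h1 w h2 hvw
        · rw [if_neg hms] at h1
          exact notMem_empty v h1

/-- Substitution for stable set polytopes. Hint. `⊆`: the right side is convex? Not needed in this form: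
it is enough that `STAB G W` is the convex hull of the `ind s`, and that the right side is convex; convexity:
`z = a z₁ + b z₂`, and `y = (a z₁ m y₁ + b z₂ m y₂) / z m` (any `y` if `z m = 0`, then both products
`z_i m * y_i` with nonzero weight vanish); `STAB G M` is convex (`convex_convexHull`). A vertex `ind s`,
`s ⊆ W` stable: if `s ∩ M = ∅` take `z = ind s`, `y = ind ∅`; otherwise `z = ind (insert m (s \ M))` (stable: a vertex of
`s \ M` adjacent to `m` is adjacent to all of `M`) and `y = ind (s ∩ M)`. `⊇`: for `z = ind s`,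
`s ⊆ insert m (W \ M)` and `y = ind u`, `u ⊆ M` both stable the point is `ind` of a stable set; for fixed `z = ind s` the map
`y ↦ ..` is affine (linear plus constant), so the point is in `STAB G W` for all `y ∈ STAB G M` (`convexHull_min` into the preimage
of the convex set `STAB G W`, shown convex by hand); for fixed `y` the map `z ↦ ..` is linear, the same. -/
theorem sst (G : SimpleGraph V) (W M : Finset V) (m : V) (hm : m ∈ M) (hMW : M ⊆ W)
    (hmod : ∀ x ∈ W, x ∉ M → (∀ u ∈ M, G.Adj x u) ∨ ∀ u ∈ M, ¬ G.Adj x u) :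
    STAB G W = {x : V → ℝ | ∃ z ∈ STAB G (insert m (W \ M)), ∃ y ∈ STAB G M,
      x = fun v => if v ∈ M then z m * y v else z v} := by
  apply Set.Subset.antisymm
  · refine convexHull_min ?_ (sst_cv G (insert m (W \ M)) M m)
    rintro x ⟨s, hs1, hs2, rfl⟩
    exact sst_le G W M m hm hMW hmod s hs1 hs2
  · rintro x ⟨z, hz, y, hy, rfl⟩
    change sstF M m z y ∈ STAB G W
    have h1 : ∀ s : Finset V, s ⊆ insert m (W \ M) → Stb G s →
        ∀ y ∈ STAB G M, sstF M m (ind s) y ∈ STAB G W := by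
      intro s hs1 hs y hy
      have hcv : Convex ℝ {y : V → ℝ | sstF M m (ind s) y ∈ STAB G W} := by
        intro y₁ hy₁ y₂ hy₂ a b ha hb hab
        have h2 : sstF M m (ind s) (a • y₁ + b • y₂) =
            a • sstF M m (ind s) y₁ + b • sstF M m (ind s) y₂ := by
          funext v
          change sstF M m (ind s) (a • y₁ + b • y₂) v =
            a * sstF M m (ind s) y₁ v + b * sstF M m (ind s) y₂ v
          unfold sstF
          by_cases hv : v ∈ M
          · rw [if_pos hv, if_pos hv, if_pos hv]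
            change ind s m * (a * y₁ v + b * y₂ v) = _
            ring
          · rw [if_neg hv, if_neg hv, if_neg hv, ← add_mul, hab, one_mul]
        change sstF M m (ind s) (a • y₁ + b • y₂) ∈ STAB G W
        rw [h2]
        exact sst_conv G W hy₁ hy₂ ha hb hab
      have hmin : STAB G M ⊆ {y : V → ℝ | sstF M m (ind s) y ∈ STAB G W} := by
        refine convexHull_min ?_ hcv
        rintro x ⟨u, hu1, hu, rfl⟩
        exact sst_ge G W M m hm hMW hmod s u hs1 hs hu1 hu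
      exact hmin hy
    have hcv : Convex ℝ {z : V → ℝ | sstF M m z y ∈ STAB G W} := by
      intro z₁ hz₁ z₂ hz₂ a b ha hb hab
      have h2 : sstF M m (a • z₁ + b • z₂) y = a • sstF M m z₁ y + b • sstF M m z₂ y := by
        funext v
        change sstF M m (a • z₁ + b • z₂) y v = a * sstF M m z₁ y v + b * sstF M m z₂ y v
        unfold sstF
        by_cases hv : v ∈ M
        · rw [if_pos hv, if_pos hv, if_pos hv]
          change (a * z₁ m + b * z₂ m) * y v = _
          ring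
        · rw [if_neg hv, if_neg hv, if_neg hv]
          rfl
      change sstF M m (a • z₁ + b • z₂) y ∈ STAB G W
      rw [h2]
      exact sst_conv G W hz₁ hz₂ ha hb hab
    have hmin : STAB G (insert m (W \ M)) ⊆ {z : V → ℝ | sstF M m z y ∈ STAB G W} := by
      refine convexHull_min ?_ hcv
      rintro x ⟨s, hs1, hs, rfl⟩
      exact h1 s hs1 hs y hy
    exact hmin hz
-- END sst

/-- The extension complexity of a substitution. -/
theorem mdl (G : SimpleGraph V) (W M : Finset V) (m : V) (hm : m ∈ M) (hMW : M ⊆ W)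
    (hmod : ∀ x ∈ W, x ∉ M → (∀ u ∈ M, G.Adj x u) ∨ ∀ u ∈ M, ¬ G.Adj x u) (f₁ f₂ : ℕ)
    (h₁ : XC (STAB G (insert m (W \ M))) f₁) (h₂ : XC (STAB G M) f₂) :
    XC (STAB G W) (f₁ + f₂) := by
  have hne : ∀ S : Finset V, (STAB G S).Nonempty := fun S =>
    ⟨ind ∅, subset_convexHull ℝ _ ⟨∅, Finset.empty_subset _,
      fun u hu => absurd hu (Finset.notMem_empty u), rfl⟩⟩
  rw [sst G W M m hm hMW hmod]
  exact sxc M m _ _ f₁ f₂ h₁ h₂ (hne _) (hne _) (fun x hx => (sti G _ x hx).1 m)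

end Pool.Agent.Xbh
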