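import Pool.Agent.Xbh.Greedy

set_option autoImplicit false
set_option linter.unusedSectionVars false

namespace Pool.Agent.Xbh

open Finset

variable {V : Type} [Fintype V] [DecidableEq V]

-- BEGIN wle
/-- Hint: `ms μ (nb G u) ≤ 1`. -/
theorem wle (G : SimpleGraph V) (μ : V → ℝ) (U : Finset V) (δ : ℝ) (h : Wt μ U δ) :
    en G μ ≤ 1 := by
  unfold en
  rw [← h.tot]
  refine Finset.sum_le_sum fun u _ => ?_
  have h1 : ms μ (nb G u) ≤ 1 := by
    refine (ms_mono μ h.nn (Finset.subset_univ _)).trans ?_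
    unfold ms
    rw [h.tot]
  exact mul_le_of_le_one_right (h.nn u) h1
-- END wle

-- BEGIN wun
/-- The uniform measure. Hint: `μ v = if v ∈ U then 1 / U.card else 0`; if `U = {u}` then
`ms μ (nb G u) = 0` because `u ∉ nb G u`. -/
theorem wun (U : Finset V) (hU : U.Nonempty) :
    ∃ μ : V → ℝ, Wt μ U 1 ∧ (U.card = 1 → ∀ G : SimpleGraph V, en G μ = 0) := by
  have hc : (0 : ℝ) < U.card := by exact_mod_cast hU.card_pos
  refine ⟨fun v => if v ∈ U then 1 / (U.card : ℝ) else 0, ⟨fun v => ?_, fun v hv => ?_, ?_,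
    fun v => ?_⟩, fun h1 G => ?_⟩
  · show 0 ≤ (if v ∈ U then 1 / (U.card : ℝ) else 0)
    split_ifs
    · positivity
    · exact le_refl _
  · show (if v ∈ U then 1 / (U.card : ℝ) else 0) = 0
    rw [if_neg hv]
  · show ∑ v, (if v ∈ U then 1 / (U.card : ℝ) else 0) = 1
    rw [Finset.sum_ite_mem, Finset.univ_inter, Finset.sum_const, nsmul_eq_mul]
    field_simp
  · show (if v ∈ U then 1 / (U.card : ℝ) else 0) * (1 * (U.card : ℝ)) ≤ 1
    split_ifs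
    · rw [one_mul, one_div, inv_mul_cancel₀ hc.ne']
    · rw [zero_mul]
      exact zero_le_one
  · obtain ⟨u, hu⟩ := Finset.card_eq_one.1 h1
    unfold en
    refine Finset.sum_eq_zero fun w _ => ?_
    by_cases hw : w ∈ U
    · rw [hu, Finset.mem_singleton] at hw
      have h2 : ms (fun v => if v ∈ U then 1 / (U.card : ℝ) else 0) (nb G w) = 0 := by
        unfold ms
        refine Finset.sum_eq_zero fun x hx => ?_
        rw [mem_nb] at hx
        have h3 : x ∉ U := by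
          rw [hu, Finset.mem_singleton]
          intro h4
          rw [hw, h4] at hx
          exact G.loopless.irrefl u hx
        exact if_neg h3
      rw [h2, mul_zero]
    · show (if w ∈ U then 1 / (U.card : ℝ) else 0) * _ = 0
      rw [if_neg hw, zero_mul]
-- END wun

-- BEGIN wmo
theorem wmo (μ : V → ℝ) (C U : Finset V) (δ δ1 δ2 : ℝ) (h : Wt μ C δ) (hCU : C ⊆ U)
    (hδ : 0 < δ) (h1 : δ1 * U.card ≤ C.card) (h2 : δ2 ≤ δ * δ1) : Wt μ U δ2 := by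
  refine ⟨h.nn, fun v hv => h.out v fun hc => hv (hCU hc), h.tot, fun v => ?_⟩
  have hU : (0 : ℝ) ≤ (U.card : ℝ) := Nat.cast_nonneg _
  have h3 : δ2 * U.card ≤ δ * C.card := by
    calc δ2 * U.card ≤ δ * δ1 * U.card := mul_le_mul_of_nonneg_right h2 hU
      _ = δ * (δ1 * U.card) := by ring
      _ ≤ δ * C.card := mul_le_mul_of_nonneg_left h1 hδ.le
  exact (mul_le_mul_of_nonneg_left h3 (h.nn v)).trans (h.pt v)
-- END wmo

-- BEGIN wmx
theorem wmx_sym (G : SimpleGraph V) (μ ν : V → ℝ) :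
    ∑ u, μ u * ms ν (nb G u) = ∑ u, ν u * ms μ (nb G u) := by
  classical
  have e : ∀ (ρ : V → ℝ) (u : V), ms ρ (nb G u) = ∑ w, if G.Adj u w then ρ w else 0 := by
    intro ρ u
    have h1 : nb G u = Finset.univ.filter (fun w => G.Adj u w) := by
      ext w
      rw [mem_nb]
      simp
    unfold ms
    rw [h1, Finset.sum_filter]
  simp_rw [e, Finset.mul_sum]
  rw [Finset.sum_comm]
  refine Finset.sum_congr rfl (fun w _ => Finset.sum_congr rfl (fun u _ => ?_))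
  by_cases h : G.Adj u w
  · rw [if_pos h, if_pos h.symm, mul_comm]
  · rw [if_neg h, if_neg (fun h' => h h'.symm)]
    simp

/-- Mixing two measures. Hint: `μ = (μ₁ + μ₂) / 2`; expand
`en G μ = (en G μ₁ + en G μ₂ + 2 ∑ u, μ₁ u * ms μ₂ (nb G u)) / 4`, where the two cross sums are
equal because adjacency is symmetric (write `ms μ (nb G u) = ∑ w, if G.Adj u w then μ w else 0`
and `Finset.sum_comm`), and the cross sum is at most `ε` as `μ₁` lives on `A`. -/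
theorem wmx (G : SimpleGraph V) (A C U : Finset V) (μ₁ μ₂ : V → ℝ) (δ : ℝ)
    (h1 : Wt μ₁ A δ) (h2 : Wt μ₂ C δ) (δ1 : ℝ) (hδ : 0 < δ) (hAU : A ⊆ U) (hCU : C ⊆ U)
    (hA : δ1 * U.card ≤ A.card) (hC : δ1 * U.card ≤ C.card) (x ε : ℝ)
    (hcr : ∀ u ∈ A, ms μ₂ (nb G u) ≤ ε) (he1 : en G μ₁ ≤ x + ε) (he2 : en G μ₂ ≤ x + ε) :
    ∃ μ : V → ℝ, Wt μ U (δ * δ1) ∧ en G μ ≤ x / 2 + ε := by
  have hms : ∀ X : Finset V, ms (fun v => (μ₁ v + μ₂ v) / 2) X = (ms μ₁ X + ms μ₂ X) / 2 := by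
    intro X
    unfold ms
    rw [← Finset.sum_add_distrib, Finset.sum_div]
  have hpt1 : ∀ v, μ₁ v * (δ * δ1 * U.card) ≤ 1 := by
    intro v
    have a1 : δ * δ1 * (U.card : ℝ) ≤ δ * A.card := by
      rw [mul_assoc]
      exact mul_le_mul_of_nonneg_left hA hδ.le
    exact (mul_le_mul_of_nonneg_left a1 (h1.nn v)).trans (h1.pt v)
  have hpt2 : ∀ v, μ₂ v * (δ * δ1 * U.card) ≤ 1 := by
    intro v
    have a1 : δ * δ1 * (U.card : ℝ) ≤ δ * C.card := by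
      rw [mul_assoc]
      exact mul_le_mul_of_nonneg_left hC hδ.le
    exact (mul_le_mul_of_nonneg_left a1 (h2.nn v)).trans (h2.pt v)
  refine ⟨fun v => (μ₁ v + μ₂ v) / 2, ⟨?_, ?_, ?_, ?_⟩, ?_⟩
  · intro v
    have := h1.nn v
    have := h2.nn v
    show (0:ℝ) ≤ (μ₁ v + μ₂ v) / 2
    linarith
  · intro v hv
    show (μ₁ v + μ₂ v) / 2 = 0
    rw [h1.out v (fun h => hv (hAU h)), h2.out v (fun h => hv (hCU h))]
    norm_num
  · have a1 := hms Finset.univ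
    unfold ms at a1
    rw [a1, h1.tot, h2.tot]
    norm_num
  · intro v
    have a1 := hpt1 v
    have a2 := hpt2 v
    show (μ₁ v + μ₂ v) / 2 * (δ * δ1 * U.card) ≤ 1
    have a3 : (μ₁ v + μ₂ v) / 2 * (δ * δ1 * U.card) =
        (μ₁ v * (δ * δ1 * U.card) + μ₂ v * (δ * δ1 * U.card)) / 2 := by ring
    rw [a3]
    linarith
  · have c1 : ∑ u, μ₁ u * ms μ₂ (nb G u) ≤ ε := by
      have b1 : ∀ u ∈ (Finset.univ : Finset V), μ₁ u * ms μ₂ (nb G u) ≤ μ₁ u * ε := by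
        intro u _
        by_cases hu : u ∈ A
        · exact mul_le_mul_of_nonneg_left (hcr u hu) (h1.nn u)
        · rw [h1.out u hu, zero_mul, zero_mul]
      have b2 := Finset.sum_le_sum b1
      rw [← Finset.sum_mul, h1.tot, one_mul] at b2
      exact b2
    have c2 : ∑ u, μ₂ u * ms μ₁ (nb G u) ≤ ε := by
      rw [wmx_sym]
      exact c1
    have c3 : en G (fun v => (μ₁ v + μ₂ v) / 2) =
        (en G μ₁ + en G μ₂ + ∑ u, μ₁ u * ms μ₂ (nb G u) + ∑ u, μ₂ u * ms μ₁ (nb G u)) / 4 := by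
      unfold en
      simp only [hms]
      rw [← Finset.sum_add_distrib, ← Finset.sum_add_distrib, ← Finset.sum_add_distrib,
        Finset.sum_div]
      refine Finset.sum_congr rfl (fun u _ => ?_)
      ring
    rw [c3]
    linarith
-- END wmx

-- BEGIN wcr
/-- The cross bound. Hint: `ms μ (nb G u) = ms μ (nb G u ∩ C) ≤ |nb G u ∩ C| / (δ |C|)`. -/
theorem wcr (G : SimpleGraph V) (C : Finset V) (hC : C.Nonempty) (μ : V → ℝ) (δ : ℝ)
    (hδ : 0 < δ) (h : Wt μ C δ) (u : V) (ε ε0 : ℝ) (hε : ε0 ≤ ε * δ)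
    (hu : ((nb G u ∩ C).card : ℝ) ≤ ε0 * C.card) : ms μ (nb G u) ≤ ε := by
  have hc : (0 : ℝ) < C.card := by exact_mod_cast hC.card_pos
  have h1 : ms μ (nb G u) = ms μ (nb G u ∩ C) := by
    unfold ms
    refine (Finset.sum_subset Finset.inter_subset_left fun v hv hvC => ?_).symm
    exact h.out v fun h2 => hvC (Finset.mem_inter.2 ⟨hv, h2⟩)
  have h2 : ms μ (nb G u ∩ C) * (δ * C.card) ≤ (nb G u ∩ C).card := by
    unfold ms
    rw [Finset.sum_mul]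
    calc ∑ v ∈ nb G u ∩ C, μ v * (δ * C.card) ≤ ∑ _v ∈ nb G u ∩ C, (1 : ℝ) :=
          Finset.sum_le_sum fun v _ => h.pt v
      _ = (nb G u ∩ C).card := by rw [Finset.sum_const, nsmul_eq_mul, mul_one]
  rw [h1]
  have h3 : ms μ (nb G u ∩ C) * (δ * C.card) ≤ ε * (δ * C.card) := by
    refine (h2.trans hu).trans ?_
    calc ε0 * C.card ≤ ε * δ * C.card := mul_le_mul_of_nonneg_right hε hc.le
      _ = ε * (δ * C.card) := by ring
  exact le_of_mul_le_mul_right h3 (mul_pos hδ hc)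
-- END wcr

/-- the statement proved by induction on `a`, `b` -/
def Qab (h : ℕ) (H : SimpleGraph (Fin h)) (ε : ℝ) (a b : ℕ) : Prop :=
  ∃ δ : ℝ, 0 < δ ∧ δ ≤ 1 ∧ ∀ (V : Type) [Fintype V] [DecidableEq V] (G : SimpleGraph V),
    IsEmpty (H ↪g G) → ∀ U : Finset V, U.Nonempty →
    ∃ μ : V → ℝ, Wt μ U δ ∧ (en G μ ≤ (1 / 2) ^ a + ε ∨ en Gᶜ μ ≤ (1 / 2) ^ b + ε)

-- BEGIN wst
theorem wst_dense (G : SimpleGraph V) (C : Finset V) (v : V) (hv : v ∉ C) :
    nb Gᶜ v ∩ C = C \ nb G v := by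
  ext u
  rw [Finset.mem_inter, Finset.mem_sdiff, mem_nb, mem_nb, SimpleGraph.compl_adj]
  constructor
  · rintro ⟨⟨_, h2⟩, h3⟩
    exact ⟨h3, h2⟩
  · rintro ⟨h1, h2⟩
    refine ⟨⟨?_, h2⟩, h1⟩
    intro he
    exact hv (he ▸ h1)

/-- The induction step. Hint: let `δa`, `δb` be the constants of the two hypotheses,
`δ' = min δa δb`, `ε0 = ε * δ'`, `δ1` from `pex` for `ε0`; `δ = δ' * δ1`. If `U.card = 1` use
`wun`. Otherwise `pex` gives `A`, `C`. Sparse case: the hypothesis `ha` for `C` and for `A`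
(measures `μ₂`, `μ₁`; `wmo` to pass to `δ'`); if one of them has
`en Gᶜ μ ≤ (1/2)^(b+1) + ε` it is as wanted (`wmo`); otherwise
`wmx` with `x = (1/2)^a` and `wcr`. Dense case: the same with `hb`, and with `Gᶜ` instead of `G`:
for `v ∈ A`, `nb Gᶜ v ∩ C = C \ nb G v` since `v ∉ C`. -/
theorem wst (h : ℕ) (hh : 1 ≤ h) (H : SimpleGraph (Fin h)) (ε : ℝ) (hε : 0 < ε) (hε1 : ε ≤ 1)
    (a b : ℕ) (ha : Qab h H ε a (b + 1)) (hb : Qab h H ε (a + 1) b) :
    Qab h H ε (a + 1) (b + 1) := by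
  obtain ⟨δa, ha0, ha1, ha⟩ := ha
  obtain ⟨δb, hb0, hb1, hb⟩ := hb
  obtain ⟨δ', hδ'0, hδ'a, hδ'b⟩ : ∃ δ' : ℝ, 0 < δ' ∧ δ' ≤ δa ∧ δ' ≤ δb :=
    ⟨min δa δb, lt_min ha0 hb0, min_le_left _ _, min_le_right _ _⟩
  have h1 : δ' ≤ 1 := le_trans hδ'a ha1
  have hεδ : ε * δ' ≤ 1 := by
    calc ε * δ' ≤ 1 * 1 := mul_le_mul hε1 h1 hδ'0.le zero_le_one
      _ = 1 := one_mul 1
  obtain ⟨δ1, hd0, hd1, hp⟩ := pex h hh H (ε * δ') (mul_pos hε hδ'0) hεδ
  have hδ1 : δ' * δ1 ≤ 1 := by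
    calc δ' * δ1 ≤ 1 * 1 := mul_le_mul h1 hd1 hd0.le zero_le_one
      _ = 1 := one_mul 1
  refine ⟨δ' * δ1, mul_pos hδ'0 hd0, hδ1, ?_⟩
  intro V _ _ G hG U hU
  rcases Nat.lt_or_ge U.card 2 with hc | hc
  · have hc1 : U.card = 1 := by
      have := hU.card_pos
      omega
    obtain ⟨μ, hμ, he⟩ := wun U hU
    refine ⟨μ, wmo μ U U 1 1 _ hμ (Finset.Subset.refl _) one_pos (by simp)
      (by simpa using hδ1), Or.inl ?_⟩
    rw [he hc1 G]
    positivity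
  · obtain ⟨A, C, hAU, hCU, hAC, hAn, hCn, hA, hC, hs⟩ := hp V G hG U hc
    rcases hs with hs | hs
    · obtain ⟨μ2, w2, e2⟩ := ha V G hG C hCn
      obtain ⟨μ1, w1, e1⟩ := ha V G hG A hAn
      have w2' : Wt μ2 C δ' := wmo μ2 C C δa 1 δ' w2 (Finset.Subset.refl _) ha0 (by simp)
        (by rw [mul_one]; exact hδ'a)
      have w1' : Wt μ1 A δ' := wmo μ1 A A δa 1 δ' w1 (Finset.Subset.refl _) ha0 (by simp)
        (by rw [mul_one]; exact hδ'a)
      rcases e2 with e2 | e2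
      · rcases e1 with e1 | e1
        · obtain ⟨μ, hw, he⟩ := wmx G A C U μ1 μ2 δ' w1' w2' δ1 hδ'0 hAU hCU hA hC
            ((1 / 2) ^ a) ε (fun u hu => wcr G C hCn μ2 δ' hδ'0 w2' u ε (ε * δ') le_rfl
              (hs u hu)) e1 e2
          refine ⟨μ, hw, Or.inl ?_⟩
          rw [pow_succ]
          linarith
        · exact ⟨μ1, wmo μ1 A U δ' δ1 _ w1' hAU hδ'0 hA le_rfl, Or.inr e1⟩
      · exact ⟨μ2, wmo μ2 C U δ' δ1 _ w2' hCU hδ'0 hC le_rfl, Or.inr e2⟩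
    · obtain ⟨μ2, w2, e2⟩ := hb V G hG C hCn
      obtain ⟨μ1, w1, e1⟩ := hb V G hG A hAn
      have w2' : Wt μ2 C δ' := wmo μ2 C C δb 1 δ' w2 (Finset.Subset.refl _) hb0 (by simp)
        (by rw [mul_one]; exact hδ'b)
      have w1' : Wt μ1 A δ' := wmo μ1 A A δb 1 δ' w1 (Finset.Subset.refl _) hb0 (by simp)
        (by rw [mul_one]; exact hδ'b)
      rcases e2 with e2 | e2
      · exact ⟨μ2, wmo μ2 C U δ' δ1 _ w2' hCU hδ'0 hC le_rfl, Or.inl e2⟩
      · rcases e1 with e1 | e1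
        · exact ⟨μ1, wmo μ1 A U δ' δ1 _ w1' hAU hδ'0 hA le_rfl, Or.inl e1⟩
        · obtain ⟨μ, hw, he⟩ := wmx Gᶜ A C U μ1 μ2 δ' w1' w2' δ1 hδ'0 hAU hCU hA hC
            ((1 / 2) ^ b) ε (fun u hu => wcr Gᶜ C hCn μ2 δ' hδ'0 w2' u ε (ε * δ') le_rfl
              (by
                rw [wst_dense G C u (Finset.disjoint_left.1 hAC hu)]
                exact hs u hu)) e1 e2
          refine ⟨μ, hw, Or.inr ?_⟩
          rw [pow_succ]
          linarith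
-- END wst

-- BEGIN wal
/-- Hint: `Qab h H ε 0 b` and `Qab h H ε a 0` by `wun`, `wle`; then `wst` by induction on `a`,
inside it on `b`. -/
theorem wal (h : ℕ) (hh : 1 ≤ h) (H : SimpleGraph (Fin h)) (ε : ℝ) (hε : 0 < ε) (hε1 : ε ≤ 1)
    (a b : ℕ) : Qab h H ε a b := by
  have h0 : ∀ b, Qab h H ε 0 b := by
    intro b
    refine ⟨1, one_pos, le_rfl, fun V _ _ G _ U hU => ?_⟩
    obtain ⟨μ, hμ, -⟩ := wun U hU
    refine ⟨μ, hμ, Or.inl ?_⟩
    have := wle G μ U 1 hμ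
    rw [pow_zero]
    linarith
  have h1 : ∀ a, Qab h H ε a 0 := by
    intro a
    refine ⟨1, one_pos, le_rfl, fun V _ _ G _ U hU => ?_⟩
    obtain ⟨μ, hμ, -⟩ := wun U hU
    refine ⟨μ, hμ, Or.inr ?_⟩
    have := wle Gᶜ μ U 1 hμ
    rw [pow_zero]
    linarith
  induction a generalizing b with
  | zero => exact h0 b
  | succ a iha =>
    induction b with
    | zero => exact h1 (a + 1)
    | succ b ihb => exact wst h hh H ε hε hε1 a b (iha (b + 1)) ihb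
-- END wal

-- BEGIN wfi
/-- Hint: `ε = min (d/2) 1`, `a = b` with `(1/2)^a ≤ d/2` (`exists_pow_lt_of_lt_one`), `wal`. -/
theorem wfi (h : ℕ) (hh : 1 ≤ h) (H : SimpleGraph (Fin h)) (d : ℝ) (hd : 0 < d) :
    ∃ δ : ℝ, 0 < δ ∧ δ ≤ 1 ∧ ∀ (V : Type) [Fintype V] [DecidableEq V] (G : SimpleGraph V),
      IsEmpty (H ↪g G) → ∀ U : Finset V, U.Nonempty →
      ∃ μ : V → ℝ, Wt μ U δ ∧ (en G μ ≤ d ∨ en Gᶜ μ ≤ d) := by
  obtain ⟨a, ha⟩ := exists_pow_lt_of_lt_one (half_pos hd) (by norm_num : (1 / 2 : ℝ) < 1)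
  have hε : 0 < min (d / 2) 1 := lt_min (half_pos hd) one_pos
  obtain ⟨δ, h1, h2, h3⟩ := wal h hh H (min (d / 2) 1) hε (min_le_right _ _) a a
  refine ⟨δ, h1, h2, fun V _ _ G hG U hU => ?_⟩
  obtain ⟨μ, hμ, h4⟩ := h3 V G hG U hU
  have h5 : (1 / 2 : ℝ) ^ a + min (d / 2) 1 ≤ d := by
    have := min_le_left (d / 2) (1 : ℝ)
    linarith
  exact ⟨μ, hμ, h4.imp (fun h => h.trans h5) (fun h => h.trans h5)⟩
-- END wfi

end Pool.Agent.Xbh
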